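import Mathlib

/-!
# A non-additive brachymorphism on a commutative non-associative ring

`V` is the free commutative non-associative algebra (without unit) over the field with two elements
on two generators; a basis is indexed by the natural numbers, with `e_i e_j = e_{c(i,j)}`.
`R` is the unitization of `V`. We construct a function `δ : V → 𝔽₂` such that
`δ(αw + βv + vw) = αδ(w) + βδ(v)` for all `v, w ∈ V`, `α, β ∈ 𝔽₂` and `δ(e₀ + e₁) = 1`,
`δ(e₀) = δ(e₁) = 0`. Then `α + v ↦ α + δ(v)ε` is a brachymorphism to the dual numbers.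
-/

set_option autoImplicit false

namespace Pool.Agent.R699.Brachy

/-- the product of basis elements, in terms of the indices -/
def c (i j : ℕ) : ℕ := max i j ^ 2 + min i j + 2

lemma c_comm (i j : ℕ) : c i j = c j i := by rw [c, c, max_comm, min_comm]

lemma c_of_le {i j : ℕ} (h : i ≤ j) : c i j = j ^ 2 + i + 2 := by
  rw [c, max_eq_right h, min_eq_left h]

lemma lt_c_left (i j : ℕ) : i < c i j := by
  have h1 : i ≤ max i j := le_max_left i j
  have h2 : max i j ≤ max i j ^ 2 := Nat.le_self_pow (by norm_num) _
  unfold c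
  omega

lemma lt_c_right (i j : ℕ) : j < c i j := by rw [c_comm]; exact lt_c_left j i

lemma c_lt_c_of_lt {i j k l : ℕ} (hij : i ≤ j) (hkl : k ≤ l) (h : j < l) : c i j < c k l := by
  rw [c_of_le hij, c_of_le hkl]
  have : (j + 1) ^ 2 ≤ l ^ 2 := Nat.pow_le_pow_left h 2
  nlinarith

lemma c_inj {i j k l : ℕ} (hij : i ≤ j) (hkl : k ≤ l) (h : c i j = c k l) : i = k ∧ j = l := by
  have hjl : j = l := by
    rcases lt_trichotomy j l with h1 | h1 | h1
    · exact absurd h (c_lt_c_of_lt hij hkl h1).ne
    · exact h1
    · exact absurd h (c_lt_c_of_lt hkl hij h1).ne'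
  subst hjl
  rw [c_of_le hij, c_of_le hkl] at h
  exact ⟨by omega, rfl⟩

/-- the magma of the indices -/
def M : Type := ℕ

instance : Mul M := ⟨fun i j => c i j⟩
instance : DecidableEq M := inferInstanceAs (DecidableEq ℕ)

/-- the free commutative non-associative algebra on two generators over the field with two
elements -/
abbrev V : Type := MonoidAlgebra (ZMod 2) M

/-- coefficients -/
def ev (v : V) (n : ℕ) : ZMod 2 := v.coeff (show M from n)

@[ext] lemma V.ext' {v w : V} (h : ∀ n, ev v n = ev w n) : v = w := by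
  apply MonoidAlgebra.coeff_injective
  ext n
  exact h n

@[simp] lemma ev_zero (n : ℕ) : ev 0 n = 0 := rfl
@[simp] lemma ev_add (v w : V) (n : ℕ) : ev (v + w) n = ev v n + ev w n := rfl
@[simp] lemma ev_smul (a : ZMod 2) (v : V) (n : ℕ) : ev (a • v) n = a * ev v n := rfl

lemma ev_mul_of_lt (v w : V) {i j : ℕ} (h : i < j) :
    ev (v * w) (c i j) = ev v i * ev w j + ev v j * ev w i := by
  have h1 := MonoidAlgebra.coeff_mul_antidiag v w (show M from c i j)
    {((show M from i), (show M from j)), ((show M from j), (show M from i))} (by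
      rintro ⟨k, l⟩
      rw [Finset.mem_insert, Finset.mem_singleton]
      constructor
      · rintro (h1 | h1)
        · rw [Prod.mk.injEq] at h1
          rw [h1.1, h1.2]
          rfl
        · rw [Prod.mk.injEq] at h1
          rw [h1.1, h1.2]
          exact c_comm j i
      · intro h1
        have h2 : c k l = c i j := h1
        rcases @le_total ℕ _ k l with h3 | h3
        · left
          obtain ⟨h4, h5⟩ := c_inj h3 h.le h2
          rw [Prod.mk.injEq]
          exact ⟨h4, h5⟩
        · right
          rw [c_comm k l] at h2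
          obtain ⟨h4, h5⟩ := c_inj h3 h.le h2
          rw [Prod.mk.injEq]
          exact ⟨h5, h4⟩)
  rw [Finset.sum_pair] at h1
  · exact h1
  · intro h2
    rw [Prod.mk.injEq] at h2
    exact h.ne h2.1

lemma ev_mul_self (v w : V) (i : ℕ) : ev (v * w) (c i i) = ev v i * ev w i := by
  have h1 := MonoidAlgebra.coeff_mul_antidiag v w (show M from c i i)
    {((show M from i), (show M from i))} (by
      rintro ⟨k, l⟩
      rw [Finset.mem_singleton]
      constructor
      · intro h1
        rw [Prod.mk.injEq] at h1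
        rw [h1.1, h1.2]
        rfl
      · intro h1
        have h2 : c k l = c i i := h1
        rcases @le_total ℕ _ k l with h3 | h3
        · obtain ⟨h4, h5⟩ := c_inj h3 le_rfl h2
          rw [Prod.mk.injEq]
          exact ⟨h4, h5⟩
        · rw [c_comm k l] at h2
          obtain ⟨h4, h5⟩ := c_inj h3 le_rfl h2
          rw [Prod.mk.injEq]
          exact ⟨h5, h4⟩)
  rw [Finset.sum_singleton] at h1
  exact h1

lemma ev_mul_of_notMem (v w : V) {n : ℕ} (h : ∀ i j, c i j ≠ n) : ev (v * w) n = 0 := by
  have h1 := MonoidAlgebra.coeff_mul_antidiag v w (show M from n) ∅ (by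
      rintro ⟨k, l⟩
      constructor
      · intro h1
        exact absurd h1 (Finset.notMem_empty _)
      · intro h1
        exact absurd h1 (h k l))
  rw [Finset.sum_empty] at h1
  exact h1

lemma V_comm (v w : V) : v * w = w * v := by
  ext n
  by_cases h : ∃ i j, i ≤ j ∧ c i j = n
  · obtain ⟨i, j, h1, rfl⟩ := h
    rcases h1.lt_or_eq with h2 | rfl
    · rw [ev_mul_of_lt _ _ h2, ev_mul_of_lt _ _ h2]
      ring
    · rw [ev_mul_self, ev_mul_self, mul_comm]
  · have h' : ∀ i j, c i j ≠ n := by
      intro i j hij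
      rcases le_total i j with h1 | h1
      · exact h ⟨i, j, h1, hij⟩
      · exact h ⟨j, i, h1, by rw [c_comm]; exact hij⟩
    rw [ev_mul_of_notMem _ _ h', ev_mul_of_notMem _ _ h']

/-! ### Leading terms -/

lemma zmod_cases (x : ZMod 2) : x = 0 ∨ x = 1 := by
  revert x
  decide

lemma add_self' (v : V) : v + v = 0 := by
  ext n
  rw [ev_add, ev_zero]
  rcases zmod_cases (ev v n) with h | h <;> rw [h] <;> decide

/-- `a` is the largest index of a basis element occurring in `v` -/
def Top (v : V) (a : ℕ) : Prop := ev v a = 1 ∧ ∀ i, a < i → ev v i = 0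

lemma exists_top {v : V} (hv : v ≠ 0) : ∃ a, Top v a := by
  have hne : v.coeff.support.Nonempty := by
    rw [Finsupp.support_nonempty_iff]
    intro h
    exact hv (MonoidAlgebra.coeff_injective h)
  let s : Finset ℕ := v.coeff.support
  have hs : s.Nonempty := hne
  refine ⟨s.max' hs, ?_, ?_⟩
  · have h1 : s.max' hs ∈ s := s.max'_mem hs
    have h2 : ev v (s.max' hs) ≠ 0 := Finsupp.mem_support_iff.1 h1
    rcases zmod_cases (ev v (s.max' hs)) with h | h
    · exact absurd h h2
    · exact h
  · intro i hi
    by_contra hcon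
    have h1 : i ∈ s := Finsupp.mem_support_iff.2 hcon
    exact absurd (s.le_max' i h1) (by omega)

lemma Top.ne_zero {v : V} {a : ℕ} (h : Top v a) : v ≠ 0 := by
  rintro rfl
  exact absurd h.1 (by rw [ev_zero]; decide)

lemma Top.unique {v : V} {a b : ℕ} (h : Top v a) (h' : Top v b) : a = b := by
  rcases lt_trichotomy a b with h1 | h1 | h1
  · have := h.2 b h1
    rw [h'.1] at this
    exact absurd this (by decide)
  · exact h1
  · have := h'.2 a h1
    rw [h.1] at this
    exact absurd this (by decide)

/-- the element `αw + βv + vw` -/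
noncomputable def comb (α β : ZMod 2) (v w : V) : V := α • w + β • v + v * w

lemma comb_comm (α β : ZMod 2) (v w : V) : comb α β v w = comb β α w v := by
  rw [comb, comb, V_comm v w, add_comm (α • w)]

lemma ev_comb_of_lt (α β : ZMod 2) {v w : V} {a b : ℕ} (hv : Top v a) (hw : Top w b)
    (hba : b ≤ a) {i : ℕ} (hi : i < a) :
    ev (comb α β v w) (c i a) = ev v i * ev w a + ev w i := by
  have h1 : a < c i a := lt_c_right i a
  rw [comb, ev_add, ev_add, ev_smul, ev_smul, hw.2 _ (by omega), hv.2 _ h1, ev_mul_of_lt _ _ hi,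
    hv.1]
  ring

lemma comb_top_aux (α β : ZMod 2) {v w : V} {a b : ℕ} (hv : Top v a) (hw : Top w b)
    (hba : b ≤ a) : Top (comb α β v w) (c a b) := by
  have h1 : a < c a b := lt_c_left a b
  constructor
  · rcases hba.lt_or_eq with h | rfl
    · rw [c_comm, ev_comb_of_lt α β hv hw hba h, hw.1, hw.2 a h]
      ring
    · rw [comb, ev_add, ev_add, ev_smul, ev_smul, hw.2 _ h1, hv.2 _ h1, ev_mul_self, hv.1, hw.1]
      ring
  · intro n hn
    rw [comb, ev_add, ev_add, ev_smul, ev_smul, hw.2 _ (by omega), hv.2 _ (by omega)]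
    suffices ev (v * w) n = 0 by rw [this]; ring
    by_cases h : ∃ i j, i ≤ j ∧ c i j = n
    · obtain ⟨i, j, hij, rfl⟩ := h
      -- either `a < j` or `a = j` and `b < i`
      have h3 : a < j ∨ (a = j ∧ b < i) := by
        rcases lt_trichotomy a j with h4 | h4 | h4
        · exact Or.inl h4
        · right
          refine ⟨h4, ?_⟩
          subst h4
          rw [c_comm a b, c_of_le hba, c_of_le hij] at hn
          omega
        · exfalso
          have := c_lt_c_of_lt hij hba h4
          rw [c_comm a b] at hn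
          omega
      rcases hij.lt_or_eq with h2 | rfl
      · rw [ev_mul_of_lt _ _ h2]
        rcases h3 with h3 | ⟨rfl, h3⟩
        · rw [hv.2 j h3, hw.2 j (by omega)]
          ring
        · rw [hw.2 a (by omega), hw.2 i h3]
          ring
      · rw [ev_mul_self]
        rcases h3 with h3 | ⟨rfl, h3⟩
        · rw [hv.2 _ h3]
          ring
        · rw [hw.2 _ h3]
          ring
    · apply ev_mul_of_notMem
      intro i j hij
      rcases le_total i j with h1 | h1
      · exact h ⟨i, j, h1, hij⟩
      · exact h ⟨j, i, h1, by rw [c_comm]; exact hij⟩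

lemma comb_top (α β : ZMod 2) {v w : V} {a b : ℕ} (hv : Top v a) (hw : Top w b) :
    Top (comb α β v w) (c a b) := by
  rcases le_total b a with h | h
  · exact comb_top_aux α β hv hw h
  · rw [comb_comm, c_comm]
    exact comb_top_aux β α hw hv h

lemma comb_ne_zero (α β : ZMod 2) {v w : V} (hv : v ≠ 0) (hw : w ≠ 0) : comb α β v w ≠ 0 := by
  obtain ⟨a, ha⟩ := exists_top hv
  obtain ⟨b, hb⟩ := exists_top hw
  exact (comb_top α β ha hb).ne_zero

/-! ### The key lemma -/

/-- the rule which is to be satisfied by `δ` at `u` -/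
def Good (δ : V → ZMod 2) (u : V) : Prop :=
  ∀ (α β : ZMod 2) (v w : V), v ≠ 0 → w ≠ 0 → u = comb α β v w → δ u = α * δ w + β * δ v

lemma smul_eq_or (s : ZMod 2) (v : V) : s • v = 0 ∧ s = 0 ∨ s • v = v ∧ s = 1 := by
  rcases zmod_cases s with h | h
  · left; rw [h, zero_smul]; exact ⟨rfl, rfl⟩
  · right; rw [h, one_smul]; exact ⟨rfl, rfl⟩

lemma key_lt (δ : V → ZMod 2) {α β α' β' : ZMod 2} {v w v' w' : V} {a b : ℕ}
    (hv : Top v a) (hw : Top w b) (hv' : Top v' a) (hw' : Top w' b) (hba : b < a)
    (hG : ∀ x, Top x a → Good δ x) (h : comb α β v w = comb α' β' v' w') :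
    α * δ w + β * δ v = α' * δ w' + β' * δ v' := by
  have hww : w = w' := by
    ext i
    by_cases hi : i < a
    · have h1 : ev (comb α β v w) (c i a) = ev (comb α' β' v' w') (c i a) := by rw [h]
      rw [ev_comb_of_lt α β hv hw hba.le hi, ev_comb_of_lt α' β' hv' hw' hba.le hi, hw.2 a hba,
        hw'.2 a hba] at h1
      simpa using h1
    · rw [hw.2 i (by omega), hw'.2 i (by omega)]
  subst hww
  obtain ⟨p, hp⟩ : ∃ p, p = v + v' := ⟨_, rfl⟩
  have hv'p : v' = v + p := by rw [hp, ← add_assoc, add_self', zero_add]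
  have h2 : (α + α') • w + (β + β') • v + β' • p + p * w = 0 := by
    have h3 : comb α β v w + comb α' β' v' w = 0 := by rw [h, add_self']
    rw [comb, comb, hv'p] at h3
    have h4 : (α + α') • w + (β + β') • v + β' • p + p * w + (v * w + v * w) = 0 := by
      rw [← h3, add_mul]
      module
    rwa [add_self', add_zero] at h4
  by_cases hp0 : p = 0
  · have hvv : v' = v := by rw [hv'p, hp0, add_zero]
    rw [hvv]
    rw [hp0, smul_zero, zero_mul, add_zero, add_zero] at h2
    have h5 : β + β' = 0 := by
      have := congrArg (fun u => ev u a) h2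
      simp only [ev_add, ev_smul, hw.2 a hba, hv.1, ev_zero] at this
      simpa using this
    have h6 : α + α' = 0 := by
      rw [h5, zero_smul, add_zero] at h2
      have := congrArg (fun u => ev u b) h2
      simp only [ev_smul, hw.1, ev_zero] at this
      simpa using this
    clear * - h5 h6
    generalize δ w = x
    generalize δ v = y
    revert α β α' β' x y
    decide
  · have hs : β + β' = 1 := by
      rcases smul_eq_or (β + β') v with ⟨h3, h4⟩ | ⟨h3, h4⟩
      · exfalso
        rw [h3, add_zero] at h2
        exact comb_ne_zero (α + α') β' hp0 hw.ne_zero h2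
      · exact h4
    rw [hs, one_smul] at h2
    have e1 : v = comb (α + α') β' p w := by
      have : v + comb (α + α') β' p w = 0 := by
        rw [← h2, comb]
        abel
      calc v = v + (comb (α + α') β' p w + comb (α + α') β' p w) := by rw [add_self', add_zero]
        _ = v + comb (α + α') β' p w + comb (α + α') β' p w := by rw [add_assoc]
        _ = _ := by rw [this, zero_add]
    have e2 : v' = comb (α + α') (β' + 1) p w := by
      rw [hv'p]
      nth_rw 1 [e1]
      rw [comb, comb, add_smul β' 1 p, one_smul]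
      abel
    have d1 := hG v hv _ _ _ _ hp0 hw.ne_zero e1
    have d2 := hG v' hv' _ _ _ _ hp0 hw.ne_zero e2
    rw [d1, d2]
    clear * - hs
    generalize δ w = x
    generalize δ p = y
    revert α β α' β' x y
    decide

lemma key_eq (δ : V → ZMod 2) {α β α' β' : ZMod 2} {v w v' w' : V} {a : ℕ}
    (hv : Top v a) (hw : Top w a) (hv' : Top v' a) (hw' : Top w' a)
    (hG : ∀ x, Top x a → Good δ x) (h : comb α β v w = comb α' β' v' w') :
    α * δ w + β * δ v = α' * δ w' + β' * δ v' := by
  have hsum : v + w = v' + w' := by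
    ext i
    rw [ev_add, ev_add]
    rcases lt_trichotomy i a with hi | hi | hi
    · have h1 : ev (comb α β v w) (c i a) = ev (comb α' β' v' w') (c i a) := by rw [h]
      rw [ev_comb_of_lt α β hv hw le_rfl hi, ev_comb_of_lt α' β' hv' hw' le_rfl hi, hw.1,
        hw'.1] at h1
      simpa using h1
    · rw [hi, hv.1, hw.1, hv'.1, hw'.1]
    · rw [hv.2 i hi, hw.2 i hi, hv'.2 i hi, hw'.2 i hi]
  obtain ⟨p, hp⟩ : ∃ p, p = v + v' := ⟨_, rfl⟩
  obtain ⟨r, hr⟩ : ∃ r, r = v + w' := ⟨_, rfl⟩
  have hv'p : v' = v + p := by rw [hp, ← add_assoc, add_self', zero_add]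
  have hw'r : w' = v + r := by rw [hr, ← add_assoc, add_self', zero_add]
  have hwpr : w = v + p + r := by
    calc w = v + (v + w) := by rw [← add_assoc, add_self', zero_add]
      _ = v + (v + p + (v + r)) := by rw [hsum, ← hv'p, ← hw'r]
      _ = (v + v) + (v + p + r) := by abel
      _ = _ := by rw [add_self', zero_add]
  have hpa : ev p a = 0 := by rw [hp, ev_add, hv.1, hv'.1]; decide
  have hra : ev r a = 0 := by rw [hr, ev_add, hv.1, hw'.1]; decide
  have h2 : (α + β + α' + β') • v + (α + β') • p + (α + α') • r + p * r = 0 := by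
    have h3 : comb α β v w + comb α' β' v' w' = 0 := by rw [h, add_self']
    rw [comb, comb, hv'p, hw'r, hwpr] at h3
    have h4 : (α + β + α' + β') • v + (α + β') • p + (α + α') • r + p * r +
        (v * v + v * v) + (v * r + v * r) + (v * p + p * v) = 0 := by
      rw [← h3, mul_add, mul_add, add_mul, mul_add, mul_add]
      module
    rwa [add_self', add_self', V_comm p v, add_self', add_zero, add_zero, add_zero] at h4
  by_cases hp0 : p = 0
  · have hvv : v' = v := by rw [hv'p, hp0, add_zero]
    have hww : w' = w := by rw [hw'r, hwpr, hp0, add_zero]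
    rw [hvv, hww]
    rw [hp0, smul_zero, zero_mul, add_zero, add_zero] at h2
    have h5 : α + β + α' + β' = 0 := by
      have := congrArg (fun u => ev u a) h2
      simp only [ev_add, ev_smul, hra, hv.1, ev_zero] at this
      simpa using this
    rw [h5, zero_smul, zero_add] at h2
    rcases smul_eq_or (α + α') r with ⟨_, h7⟩ | ⟨h6, h7⟩
    · clear * - h5 h7
      generalize δ w = x
      generalize δ v = y
      revert α β α' β' x y
      decide
    · rw [h6] at h2
      have hvw : w = v := by rw [hwpr, hp0, h2, add_zero, add_zero]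
      rw [hvw]
      clear * - h5
      generalize δ v = y
      revert α β α' β' y
      decide
  by_cases hr0 : r = 0
  · have hvv : w' = v := by rw [hw'r, hr0, add_zero]
    have hww : v' = w := by rw [hv'p, hwpr, hr0, add_zero]
    rw [hvv, hww]
    rw [hr0, smul_zero, mul_zero, add_zero, add_zero] at h2
    have h5 : α + β + α' + β' = 0 := by
      have := congrArg (fun u => ev u a) h2
      simp only [ev_add, ev_smul, hpa, hv.1, ev_zero] at this
      simpa using this
    rw [h5, zero_smul, zero_add] at h2
    rcases smul_eq_or (α + β') p with ⟨_, h7⟩ | ⟨h6, _⟩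
    · clear * - h5 h7
      generalize δ w = x
      generalize δ v = y
      revert α β α' β' x y
      decide
    · rw [h6] at h2
      exact absurd h2 hp0
  · have hs : α + β + α' + β' = 1 := by
      rcases smul_eq_or (α + β + α' + β') v with ⟨h3, h4⟩ | ⟨h3, h4⟩
      · exfalso
        rw [h3, zero_add] at h2
        refine comb_ne_zero (α + α') (α + β') hp0 hr0 ?_
        rw [comb, add_comm ((α + α') • r)]
        exact h2
      · exact h4
    rw [hs, one_smul] at h2
    have e1 : v = comb (α + α') (α + β') p r := by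
      have : v + comb (α + α') (α + β') p r = 0 := by
        rw [← h2, comb]
        abel
      calc v = v + (comb (α + α') (α + β') p r + comb (α + α') (α + β') p r) := by
            rw [add_self', add_zero]
        _ = v + comb (α + α') (α + β') p r + comb (α + α') (α + β') p r := by rw [add_assoc]
        _ = _ := by rw [this, zero_add]
    have e2 : v' = comb (α + α') (α + β' + 1) p r := by
      rw [hv'p]
      nth_rw 1 [e1]
      rw [comb, comb, add_smul (α + β') 1 p, one_smul]
      abel
    have e3 : w' = comb (α + α' + 1) (α + β') p r := by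
      rw [hw'r]
      nth_rw 1 [e1]
      rw [comb, comb, add_smul (α + α') 1 r, one_smul]
      abel
    have e4 : w = comb (α + α' + 1) (α + β' + 1) p r := by
      rw [hwpr]
      nth_rw 1 [e1]
      rw [comb, comb, add_smul (α + α') 1 r, one_smul, add_smul (α + β') 1 p, one_smul]
      abel
    have d1 := hG v hv _ _ _ _ hp0 hr0 e1
    have d2 := hG v' hv' _ _ _ _ hp0 hr0 e2
    have d3 := hG w' hw' _ _ _ _ hp0 hr0 e3
    have d4 := hG w hw _ _ _ _ hp0 hr0 e4
    rw [d1, d2, d3, d4]
    clear * - hs
    generalize δ r = x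
    generalize δ p = y
    revert α β α' β' x y
    decide

/-- two decompositions give the same value -/
lemma key_aux (δ : V → ZMod 2) {α β α' β' : ZMod 2} {v w v' w' : V} {a b a' b' : ℕ}
    (hv : Top v a) (hw : Top w b) (hv' : Top v' a') (hw' : Top w' b') (hba : b ≤ a)
    (hba' : b' ≤ a') (hG : ∀ n, n < c a b → ∀ x, Top x n → Good δ x)
    (h : comb α β v w = comb α' β' v' w') :
    α * δ w + β * δ v = α' * δ w' + β' * δ v' := by
  have h1 := (comb_top α β hv hw).unique (h ▸ comb_top α' β' hv' hw')
  rw [c_comm a b, c_comm a' b'] at h1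
  obtain ⟨rfl, rfl⟩ := c_inj hba hba' h1
  have hG' : ∀ x, Top x a → Good δ x := hG a (lt_c_left a b)
  rcases hba.lt_or_eq with h2 | rfl
  · exact key_lt δ hv hw hv' hw' h2 hG' h
  · exact key_eq δ hv hw hv' hw' hG' h

lemma key (δ : V → ZMod 2) {α β α' β' : ZMod 2} {v w v' w' : V} {a b a' b' : ℕ}
    (hv : Top v a) (hw : Top w b) (hv' : Top v' a') (hw' : Top w' b')
    (hG : ∀ n, n < c a b → ∀ x, Top x n → Good δ x)
    (h : comb α β v w = comb α' β' v' w') :
    α * δ w + β * δ v = α' * δ w' + β' * δ v' := by
  rcases le_total b a with h1 | h1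
  · rcases le_total b' a' with h2 | h2
    · exact key_aux δ hv hw hv' hw' h1 h2 hG h
    · rw [comb_comm α' β'] at h
      rw [key_aux δ hv hw hw' hv' h1 h2 hG h, add_comm]
  · rw [comb_comm α β] at h
    rw [c_comm] at hG
    rw [add_comm (α * δ w)]
    rcases le_total b' a' with h2 | h2
    · exact key_aux δ hw hv hv' hw' h1 h2 hG h
    · rw [comb_comm α' β'] at h
      rw [key_aux δ hw hv hw' hv' h1 h2 hG h, add_comm]

/-! ### The function `δ` -/

open Classical in
/-- one more than the largest index, or zero for the zero element -/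
noncomputable def size (u : V) : ℕ := if h : ∃ a, Top u a then h.choose + 1 else 0

lemma Top.size_eq {u : V} {a : ℕ} (h : Top u a) : size u = a + 1 := by
  have h1 : ∃ a, Top u a := ⟨a, h⟩
  rw [size, dif_pos h1, h1.choose_spec.unique h]

/-- decompositions of `u` -/
def IsDec (d : ZMod 2 × ZMod 2 × V × V) (u : V) : Prop :=
  d.2.2.1 ≠ 0 ∧ d.2.2.2 ≠ 0 ∧ u = comb d.1 d.2.1 d.2.2.1 d.2.2.2

lemma IsDec.size_left {d : ZMod 2 × ZMod 2 × V × V} {u : V} (h : IsDec d u) :
    size d.2.2.1 < size u := by
  obtain ⟨h1, h2, rfl⟩ := h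
  obtain ⟨a, ha⟩ := exists_top h1
  obtain ⟨b, hb⟩ := exists_top h2
  rw [(comb_top _ _ ha hb).size_eq, ha.size_eq]
  have := lt_c_left a b
  omega

lemma IsDec.size_right {d : ZMod 2 × ZMod 2 × V × V} {u : V} (h : IsDec d u) :
    size d.2.2.2 < size u := by
  obtain ⟨h1, h2, rfl⟩ := h
  obtain ⟨a, ha⟩ := exists_top h1
  obtain ⟨b, hb⟩ := exists_top h2
  rw [(comb_top _ _ ha hb).size_eq, hb.size_eq]
  have := lt_c_right a b
  omega

/-- the two generators -/
noncomputable def gen (i : ℕ) : V := MonoidAlgebra.single (show M from i) 1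

open Classical in
/-- the function `δ` -/
noncomputable def delta (u : V) : ZMod 2 :=
  if h : ∃ d, IsDec d u then
    h.choose.1 * delta h.choose.2.2.2 + h.choose.2.1 * delta h.choose.2.2.1
  else if u = gen 0 + gen 1 then 1 else 0
termination_by size u
decreasing_by
  · exact h.choose_spec.size_right
  · exact h.choose_spec.size_left

lemma good (n : ℕ) : ∀ u, Top u n → Good delta u := by
  induction n using Nat.strong_induction_on with
  | _ n ih =>
    intro u hu α β v w hv hw huv
    have h : ∃ d, IsDec d u := ⟨(α, β, v, w), hv, hw, huv⟩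
    obtain ⟨a, ha⟩ := exists_top hv
    obtain ⟨b, hb⟩ := exists_top hw
    obtain ⟨h1, h2, h3⟩ := h.choose_spec
    obtain ⟨a', ha'⟩ := exists_top h1
    obtain ⟨b', hb'⟩ := exists_top h2
    rw [delta, dif_pos h]
    have hn : n = c a' b' := by
      have h4 := comb_top h.choose.1 h.choose.2.1 ha' hb'
      rw [← h3] at h4
      exact hu.unique h4
    exact key delta ha' hb' ha hb (fun m hm => ih m (by omega)) (h3.symm.trans huv)

theorem delta_comb (α β : ZMod 2) {v w : V} (hv : v ≠ 0) (hw : w ≠ 0) :
    delta (comb α β v w) = α * delta w + β * delta v := by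
  obtain ⟨a, ha⟩ := exists_top hv
  obtain ⟨b, hb⟩ := exists_top hw
  exact good _ _ (comb_top α β ha hb) α β v w hv hw rfl

lemma no_dec {u : V} (hu : ∀ i, 2 ≤ i → ev u i = 0) : ¬ ∃ d, IsDec d u := by
  rintro ⟨d, h1, h2, h3⟩
  obtain ⟨a, ha⟩ := exists_top h1
  obtain ⟨b, hb⟩ := exists_top h2
  have h4 := comb_top d.1 d.2.1 ha hb
  rw [← h3] at h4
  have h5 := hu (c a b) (by unfold c; omega)
  rw [h4.1] at h5
  exact absurd h5 (by decide)

lemma ev_gen (i j : ℕ) : ev (gen i) j = if i = j then 1 else 0 := by
  change (MonoidAlgebra.single (show M from i) (1 : ZMod 2)).coeff (show M from j) = _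
  rw [MonoidAlgebra.coeff_single, Finsupp.single_apply]
  rfl

lemma delta_zero : delta 0 = 0 := by
  rw [delta, dif_neg (no_dec fun i _ => rfl), if_neg]
  intro h
  have := congrArg (fun u => ev u 0) h
  simp only [ev_zero, ev_add, ev_gen] at this
  exact absurd this (by decide)

lemma delta_gen_zero : delta (gen 0) = 0 := by
  rw [delta, dif_neg (no_dec fun i hi => by rw [ev_gen, if_neg (by omega)]), if_neg]
  intro h
  have := congrArg (fun u => ev u 1) h
  simp only [ev_add, ev_gen] at this
  exact absurd this (by decide)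

lemma delta_gen_one : delta (gen 1) = 0 := by
  rw [delta, dif_neg (no_dec fun i hi => by rw [ev_gen, if_neg (by omega)]), if_neg]
  intro h
  have := congrArg (fun u => ev u 0) h
  simp only [ev_add, ev_gen] at this
  exact absurd this (by decide)

lemma delta_gen_add : delta (gen 0 + gen 1) = 1 := by
  rw [delta, dif_neg (no_dec fun i hi => by
    rw [ev_add, ev_gen, ev_gen, if_neg (by omega), if_neg (by omega), add_zero]), if_pos rfl]

/-! ### The brachymorphism -/

/-- the ring `R` -/
abbrev R : Type := Unitization (ZMod 2) V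

/-- the brachymorphism -/
noncomputable def F (x : R) : DualNumber (ZMod 2) :=
  TrivSqZeroExt.inl x.fst + TrivSqZeroExt.inr (delta x.snd)

lemma F_one_add (x : R) : F (1 + x) = 1 + F x := by
  have h1 : (1 + x).snd = x.snd := by simp
  have h2 : (1 + x).fst = 1 + x.fst := by simp
  rw [F, F, h1, h2, TrivSqZeroExt.inl_add, TrivSqZeroExt.inl_one, add_assoc]

lemma F_mul (x y : R) : F (x * y) = F x * F y := by
  have h1 : (x * y).fst = x.fst * y.fst := by simp
  have h2 : (x * y).snd = comb x.fst y.fst x.snd y.snd := by simp [comb]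
  have h3 : delta (comb x.fst y.fst x.snd y.snd) =
      x.fst * delta y.snd + y.fst * delta x.snd := by
    by_cases hx : x.snd = 0
    · rw [hx, comb, smul_zero, zero_mul, add_zero, add_zero, delta_zero, mul_zero, add_zero]
      rcases smul_eq_or x.fst y.snd with ⟨h, h'⟩ | ⟨h, h'⟩
      · rw [h, h', delta_zero, zero_mul]
      · rw [h, h', one_mul]
    · by_cases hy : y.snd = 0
      · rw [hy, comb, smul_zero, mul_zero, add_zero, zero_add, delta_zero, mul_zero, zero_add]
        rcases smul_eq_or y.fst x.snd with ⟨h, h'⟩ | ⟨h, h'⟩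
        · rw [h, h', delta_zero, zero_mul]
        · rw [h, h', one_mul]
      · exact delta_comb _ _ hx hy
  apply TrivSqZeroExt.ext
  · simp [F, h1]
  · simp [F, h1, h2, h3]
    ring

/-- There are commutative unital non-associative rings `R`, `S` (of characteristic two, `S`
associative) and a non-additive brachymorphism `R → S`. -/
theorem main : ∃ f : R → DualNumber (ZMod 2), (∀ x, f (1 + x) = 1 + f x) ∧
    (∀ x y, f (x * y) = f x * f y) ∧ ∃ x y, f (x + y) ≠ f x + f y := by
  refine ⟨F, F_one_add, F_mul, Unitization.inr (gen 0), Unitization.inr (gen 1), ?_⟩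
  intro h
  have h1 := congrArg TrivSqZeroExt.snd h
  simp [F, delta_gen_zero, delta_gen_one, delta_gen_add] at h1

lemma R_comm (x y : R) : x * y = y * x := by
  apply Unitization.ext
  · simp [mul_comm]
  · simp [V_comm x.snd y.snd, add_comm]

end Pool.Agent.R699.Brachy
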