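import Pool.Agent.R699.ConjKinds

open Cardinal

namespace Pool.R699.Conj

universe u
variable {X Y : Type u}

theorem D_one {α : X ≃. X} {x : X} : D α 1 x ↔ x ∈ dm α 1 := by
  have := @D_nat X α 1 x
  exact_mod_cast this

theorem D_neg_one {α : X ≃. X} {x : X} : D α (-1) x ↔ x ∈ im α 1 := by
  have := @D_neg X α 1 x
  exact_mod_cast this

theorem cyc_disj {α : X ≃. X} {m n : ℕ} {C : Set X} (h : C ∈ cyc α m) (h' : C ∈ cyc α n) :
    m = n := by
  obtain ⟨x, hx, rfl⟩ := mem_cyc.1 h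
  exact Pn_unique hx (comp_mem_cyc.1 h')

theorem Pn_exists {α : X ≃. X} {x : X} (h1 : FI α x) (h2 : BI α x) : ∃ n, Pn α n x := by
  obtain ⟨n, hn⟩ := per_exists α x
  exact ⟨n, h1, h2, hn⟩

theorem len_exists {α : X ≃. X} {x : X} (h : ¬ FI α x) : ∃ m, ∀ k, x ∈ dm α k ↔ k < m := by
  classical
  have hex : ∃ k, x ∉ dm α k := by
    by_contra hcon; push Not at hcon; exact h hcon
  refine ⟨Nat.find hex, fun k => ⟨fun hk => ?_, fun hk => ?_⟩⟩
  · by_contra hcon
    exact Nat.find_spec hex (dm_mono (not_lt.1 hcon) hk)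
  · by_contra hcon
    exact Nat.find_min hex hk hcon

theorem p_back (α : X ≃. X) (β : Y ≃. Y) (H1 : ∀ n, #(cyc α n) ≤ #(cyc β n))
    (H2 : #(rray α) ≤ #(rray β)) (H3 : #(lray α) ≤ #(lray β))
    (H4 : ∀ s t, 1 ≤ s → s < t → #(seg α s t) ≤ #(seg β (s - 1) (t + 1))) [Nonempty Y] :
    ∃ ψ : X → Y, (∀ x, NI α x → Lk α β x (ψ x)) ∧
      ∀ x x', NI α x → NI α x' → Sim β (ψ x) (ψ x') → Sim α x x' := by
  classical
  have e : ∀ n, cyc α n ↪ cyc β n := fun n => Classical.choice (H1 n)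
  obtain ⟨er⟩ := H2
  obtain ⟨el⟩ := H3
  let A := {x // x ∉ im α 1 ∧ x ∈ dm α 1 ∧ ¬ FI α x}
  let B := {y // y ∉ im β 1 ∧ ¬ FI β y}
  choose ρ hρ using fun a : A => len_exists a.2.2.2
  choose σ hσ using fun b : B => len_exists b.2.2
  have hρ2 : ∀ a, 2 ≤ ρ a := fun a => (hρ a 1).1 a.2.2.1
  obtain ⟨f, hf1, hf2⟩ := match_near ρ σ hρ2 (by
    intro i j hi hij
    have h1 : #{a // i ≤ ρ a ∧ ρ a ≤ j} ≤ #(seg α (i - 1) j) := by
      refine Cardinal.mk_le_of_injective (f := fun a : {a // i ≤ ρ a ∧ ρ a ≤ j} =>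
        (⟨a.1.1, a.1.2.1, (hρ _ _).2 (by have := a.2.1; omega),
          fun hh => by have := (hρ _ _).1 hh; have := a.2.2; omega⟩ : seg α (i - 1) j)) ?_
      intro a a' haa
      have := congrArg Subtype.val haa
      exact Subtype.ext (Subtype.ext this)
    have h2 : #(seg β (i - 1 - 1) (j + 1)) ≤ #{b // i - 1 ≤ σ b ∧ σ b ≤ j + 1} := by
      have hn : ∀ y : seg β (i - 1 - 1) (j + 1), ¬ FI β y.1 := fun y hh => y.2.2.2 (hh _)
      refine Cardinal.mk_le_of_injective (f := fun y : seg β (i - 1 - 1) (j + 1) =>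
        (⟨⟨y.1, y.2.1, hn y⟩, by
          have := (hσ ⟨y.1, y.2.1, hn y⟩ (i - 1 - 1)).1 y.2.2.1
          have h3 := mt (hσ ⟨y.1, y.2.1, hn y⟩ (j + 1)).2 y.2.2.2
          omega⟩ : {b // i - 1 ≤ σ b ∧ σ b ≤ j + 1})) ?_
      intro a a' haa
      have := congrArg (fun z => z.1.1) haa
      exact Subtype.ext this
    exact h1.trans ((H4 (i - 1) j (by omega) (by omega)).trans h2))
  let Ψ : X → Y → Prop := fun x y =>
    (∃ n, ∃ hx : comp α x ∈ cyc α n, comp β y = (e n ⟨comp α x, hx⟩).1) ∨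
    (∃ x0 : rray α, Sim α x0.1 x ∧ y = (er x0).1) ∨
    (∃ x0 : lray α, Sim α x0.1 x ∧ y = (el x0).1) ∨
    (∃ a : A, Sim α a.1 x ∧ y = (f a).1)
  have t1 : ∀ x, NI α x → ∃ y, Ψ x y := by
    intro x hx
    by_cases h1 : FI α x <;> by_cases h2 : BI α x
    · obtain ⟨n, hn⟩ := Pn_exists h1 h2
      have h3 : comp α x ∈ cyc α n := comp_mem_cyc.2 hn
      obtain ⟨y, -, hy⟩ := mem_cyc.1 (e n ⟨comp α x, h3⟩).2
      exact ⟨y, Or.inl ⟨n, h3, hy.symm⟩⟩
    · obtain ⟨x0, hx0, hx0'⟩ := init_exists h2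
      exact ⟨_, Or.inr (Or.inl ⟨⟨x0, hx0, FI_sim hx0'.symm h1⟩, hx0', rfl⟩)⟩
    · obtain ⟨x0, hx0, hx0'⟩ := term_exists h1
      exact ⟨_, Or.inr (Or.inr (Or.inl ⟨⟨x0, hx0, BI_sim hx0'.symm h2⟩, hx0', rfl⟩))⟩
    · obtain ⟨x0, hx0, hx0'⟩ := init_exists h2
      have h3 : x0 ∈ dm α 1 := by
        rcases NI_sim hx0'.symm hx with h | h
        · exact D_one.1 h
        · exact absurd (D_neg_one.1 h) hx0
      exact ⟨_, Or.inr (Or.inr (Or.inr ⟨⟨x0, hx0, h3, fun hh => h1 (FI_sim hx0' hh)⟩, hx0', rfl⟩))⟩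
  have t2 : ∀ x y, Ψ x y → Lk α β x y := by
    rintro x y (⟨n, hx, hy⟩ | ⟨x0, hx, rfl⟩ | ⟨x0, hx, rfl⟩ | ⟨a, hx, rfl⟩)
    · have h1 := comp_mem_cyc.1 hx
      have h2 : comp β y ∈ cyc β n := by rw [hy]; exact (e n _).2
      exact Lk_cyc h1 (comp_mem_cyc.1 h2)
    · refine Lk_sim hx (Sim.refl β _) (Lk_init x0.2.1 (er x0).2.1 ?_ ?_)
      · intro k _; exact (er x0).2.2 k
      · intro k _; exact x0.2.2 k
    · exact Lk_sim hx (Sim.refl β _) (Lk_left x0.2 (el x0).2)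
    · have h3 := hf2 a
      refine Lk_sim hx (Sim.refl β _) (Lk_init a.2.1 (f a).2.1 ?_ ?_)
      · intro k hk
        have h1 := (hρ a _).1 hk
        apply (hσ (f a) _).2
        omega
      · intro k hk
        have h1 := (hσ (f a) _).1 hk
        apply (hρ a _).2
        omega
  have t3 : ∀ x x' y y', Ψ x y → Ψ x' y' → Sim β y y' → Sim α x x' := by
    intro x x' y y' hΨ hΨ' hyy
    have f1 : FI β y ↔ FI β y' := ⟨FI_sim hyy, FI_sim hyy.symm⟩
    have b1 : BI β y ↔ BI β y' := ⟨BI_sim hyy, BI_sim hyy.symm⟩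
    have key : ∀ x y, Ψ x y →
      ((∃ n, ∃ hx : comp α x ∈ cyc α n, comp β y = (e n ⟨comp α x, hx⟩).1) ∧ FI β y ∧ BI β y) ∨
      ((∃ x0 : rray α, Sim α x0.1 x ∧ y = (er x0).1) ∧ FI β y ∧ ¬ BI β y) ∨
      ((∃ x0 : lray α, Sim α x0.1 x ∧ y = (el x0).1) ∧ ¬ FI β y ∧ BI β y) ∨
      ((∃ a : A, Sim α a.1 x ∧ y = (f a).1) ∧ ¬ FI β y ∧ ¬ BI β y) := by
      rintro x y (h | h | h | h)
      · left
        refine ⟨h, ?_⟩
        obtain ⟨n, hx, hy⟩ := h
        have h2 : comp β y ∈ cyc β n := by rw [hy]; exact (e n _).2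
        exact ⟨(comp_mem_cyc.1 h2).1, (comp_mem_cyc.1 h2).2.1⟩
      · right; left
        refine ⟨h, ?_⟩
        obtain ⟨x0, -, rfl⟩ := h
        exact ⟨(er x0).2.2, not_im_BI (er x0).2.1⟩
      · right; right; left
        refine ⟨h, ?_⟩
        obtain ⟨x0, -, rfl⟩ := h
        exact ⟨not_dm_FI (el x0).2.1, (el x0).2.2⟩
      · right; right; right
        refine ⟨h, ?_⟩
        obtain ⟨a, -, rfl⟩ := h
        exact ⟨(f a).2.2, not_im_BI (f a).2.1⟩
    rcases key x y hΨ with ⟨h, hF, hB⟩ | ⟨h, hF, hB⟩ | ⟨h, hF, hB⟩ | ⟨h, hF, hB⟩ <;>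
    rcases key x' y' hΨ' with ⟨h', hF', hB'⟩ | ⟨h', hF', hB'⟩ | ⟨h', hF', hB'⟩ | ⟨h', hF', hB'⟩ <;>
    first
    | exact absurd (f1.1 hF) hF'
    | exact absurd (f1.2 hF') hF
    | exact absurd (b1.1 hB) hB'
    | exact absurd (b1.2 hB') hB
    | skip
    · obtain ⟨n, hx, hy⟩ := h
      obtain ⟨n', hx', hy'⟩ := h'
      have h2 : comp β y ∈ cyc β n := by rw [hy]; exact (e n _).2
      have h2' : comp β y' ∈ cyc β n' := by rw [hy']; exact (e n' _).2
      have h3 : comp β y = comp β y' := sim_iff_comp.1 hyy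
      obtain rfl : n = n' := cyc_disj h2 (h3 ▸ h2')
      have h4 : e n ⟨comp α x, hx⟩ = e n ⟨comp α x', hx'⟩ := by
        apply Subtype.ext
        rw [← hy, ← hy', h3]
      have h5 := (e n).injective h4
      exact sim_iff_comp.2 (congrArg Subtype.val h5)
    · obtain ⟨x0, hx, rfl⟩ := h
      obtain ⟨x0', hx', rfl⟩ := h'
      have h3 := er.injective (Subtype.ext (init_unique (er x0).2.1 (er x0').2.1 hyy))
      subst h3
      exact hx.symm.trans hx'
    · obtain ⟨x0, hx, rfl⟩ := h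
      obtain ⟨x0', hx', rfl⟩ := h'
      have h3 := el.injective (Subtype.ext (term_unique (el x0).2.1 (el x0').2.1 hyy))
      subst h3
      exact hx.symm.trans hx'
    · obtain ⟨x0, hx, rfl⟩ := h
      obtain ⟨x0', hx', rfl⟩ := h'
      have h3 := hf1 (Subtype.ext (init_unique (f x0).2.1 (f x0').2.1 hyy))
      subst h3
      exact hx.symm.trans hx'
  let ψ : X → Y := fun x => if h : ∃ y, Ψ x y then h.choose else Classical.arbitrary Y
  have hψ : ∀ x, NI α x → Ψ x (ψ x) := by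
    intro x hx
    have h := t1 x hx
    have : ψ x = h.choose := dif_pos h
    rw [this]
    exact h.choose_spec
  exact ⟨ψ, fun x hx => t2 _ _ (hψ x hx), fun x x' hx hx' h => t3 _ _ _ _ (hψ x hx) (hψ x' hx') h⟩

theorem blen_exists (α : X ≃. X) {x : X} (h1 : x ∈ im α 1) :
    ∃ m : ℕ∞, 1 ≤ m ∧ ∀ k : ℕ, x ∈ im α k ↔ (k : ℕ∞) ≤ m := by
  classical
  by_cases h : BI α x
  · exact ⟨⊤, le_top, fun k => ⟨fun _ => le_top, fun _ => h k⟩⟩
  · have hex : ∃ k, x ∉ im α k := by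
      by_contra hcon; push Not at hcon; exact h hcon
    have h2 : 2 ≤ Nat.find hex := by
      by_contra hcon
      apply Nat.find_spec hex
      exact im_mono (by omega) h1
    refine ⟨((Nat.find hex - 1 : ℕ) : ℕ∞), ?_, fun k => ?_⟩
    · have : 1 ≤ Nat.find hex - 1 := by omega
      exact_mod_cast this
    rw [Nat.cast_le]
    constructor
    · intro hk
      by_contra hcon
      exact Nat.find_spec hex (im_mono (by omega) hk)
    · intro hk
      by_contra hcon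
      exact Nat.find_min hex (m := k) (by omega) hcon

theorem c_back (α : X ≃. X) (β : Y ≃. Y) (H1 : ∀ n, #(cyc α n) ≤ #(cyc β n))
    (H2 : #(rray α) + #(cyc α 0) ≤ #(rray β) + #(cyc β 0)) (H3 : #(lray α) ≤ #(lray β))
    (H4 : ∀ k, 1 ≤ k → #(im α k \ dm α 1 : Set X) ≤ #(im β k \ dm β 1 : Set Y)) [Nonempty Y] :
    ∃ ψ : X → Y, (∀ x, NI α x → Lc α β x (ψ x)) ∧
      ∀ x x', NI α x → NI α x' → Sim β (ψ x) (ψ x') → Sim α x x' := by
  classical
  have H1' := H1 0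
  have e : ∀ n, cyc α n ↪ cyc β n := fun n => Classical.choice (H1 n)
  -- forward infinite aperiodic components
  rw [← card_FR, ← card_FR] at H2
  obtain ⟨fr, hfr1, hfr2⟩ : ∃ fr : FR α → FR β, Function.Injective fr ∧
      ∀ C, C.1 ∈ cyc α 0 → (fr C).1 ∈ cyc β 0 := by
    let ρ : FR α → ℕ := fun C => if C.1 ∈ cyc α 0 then 1 else 0
    let σ : FR β → ℕ := fun C => if C.1 ∈ cyc β 0 then 1 else 0
    obtain ⟨f, hf1, hf2⟩ := match_ge ρ σ (by
      intro a
      by_cases ha : a.1 ∈ cyc α 0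
      · have h1 : ρ a = 1 := if_pos ha
        rw [h1]
        have h2 : #{a' // 1 ≤ ρ a'} ≤ #(cyc α 0) := by
          refine Cardinal.mk_le_of_injective (f := fun a : {a' // 1 ≤ ρ a'} =>
            (⟨a.1.1, by
              by_contra hcon
              have h3 : ρ a.1 = 0 := if_neg hcon
              have := a.2
              omega⟩ : cyc α 0)) ?_
          intro a a' haa
          have := congrArg Subtype.val haa
          exact Subtype.ext (Subtype.ext this)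
        have h3 : #(cyc β 0) ≤ #{b // 1 ≤ σ b} := by
          have h4 : ∀ C : cyc β 0, C.1 ∈ FR β := by
            rintro ⟨C, hC⟩
            obtain ⟨x, hx, rfl⟩ := mem_cyc.1 hC
            exact comp_mem_FR.2 ⟨hx.1, fun k => by rw [hx.2.2]; simp⟩
          refine Cardinal.mk_le_of_injective (f := fun C : cyc β 0 =>
            (⟨⟨C.1, h4 C⟩, by
              have h3 : σ ⟨C.1, h4 C⟩ = 1 := if_pos C.2
              omega⟩ : {b // 1 ≤ σ b})) ?_
          intro a a' haa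
          have := congrArg (fun z => z.1.1) haa
          exact Subtype.ext this
        exact h2.trans (H1'.trans h3)
      · have h1 : ρ a = 0 := if_neg ha
        rw [h1]
        have h2 : #{a' // 0 ≤ ρ a'} ≤ #(FR α) := Cardinal.mk_subtype_le _
        have h3 : #(FR β) ≤ #{b // 0 ≤ σ b} :=
          Cardinal.mk_le_of_injective (f := fun b => (⟨b, Nat.zero_le _⟩ : {b // 0 ≤ σ b}))
            (fun a a' haa => congrArg Subtype.val haa)
        exact h2.trans (H2.trans h3))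
    refine ⟨f, hf1, fun C hC => ?_⟩
    by_contra hcon
    have h1 : ρ C = 1 := if_pos hC
    have h2 : σ (f C) = 0 := if_neg hcon
    have := hf2 C
    omega
  -- terminal points
  let A := {x // x ∉ dm α 1 ∧ x ∈ im α 1}
  let B := {y // y ∉ dm β 1 ∧ y ∈ im β 1}
  choose ρ hρ1 hρ using fun a : A => blen_exists α a.2.2
  choose σ hσ1 hσ using fun b : B => blen_exists β b.2.2
  obtain ⟨f, hf1, hf2⟩ := match_ge ρ σ (by
    intro a
    by_cases ha : ρ a = ⊤
    · rw [ha]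
      have h1 : #{a' // ⊤ ≤ ρ a'} ≤ #(lray α) := by
        refine Cardinal.mk_le_of_injective (f := fun a : {a' // ⊤ ≤ ρ a'} =>
          (⟨a.1.1, a.1.2.1, fun k => (hρ _ _).2 (le_top.trans a.2)⟩ : lray α)) ?_
        intro a a' haa
        have := congrArg Subtype.val haa
        exact Subtype.ext (Subtype.ext this)
      have h2 : #(lray β) ≤ #{b // ⊤ ≤ σ b} := by
        refine Cardinal.mk_le_of_injective (f := fun y : lray β =>
          (⟨⟨y.1, y.2.1, y.2.2 1⟩, by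
            have h3 : ∀ k : ℕ, (k : ℕ∞) ≤ σ ⟨y.1, y.2.1, y.2.2 1⟩ := fun k => (hσ _ _).1 (y.2.2 k)
            rw [top_le_iff]
            exact ENat.eq_top_iff_forall_ge.2 h3⟩ : {b // ⊤ ≤ σ b})) ?_
        intro a a' haa
        have := congrArg (fun z => z.1.1) haa
        exact Subtype.ext this
      exact h1.trans (H3.trans h2)
    · obtain ⟨k, hk⟩ := ENat.ne_top_iff_exists.1 ha
      rw [← hk]
      have hk1 : 1 ≤ k := by
        have := hρ1 a
        rw [← hk] at this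
        exact_mod_cast this
      have h1 : #{a' // (k : ℕ∞) ≤ ρ a'} ≤ #(im α k \ dm α 1 : Set X) := by
        refine Cardinal.mk_le_of_injective (f := fun a : {a' // (k : ℕ∞) ≤ ρ a'} =>
          (⟨a.1.1, (hρ _ _).2 a.2, a.1.2.1⟩ : (im α k \ dm α 1 : Set X))) ?_
        intro a a' haa
        have := congrArg Subtype.val haa
        exact Subtype.ext (Subtype.ext this)
      have h2 : #(im β k \ dm β 1 : Set Y) ≤ #{b // (k : ℕ∞) ≤ σ b} := by
        refine Cardinal.mk_le_of_injective (f := fun y : (im β k \ dm β 1 : Set Y) =>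
          (⟨⟨y.1, y.2.2, im_mono hk1 y.2.1⟩, (hσ _ _).1 y.2.1⟩ : {b // (k : ℕ∞) ≤ σ b})) ?_
        intro a a' haa
        have := congrArg (fun z => z.1.1) haa
        exact Subtype.ext this
      exact h1.trans ((H4 k hk1).trans h2))
  let Ψ : X → Y → Prop := fun x y =>
    (∃ n, 1 ≤ n ∧ ∃ hx : comp α x ∈ cyc α n, comp β y = (e n ⟨comp α x, hx⟩).1) ∨
    (∃ hx : comp α x ∈ FR α, comp β y = (fr ⟨comp α x, hx⟩).1) ∨
    (∃ a : A, Sim α a.1 x ∧ y = (f a).1)
  have t1 : ∀ x, NI α x → ∃ y, Ψ x y := by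
    intro x hx
    by_cases h1 : FI α x
    · obtain ⟨n, hn⟩ := per_exists α x
      rcases Nat.eq_zero_or_pos n with h0 | h0
      · subst h0
        have h3 : comp α x ∈ FR α := comp_mem_FR.2 ⟨h1, fun k => by rw [hn]; simp⟩
        obtain ⟨y, -, hy⟩ := (fr ⟨comp α x, h3⟩).2
        exact ⟨y, Or.inr (Or.inl ⟨h3, hy.symm⟩)⟩
      · have h2 : BI α x := by
          intro k
          have h3 : R α (-(n * k : ℕ)) x x := by
            rw [hn]; exact Dvd.intro (-(k : ℤ)) (by push_cast; ring)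
          have h4 := D_neg.1 ⟨_, h3⟩
          exact im_mono (Nat.le_mul_of_pos_left k h0) h4
        have h3 : comp α x ∈ cyc α n := comp_mem_cyc.2 ⟨h1, h2, hn⟩
        obtain ⟨y, -, hy⟩ := mem_cyc.1 (e n ⟨comp α x, h3⟩).2
        exact ⟨y, Or.inl ⟨n, h0, h3, hy.symm⟩⟩
    · obtain ⟨x0, hx0, hx0'⟩ := term_exists h1
      have h3 : x0 ∈ im α 1 := by
        rcases NI_sim hx0'.symm hx with h | h
        · exact absurd (D_one.1 h) hx0
        · exact D_neg_one.1 h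
      exact ⟨_, Or.inr (Or.inr ⟨⟨x0, hx0, h3⟩, hx0', rfl⟩)⟩
  have c2 : ∀ x y, (∃ hx : comp α x ∈ FR α, comp β y = (fr ⟨comp α x, hx⟩).1) → Fr β y := by
    rintro x y ⟨hx, hy⟩
    have : comp β y ∈ FR β := by rw [hy]; exact (fr _).2
    exact comp_mem_FR.1 this
  have t2 : ∀ x y, Ψ x y → Lc α β x y := by
    rintro x y (⟨n, -, hx, hy⟩ | ⟨hx, hy⟩ | ⟨a, hx, rfl⟩)
    · have h1 := comp_mem_cyc.1 hx
      have h2 : comp β y ∈ cyc β n := by rw [hy]; exact (e n _).2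
      exact Lc_cyc h1 (comp_mem_cyc.1 h2)
    · have h1 := comp_mem_FR.1 hx
      refine Lc_Fr h1 (c2 x y ⟨hx, hy⟩) ?_
      intro hb
      have h3 : comp α x ∈ cyc α 0 := comp_mem_cyc.2 ⟨h1.1, hb, fun k => by rw [h1.2]; simp⟩
      have h4 := hfr2 ⟨_, hx⟩ h3
      rw [← hy] at h4
      exact (comp_mem_cyc.1 h4).2.1
    · refine Lc_sim hx (Sim.refl β _) (Lc_term a.2.1 (f a).2.1 ?_)
      intro k hk
      exact (hσ _ _).2 (((hρ _ _).1 hk).trans (hf2 a))
  have t3 : ∀ x x' y y', Ψ x y → Ψ x' y' → Sim β y y' → Sim α x x' := by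
    intro x x' y y' hΨ hΨ' hyy
    have f1 : FI β y ↔ FI β y' := ⟨FI_sim hyy, FI_sim hyy.symm⟩
    have b1 : Fr β y ↔ Fr β y' := ⟨Fr_sim hyy, Fr_sim hyy.symm⟩
    have key : ∀ x y, Ψ x y →
      ((∃ n, 1 ≤ n ∧ ∃ hx : comp α x ∈ cyc α n, comp β y = (e n ⟨comp α x, hx⟩).1) ∧
        FI β y ∧ ¬ Fr β y) ∨
      ((∃ hx : comp α x ∈ FR α, comp β y = (fr ⟨comp α x, hx⟩).1) ∧ FI β y ∧ Fr β y) ∨
      ((∃ a : A, Sim α a.1 x ∧ y = (f a).1) ∧ ¬ FI β y ∧ ¬ Fr β y) := by
      rintro x y (h | h | h)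
      · left
        refine ⟨h, ?_⟩
        obtain ⟨n, hn, hx, hy⟩ := h
        have h2 : comp β y ∈ cyc β n := by rw [hy]; exact (e n _).2
        have h3 := comp_mem_cyc.1 h2
        refine ⟨h3.1, fun hFr => ?_⟩
        have h4 := (hFr.2 n).1 ((h3.2.2 n).2 dvd_rfl)
        omega
      · right; left
        exact ⟨h, (c2 x y h).1, c2 x y h⟩
      · right; right
        refine ⟨h, ?_⟩
        obtain ⟨a, -, rfl⟩ := h
        exact ⟨not_dm_FI (f a).2.1, fun hh => not_dm_FI (f a).2.1 hh.1⟩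
    rcases key x y hΨ with ⟨h, hF, hB⟩ | ⟨h, hF, hB⟩ | ⟨h, hF, hB⟩ <;>
    rcases key x' y' hΨ' with ⟨h', hF', hB'⟩ | ⟨h', hF', hB'⟩ | ⟨h', hF', hB'⟩ <;>
    first
    | exact absurd (f1.1 hF) hF'
    | exact absurd (f1.2 hF') hF
    | exact absurd (b1.1 hB) hB'
    | exact absurd (b1.2 hB') hB
    | skip
    · obtain ⟨n, -, hx, hy⟩ := h
      obtain ⟨n', -, hx', hy'⟩ := h'
      have h2 : comp β y ∈ cyc β n := by rw [hy]; exact (e n _).2
      have h2' : comp β y' ∈ cyc β n' := by rw [hy']; exact (e n' _).2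
      have h3 : comp β y = comp β y' := sim_iff_comp.1 hyy
      obtain rfl : n = n' := cyc_disj h2 (h3 ▸ h2')
      have h4 : e n ⟨comp α x, hx⟩ = e n ⟨comp α x', hx'⟩ := by
        apply Subtype.ext
        rw [← hy, ← hy', h3]
      have h5 := (e n).injective h4
      exact sim_iff_comp.2 (congrArg Subtype.val h5)
    · obtain ⟨hx, hy⟩ := h
      obtain ⟨hx', hy'⟩ := h'
      have h3 : comp β y = comp β y' := sim_iff_comp.1 hyy
      have h4 : fr ⟨comp α x, hx⟩ = fr ⟨comp α x', hx'⟩ := by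
        apply Subtype.ext
        rw [← hy, ← hy', h3]
      have h5 := hfr1 h4
      exact sim_iff_comp.2 (congrArg Subtype.val h5)
    · obtain ⟨x0, hx, rfl⟩ := h
      obtain ⟨x0', hx', rfl⟩ := h'
      have h3 := hf1 (Subtype.ext (term_unique (f x0).2.1 (f x0').2.1 hyy))
      subst h3
      exact hx.symm.trans hx'
  let ψ : X → Y := fun x => if h : ∃ y, Ψ x y then h.choose else Classical.arbitrary Y
  have hψ : ∀ x, NI α x → Ψ x (ψ x) := by
    intro x hx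
    have h := t1 x hx
    have : ψ x = h.choose := dif_pos h
    rw [this]
    exact h.choose_spec
  exact ⟨ψ, fun x hx => t2 _ _ (hψ x hx), fun x x' hx hx' h => t3 _ _ _ _ (hψ x hx) (hψ x' hx') h⟩

end Pool.R699.Conj
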