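import Mathlib

/-!
Partial injections: powers, components, gluing of partial injections along matched components.
-/

open Cardinal

namespace Pool.R699.Conj

universe u
variable {X Y : Type u}

/-- The powers `α^n` of a partial injection. -/
def pw (α : X ≃. X) : ℕ → (X ≃. X)
  | 0 => PEquiv.refl X
  | n + 1 => (pw α n).trans α

/-- The domain of `α^k`. -/
def dm (α : X ≃. X) (k : ℕ) : Set X := {x | ∃ y, pw α k x = some y}

/-- The image of `α^k`. -/
def im (α : X ≃. X) (k : ℕ) : Set X := {y | ∃ x, pw α k x = some y}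

/-- The component of `x`. -/
def comp (α : X ≃. X) (x : X) : Set X :=
  {y | ∃ k, pw α k x = some y ∨ pw α k y = some x}

theorem pw_add (α : X ≃. X) (m n : ℕ) : pw α (m + n) = (pw α m).trans (pw α n) := by
  induction n with
  | zero => simp [pw]
  | succ n ih => rw [← add_assoc, pw, ih, pw, PEquiv.trans_assoc]

theorem pw_comp {α : X ≃. X} {m n : ℕ} {x y z : X} (h1 : pw α m x = some y)
    (h2 : pw α n y = some z) : pw α (m + n) x = some z := by
  rw [pw_add, PEquiv.trans_eq_some]; exact ⟨y, h1, h2⟩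

theorem pw_split {α : X ≃. X} {m n : ℕ} {x z : X} (h : pw α (m + n) x = some z) :
    ∃ y, pw α m x = some y ∧ pw α n y = some z := by
  rw [pw_add, PEquiv.trans_eq_some] at h; exact h

theorem pinj {A B : Type*} (f : A ≃. B) {x y : A} {z : B} (h1 : f x = some z)
    (h2 : f y = some z) : x = y := f.inj h1 h2

theorem pfun {A B : Type*} (f : A ≃. B) {x : A} {y z : B} (h1 : f x = some y)
    (h2 : f x = some z) : y = z := Option.some_injective _ (h1.symm.trans h2)

theorem pw_one (α : X ≃. X) : pw α 1 = α := by simp [pw]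

theorem pw_zero (α : X ≃. X) (x : X) : pw α 0 x = some x := by simp [pw]

/-- `y = α^k x` for an integer `k`. -/
def R (α : X ≃. X) (k : ℤ) (x y : X) : Prop :=
  (∃ n : ℕ, k = n ∧ pw α n x = some y) ∨ (∃ n : ℕ, k = -n ∧ pw α n y = some x)

theorem R_nat {α : X ≃. X} {n : ℕ} {x y : X} : R α n x y ↔ pw α n x = some y := by
  constructor
  · rintro (⟨m, hm, h⟩ | ⟨m, hm, h⟩)
    · have : m = n := by omega
      exact this ▸ h
    · have h0 : n = 0 := by omega
      have h1 : m = 0 := by omega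
      subst h0 h1
      rw [pw_zero] at h ⊢
      rw [Option.some_injective _ h]
  · intro h; exact Or.inl ⟨n, rfl, h⟩

theorem R_neg {α : X ≃. X} {n : ℕ} {x y : X} : R α (-n) x y ↔ pw α n y = some x := by
  constructor
  · rintro (⟨m, hm, h⟩ | ⟨m, hm, h⟩)
    · have h0 : n = 0 := by omega
      have h1 : m = 0 := by omega
      subst h0 h1
      rw [pw_zero] at h ⊢
      rw [Option.some_injective _ h]
    · have : m = n := by omega
      exact this ▸ h
  · intro h; exact Or.inr ⟨n, rfl, h⟩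

theorem R_symm {α : X ≃. X} {k : ℤ} {x y : X} (h : R α k x y) : R α (-k) y x := by
  rcases h with ⟨n, rfl, h⟩ | ⟨n, rfl, h⟩
  · exact R_neg.2 h
  · rw [neg_neg]; exact R_nat.2 h

theorem R_refl (α : X ≃. X) (x : X) : R α 0 x x := Or.inl ⟨0, rfl, pw_zero α x⟩

theorem R_trans {α : X ≃. X} {k l : ℤ} {x y z : X} (h1 : R α k x y) (h2 : R α l y z) :
    R α (k + l) x z := by
  rcases h1 with ⟨m, rfl, h1⟩ | ⟨m, rfl, h1⟩ <;> rcases h2 with ⟨n, rfl, h2⟩ | ⟨n, rfl, h2⟩
  · exact Or.inl ⟨m + n, by push_cast; ring, pw_comp h1 h2⟩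
  · rcases le_total n m with h | h
    · obtain ⟨c, rfl⟩ := Nat.exists_eq_add_of_le h
      rw [add_comm] at h1
      obtain ⟨w, hw1, hw2⟩ := pw_split h1
      have := pinj _ hw2 h2
      subst this
      exact Or.inl ⟨c, by push_cast; ring, hw1⟩
    · obtain ⟨c, rfl⟩ := Nat.exists_eq_add_of_le h
      rw [add_comm] at h2
      obtain ⟨w, hw1, hw2⟩ := pw_split h2
      have := pinj _ hw2 h1
      subst this
      exact Or.inr ⟨c, by push_cast; ring, hw1⟩
  · rcases le_total n m with h | h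
    · obtain ⟨c, rfl⟩ := Nat.exists_eq_add_of_le h
      obtain ⟨w, hw1, hw2⟩ := pw_split h1
      have := pfun _ hw1 h2
      subst this
      exact Or.inr ⟨c, by push_cast; ring, hw2⟩
    · obtain ⟨c, rfl⟩ := Nat.exists_eq_add_of_le h
      obtain ⟨w, hw1, hw2⟩ := pw_split h2
      have := pfun _ hw1 h1
      subst this
      exact Or.inl ⟨c, by push_cast; ring, hw2⟩
  · exact Or.inr ⟨n + m, by push_cast; ring, pw_comp h2 h1⟩

theorem R_zero {α : X ≃. X} {x y : X} (h : R α 0 x y) : x = y := by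
  have : pw α 0 x = some y := R_nat.1 (by simpa using h)
  rw [pw_zero] at this
  exact Option.some_injective _ this

theorem R_fun {α : X ≃. X} {k : ℤ} {x y z : X} (h1 : R α k x y) (h2 : R α k x z) : y = z := by
  have := R_trans (R_symm h1) h2
  rw [neg_add_cancel] at this
  exact R_zero this

theorem R_inj {α : X ≃. X} {k : ℤ} {x y z : X} (h1 : R α k x z) (h2 : R α k y z) : x = y := by
  have := R_trans h1 (R_symm h2)
  rw [add_neg_cancel] at this
  exact R_zero this

theorem R_one {α : X ≃. X} {x y : X} : R α 1 x y ↔ α x = some y := by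
  have := @R_nat X α 1 x y
  rw [pw_one] at this
  exact_mod_cast this

/-- `α^k x` is defined. -/
def D (α : X ≃. X) (k : ℤ) (x : X) : Prop := ∃ z, R α k x z

theorem D_shift {α : X ≃. X} {j k : ℤ} {x y : X} (h : R α j x y) :
    D α k y ↔ D α (k + j) x := by
  constructor
  · rintro ⟨z, hz⟩
    exact ⟨z, by have := R_trans h hz; rwa [add_comm] at this⟩
  · rintro ⟨z, hz⟩
    refine ⟨z, ?_⟩
    have := R_trans (R_symm h) hz
    rwa [show -j + (k + j) = k by ring] at this

theorem D_zero (α : X ≃. X) (x : X) : D α 0 x := ⟨x, R_refl α x⟩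

theorem D_nat {α : X ≃. X} {n : ℕ} {x : X} : D α n x ↔ x ∈ dm α n := by
  simp only [D, dm, R_nat, Set.mem_ofPred_eq]

theorem D_neg {α : X ≃. X} {n : ℕ} {x : X} : D α (-n) x ↔ x ∈ im α n := by
  simp only [D, im, R_neg, Set.mem_ofPred_eq]

theorem dm_mono {α : X ≃. X} {m n : ℕ} (h : m ≤ n) {x : X} (hx : x ∈ dm α n) : x ∈ dm α m := by
  obtain ⟨c, rfl⟩ := Nat.exists_eq_add_of_le h
  obtain ⟨y, hy⟩ := hx
  obtain ⟨w, hw, -⟩ := pw_split hy
  exact ⟨w, hw⟩

theorem im_mono {α : X ≃. X} {m n : ℕ} (h : m ≤ n) {x : X} (hx : x ∈ im α n) : x ∈ im α m := by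
  obtain ⟨c, rfl⟩ := Nat.exists_eq_add_of_le h
  obtain ⟨y, hy⟩ := hx
  rw [add_comm] at hy
  obtain ⟨w, -, hw⟩ := pw_split hy
  exact ⟨w, hw⟩

theorem D_up {α : X ≃. X} {j k : ℤ} {x : X} (h0 : 0 ≤ j) (h : j ≤ k) (hx : D α k x) :
    D α j x := by
  obtain ⟨m, rfl⟩ := Int.eq_ofNat_of_zero_le h0
  obtain ⟨n, rfl⟩ := Int.eq_ofNat_of_zero_le (h0.trans h)
  exact D_nat.2 (dm_mono (by omega) (D_nat.1 hx))

theorem D_down {α : X ≃. X} {j k : ℤ} {x : X} (h0 : j ≤ 0) (h : k ≤ j) (hx : D α k x) :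
    D α j x := by
  obtain ⟨m, hm⟩ := Int.eq_ofNat_of_zero_le (show 0 ≤ -j by omega)
  obtain ⟨n, hn⟩ := Int.eq_ofNat_of_zero_le (show 0 ≤ -k by omega)
  have hj : j = -m := by omega
  have hk : k = -n := by omega
  subst hj hk
  exact D_neg.2 (im_mono (by omega) (D_neg.1 hx))

/-- Same component. -/
def Sim (α : X ≃. X) (x y : X) : Prop := ∃ k, R α k x y

theorem Sim.refl (α : X ≃. X) (x : X) : Sim α x x := ⟨0, R_refl α x⟩
theorem Sim.symm {α : X ≃. X} {x y : X} : Sim α x y → Sim α y x := fun ⟨k, h⟩ => ⟨-k, R_symm h⟩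
theorem Sim.trans {α : X ≃. X} {x y z : X} : Sim α x y → Sim α y z → Sim α x z :=
  fun ⟨_, h⟩ ⟨_, h'⟩ => ⟨_, R_trans h h'⟩

theorem sim_iff_mem {α : X ≃. X} {x y : X} : Sim α x y ↔ y ∈ comp α x := by
  constructor
  · rintro ⟨k, ⟨n, rfl, h⟩ | ⟨n, rfl, h⟩⟩
    · exact ⟨n, Or.inl h⟩
    · exact ⟨n, Or.inr h⟩
  · rintro ⟨n, h | h⟩
    · exact ⟨n, R_nat.2 h⟩
    · exact ⟨-n, R_neg.2 h⟩

theorem sim_iff_comp {α : X ≃. X} {x y : X} : Sim α x y ↔ comp α x = comp α y := by
  constructor
  · intro h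
    ext z
    rw [← sim_iff_mem, ← sim_iff_mem]
    exact ⟨fun h' => h.symm.trans h', fun h' => h.trans h'⟩
  · intro h
    rw [sim_iff_mem, h, ← sim_iff_mem]
    exact Sim.refl α y

/-- The setoid of components. -/
def st (α : X ≃. X) : Setoid X := ⟨Sim α, ⟨Sim.refl α, Sim.symm, Sim.trans⟩⟩

/-- A partial injection from a relation. -/
theorem ofRel {A B : Type*} {r : A → B → Prop} (h1 : ∀ a b b', r a b → r a b' → b = b')
    (h2 : ∀ a a' b, r a b → r a' b → a = a') :
    ∃ f : A ≃. B, ∀ a b, f a = some b ↔ r a b := by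
  classical
  refine ⟨⟨fun a => if h : ∃ b, r a b then some h.choose else none,
    fun b => if h : ∃ a, r a b then some h.choose else none, ?_⟩, ?_⟩
  · intro a b
    have e1 : (a ∈ (if h : ∃ a, r a b then some h.choose else none : Option A)) ↔ r a b := by
      split_ifs with h
      · rw [Option.mem_some_iff]
        constructor
        · intro e; rw [← e]; exact h.choose_spec
        · intro e; exact h2 _ _ _ h.choose_spec e
      · simp only [Option.mem_def, reduceCtorEq, false_iff]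
        intro e; exact h ⟨a, e⟩
    have e2 : (b ∈ (if h : ∃ b, r a b then some h.choose else none : Option B)) ↔ r a b := by
      split_ifs with h
      · rw [Option.mem_some_iff]
        constructor
        · intro e; rw [← e]; exact h.choose_spec
        · intro e; exact h1 _ _ _ h.choose_spec e
      · simp only [Option.mem_def, reduceCtorEq, false_iff]
        intro e; exact h ⟨b, e⟩
    exact e1.trans e2.symm
  · intro a b
    have e2 : ((if h : ∃ b, r a b then some h.choose else none : Option B) = some b) ↔ r a b := by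
      split_ifs with h
      · rw [Option.some_inj]
        constructor
        · intro e; rw [← e]; exact h.choose_spec
        · intro e; exact h1 _ _ _ h.choose_spec e
      · simp only [reduceCtorEq, false_iff]
        intro e; exact h ⟨b, e⟩
    exact e2

/-- Gluing along matched components. -/
theorem glue (α : X ≃. X) (β : Y ≃. Y) {ι : Type*} (x : ι → X) (y : ι → Y) (s : ι → ℤ)
    (ha : ∀ i j, Sim α (x i) (x j) → i = j) (hb : ∀ i j, Sim β (y i) (y j) → i = j)
    (hp : ∀ i k, R α k (x i) (x i) ↔ R β k (y i) (y i)) :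
    ∃ f : X ≃. Y, ∀ z w, f z = some w ↔ ∃ i k, R α k (x i) z ∧ R β (k + s i) (y i) w := by
  apply ofRel
  · rintro z w w' ⟨i, k, h1, h2⟩ ⟨i', k', h1', h2'⟩
    obtain rfl := ha i i' ⟨_, R_trans h1 (R_symm h1')⟩
    have h3 := (hp i _).1 (R_trans h1 (R_symm h1'))
    have h4 := R_trans h3 h2'
    rw [show k + -k' + (k' + s i) = k + s i by ring] at h4
    exact R_fun h2 h4
  · rintro z z' w ⟨i, k, h1, h2⟩ ⟨i', k', h1', h2'⟩
    obtain rfl := hb i i' ⟨_, R_trans h2 (R_symm h2')⟩
    have h3 := (hp i _).2 (R_trans h2 (R_symm h2'))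
    have h4 := R_trans h3 h1'
    rw [show k + s i + -(k' + s i) + k' = k by ring] at h4
    exact R_fun h1 h4

/-- Not isolated. -/
def NI (α : X ≃. X) (x : X) : Prop := D α 1 x ∨ D α (-1) x

/-- The shapes of the components of `x` and `y` differ by at most one point. -/
def Lk (α : X ≃. X) (β : Y ≃. Y) (x : X) (y : Y) : Prop :=
  (∀ k, R α k x x ↔ R β k y y) ∧ ∃ s : ℤ,
    (∀ k, D α k x → D α (k + 1) x → D β (k + s) y) ∧
    (∀ k, D β (k + s) y → D β (k + s + 1) y → D α (k + 1) x)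

/-- The component of `x` embeds in that of `y`, preserving terminal points. -/
def Lc (α : X ≃. X) (β : Y ≃. Y) (x : X) (y : Y) : Prop :=
  (∀ k, R α k x x ↔ R β k y y) ∧ ∃ s : ℤ,
    (∀ k, D α k x → D β (k + s) y) ∧
    (∀ k, D α k x → D β (k + s + 1) y → D α (k + 1) x)

theorem per_sim {α : X ≃. X} {x x' : X} (h : Sim α x x') (k : ℤ) : R α k x x ↔ R α k x' x' := by
  obtain ⟨j, h⟩ := h
  constructor
  · intro h'
    have := R_trans (R_trans (R_symm h) h') h
    rwa [show -j + k + j = k by ring] at this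
  · intro h'
    have := R_trans (R_trans h h') (R_symm h)
    rwa [show j + k + -j = k by ring] at this

theorem NI_sim {α : X ≃. X} {x x' : X} (h : Sim α x x') (hx : NI α x) : NI α x' := by
  obtain ⟨k, hk⟩ := h
  rcases lt_trichotomy k 0 with h0 | h0 | h0
  · left
    exact D_up (by norm_num) (by omega : (1 : ℤ) ≤ -k) ⟨x, R_symm hk⟩
  · subst h0
    rwa [R_zero hk] at hx
  · right
    exact D_down (by norm_num) (by omega : -k ≤ (-1 : ℤ)) ⟨x, R_symm hk⟩

theorem Lk_sim {α : X ≃. X} {β : Y ≃. Y} {x x' : X} {y y' : Y} (h1 : Sim α x x')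
    (h2 : Sim β y y') (h : Lk α β x y) : Lk α β x' y' := by
  obtain ⟨hp, s, hs1, hs2⟩ := h
  refine ⟨fun k => by rw [← per_sim h1, hp, per_sim h2], ?_⟩
  obtain ⟨i, hi⟩ := h1
  obtain ⟨j, hj⟩ := h2
  refine ⟨i + s - j, ?_, ?_⟩
  · intro k
    rw [D_shift hi, D_shift hi, D_shift hj]
    intro h3 h4
    have := hs1 (k + i) h3 (by rwa [show k + i + 1 = k + 1 + i by ring])
    rwa [show k + i + s = k + (i + s - j) + j by ring] at this
  · intro k
    rw [D_shift hi, D_shift hj, D_shift hj]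
    intro h3 h4
    have := hs2 (k + i) (by rwa [show k + i + s = k + (i + s - j) + j by ring])
      (by rwa [show k + i + s + 1 = k + (i + s - j) + 1 + j by ring])
    rwa [show k + 1 + i = k + i + 1 by ring]

theorem Lk_symm {α : X ≃. X} {β : Y ≃. Y} {x : X} {y : Y} (h : Lk β α y x) : Lk α β x y := by
  obtain ⟨hp, s, hs1, hs2⟩ := h
  refine ⟨fun k => (hp k).symm, 1 - s, ?_, ?_⟩
  · intro k h1 h2
    have := hs2 (k - s) (by rwa [show k - s + s = k by ring])
      (by rwa [show k - s + s + 1 = k + 1 by ring])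
    rwa [show k + (1 - s) = k - s + 1 by ring]
  · intro k h1 h2
    have := hs1 (k + (1 - s)) h1 h2
    rwa [show k + (1 - s) + s = k + 1 by ring] at this

theorem Lc_sim {α : X ≃. X} {β : Y ≃. Y} {x x' : X} {y y' : Y} (h1 : Sim α x x')
    (h2 : Sim β y y') (h : Lc α β x y) : Lc α β x' y' := by
  obtain ⟨hp, s, hs1, hs2⟩ := h
  refine ⟨fun k => by rw [← per_sim h1, hp, per_sim h2], ?_⟩
  obtain ⟨i, hi⟩ := h1
  obtain ⟨j, hj⟩ := h2
  refine ⟨i + s - j, ?_, ?_⟩
  · intro k
    rw [D_shift hi, D_shift hj]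
    intro h3
    have := hs1 (k + i) h3
    rwa [show k + i + s = k + (i + s - j) + j by ring] at this
  · intro k
    rw [D_shift hi, D_shift hi, D_shift hj]
    intro h3 h4
    have := hs2 (k + i) h3 (by rwa [show k + i + s + 1 = k + (i + s - j) + 1 + j by ring])
    rwa [show k + 1 + i = k + i + 1 by ring]

end Pool.R699.Conj
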