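import Pool.Agent.R699.ConjBack

open Cardinal

namespace Pool.R699.Conj

universe u
variable {X Y : Type u}

theorem comm_pw {α : X ≃. X} {β : Y ≃. Y} {g : X ≃. Y} (h : α.trans g = g.trans β) (k : ℕ) :
    (pw α k).trans g = g.trans (pw β k) := by
  induction k with
  | zero => simp [pw]
  | succ k ih => rw [pw, PEquiv.trans_assoc, h, ← PEquiv.trans_assoc, ih, PEquiv.trans_assoc, pw]

theorem K1 {α : X ≃. X} {β : Y ≃. Y} {g : X ≃. Y} (h : α.trans g = g.trans β) {k : ℕ}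
    {x x' : X} {y y' : Y} (h1 : g x = some y) (h2 : pw α k x = some x') (h3 : g x' = some y') :
    pw β k y = some y' := by
  have h4 : ((pw α k).trans g) x = some y' := (PEquiv.trans_eq_some _ _ _ _).2 ⟨x', h2, h3⟩
  rw [comm_pw h, PEquiv.trans_eq_some] at h4
  obtain ⟨w, hw, hw'⟩ := h4
  rwa [pfun g h1 hw]

theorem K2 {α : X ≃. X} {β : Y ≃. Y} {g : X ≃. Y} (h : α.trans g = g.trans β) {k : ℕ}
    {x : X} {y y' : Y} (h1 : g x = some y) (h2 : pw β k y = some y') :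
    ∃ x', pw α k x = some x' ∧ g x' = some y' := by
  have h4 : (g.trans (pw β k)) x = some y' := (PEquiv.trans_eq_some _ _ _ _).2 ⟨y, h1, h2⟩
  rw [← comm_pw h, PEquiv.trans_eq_some] at h4
  exact h4

theorem mem_dm1 {α : X ≃. X} {x : X} : x ∈ dm α 1 ↔ ∃ y, α x = some y := by
  simp only [dm, pw_one]; rfl

theorem mem_im1 {α : X ≃. X} {x : X} : x ∈ im α 1 ↔ ∃ y, α y = some x := by
  simp only [im, pw_one]; rfl

section
variable {α : X ≃. X} {β : Y ≃. Y} {g : X ≃. Y} (h : α.trans g = g.trans β)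
  (hd : ∀ x ∈ dm α 1, ∃ y, g x = some y)
include h

theorem Simg {x x' : X} {y y' : Y} (h1 : g x = some y) (h2 : g x' = some y')
    (h3 : Sim β y y') : Sim α x x' := by
  obtain ⟨k, ⟨m, rfl, hk⟩ | ⟨m, rfl, hk⟩⟩ := h3
  · obtain ⟨w, hw, hw'⟩ := K2 h h1 hk
    rw [pinj g h2 hw']
    exact ⟨m, R_nat.2 hw⟩
  · obtain ⟨w, hw, hw'⟩ := K2 h h2 hk
    rw [pinj g h1 hw']
    exact ⟨-m, R_neg.2 hw⟩

theorem perg {x : X} {y : Y} (h1 : g x = some y) (k : ℤ) : R α k x x ↔ R β k y y := by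
  have key : ∀ m : ℕ, pw α m x = some x ↔ pw β m y = some y := by
    intro m
    constructor
    · intro hm; exact K1 h h1 hm h1
    · intro hm
      obtain ⟨w, hw, hw'⟩ := K2 h h1 hm
      rwa [← pinj g h1 hw'] at hw
  obtain ⟨m, rfl | rfl⟩ := Int.eq_nat_or_neg k
  · rw [R_nat, R_nat, key]
  · rw [R_neg, R_neg, key]

include hd

theorem FIg {x : X} {y : Y} (h1 : g x = some y) (hx : FI α x) : FI β y := by
  intro k
  obtain ⟨z, hz⟩ := hx (k + 1)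
  obtain ⟨x', hx', hz'⟩ := pw_split hz
  obtain ⟨y', hy'⟩ := hd x' ⟨z, hz'⟩
  exact ⟨y', K1 h h1 hx' hy'⟩

theorem im_g {x : X} {y : Y} (h1 : g x = some y) {k : ℕ} (hx : x ∈ im α k) : y ∈ im β k := by
  rcases Nat.eq_zero_or_pos k with rfl | hk
  · exact ⟨y, pw_zero β y⟩
  · obtain ⟨x1, hx1⟩ := hx
    obtain ⟨y1, hy1⟩ := hd x1 (dm_mono hk ⟨x, hx1⟩)
    exact ⟨y1, K1 h hy1 hx1 h1⟩

theorem cyc_forw (n : ℕ) : #(cyc α n) ≤ #(cyc β n) := by
  have key : ∀ C : cyc α n, ∃ x y, Pn α n x ∧ C.1 = comp α x ∧ g x = some y := by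
    rintro ⟨C, hC⟩
    obtain ⟨x, hx, rfl⟩ := mem_cyc.1 hC
    obtain ⟨y, hy⟩ := hd x (hx.1 1)
    exact ⟨x, y, hx, rfl, hy⟩
  choose x y hx hC hy using key
  refine Cardinal.mk_le_of_injective (f := fun C : cyc α n => (⟨comp β (y C), by
    rw [comp_mem_cyc]
    exact ⟨FIg h hd (hy C) (hx C).1, fun k => im_g h hd (hy C) ((hx C).2.1 k),
      fun k => by rw [← perg h (hy C)]; exact (hx C).2.2 k⟩⟩ : cyc β n)) ?_
  intro C C' hCC
  have h1 : comp β (y C) = comp β (y C') := congrArg Subtype.val hCC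
  apply Subtype.ext
  rw [hC C, hC C']
  exact sim_iff_comp.1 (Simg h (hy C) (hy C') (sim_iff_comp.2 h1))

theorem FR_forw : #(FR α) ≤ #(FR β) := by
  have key : ∀ C : FR α, ∃ x y, Fr α x ∧ C.1 = comp α x ∧ g x = some y := by
    rintro ⟨C, x, hx, rfl⟩
    obtain ⟨y, hy⟩ := hd x (hx.1 1)
    exact ⟨x, y, hx, rfl, hy⟩
  choose x y hx hC hy using key
  refine Cardinal.mk_le_of_injective (f := fun C : FR α => (⟨comp β (y C), by
    rw [comp_mem_FR]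
    exact ⟨FIg h hd (hy C) (hx C).1,
      fun k => by rw [← perg h (hy C)]; exact (hx C).2 k⟩⟩ : FR β)) ?_
  intro C C' hCC
  have h1 : comp β (y C) = comp β (y C') := congrArg Subtype.val hCC
  apply Subtype.ext
  rw [hC C, hC C']
  exact sim_iff_comp.1 (Simg h (hy C) (hy C') (sim_iff_comp.2 h1))

theorem c_forw (hi : ∀ x ∈ im α 1, ∃ y, g x = some y) :
    (∀ n, #(cyc α n) ≤ #(cyc β n)) ∧ #(rray α) + #(cyc α 0) ≤ #(rray β) + #(cyc β 0) ∧
    #(lray α) ≤ #(lray β) ∧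
    ∀ k, 1 ≤ k → #(im α k \ dm α 1 : Set X) ≤ #(im β k \ dm β 1 : Set Y) := by
  have hnd : ∀ x y, g x = some y → x ∉ dm α 1 → y ∉ dm β 1 := by
    intro x y hxy hx hy
    obtain ⟨y', hy'⟩ := mem_dm1.1 hy
    have h4 : (g.trans β) x = some y' := (PEquiv.trans_eq_some _ _ _ _).2 ⟨y, hxy, hy'⟩
    rw [← h, PEquiv.trans_eq_some] at h4
    obtain ⟨w, hw, -⟩ := h4
    exact hx (mem_dm1.2 ⟨w, hw⟩)
  refine ⟨cyc_forw h hd, ?_, ?_, ?_⟩
  · rw [← card_FR, ← card_FR]; exact FR_forw h hd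
  · choose y hy using fun x : lray α => hi x.1 (x.2.2 1)
    refine Cardinal.mk_le_of_injective (f := fun x : lray α => (⟨y x, hnd _ _ (hy x) x.2.1,
      fun k => im_g h hd (hy x) (x.2.2 k)⟩ : lray β)) ?_
    intro x x' hxx
    have h1 : y x = y x' := congrArg Subtype.val hxx
    apply Subtype.ext
    exact pinj g (hy x) (h1 ▸ hy x')
  · intro k hk
    choose y hy using fun x : (im α k \ dm α 1 : Set X) => hi x.1 (im_mono hk x.2.1)
    refine Cardinal.mk_le_of_injective (f := fun x : (im α k \ dm α 1 : Set X) =>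
      (⟨y x, im_g h hd (hy x) x.2.1, hnd _ _ (hy x) x.2.2⟩ : (im β k \ dm β 1 : Set Y))) ?_
    intro x x' hxx
    have h1 : y x = y x' := congrArg Subtype.val hxx
    apply Subtype.ext
    exact pinj g (hy x) (h1 ▸ hy x')

end

theorem pw_symm (α : X ≃. X) (k : ℕ) : pw α.symm k = (pw α k).symm := by
  induction k with
  | zero => rfl
  | succ k ih =>
    rw [add_comm, pw_add α 1 k, pw_one, PEquiv.symm_trans_rev, ← ih, add_comm, pw]

theorem dm_symm (α : X ≃. X) (k : ℕ) : dm α.symm k = im α k := by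
  ext x
  simp only [dm, im, pw_symm, Set.mem_ofPred_eq, PEquiv.eq_some_iff]

theorem im_symm (α : X ≃. X) (k : ℕ) : im α.symm k = dm α k := by
  ext x
  simp only [dm, im, pw_symm, Set.mem_ofPred_eq, PEquiv.eq_some_iff]

section
variable {α : X ≃. X} {β : Y ≃. Y} {u : X ≃. Y} {v : Y ≃. X}
  (hα : α = u.trans v) (hβ : β = v.trans u)

/-- matching of initial points -/
def Ph (u : X ≃. Y) (v : Y ≃. X) (x : X) (y : Y) : Prop :=
  v y = some x ∨ (v.symm x = none ∧ u x = some y)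

include hα hβ

theorem comm_u : α.trans u = u.trans β := by rw [hα, hβ, PEquiv.trans_assoc]
theorem comm_v : β.trans v = v.trans α := by rw [hα, hβ, PEquiv.trans_assoc]

omit hβ in
theorem u_dm : ∀ x ∈ dm α 1, ∃ y, u x = some y := by
  intro x hx
  obtain ⟨z, hz⟩ := mem_dm1.1 hx
  rw [hα, PEquiv.trans_eq_some] at hz
  obtain ⟨y, hy, -⟩ := hz
  exact ⟨y, hy⟩

omit hα in
theorem v_dm : ∀ y ∈ dm β 1, ∃ x, v y = some x := by
  intro x hx
  obtain ⟨z, hz⟩ := mem_dm1.1 hx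
  rw [hβ, PEquiv.trans_eq_some] at hz
  obtain ⟨y, hy, -⟩ := hz
  exact ⟨y, hy⟩

omit hβ in
theorem Ph_exists {x : X} (hx : x ∈ dm α 1) : ∃ y, Ph u v x y := by
  obtain ⟨y, hy⟩ := u_dm hα x hx
  cases hv : v.symm x with
  | none => exact ⟨y, Or.inr ⟨hv, hy⟩⟩
  | some y' => exact ⟨y', Or.inl (v.eq_some_iff.1 hv)⟩

omit hβ in
theorem Ph_inj {x x' : X} {y : Y} (hx : x ∉ im α 1) (hx' : x' ∉ im α 1) (h : Ph u v x y)
    (h' : Ph u v x' y) : x = x' := by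
  rcases h with h | ⟨-, h⟩ <;> rcases h' with h' | ⟨-, h'⟩
  · exact pfun v h h'
  · exact absurd (mem_im1.2 ⟨x', by rw [hα, PEquiv.trans_eq_some]; exact ⟨y, h', h⟩⟩) hx
  · exact absurd (mem_im1.2 ⟨x, by rw [hα, PEquiv.trans_eq_some]; exact ⟨y, h, h'⟩⟩) hx'
  · exact pinj u h h'

theorem Ph_init {x : X} {y : Y} (hx : x ∉ im α 1) (h : Ph u v x y) : y ∉ im β 1 := by
  intro hy
  obtain ⟨z, hz⟩ := mem_im1.1 hy
  rw [hβ, PEquiv.trans_eq_some] at hz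
  obtain ⟨w, hw, hw'⟩ := hz
  rcases h with h | ⟨h0, h⟩
  · exact hx (mem_im1.2 ⟨w, by rw [hα, PEquiv.trans_eq_some]; exact ⟨y, hw', h⟩⟩)
  · obtain rfl := pinj u h hw'
    rw [v.eq_some_iff.2 hw] at h0
    exact absurd h0 (by simp)

theorem Ph_1 {x : X} {y : Y} (h : Ph u v x y) {k : ℕ} (hk : x ∈ dm α (k + 1)) : y ∈ dm β k := by
  obtain ⟨z, hz⟩ := hk
  obtain ⟨x', hx', hz'⟩ := pw_split hz
  rcases h with h | ⟨h0, h⟩
  · obtain ⟨w, hw, -⟩ := K2 (comm_v hα hβ) h hx'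
    exact ⟨w, hw⟩
  · obtain ⟨y', hy'⟩ := u_dm hα x' ⟨z, hz'⟩
    exact ⟨y', K1 (comm_u hα hβ) h hx' hy'⟩

theorem Ph_2 {x : X} {y : Y} (h : Ph u v x y) {k : ℕ} (hk : y ∈ dm β (k + 1)) : x ∈ dm α k := by
  obtain ⟨z, hz⟩ := hk
  obtain ⟨y', hy', hz'⟩ := pw_split hz
  rcases h with h | ⟨h0, h⟩
  · obtain ⟨x', hx'⟩ := v_dm hβ y' ⟨z, hz'⟩
    exact ⟨x', K1 (comm_v hα hβ) h hy' hx'⟩
  · obtain ⟨w, hw, -⟩ := K2 (comm_u hα hβ) h hy'
    exact ⟨w, hw⟩

theorem rray_forw : #(rray α) ≤ #(rray β) := by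
  choose y hy using fun x : rray α => Ph_exists hα (x.2.2 1)
  refine Cardinal.mk_le_of_injective (f := fun x : rray α => (⟨y x, Ph_init hα hβ x.2.1 (hy x),
    fun k => Ph_1 hα hβ (hy x) (x.2.2 (k + 1))⟩ : rray β)) ?_
  intro x x' hxx
  have h1 : y x = y x' := congrArg Subtype.val hxx
  apply Subtype.ext
  exact Ph_inj hα x.2.1 x'.2.1 (hy x) (h1 ▸ hy x')

theorem seg_forw (s t : ℕ) (hs : 1 ≤ s) : #(seg α s t) ≤ #(seg β (s - 1) (t + 1)) := by
  choose y hy using fun x : seg α s t => Ph_exists hα (dm_mono hs x.2.2.1)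
  refine Cardinal.mk_le_of_injective (f := fun x : seg α s t => (⟨y x,
    Ph_init hα hβ x.2.1 (hy x),
    Ph_1 hα hβ (hy x) (by rw [Nat.sub_add_cancel hs]; exact x.2.2.1),
    fun hh => x.2.2.2 (Ph_2 hα hβ (hy x) hh)⟩ : seg β (s - 1) (t + 1))) ?_
  intro x x' hxx
  have h1 : y x = y x' := congrArg Subtype.val hxx
  apply Subtype.ext
  exact Ph_inj hα x.2.1 x'.2.1 (hy x) (h1 ▸ hy x')

theorem lray_forw : #(lray α) ≤ #(lray β) := by
  have e1 : α.symm = v.symm.trans u.symm := by rw [hα, PEquiv.symm_trans_rev]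
  have e2 : β.symm = u.symm.trans v.symm := by rw [hβ, PEquiv.symm_trans_rev]
  have h1 := rray_forw e1 e2
  have e3 : rray α.symm = lray α := by simp only [rray, lray, dm_symm, im_symm]
  have e4 : rray β.symm = lray β := by simp only [rray, lray, dm_symm, im_symm]
  rwa [e3, e4] at h1

theorem p_forw : (∀ n, #(cyc α n) ≤ #(cyc β n)) ∧ #(rray α) ≤ #(rray β) ∧
    #(lray α) ≤ #(lray β) ∧
    ∀ s t, 1 ≤ s → s < t → #(seg α s t) ≤ #(seg β (s - 1) (t + 1)) :=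
  ⟨cyc_forw (comm_u hα hβ) (u_dm hα), rray_forw hα hβ, lray_forw hα hβ,
    fun s t hs _ => seg_forw hα hβ s t hs⟩

end

end Pool.R699.Conj
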