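import Pool.Agent.R699.ConjBase

open Cardinal

namespace Pool.R699.Conj

universe u
variable {X Y : Type u}

theorem so (α : X ≃. X) (x : X) : Sim α x (Quotient.mk (st α) x).out :=
  Quotient.exact (Quotient.out_eq (Quotient.mk (st α) x)).symm

theorem so' (α : X ≃. X) (a a' : Quotient (st α)) (h : Sim α a.out a'.out) : a = a' := by
  rw [← Quotient.out_eq a, ← Quotient.out_eq a']; exact Quotient.sound h

open Classical in
/-- auxiliary map on components with dummies -/
noncomputable def FF (α : X ≃. X) (β : Y ≃. Y) (ψ : X → Y) {E : Type u}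
    (e : Quotient (st α) → E) :
    Quotient (st α) ⊕ (ℕ × E) → Quotient (st β) ⊕ (ℕ × E)
  | .inl a => if NI α a.out then .inl (Quotient.mk (st β) (ψ a.out)) else .inr (0, e a)
  | .inr (n, z) => .inr (n + 1, z)

theorem FF_inj (α : X ≃. X) (β : Y ≃. Y) (ψ : X → Y) {E : Type u}
    (e : Quotient (st α) → E) (he : Function.Injective e)
    (h2 : ∀ x x', NI α x → NI α x' → Sim β (ψ x) (ψ x') → Sim α x x') :
    Function.Injective (FF α β ψ e) := by
  rintro (a | ⟨n, z⟩) (a' | ⟨n', z'⟩) h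
  · simp only [FF] at h
    split_ifs at h with h3 h4 h5
    · have h6 : Sim β (ψ a.out) (ψ a'.out) := Quotient.exact (Sum.inl_injective h)
      rw [so' α a a' (h2 _ _ h3 h4 h6)]
    · have := Sum.inr_injective h
      simp only [Prod.mk.injEq, true_and] at this
      rw [he this]
  · simp only [FF] at h
    split_ifs at h with h3
    have := Sum.inr_injective h
    simp at this
  · simp only [FF] at h
    split_ifs at h with h3
    have := Sum.inr_injective h
    simp at this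
  · simp only [FF] at h
    have := Sum.inr_injective h
    simp only [Prod.mk.injEq, add_left_inj] at this
    rw [this.1, this.2]

/-- compatibility on components with dummies -/
def QQ (α : X ≃. X) (β : Y ≃. Y) (E : Type u) :
    Quotient (st α) ⊕ (ℕ × E) → Quotient (st β) ⊕ (ℕ × E) → Prop
  | .inl a, .inl b => Lk α β a.out b.out
  | .inl a, .inr _ => ¬ NI α a.out
  | .inr _, .inl b => ¬ NI β b.out
  | .inr _, .inr _ => True

theorem p_assemble (α : X ≃. X) (β : Y ≃. Y) (ψ : X → Y) (χ : Y → X)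
    (h1 : ∀ x, NI α x → Lk α β x (ψ x))
    (h2 : ∀ x x', NI α x → NI α x' → Sim β (ψ x) (ψ x') → Sim α x x')
    (h3 : ∀ y, NI β y → Lk β α y (χ y))
    (h4 : ∀ y y', NI β y → NI β y' → Sim α (χ y) (χ y') → Sim β y y') :
    ∃ u : X ≃. Y, ∃ v : Y ≃. X, α = u.trans v ∧ β = v.trans u := by
  classical
  have hF := FF_inj α β ψ (E := Quotient (st α) ⊕ Quotient (st β)) Sum.inl Sum.inl_injective h2
  have hG := FF_inj β α χ (E := Quotient (st α) ⊕ Quotient (st β)) Sum.inr Sum.inr_injective h4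
  obtain ⟨h, hbij, hQ⟩ := Function.Embedding.schroeder_bernstein_of_rel hF hG (QQ α β _)
    (by
      rintro (a | ⟨n, z⟩)
      · simp only [FF]
        split_ifs with h5
        · exact Lk_sim (Sim.refl α _) (so β _) (h1 _ h5)
        · exact h5
      · trivial)
    (by
      rintro (b | ⟨n, z⟩)
      · simp only [FF]
        split_ifs with h5
        · exact Lk_sim (so α _) (Sim.refl β _) (Lk_symm (h3 _ h5))
        · exact h5
      · trivial)
  let ι := {p : Quotient (st α) × Quotient (st β) // h (.inl p.1) = .inl p.2}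
  let x : ι → X := fun i => i.1.1.out
  let y : ι → Y := fun i => i.1.2.out
  have L : ∀ i : ι, Lk α β (x i) (y i) := by
    intro i
    have := hQ (.inl i.1.1)
    rw [i.2] at this
    exact this
  let s : ι → ℤ := fun i => (L i).2.choose
  have hs1 : ∀ i k, D α k (x i) → D α (k + 1) (x i) → D β (k + s i) (y i) :=
    fun i => (L i).2.choose_spec.1
  have hs2 : ∀ i k, D β (k + s i) (y i) → D β (k + s i + 1) (y i) → D α (k + 1) (x i) :=
    fun i => (L i).2.choose_spec.2
  have hp : ∀ i k, R α k (x i) (x i) ↔ R β k (y i) (y i) := fun i => (L i).1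
  have ha : ∀ i j, Sim α (x i) (x j) → i = j := by
    intro i j hij
    have e1 : i.1.1 = j.1.1 := so' α _ _ hij
    have e2 : i.1.2 = j.1.2 := by
      apply Sum.inl_injective (β := ℕ × (Quotient (st α) ⊕ Quotient (st β)))
      rw [← i.2, ← j.2, e1]
    exact Subtype.ext (Prod.ext e1 e2)
  have hb : ∀ i j, Sim β (y i) (y j) → i = j := by
    intro i j hij
    have e2 : i.1.2 = j.1.2 := so' β _ _ hij
    have e1 : i.1.1 = j.1.1 := by
      apply Sum.inl_injective (β := ℕ × (Quotient (st α) ⊕ Quotient (st β)))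
      apply hbij.1
      rw [i.2, j.2, e2]
    exact Subtype.ext (Prod.ext e1 e2)
  have covA : ∀ z, NI α z → ∃ i : ι, Sim α (x i) z := by
    intro z hz
    have hz' := NI_sim (so α z) hz
    cases hh : h (.inl (Quotient.mk (st α) z)) with
    | inl b => exact ⟨⟨(_, b), hh⟩, (so α z).symm⟩
    | inr d =>
      have := hQ (.inl (Quotient.mk (st α) z))
      rw [hh] at this
      exact absurd hz' this
  have covB : ∀ w, NI β w → ∃ i : ι, Sim β (y i) w := by
    intro w hw
    have hw' := NI_sim (so β w) hw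
    obtain ⟨p, hpp⟩ := hbij.2 (.inl (Quotient.mk (st β) w))
    rcases p with a | d
    · exact ⟨⟨(a, _), hpp⟩, (so β w).symm⟩
    · have := hQ (.inr d)
      rw [hpp] at this
      exact absurd hw' this
  obtain ⟨u, hu⟩ := glue α β x y s ha hb hp
  obtain ⟨v, hv⟩ := glue α β x y (fun i => s i - 1) ha hb hp
  refine ⟨u, v.symm, ?_, ?_⟩
  · ext z z'
    rw [PEquiv.trans_eq_some]
    constructor
    · intro hz
      obtain ⟨i, k, hk⟩ := covA z (Or.inl ⟨z', R_one.2 hz⟩)
      have hk1 := R_trans hk (R_one.2 hz)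
      obtain ⟨w, hw⟩ := hs1 i k ⟨_, hk⟩ ⟨_, hk1⟩
      refine ⟨w, (hu _ _).2 ⟨i, k, hk, hw⟩, ?_⟩
      rw [PEquiv.eq_some_iff, hv]
      exact ⟨i, k + 1, hk1, by rwa [show k + 1 + (s i - 1) = k + s i by ring]⟩
    · rintro ⟨w, h5, h6⟩
      rw [PEquiv.eq_some_iff, hv] at h6
      obtain ⟨i', k', h7, h8⟩ := h6
      obtain ⟨i, k, h9, h10⟩ := (hu _ _).1 h5
      obtain rfl := hb i i' ⟨_, R_trans h10 (R_symm h8)⟩
      have h11 := (hp i _).2 (R_trans h10 (R_symm h8))
      have h12 := R_trans (R_trans (R_symm h9) h11) h7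
      rw [show -k + (k + s i + -(k' + (s i - 1))) + k' = 1 by ring] at h12
      exact R_one.1 h12
  · ext w w'
    rw [PEquiv.trans_eq_some]
    constructor
    · intro hw
      obtain ⟨i, j, hj⟩ := covB w (Or.inl ⟨w', R_one.2 hw⟩)
      obtain ⟨k, rfl⟩ : ∃ k, j = k + s i := ⟨j - s i, by ring⟩
      have hj1 := R_trans hj (R_one.2 hw)
      obtain ⟨z, hz⟩ := hs2 i k ⟨_, hj⟩ ⟨_, hj1⟩
      refine ⟨z, ?_, (hu _ _).2 ⟨i, k + 1, hz, by rwa [show k + 1 + s i = k + s i + 1 by ring]⟩⟩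
      rw [PEquiv.eq_some_iff, hv]
      exact ⟨i, k + 1, hz, by rwa [show k + 1 + (s i - 1) = k + s i by ring]⟩
    · rintro ⟨z, h5, h6⟩
      rw [PEquiv.eq_some_iff, hv] at h5
      obtain ⟨i', k', h7, h8⟩ := h5
      obtain ⟨i, k, h9, h10⟩ := (hu _ _).1 h6
      obtain rfl := ha i i' ⟨_, R_trans h9 (R_symm h7)⟩
      have h11 := (hp i _).1 (R_trans h7 (R_symm h9))
      have h12 := R_trans (R_trans (R_symm h8) h11) h10
      rw [show -(k' + (s i - 1)) + (k' + -k) + (k + s i) = 1 by ring] at h12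
      exact R_one.1 h12

theorem c_assemble (α : X ≃. X) (β : Y ≃. Y) (ψ : X → Y)
    (h1 : ∀ x, NI α x → Lc α β x (ψ x))
    (h2 : ∀ x x', NI α x → NI α x' → Sim β (ψ x) (ψ x') → Sim α x x') :
    ∃ g : X ≃. Y, (∀ x, NI α x → ∃ w, g x = some w) ∧ α.trans g = g.trans β := by
  classical
  let ι := {a : Quotient (st α) // NI α a.out}
  let x : ι → X := fun i => i.1.out
  let y : ι → Y := fun i => ψ i.1.out
  have L : ∀ i : ι, Lc α β (x i) (y i) := fun i => h1 _ i.2
  let s : ι → ℤ := fun i => (L i).2.choose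
  have hs1 : ∀ i k, D α k (x i) → D β (k + s i) (y i) :=
    fun i => (L i).2.choose_spec.1
  have hs2 : ∀ i k, D α k (x i) → D β (k + s i + 1) (y i) → D α (k + 1) (x i) :=
    fun i => (L i).2.choose_spec.2
  have hp : ∀ i k, R α k (x i) (x i) ↔ R β k (y i) (y i) := fun i => (L i).1
  have ha : ∀ i j, Sim α (x i) (x j) → i = j := fun i j hij => Subtype.ext (so' α _ _ hij)
  have hb : ∀ i j, Sim β (y i) (y j) → i = j := fun i j hij => ha i j (h2 _ _ i.2 j.2 hij)
  obtain ⟨g, hg⟩ := glue α β x y s ha hb hp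
  refine ⟨g, ?_, ?_⟩
  · intro z hz
    obtain ⟨k, hk⟩ := (so α z).symm
    let i : ι := ⟨_, NI_sim (so α z) hz⟩
    obtain ⟨w, hw⟩ := hs1 i k ⟨_, hk⟩
    exact ⟨w, (hg _ _).2 ⟨i, k, hk, hw⟩⟩
  · ext z w'
    rw [PEquiv.trans_eq_some, PEquiv.trans_eq_some]
    constructor
    · rintro ⟨z', h5, h6⟩
      obtain ⟨i, k, h7, h8⟩ := (hg _ _).1 h6
      have h9 := R_trans h7 (R_symm (R_one.2 h5))
      obtain ⟨w, hw⟩ := hs1 i _ ⟨_, h9⟩
      refine ⟨w, (hg _ _).2 ⟨i, _, h9, hw⟩, ?_⟩
      have h12 := R_trans (R_symm hw) h8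
      rw [show -(k + -1 + s i) + (k + s i) = 1 by ring] at h12
      exact R_one.1 h12
    · rintro ⟨w, h5, h6⟩
      obtain ⟨i, k, h7, h8⟩ := (hg _ _).1 h5
      have h9 := R_trans h8 (R_one.2 h6)
      obtain ⟨z', hz'⟩ := hs2 i k ⟨_, h7⟩ ⟨_, h9⟩
      refine ⟨z', ?_, (hg _ _).2 ⟨i, k + 1, hz', by rwa [show k + 1 + s i = k + s i + 1 by ring]⟩⟩
      have h12 := R_trans (R_symm h7) hz'
      rw [show -k + (k + 1) = 1 by ring] at h12
      exact R_one.1 h12

end Pool.R699.Conj
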