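import Mathlib

open Cardinal

namespace Pool.R699.Conj

universe u

theorem exists_idx (S : Type u) :
    ∃ e : S → Ordinal.{u}, Function.Injective e ∧ ∀ s, #{s' // e s' < e s} < #S := by
  obtain ⟨r, wo, hr⟩ := Cardinal.exists_ord_eq S
  refine ⟨fun s => Ordinal.typein r s, Ordinal.typein_injective r, fun s => ?_⟩
  simp only [Ordinal.typein_lt_typein]
  exact Ordinal.card_typein (r := r) s ▸ Cardinal.card_typein_lt s hr

theorem greedy {A B : Type u} {L : Type*} [LinearOrder L] [WellFoundedLT L] (o : A → L)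
    (ho : Function.Injective o) (T : A → Set B) (h : ∀ a, #{a' // o a' < o a} < #(T a)) :
    ∃ f : A → B, Function.Injective f ∧ ∀ a, f a ∈ T a := by
  classical
  have wf : WellFounded (fun a a' : A => o a < o a') := InvImage.wf o wellFounded_lt
  have key : ∀ (a : A) (F : ∀ a', o a' < o a → B), ∃ b, b ∈ T a ∧ ∀ a' h', F a' h' ≠ b := by
    intro a F
    by_contra hcon
    push Not at hcon
    have : #(T a) ≤ #{a' // o a' < o a} := by
      refine Cardinal.mk_le_of_injective (f := fun b : T a =>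
        (⟨(hcon b.1 b.2).choose, (hcon b.1 b.2).choose_spec.choose⟩ : {a' // o a' < o a})) ?_
      intro b b' hbb
      have e1 := (hcon b.1 b.2).choose_spec.choose_spec
      have e2 := (hcon b'.1 b'.2).choose_spec.choose_spec
      have key : ∀ (p q : {a' // o a' < o a}), p = q → F p.1 p.2 = F q.1 q.2 := by
        rintro p q rfl; rfl
      exact Subtype.ext (e1.symm.trans ((key _ _ hbb).trans e2))
    exact absurd this (not_le.2 (h a))
  choose G hG1 hG2 using key
  let f : A → B := wf.fix G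
  have hf : ∀ a, f a = G a (fun a' _ => f a') := fun a => wf.fix_eq G a
  have hne : ∀ a a', o a < o a' → f a ≠ f a' := by
    intro a a' hlt
    have := hG2 a' (fun a' _ => f a') a hlt
    rwa [← hf] at this
  refine ⟨f, ?_, fun a => by rw [hf]; exact hG1 _ _⟩
  intro a a' haa
  rcases lt_trichotomy (o a) (o a') with h1 | h1 | h1
  · exact absurd haa (hne _ _ h1)
  · exact ho h1
  · exact absurd haa.symm (hne _ _ h1)

theorem match_ge {A B : Type u} {W : Type*} [LinearOrder W] [WellFoundedLT W]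
    (ρ : A → W) (σ : B → W) (h : ∀ a : A, #{a' // ρ a ≤ ρ a'} ≤ #{b // ρ a ≤ σ b}) :
    ∃ f : A → B, Function.Injective f ∧ ∀ a, ρ a ≤ σ (f a) := by
  classical
  let κ : A → Cardinal.{u} := fun a => #{a' // ρ a ≤ ρ a'}
  have kmono : ∀ a a', ρ a ≤ ρ a' → κ a' ≤ κ a := fun a a' hle =>
    Cardinal.mk_le_mk_of_subset (fun x (hx : ρ a' ≤ ρ x) => hle.trans hx)
  choose e he1 he2 using fun c : Cardinal.{u} => exists_idx {a // κ a = c}
  let idx : A → Ordinal.{u} := fun a => e (κ a) ⟨a, rfl⟩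
  have hidx : ∀ a c (hc : κ a = c), idx a = e c ⟨a, hc⟩ := by
    intro a c hc; subst hc; rfl
  let o : A → Cardinal.{u} ×ₗ Ordinal.{u} := fun a => toLex (κ a, idx a)
  have ho : Function.Injective o := by
    intro a a' haa
    have h1 : (κ a, idx a) = (κ a', idx a') := toLex.injective haa
    have h2 : κ a = κ a' := congrArg Prod.fst h1
    have h3 : idx a = idx a' := congrArg Prod.snd h1
    rw [hidx a _ h2, hidx a' _ rfl] at h3
    exact congrArg Subtype.val (he1 _ h3)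
  have hlt : ∀ a a', o a' < o a ↔ κ a' < κ a ∨ κ a' = κ a ∧ idx a' < idx a := by
    intro a a'
    exact Prod.Lex.toLex_lt_toLex
  obtain ⟨f, hf1, hf2⟩ := greedy o ho (fun a => {b | ρ a ≤ σ b}) (by
    intro a
    refine lt_of_lt_of_le ?_ (h a)
    change _ < κ a
    simp only [hlt]
    rcases lt_or_ge (κ a) ℵ₀ with hfin | hinf
    · have hfin' : Set.Finite {a' | ρ a ≤ ρ a'} := Cardinal.lt_aleph0_iff_set_finite.1 hfin
      have hsub : {a' | κ a' < κ a ∨ κ a' = κ a ∧ idx a' < idx a} ⊂ {a' | ρ a ≤ ρ a'} := by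
        refine ⟨?_, fun hcon => ?_⟩
        · intro a' ha'
          by_contra hcon
          have hcon' : ρ a' < ρ a := not_le.1 hcon
          have hle := kmono _ _ hcon'.le
          rcases ha' with h1 | ⟨h1, -⟩
          · exact absurd h1 (not_lt.2 hle)
          · have hfin2 : Set.Finite {x | ρ a' ≤ ρ x} := by
              apply Cardinal.lt_aleph0_iff_set_finite.1
              change κ a' < _
              rw [h1]; exact hfin
            have hss : {x | ρ a ≤ ρ x} ⊂ {x | ρ a' ≤ ρ x} :=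
              ⟨fun x hx => hcon'.le.trans hx, fun h2 => hcon (h2 (show ρ a' ≤ ρ a' from le_rfl))⟩
            have hn := Set.ncard_lt_ncard hss hfin2
            have e1 : κ a = ((Set.ncard {x | ρ a ≤ ρ x} : ℕ) : Cardinal.{u}) :=
              (Set.cast_ncard hfin').symm
            have e2 : κ a' = ((Set.ncard {x | ρ a' ≤ ρ x} : ℕ) : Cardinal.{u}) :=
              (Set.cast_ncard hfin2).symm
            rw [e1, e2] at h1
            have : Set.ncard {x | ρ a' ≤ ρ x} = Set.ncard {x | ρ a ≤ ρ x} := by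
              exact_mod_cast h1
            omega
        · have : a ∈ {a' | κ a' < κ a ∨ κ a' = κ a ∧ idx a' < idx a} := hcon (le_refl (ρ a))
          rcases this with h1 | ⟨-, h1⟩
          · exact lt_irrefl _ h1
          · exact lt_irrefl _ h1
      have hn := Set.ncard_lt_ncard hsub hfin'
      have e1 : κ a = ((Set.ncard {x | ρ a ≤ ρ x} : ℕ) : Cardinal.{u}) :=
        (Set.cast_ncard hfin').symm
      have e2 := Set.cast_ncard (hfin'.subset hsub.1)
      change #({a' | κ a' < κ a ∨ κ a' = κ a ∧ idx a' < idx a} : Set A) < _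
      rw [← e2]
      exact lt_of_lt_of_eq (Nat.cast_lt.2 hn) e1.symm
    · have hsub : ({a' | κ a' < κ a ∨ κ a' = κ a ∧ idx a' < idx a} : Set A) ⊆
          {a' | κ a' < κ a} ∪ {a' | κ a' = κ a ∧ idx a' < idx a} := fun x hx => hx
      refine lt_of_le_of_lt ((Cardinal.mk_le_mk_of_subset hsub).trans (Cardinal.mk_union_le _ _)) ?_
      apply Cardinal.add_lt_of_lt hinf
      · rcases Set.eq_empty_or_nonempty ({a' | κ a' < κ a} : Set A) with he | hne
        · rw [he, Cardinal.mk_emptyCollection]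
          exact lt_of_lt_of_le Cardinal.aleph0_pos hinf
        · obtain ⟨a0, ha0, hmin⟩ := (InvImage.wf ρ wellFounded_lt).has_min _ hne
          refine lt_of_le_of_lt (b := κ a0) ?_ ha0
          apply Cardinal.mk_le_mk_of_subset
          intro x hx
          exact not_lt.1 (hmin x hx)
      · have h1 : #{a' // κ a' = κ a ∧ idx a' < idx a} ≤
            #{s' : {x // κ x = κ a} // e (κ a) s' < e (κ a) ⟨a, rfl⟩} := by
          refine Cardinal.mk_le_of_injective (f := fun p : {a' // κ a' = κ a ∧ idx a' < idx a} =>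
            (⟨⟨p.1, p.2.1⟩, by rw [← hidx p.1 _ p.2.1]; exact p.2.2⟩ :
              {s' : {x // κ x = κ a} // e (κ a) s' < e (κ a) ⟨a, rfl⟩})) ?_
          intro p q hpq
          have h2 := congrArg (fun z => z.1.1) hpq
          exact Subtype.ext h2
        refine lt_of_le_of_lt h1 (lt_of_lt_of_le (he2 _ _) ?_)
        have hne : ({x | κ x = κ a} : Set A).Nonempty := ⟨a, rfl⟩
        obtain ⟨a0, ha0, hmin⟩ := (InvImage.wf ρ wellFounded_lt).has_min _ hne
        have h3 : κ a0 = κ a := ha0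
        rw [← h3]
        apply Cardinal.mk_le_mk_of_subset
        intro x hx
        exact not_lt.1 (hmin x (hx.trans h3)))
  exact ⟨f, hf1, hf2⟩

theorem hall_cond {A B : Type u} (ρ : A → ℕ) (σ : B → ℕ)
    (h : ∀ i j, 2 ≤ i → i ≤ j →
      #{a // i ≤ ρ a ∧ ρ a ≤ j} ≤ #{b // i - 1 ≤ σ b ∧ σ b ≤ j + 1}) (M : Finset ℕ) :
    (∀ m ∈ M, 2 ≤ m) → #{a // ρ a ∈ M} ≤ #{b // ∃ m ∈ M, m - 1 ≤ σ b ∧ σ b ≤ m + 1} := by
  classical
  induction M using Finset.strongInduction with
  | H M ih =>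
    intro hM
    rcases M.eq_empty_or_nonempty with rfl | hne
    · have : IsEmpty {a // ρ a ∈ (∅ : Finset ℕ)} := ⟨fun p => by simpa using p.2⟩
      rw [Cardinal.mk_eq_zero]
      exact zero_le
    · set j := M.max' hne with hj
      have hjM : j ∈ M := M.max'_mem hne
      have hjle : ∀ m ∈ M, m ≤ j := fun m hm => M.le_max' m hm
      have hj2 := hM j hjM
      let N : ℕ → Prop := fun n => ∃ m ∈ M, m - 1 ≤ n ∧ n ≤ m + 1
      have hex : ∃ p, ∀ n, p ≤ n → n ≤ j + 1 → N n :=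
        ⟨j - 1, fun n h1 h2 => ⟨j, hjM, h1, h2⟩⟩
      set p := Nat.find hex with hp
      have hp1 : ∀ n, p ≤ n → n ≤ j + 1 → N n := Nat.find_spec hex
      have hp2 : p ≤ j - 1 := Nat.find_min' hex (fun n h1 h2 => ⟨j, hjM, h1, h2⟩)
      have hp3 : 1 ≤ p := by
        by_contra hcon
        have hp0 : p = 0 := by omega
        obtain ⟨m, hm, h1, -⟩ := hp1 0 (by omega) (by omega)
        have := hM m hm
        omega
      have hp4 : ¬ N (p - 1) := by
        intro hN
        apply Nat.find_min hex (m := p - 1) (by omega)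
        intro n h1 h2
        rcases Nat.eq_or_lt_of_le h1 with h3 | h3
        · rwa [← h3]
        · exact hp1 n (by omega) h2
      have hsub : M.filter (· < p) ⊂ M := by
        refine Finset.filter_ssubset.2 ⟨j, hjM, by omega⟩
      have ih' := ih _ hsub (fun m hm => hM m (Finset.mem_filter.1 hm).1)
      have hh := h (p + 1) j (by omega) (by omega)
      have s1 : {a | ρ a ∈ M} ⊆ {a | ρ a ∈ M.filter (· < p)} ∪ {a | p + 1 ≤ ρ a ∧ ρ a ≤ j} := by
        intro a ha
        have ha' : ρ a ∈ M := ha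
        rcases lt_trichotomy (ρ a) p with h1 | h1 | h1
        · left; exact Finset.mem_filter.2 ⟨ha', h1⟩
        · exact absurd ⟨ρ a, ha', by omega, by omega⟩ hp4
        · right; exact ⟨h1, hjle _ ha'⟩
      have s2 : {b | ∃ m ∈ M.filter (· < p), m - 1 ≤ σ b ∧ σ b ≤ m + 1} ∪
          {b | p + 1 - 1 ≤ σ b ∧ σ b ≤ j + 1} ⊆ {b | ∃ m ∈ M, m - 1 ≤ σ b ∧ σ b ≤ m + 1} := by
        rintro b (⟨m, hm, h1⟩ | ⟨h1, h2⟩)
        · exact ⟨m, (Finset.mem_filter.1 hm).1, h1⟩
        · exact hp1 _ (by omega) h2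
      have s3 : Disjoint {b | ∃ m ∈ M.filter (· < p), m - 1 ≤ σ b ∧ σ b ≤ m + 1}
          {b | p + 1 - 1 ≤ σ b ∧ σ b ≤ j + 1} := by
        rw [Set.disjoint_left]
        rintro b ⟨m, hm, h1, h2⟩ ⟨h3, h4⟩
        obtain ⟨hm1, hm2⟩ := Finset.mem_filter.1 hm
        apply hp4
        exact ⟨m, hm1, by omega, by omega⟩
      calc #{a // ρ a ∈ M}
          ≤ #({a | ρ a ∈ M.filter (· < p)} ∪ {a | p + 1 ≤ ρ a ∧ ρ a ≤ j} : Set A) :=
            Cardinal.mk_le_mk_of_subset s1
        _ ≤ #{a // ρ a ∈ M.filter (· < p)} + #{a // p + 1 ≤ ρ a ∧ ρ a ≤ j} :=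
            Cardinal.mk_union_le _ _
        _ ≤ #{b // ∃ m ∈ M.filter (· < p), m - 1 ≤ σ b ∧ σ b ≤ m + 1} +
            #{b // p + 1 - 1 ≤ σ b ∧ σ b ≤ j + 1} := add_le_add ih' hh
        _ = #({b | ∃ m ∈ M.filter (· < p), m - 1 ≤ σ b ∧ σ b ≤ m + 1} ∪
            {b | p + 1 - 1 ≤ σ b ∧ σ b ≤ j + 1} : Set B) :=
            (Cardinal.mk_union_of_disjoint s3).symm
        _ ≤ _ := Cardinal.mk_le_mk_of_subset s2

/-- splitting an infinite set -/
theorem split_inf {B : Type u} (P : B → Prop) (h : ℵ₀ ≤ #{b // P b}) :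
    ∃ φ : B → ℕ → B, (∀ b n, P b → P (φ b n)) ∧
      ∀ b b' n n', P b → P b' → φ b n = φ b' n' → b = b' ∧ n = n' := by
  classical
  have : #({b // P b} × ℕ) ≤ #{b // P b} := by
    rw [Cardinal.mk_prod, Cardinal.lift_uzero, Cardinal.mk_nat, Cardinal.lift_aleph0]
    exact (Cardinal.mul_aleph0_eq h).le
  obtain ⟨e⟩ := this
  refine ⟨fun b n => if hb : P b then (e (⟨b, hb⟩, n)).1 else b, ?_, ?_⟩
  · intro b n hb
    simp only [dif_pos hb]
    exact (e _).2
  · intro b b' n n' hb hb' heq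
    simp only [dif_pos hb, dif_pos hb'] at heq
    have := e.injective (Subtype.ext heq)
    simp only [Prod.mk.injEq, Subtype.mk.injEq] at this
    exact this

theorem match_near {A B : Type u} (ρ : A → ℕ) (σ : B → ℕ) (hρ : ∀ a, 2 ≤ ρ a)
    (h : ∀ i j, 2 ≤ i → i ≤ j →
      #{a // i ≤ ρ a ∧ ρ a ≤ j} ≤ #{b // i - 1 ≤ σ b ∧ σ b ≤ j + 1}) :
    ∃ f : A → B, Function.Injective f ∧ ∀ a, ρ a ≤ σ (f a) + 1 ∧ σ (f a) ≤ ρ a + 1 := by
  classical
  let Sm : ℕ → Prop := fun m => Set.Finite {b | m - 1 ≤ σ b ∧ σ b ≤ m + 1}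
  -- big classes
  have hbig : ∀ m, 2 ≤ m → ¬ Sm m → ∃ p, m ≤ p + 1 ∧ p ≤ m + 1 ∧ ℵ₀ ≤ #{b // σ b = p} ∧
      ∃ g : A → B, (∀ a, ρ a = m → σ (g a) = p) ∧
        ∀ a a', ρ a = m → ρ a' = m → g a = g a' → a = a' := by
    intro m hm hS
    have h1 : ℵ₀ ≤ #{b // m - 1 ≤ σ b ∧ σ b ≤ m + 1} := by
      rw [← not_lt]
      intro hlt
      exact hS (Cardinal.lt_aleph0_iff_set_finite.1 hlt)
    set S := #{b // m - 1 ≤ σ b ∧ σ b ≤ m + 1} with hSdef
    have h2 : S ≤ #{b // σ b = m - 1} + #{b // σ b = m} + #{b // σ b = m + 1} := by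
      have hsub : ({b | m - 1 ≤ σ b ∧ σ b ≤ m + 1} : Set B) ⊆
          {b | σ b = m - 1} ∪ {b | σ b = m} ∪ {b | σ b = m + 1} := by
        rintro b ⟨hb1, hb2⟩
        simp only [Set.mem_union, Set.mem_ofPred_eq]
        omega
      refine (Cardinal.mk_le_mk_of_subset hsub).trans ((Cardinal.mk_union_le _ _).trans ?_)
      exact add_le_add (Cardinal.mk_union_le _ _) le_rfl
    have h3 : ∃ p, m ≤ p + 1 ∧ p ≤ m + 1 ∧ S ≤ #{b // σ b = p} := by
      by_contra hcon
      push Not at hcon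
      have c1 := hcon (m - 1) (by omega) (by omega)
      have c2 := hcon m (by omega) (by omega)
      have c3 := hcon (m + 1) (by omega) (by omega)
      exact absurd h2 (not_le.2 (Cardinal.add_lt_of_lt h1 (Cardinal.add_lt_of_lt h1 c1 c2) c3))
    obtain ⟨p, hp1, hp2, hp3⟩ := h3
    refine ⟨p, hp1, hp2, h1.trans hp3, ?_⟩
    have h4 : #{a // ρ a = m} ≤ #{b // σ b = p} := by
      refine le_trans ?_ ((h m m hm le_rfl).trans hp3)
      exact Cardinal.mk_le_mk_of_subset (fun a (ha : ρ a = m) => ⟨ha.ge, ha.le⟩)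
    obtain ⟨e⟩ := h4
    have hne : Nonempty {b // σ b = p} := by
      have : #{b // σ b = p} ≠ 0 := by
        intro h0
        have := h1.trans hp3
        rw [h0] at this
        exact absurd this (not_le.2 Cardinal.aleph0_pos)
      exact Cardinal.mk_ne_zero_iff.1 this
    refine ⟨fun a => if ha : ρ a = m then (e ⟨a, ha⟩).1 else hne.some.1, ?_, ?_⟩
    · intro a ha
      simp only [dif_pos ha]
      exact (e _).2
    · intro a a' ha ha' heq
      simp only [dif_pos ha, dif_pos ha'] at heq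
      have := e.injective (Subtype.ext heq)
      exact congrArg Subtype.val this
  -- small classes
  have hsm : ∃ f : {a // Sm (ρ a)} → B, Function.Injective f ∧
      ∀ a, f a ∈ (a.2 : Set.Finite {b | ρ a.1 - 1 ≤ σ b ∧ σ b ≤ ρ a.1 + 1}).toFinset := by
    rw [← Finset.all_card_le_biUnion_card_iff_exists_injective]
    intro s
    let M : Finset ℕ := s.image (fun a => ρ a.1)
    have hc := hall_cond ρ σ h M (by
      intro m hm
      obtain ⟨a, -, rfl⟩ := Finset.mem_image.1 hm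
      exact hρ _)
    have e1 : #{b // ∃ m ∈ M, m - 1 ≤ σ b ∧ σ b ≤ m + 1} =
        ((s.biUnion (fun a => (a.2 : Set.Finite
          {b | ρ a.1 - 1 ≤ σ b ∧ σ b ≤ ρ a.1 + 1}).toFinset)).card : Cardinal.{u}) := by
      rw [← Cardinal.mk_coe_finset]
      apply congrArg
      have : ∀ b, (∃ m ∈ M, m - 1 ≤ σ b ∧ σ b ≤ m + 1) ↔ b ∈ s.biUnion (fun a =>
          (a.2 : Set.Finite {b | ρ a.1 - 1 ≤ σ b ∧ σ b ≤ ρ a.1 + 1}).toFinset) := by
        intro b
        simp only [M, Finset.mem_image, Finset.mem_biUnion, Set.Finite.mem_toFinset,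
          Set.mem_ofPred_eq]
        constructor
        · rintro ⟨m, ⟨a, ha, rfl⟩, h1⟩
          exact ⟨a, ha, h1⟩
        · rintro ⟨a, ha, h1⟩
          exact ⟨_, ⟨a, ha, rfl⟩, h1⟩
      simp only [this]
    have e2 : (s.card : Cardinal.{u}) ≤ #{a // ρ a ∈ M} := by
      rw [← Cardinal.mk_coe_finset]
      refine Cardinal.mk_le_of_injective (f := fun a : s => (⟨a.1.1, Finset.mem_image.2
        ⟨a.1, a.2, rfl⟩⟩ : {a // ρ a ∈ M})) ?_
      intro a a' haa
      have := congrArg Subtype.val haa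
      exact Subtype.ext (Subtype.ext this)
    have := (e2.trans hc).trans e1.le
    exact_mod_cast this
  obtain ⟨f1, hf1, hf1'⟩ := hsm
  choose p hp1 hp2 hp3 g hg1 hg2 using hbig
  choose φ hφ1 hφ2 using fun (q : ℕ) (hq : ℵ₀ ≤ #{b // σ b = q}) => split_inf (fun b => σ b = q) hq
  let f : A → B := fun a => if hS : Sm (ρ a) then f1 ⟨a, hS⟩ else
    φ (p (ρ a) (hρ a) hS) (hp3 (ρ a) (hρ a) hS) (g (ρ a) (hρ a) hS a) (ρ a)
  have hfs : ∀ a (hS : Sm (ρ a)), f a = f1 ⟨a, hS⟩ := fun a hS => dif_pos hS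
  have hfb : ∀ a m (hm : ρ a = m) (h2 : 2 ≤ m) (hS : ¬ Sm m), f a =
      φ (p m h2 hS) (hp3 m h2 hS) (g m h2 hS a) m := by
    intro a m hm h2 hS
    subst hm
    exact dif_neg hS
  have hns : ∀ a (hS : Sm (ρ a)), ρ a - 1 ≤ σ (f a) ∧ σ (f a) ≤ ρ a + 1 := by
    intro a hS
    rw [hfs a hS]
    have := hf1' ⟨a, hS⟩
    rw [Set.Finite.mem_toFinset] at this
    exact this
  have hnb : ∀ a m (hm : ρ a = m) (h2 : 2 ≤ m) (hS : ¬ Sm m), σ (f a) = p m h2 hS := by
    intro a m hm h2 hS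
    rw [hfb a m hm h2 hS]
    exact hφ1 _ _ _ _ (hg1 _ _ _ _ hm)
  have cross : ∀ a a', Sm (ρ a) → ¬ Sm (ρ a') → f a ≠ f a' := by
    intro a a' hS hS' heq
    have h1 := hns a hS
    have h2 := hp3 (ρ a') (hρ a') hS'
    rw [← hnb a' _ rfl (hρ a') hS', ← heq] at h2
    have h3 : #{b // σ b = σ (f a)} < ℵ₀ := by
      apply Cardinal.lt_aleph0_iff_set_finite.2
      refine Set.Finite.subset hS ?_
      intro b (hb : σ b = σ (f a))
      exact ⟨by rw [hb]; exact h1.1, by rw [hb]; exact h1.2⟩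
    exact absurd h2 (not_le.2 h3)
  refine ⟨f, ?_, ?_⟩
  · intro a a' heq
    by_cases hS : Sm (ρ a) <;> by_cases hS' : Sm (ρ a')
    · rw [hfs a hS, hfs a' hS'] at heq
      exact congrArg Subtype.val (hf1 heq)
    · exact absurd heq (cross _ _ hS hS')
    · exact absurd heq.symm (cross _ _ hS' hS)
    · have e1 := hnb a _ rfl (hρ a) hS
      have e2 := hnb a' _ rfl (hρ a') hS'
      have h1 := hfb a _ rfl (hρ a) hS
      have h2 := hfb a' _ rfl (hρ a') hS'
      have e3 : p (ρ a) (hρ a) hS = p (ρ a') (hρ a') hS' := by rw [← e1, ← e2, heq]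
      have key : ∀ q q' (hq : ℵ₀ ≤ #{b // σ b = q}) (hq' : ℵ₀ ≤ #{b // σ b = q'}) b b' n n',
          q = q' → σ b = q → σ b' = q' → φ q hq b n = φ q' hq' b' n' → b = b' ∧ n = n' := by
        intro q q' hq hq' b b' n n' hqq hb hb' hh
        subst hqq
        exact hφ2 q hq b b' n n' hb hb' hh
      obtain ⟨h3, h4⟩ := key _ _ _ _ _ _ _ _ e3 (hg1 _ _ _ _ rfl) (hg1 _ _ _ _ rfl)
        (h1.symm.trans (heq.trans h2))
      have h5 : ∀ m (hm : ρ a = m) (h2 : 2 ≤ m) (hS2 : ¬ Sm m), g (ρ a) (hρ a) hS a = g m h2 hS2 a := by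
        intro m hm h2 hS2
        subst hm; rfl
      rw [h5 (ρ a') h4 (hρ a') hS'] at h3
      exact hg2 _ _ _ _ _ h4 rfl h3
  · intro a
    by_cases hS : Sm (ρ a)
    · have := hns a hS
      omega
    · have h1 := hnb a _ rfl (hρ a) hS
      have h2 := hp1 (ρ a) (hρ a) hS
      have h3 := hp2 (ρ a) (hρ a) hS
      omega

end Pool.R699.Conj
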