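import Pool.Agent.R699.ConjGlue
import Pool.Agent.R699.ConjMatch

open Cardinal

namespace Pool.R699.Conj

universe u
variable {X Y : Type u}

/-- For `n ≥ 1`: the set of `n`-cycles of `α`; for `n = 0`: the set of double rays of `α`
(as sets of points). -/
def cyc (α : X ≃. X) (n : ℕ) : Set (Set X) :=
  {C | ∃ x, (∀ k, x ∈ dm α k ∧ x ∈ im α k) ∧ (∀ k, pw α k x = some x ↔ n ∣ k) ∧ C = comp α x}

/-- Initial points of right rays. -/
def rray (α : X ≃. X) : Set X := {x | x ∉ im α 1 ∧ ∀ k, x ∈ dm α k}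

/-- Terminal points of left rays. -/
def lray (α : X ≃. X) : Set X := {x | x ∉ dm α 1 ∧ ∀ k, x ∈ im α k}

/-- Initial points of the finite chains with `m` points, `s < m ≤ t`. -/
def seg (α : X ≃. X) (s t : ℕ) : Set X := {x | x ∉ im α 1 ∧ x ∈ dm α s ∧ x ∉ dm α t}

/-- forward infinite -/
def FI (α : X ≃. X) (x : X) : Prop := ∀ k, x ∈ dm α k
/-- backward infinite -/
def BI (α : X ≃. X) (x : X) : Prop := ∀ k, x ∈ im α k

theorem FI_iff {α : X ≃. X} {x : X} : FI α x ↔ ∀ k : ℤ, 0 ≤ k → D α k x := by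
  constructor
  · intro h k hk
    obtain ⟨n, rfl⟩ := Int.eq_ofNat_of_zero_le hk
    exact D_nat.2 (h n)
  · intro h k
    exact D_nat.1 (h k (by omega))

theorem BI_iff {α : X ≃. X} {x : X} : BI α x ↔ ∀ k : ℤ, k ≤ 0 → D α k x := by
  constructor
  · intro h k hk
    obtain ⟨n, hn⟩ := Int.eq_ofNat_of_zero_le (show 0 ≤ -k by omega)
    have : k = -n := by omega
    subst this
    exact D_neg.2 (h n)
  · intro h k
    exact D_neg.1 (h (-k) (by omega))

theorem FI_sim {α : X ≃. X} {x x' : X} (h : Sim α x x') (hx : FI α x) : FI α x' := by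
  obtain ⟨j, hj⟩ := h
  rw [FI_iff] at hx ⊢
  intro k hk
  rw [D_shift hj]
  by_cases h0 : 0 ≤ k + j
  · exact hx _ h0
  · exact D_down (by omega) (by omega : j ≤ k + j) ⟨_, hj⟩

theorem BI_sim {α : X ≃. X} {x x' : X} (h : Sim α x x') (hx : BI α x) : BI α x' := by
  obtain ⟨j, hj⟩ := h
  rw [BI_iff] at hx ⊢
  intro k hk
  rw [D_shift hj]
  by_cases h0 : k + j ≤ 0
  · exact hx _ h0
  · exact D_up (by omega) (by omega : k + j ≤ j) ⟨_, hj⟩

theorem D_all {α : X ≃. X} {x : X} (h1 : FI α x) (h2 : BI α x) (k : ℤ) : D α k x := by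
  rcases le_total 0 k with h | h
  · exact FI_iff.1 h1 k h
  · exact BI_iff.1 h2 k h

theorem D_succ {α : X ≃. X} {x : X} (h1 : FI α x) {k : ℤ} (h : D α k x) : D α (k + 1) x := by
  by_cases h0 : 0 ≤ k + 1
  · exact FI_iff.1 h1 _ h0
  · exact D_down (by omega) (by omega : k ≤ k + 1) h

theorem init_exists {α : X ≃. X} {x : X} (h : ¬ BI α x) :
    ∃ x0, x0 ∉ im α 1 ∧ Sim α x0 x := by
  classical
  have hex : ∃ k, x ∉ im α k := by
    by_contra hcon; push Not at hcon; exact h hcon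
  have h1 := Nat.find_spec hex
  have h2 : Nat.find hex ≠ 0 := by
    intro h0
    rw [h0] at h1
    exact h1 ⟨x, pw_zero α x⟩
  obtain ⟨n, hn⟩ := Nat.exists_eq_succ_of_ne_zero h2
  have h3 : x ∈ im α n := by
    by_contra hcon
    exact Nat.find_min hex (m := n) (by omega) hcon
  obtain ⟨x0, hx0⟩ := h3
  refine ⟨x0, ?_, ⟨n, R_nat.2 hx0⟩⟩
  rintro ⟨z, hz⟩
  apply h1
  rw [hn, Nat.succ_eq_add_one, add_comm]
  exact ⟨z, pw_comp hz hx0⟩

theorem term_exists {α : X ≃. X} {x : X} (h : ¬ FI α x) :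
    ∃ x0, x0 ∉ dm α 1 ∧ Sim α x0 x := by
  classical
  have hex : ∃ k, x ∉ dm α k := by
    by_contra hcon; push Not at hcon; exact h hcon
  have h1 := Nat.find_spec hex
  have h2 : Nat.find hex ≠ 0 := by
    intro h0
    rw [h0] at h1
    exact h1 ⟨x, pw_zero α x⟩
  obtain ⟨n, hn⟩ := Nat.exists_eq_succ_of_ne_zero h2
  have h3 : x ∈ dm α n := by
    by_contra hcon
    exact Nat.find_min hex (m := n) (by omega) hcon
  obtain ⟨x0, hx0⟩ := h3
  refine ⟨x0, ?_, ⟨-n, R_neg.2 hx0⟩⟩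
  rintro ⟨z, hz⟩
  apply h1
  rw [hn, Nat.succ_eq_add_one]
  exact ⟨z, pw_comp hx0 hz⟩

theorem not_im_D {α : X ≃. X} {x : X} (h : x ∉ im α 1) {k : ℤ} (hk : D α k x) : 0 ≤ k := by
  by_contra hcon
  apply h
  have := D_down (by norm_num) (by omega : k ≤ -1) hk
  exact D_neg.1 (by exact_mod_cast this)

theorem not_dm_D {α : X ≃. X} {x : X} (h : x ∉ dm α 1) {k : ℤ} (hk : D α k x) : k ≤ 0 := by
  by_contra hcon
  apply h
  have := D_up (by norm_num) (by omega : (1 : ℤ) ≤ k) hk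
  exact D_nat.1 (by exact_mod_cast this)

theorem init_unique {α : X ≃. X} {x y : X} (hx : x ∉ im α 1) (hy : y ∉ im α 1)
    (h : Sim α x y) : x = y := by
  obtain ⟨k, hk⟩ := h
  have h1 := not_im_D hx ⟨_, hk⟩
  have h2 := not_im_D hy ⟨_, R_symm hk⟩
  have : k = 0 := by omega
  subst this
  exact R_zero hk

theorem term_unique {α : X ≃. X} {x y : X} (hx : x ∉ dm α 1) (hy : y ∉ dm α 1)
    (h : Sim α x y) : x = y := by
  obtain ⟨k, hk⟩ := h
  have h1 := not_dm_D hx ⟨_, hk⟩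
  have h2 := not_dm_D hy ⟨_, R_symm hk⟩
  have : k = 0 := by omega
  subst this
  exact R_zero hk

theorem R_self_init {α : X ≃. X} {x : X} (hx : x ∉ im α 1) (k : ℤ) : R α k x x ↔ k = 0 := by
  constructor
  · intro h
    have h1 := not_im_D hx ⟨_, h⟩
    have h2 := not_im_D hx ⟨_, R_symm h⟩
    omega
  · rintro rfl; exact R_refl α x

theorem R_self_term {α : X ≃. X} {x : X} (hx : x ∉ dm α 1) (k : ℤ) : R α k x x ↔ k = 0 := by
  constructor
  · intro h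
    have h1 := not_dm_D hx ⟨_, h⟩
    have h2 := not_dm_D hx ⟨_, R_symm h⟩
    omega
  · rintro rfl; exact R_refl α x

theorem not_im_BI {α : X ≃. X} {x : X} (hx : x ∉ im α 1) : ¬ BI α x := fun h => hx (h 1)
theorem not_dm_FI {α : X ≃. X} {x : X} (hx : x ∉ dm α 1) : ¬ FI α x := fun h => hx (h 1)

theorem Lk_init {α : X ≃. X} {β : Y ≃. Y} {x : X} {y : Y} (hx : x ∉ im α 1) (hy : y ∉ im β 1)
    (h1 : ∀ k, x ∈ dm α (k + 1) → y ∈ dm β k) (h2 : ∀ k, y ∈ dm β (k + 1) → x ∈ dm α k) :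
    Lk α β x y := by
  refine ⟨fun k => by rw [R_self_init hx, R_self_init hy], ?_⟩
  by_cases h3 : ∀ k, y ∈ dm β k → x ∈ dm α k
  · refine ⟨0, ?_, ?_⟩
    · intro k hk hk1
      have h0 := not_im_D hx hk
      obtain ⟨n, rfl⟩ := Int.eq_ofNat_of_zero_le h0
      rw [add_zero]
      exact D_nat.2 (h1 n (D_nat.1 (by exact_mod_cast hk1)))
    · intro k hk hk1
      rw [add_zero] at hk hk1
      have h0 := not_im_D hy hk
      obtain ⟨n, rfl⟩ := Int.eq_ofNat_of_zero_le h0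
      have := h3 (n + 1) (D_nat.1 (by exact_mod_cast hk1))
      exact_mod_cast D_nat.2 this
  · push Not at h3
    obtain ⟨k0, hk0, hk0'⟩ := h3
    have h4 : ∀ j, x ∈ dm α j → y ∈ dm β j := by
      intro j hj
      rcases le_total j k0 with h | h
      · exact dm_mono h hk0
      · exact absurd (dm_mono h hj) hk0'
    refine ⟨1, ?_, ?_⟩
    · intro k hk hk1
      have h0 := not_im_D hx hk1
      obtain ⟨n, hn⟩ := Int.eq_ofNat_of_zero_le h0
      rw [hn] at hk1 ⊢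
      exact D_nat.2 (h4 n (D_nat.1 hk1))
    · intro k hk hk1
      have h0 := not_im_D hy hk
      obtain ⟨n, hn⟩ := Int.eq_ofNat_of_zero_le h0
      rw [hn] at hk1 ⊢
      exact D_nat.2 (h2 n (D_nat.1 (by exact_mod_cast hk1)))

theorem Lk_left {α : X ≃. X} {β : Y ≃. Y} {x : X} {y : Y} (hx : x ∈ lray α) (hy : y ∈ lray β) :
    Lk α β x y := by
  refine ⟨fun k => by rw [R_self_term hx.1, R_self_term hy.1], 0, ?_, ?_⟩
  · intro k hk _
    rw [add_zero]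
    exact BI_iff.1 hy.2 _ (not_dm_D hx.1 hk)
  · intro k _ hk
    rw [add_zero] at hk
    exact BI_iff.1 hx.2 _ (not_dm_D hy.1 hk)

theorem R_self_per {α : X ≃. X} {x : X} {n : ℕ} (h : ∀ k, pw α k x = some x ↔ n ∣ k) (k : ℤ) :
    R α k x x ↔ (n : ℤ) ∣ k := by
  obtain ⟨m, rfl | rfl⟩ := Int.eq_nat_or_neg k
  · rw [R_nat, h, Int.natCast_dvd_natCast]
  · rw [R_neg, h, Int.dvd_neg, Int.natCast_dvd_natCast]

theorem per_exists (α : X ≃. X) (x : X) : ∃ n : ℕ, ∀ k : ℤ, R α k x x ↔ (n : ℤ) ∣ k := by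
  let H : AddSubgroup ℤ :=
    { carrier := {k | R α k x x}
      add_mem' := fun h1 h2 => R_trans h1 h2
      zero_mem' := R_refl α x
      neg_mem' := fun h => R_symm h }
  obtain ⟨a, ha⟩ := Int.subgroup_cyclic H
  refine ⟨a.natAbs, fun k => ?_⟩
  have h1 : k ∈ H ↔ R α k x x := Iff.rfl
  rw [← h1, ha, AddSubgroup.mem_closure_singleton, Int.natAbs_dvd]
  constructor
  · rintro ⟨n, rfl⟩
    exact Dvd.intro_left n (by simp)
  · rintro ⟨n, rfl⟩
    exact ⟨n, by simp [mul_comm]⟩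

/-- Elements of period `n` and two-sided infinite. -/
def Pn (α : X ≃. X) (n : ℕ) (x : X) : Prop :=
  FI α x ∧ BI α x ∧ ∀ k : ℤ, R α k x x ↔ (n : ℤ) ∣ k

theorem mem_cyc {α : X ≃. X} {n : ℕ} {C : Set X} : C ∈ cyc α n ↔ ∃ x, Pn α n x ∧ C = comp α x := by
  constructor
  · rintro ⟨x, h1, h2, h3⟩
    exact ⟨x, ⟨fun k => (h1 k).1, fun k => (h1 k).2, R_self_per h2⟩, h3⟩
  · rintro ⟨x, ⟨h1, h2, h3⟩, h4⟩
    refine ⟨x, fun k => ⟨h1 k, h2 k⟩, fun k => ?_, h4⟩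
    rw [← R_nat, h3, Int.natCast_dvd_natCast]

theorem Pn_sim {α : X ≃. X} {n : ℕ} {x x' : X} (h : Sim α x x') (hx : Pn α n x) : Pn α n x' :=
  ⟨FI_sim h hx.1, BI_sim h hx.2.1, fun k => by rw [← per_sim h]; exact hx.2.2 k⟩

theorem comp_mem_cyc {α : X ≃. X} {n : ℕ} {x : X} : comp α x ∈ cyc α n ↔ Pn α n x := by
  rw [mem_cyc]
  constructor
  · rintro ⟨x', h, h'⟩
    exact Pn_sim (sim_iff_comp.2 h'.symm) h
  · intro h; exact ⟨x, h, rfl⟩

theorem Pn_unique {α : X ≃. X} {m n : ℕ} {x : X} (h : Pn α m x) (h' : Pn α n x) : m = n := by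
  apply Nat.dvd_antisymm
  · exact Int.natCast_dvd_natCast.1 ((h.2.2 n).1 ((h'.2.2 n).2 dvd_rfl))
  · exact Int.natCast_dvd_natCast.1 ((h'.2.2 m).1 ((h.2.2 m).2 dvd_rfl))

theorem Lk_cyc {α : X ≃. X} {β : Y ≃. Y} {n : ℕ} {x : X} {y : Y} (hx : Pn α n x)
    (hy : Pn β n y) : Lk α β x y :=
  ⟨fun k => by rw [hx.2.2, hy.2.2], 0, fun k _ _ => D_all hy.1 hy.2.1 _,
    fun k _ _ => D_all hx.1 hx.2.1 _⟩

theorem Lc_cyc {α : X ≃. X} {β : Y ≃. Y} {n : ℕ} {x : X} {y : Y} (hx : Pn α n x)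
    (hy : Pn β n y) : Lc α β x y :=
  ⟨fun k => by rw [hx.2.2, hy.2.2], 0, fun k _ => D_all hy.1 hy.2.1 _,
    fun k _ _ => D_all hx.1 hx.2.1 _⟩

theorem Lc_term {α : X ≃. X} {β : Y ≃. Y} {x : X} {y : Y} (hx : x ∉ dm α 1) (hy : y ∉ dm β 1)
    (h : ∀ k, x ∈ im α k → y ∈ im β k) : Lc α β x y := by
  refine ⟨fun k => by rw [R_self_term hx, R_self_term hy], 0, ?_, ?_⟩
  · intro k hk
    have h0 := not_dm_D hx hk
    obtain ⟨n, hn⟩ := Int.eq_ofNat_of_zero_le (show 0 ≤ -k by omega)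
    have : k = -n := by omega
    subst this
    rw [add_zero]
    exact D_neg.2 (h n (D_neg.1 hk))
  · intro k hk hk1
    rw [add_zero] at hk1
    have h0 := not_dm_D hy hk1
    exact D_down h0 (by omega : k ≤ k + 1) hk

/-- Forward infinite aperiodic components. -/
def Fr (α : X ≃. X) (x : X) : Prop := FI α x ∧ ∀ k : ℤ, R α k x x ↔ k = 0

theorem Fr_sim {α : X ≃. X} {x x' : X} (h : Sim α x x') (hx : Fr α x) : Fr α x' :=
  ⟨FI_sim h hx.1, fun k => by rw [← per_sim h]; exact hx.2 k⟩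

theorem Lc_Fr {α : X ≃. X} {β : Y ≃. Y} {x : X} {y : Y} (hx : Fr α x) (hy : Fr β y)
    (h : BI α x → BI β y) : Lc α β x y := by
  by_cases hb : BI β y
  · exact ⟨fun k => by rw [hx.2, hy.2], 0, fun k _ => D_all hy.1 hb _,
      fun k hk _ => D_succ hx.1 hk⟩
  · obtain ⟨x0, hx0, hx0'⟩ := init_exists (fun h' => hb (h h'))
    obtain ⟨y0, hy0, hy0'⟩ := init_exists hb
    refine Lc_sim hx0' hy0' ⟨fun k => by rw [R_self_init hx0, R_self_init hy0], 0, ?_, ?_⟩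
    · intro k hk
      rw [add_zero]
      exact FI_iff.1 (FI_sim hy0'.symm hy.1) _ (not_im_D hx0 hk)
    · intro k hk _
      exact D_succ (FI_sim hx0'.symm hx.1) hk

/-- The set of forward infinite aperiodic components. -/
def FR (α : X ≃. X) : Set (Set X) := {C | ∃ x, Fr α x ∧ C = comp α x}

theorem comp_mem_FR {α : X ≃. X} {x : X} : comp α x ∈ FR α ↔ Fr α x := by
  constructor
  · rintro ⟨x', h, h'⟩
    exact Fr_sim (sim_iff_comp.2 h'.symm) h
  · intro h; exact ⟨x, h, rfl⟩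

theorem card_FR (α : X ≃. X) : #(FR α) = #(rray α) + #(cyc α 0) := by
  have h1 : FR α = (comp α '' rray α) ∪ cyc α 0 := by
    ext C
    constructor
    · rintro ⟨x, hx, rfl⟩
      by_cases hb : BI α x
      · right
        rw [comp_mem_cyc]
        exact ⟨hx.1, hb, fun k => by rw [hx.2]; simp⟩
      · left
        obtain ⟨x0, hx0, hx0'⟩ := init_exists hb
        exact ⟨x0, ⟨hx0, FI_sim hx0'.symm hx.1⟩, sim_iff_comp.1 hx0'⟩
    · rintro (⟨x, hx, rfl⟩ | h)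
      · exact ⟨x, ⟨hx.2, R_self_init hx.1⟩, rfl⟩
      · obtain ⟨x, hx, rfl⟩ := mem_cyc.1 h
        exact ⟨x, ⟨hx.1, fun k => by rw [hx.2.2]; simp⟩, rfl⟩
  have h2 : Disjoint (comp α '' rray α) (cyc α 0) := by
    rw [Set.disjoint_left]
    rintro _ ⟨x, hx, rfl⟩ h
    rw [comp_mem_cyc] at h
    exact not_im_BI hx.1 h.2.1
  rw [h1, Cardinal.mk_union_of_disjoint h2]
  congr 1
  apply Cardinal.mk_image_eq_of_injOn
  intro x hx y hy hxy
  exact init_unique hx.1 hy.1 (sim_iff_comp.2 hxy)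

end Pool.R699.Conj
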