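import Mathlib

/-!
# Dense subfields of the real closure of `ℚ(t)`: bounds
-/

namespace Pool.Agent.R699.DenseSub

open Polynomial IntermediateField

variable {K : Type*} [Field K] [LinearOrder K] [IsStrictOrderedRing K]

theorem root_bound (p : K[X]) (hp : p.Monic) (x : K) (hx : p.eval x = 0) :
    |x| ≤ 1 + ∑ i ∈ Finset.range p.natDegree, |p.coeff i| := by
  have hsum : 0 ≤ ∑ i ∈ Finset.range p.natDegree, |p.coeff i| :=
    Finset.sum_nonneg fun _ _ => abs_nonneg _
  by_cases h1 : |x| ≤ 1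
  · linarith
  · push Not at h1
    have hn : p.natDegree ≠ 0 := by
      intro h0
      rw [Polynomial.eq_one_of_monic_natDegree_zero hp h0] at hx
      simp at hx
    obtain ⟨n, hn'⟩ : ∃ n, p.natDegree = n + 1 := ⟨p.natDegree - 1, by omega⟩
    have h2 : x ^ (n + 1) = - ∑ i ∈ Finset.range (n + 1), p.coeff i * x ^ i := by
      rw [Polynomial.eval_eq_sum_range, hn', Finset.sum_range_succ] at hx
      have : p.coeff (n + 1) = 1 := by rw [← hn']; exact hp
      rw [this, one_mul] at hx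
      linear_combination hx
    have h3 : |x| ^ (n + 1) ≤ (∑ i ∈ Finset.range (n + 1), |p.coeff i|) * |x| ^ n := by
      rw [← abs_pow, h2, abs_neg]
      refine (Finset.abs_sum_le_sum_abs _ _).trans ?_
      rw [Finset.sum_mul]
      apply Finset.sum_le_sum
      intro i hi
      rw [abs_mul, abs_pow]
      apply mul_le_mul_of_nonneg_left _ (abs_nonneg _)
      exact pow_le_pow_right₀ h1.le (by have := Finset.mem_range.1 hi; omega)
    have h4 : 0 < |x| ^ n := pow_pos (by linarith) n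
    rw [pow_succ, mul_comm] at h3
    have h5 := le_of_mul_le_mul_right h3 h4
    rw [hn']
    linarith

/-- elements algebraic over `ℚ` are bounded by natural numbers -/
theorem alg_bdd {x : K} (hx : IsAlgebraic ℚ x) : ∃ n : ℕ, |x| < n := by
  have hint : IsIntegral ℚ x := hx.isIntegral
  have h1 := root_bound ((minpoly ℚ x).map (algebraMap ℚ K)) ((minpoly.monic hint).map _) x (by
    rw [Polynomial.eval_map_algebraMap, minpoly.aeval])
  rw [Polynomial.natDegree_map] at h1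
  have h2 : 1 + ∑ i ∈ Finset.range (minpoly ℚ x).natDegree,
      |((minpoly ℚ x).map (algebraMap ℚ K)).coeff i| =
      ((1 + ∑ i ∈ Finset.range (minpoly ℚ x).natDegree, |(minpoly ℚ x).coeff i| : ℚ) : K) := by
    push_cast
    congr 1
    apply Finset.sum_congr rfl
    intro i _
    rw [Polynomial.coeff_map, eq_ratCast]
  rw [h2] at h1
  obtain ⟨n, hn⟩ := exists_nat_gt (1 + ∑ i ∈ Finset.range (minpoly ℚ x).natDegree,
    |(minpoly ℚ x).coeff i|)
  refine ⟨n, lt_of_le_of_lt h1 ?_⟩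
  exact_mod_cast hn

variable (t : K) (ht : ∀ n : ℕ, (n : K) < t)

/-- elements bounded by a power of `t` -/
def V (ht : ∀ n : ℕ, (n : K) < t) : Subring K where
  carrier := {x | ∃ R : ℕ, |x| ≤ t ^ R}
  mul_mem' := by
    rintro x y ⟨R, hR⟩ ⟨S, hS⟩
    refine ⟨R + S, ?_⟩
    rw [abs_mul, pow_add]
    exact mul_le_mul hR hS (abs_nonneg _) ((abs_nonneg _).trans hR)
  one_mem' := ⟨0, by simp⟩
  add_mem' := by
    rintro x y ⟨R, hR⟩ ⟨S, hS⟩
    refine ⟨max R S + 1, ?_⟩
    have h2 : (2 : K) ≤ t := by exact_mod_cast (ht 2).le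
    have h1 : (1 : K) ≤ t := by linarith
    have h3 : t ^ R ≤ t ^ (max R S) := pow_le_pow_right₀ h1 (le_max_left _ _)
    have h4 : t ^ S ≤ t ^ (max R S) := pow_le_pow_right₀ h1 (le_max_right _ _)
    have h5 : 0 < t ^ (max R S) := pow_pos (by linarith) _
    calc |x + y| ≤ |x| + |y| := abs_add_le _ _
      _ ≤ 2 * t ^ (max R S) := by linarith
      _ ≤ t * t ^ (max R S) := mul_le_mul_of_nonneg_right h2 h5.le
      _ = _ := by rw [pow_succ, mul_comm]
  zero_mem' := ⟨0, by simp⟩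
  neg_mem' := by
    rintro x ⟨R, hR⟩
    exact ⟨R, by rwa [abs_neg]⟩

theorem mem_V {x : K} : x ∈ V t ht ↔ ∃ R : ℕ, |x| ≤ t ^ R := Iff.rfl

theorem rat_mem_V (q : ℚ) : (q : K) ∈ V t ht := by
  obtain ⟨n, hn⟩ := exists_nat_gt |q|
  refine ⟨1, ?_⟩
  rw [pow_one]
  have h1 : |(q : K)| < n := by
    have : ((|q| : ℚ) : K) < ((n : ℚ) : K) := by exact_mod_cast hn
    simpa using this
  exact (h1.trans (ht n)).le

theorem t_mem_V : t ∈ V t ht := by
  refine ⟨1, ?_⟩
  rw [pow_one, abs_of_pos]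
  exact_mod_cast ht 0

theorem aeval_mem_V (P : ℚ[X]) : aeval t P ∈ V t ht := by
  rw [Polynomial.aeval_eq_sum_range]
  apply Subring.sum_mem
  intro i _
  rw [Algebra.smul_def, eq_ratCast]
  exact Subring.mul_mem _ (rat_mem_V t ht _) (Subring.pow_mem _ (t_mem_V t ht) _)

include ht in
theorem aeval_lower (P : ℚ[X]) (hP : P ≠ 0) : ∃ n : ℕ, 1 ≤ |aeval t P| * n := by
  have h0 : (0 : K) < t := by exact_mod_cast ht 0
  have h1 : (1 : K) ≤ t := by exact_mod_cast (ht 1).le
  have hlead : P.leadingCoeff ≠ 0 := leadingCoeff_ne_zero.2 hP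
  rcases Nat.eq_zero_or_pos P.natDegree with h | h
  · rw [Polynomial.eq_C_of_natDegree_eq_zero h]
    have hc : P.coeff 0 ≠ 0 := by
      rw [Polynomial.leadingCoeff, h] at hlead; exact hlead
    obtain ⟨n, hn⟩ := exists_nat_gt (|P.coeff 0|⁻¹)
    refine ⟨n, ?_⟩
    rw [aeval_C, eq_ratCast]
    have h3 : 0 < |P.coeff 0| := abs_pos.2 hc
    have h2 : (1 : ℚ) ≤ |P.coeff 0| * n := by
      rw [inv_lt_iff_one_lt_mul₀ h3] at hn
      linarith [mul_comm (n : ℚ) |P.coeff 0|]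
    have h4 : ((1 : ℚ) : K) ≤ ((|P.coeff 0| * n : ℚ) : K) := by exact_mod_cast h2
    simpa using h4
  · obtain ⟨m, hm⟩ : ∃ m, P.natDegree = m + 1 := ⟨P.natDegree - 1, by omega⟩
    refine ⟨1, ?_⟩
    rw [Nat.cast_one, mul_one, Polynomial.aeval_eq_sum_range, Finset.sum_range_succ, hm]
    set S : ℚ := ∑ i ∈ Finset.range (m + 1), |P.coeff i| with hS
    have hc : P.coeff (m + 1) ≠ 0 := by
      rw [Polynomial.leadingCoeff, hm] at hlead; exact hlead
    have hcp : 0 < |P.coeff (m + 1)| := abs_pos.2 hc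
    have hlow : |∑ i ∈ Finset.range (m + 1), P.coeff i • t ^ i| ≤ (S : K) * t ^ m := by
      refine (Finset.abs_sum_le_sum_abs _ _).trans ?_
      rw [hS]
      push_cast
      rw [Finset.sum_mul]
      apply Finset.sum_le_sum
      intro i hi
      rw [Algebra.smul_def, eq_ratCast, abs_mul, abs_pow, abs_of_pos h0]
      apply mul_le_mul_of_nonneg_left _ (abs_nonneg _)
      exact pow_le_pow_right₀ h1 (by have := Finset.mem_range.1 hi; omega)
    obtain ⟨n, hn⟩ := exists_nat_gt ((S + 1) / |P.coeff (m + 1)|)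
    have hbig : ((S + 1 : ℚ) : K) ≤ |((P.coeff (m + 1) : ℚ) : K)| * t := by
      rw [div_lt_iff₀ hcp] at hn
      have h5 : ((S + 1 : ℚ) : K) ≤ ((n * |P.coeff (m + 1)| : ℚ) : K) := by exact_mod_cast hn.le
      refine h5.trans ?_
      push_cast
      rw [mul_comm]
      exact mul_le_mul_of_nonneg_left (ht n).le (abs_nonneg _)
    have hpow : 1 ≤ t ^ m := one_le_pow₀ h1
    have hpow0 : 0 < t ^ m := by positivity
    have htop : |P.coeff (m + 1) • t ^ (m + 1)| = |((P.coeff (m + 1) : ℚ) : K)| * t * t ^ m := by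
      rw [Algebra.smul_def, eq_ratCast, abs_mul, abs_pow, abs_of_pos h0, pow_succ]
      ring
    have h6 : |P.coeff (m + 1) • t ^ (m + 1)| ≤
        |∑ i ∈ Finset.range (m + 1), P.coeff i • t ^ i + P.coeff (m + 1) • t ^ (m + 1)| +
        |∑ i ∈ Finset.range (m + 1), P.coeff i • t ^ i| := by
      have := abs_sub (∑ i ∈ Finset.range (m + 1), P.coeff i • t ^ i +
        P.coeff (m + 1) • t ^ (m + 1)) (∑ i ∈ Finset.range (m + 1), P.coeff i • t ^ i)
      simpa using this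
    rw [htop] at h6
    have h7 : ((S + 1 : ℚ) : K) * t ^ m ≤ |((P.coeff (m + 1) : ℚ) : K)| * t * t ^ m :=
      mul_le_mul_of_nonneg_right hbig hpow0.le
    push_cast at h7
    nlinarith

include ht in
theorem t_transc : Transcendental ℚ t := by
  intro halg
  obtain ⟨n, hn⟩ := alg_bdd halg
  exact absurd (le_abs_self t) (not_le.2 (hn.trans (ht n)))

theorem T_le_V {x : K} (hx : x ∈ ℚ⟮t⟯) : x ∈ V t ht := by
  rw [IntermediateField.mem_adjoin_simple_iff] at hx
  obtain ⟨r, s, rfl⟩ := hx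
  by_cases hs : s = 0
  · rw [hs]; simp [Subring.zero_mem]
  rw [div_eq_mul_inv]
  apply Subring.mul_mem _ (aeval_mem_V t ht r)
  obtain ⟨n, hn⟩ := aeval_lower t ht s hs
  refine ⟨1, ?_⟩
  rw [pow_one, abs_inv]
  have hpos : 0 < |aeval t s| := by
    rcases (abs_nonneg (aeval t s)).eq_or_lt with h | h
    · rw [← h] at hn; simp at hn; linarith
    · exact h
  rw [inv_le_iff_one_le_mul₀ hpos]
  calc (1 : K) ≤ |aeval t s| * n := hn
    _ ≤ |aeval t s| * t := mul_le_mul_of_nonneg_left (ht n).le hpos.le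
    _ = _ := mul_comm _ _

theorem all_V (halg : ∀ x : K, IsAlgebraic ℚ⟮t⟯ x) (x : K) : x ∈ V t ht := by
  have hint : IsIntegral ℚ⟮t⟯ x := (halg x).isIntegral
  have h1 := root_bound ((minpoly ℚ⟮t⟯ x).map (algebraMap ℚ⟮t⟯ K)) ((minpoly.monic hint).map _) x (by
    rw [Polynomial.eval_map_algebraMap, minpoly.aeval])
  have h2 : 1 + ∑ i ∈ Finset.range ((minpoly ℚ⟮t⟯ x).map (algebraMap ℚ⟮t⟯ K)).natDegree,
      |((minpoly ℚ⟮t⟯ x).map (algebraMap ℚ⟮t⟯ K)).coeff i| ∈ V t ht := by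
    apply Subring.add_mem _ (Subring.one_mem _)
    apply Subring.sum_mem
    intro i _
    obtain ⟨R, hR⟩ := T_le_V t ht (x := ((minpoly ℚ⟮t⟯ x).map (algebraMap ℚ⟮t⟯ K)).coeff i) (by
      rw [Polynomial.coeff_map]
      exact ((minpoly ℚ⟮t⟯ x).coeff i).2)
    exact ⟨R, by rwa [abs_abs]⟩
  obtain ⟨R, hR⟩ := h2
  exact ⟨R, h1.trans ((le_abs_self _).trans hR)⟩

end Pool.Agent.R699.DenseSub
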