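import Mathlib

/-!
# Partial ovoids of the symplectic space of dimension four over a finite field of odd order

A set `O` of vectors of `F^4` with pairwise nonzero symplectic products has at most `q^2 - 1`
elements when `q = |F|` is odd.
-/

namespace Pool.Agent.R699.PartialOvoid

open Finset

variable {F : Type*} [Field F]

/-- the symplectic form -/
def B (x y : Fin 4 → F) : F := x 0 * y 3 - x 3 * y 0 + x 2 * y 1 - x 1 * y 2

theorem B_add_right (x y z : Fin 4 → F) : B x (y + z) = B x y + B x z := by
  simp only [B, Pi.add_apply]; ring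

theorem B_add_left (x y z : Fin 4 → F) : B (x + y) z = B x z + B y z := by
  simp only [B, Pi.add_apply]; ring

theorem B_sub_right (x y z : Fin 4 → F) : B x (y - z) = B x y - B x z := by
  simp only [B, Pi.sub_apply]; ring

theorem B_smul_right (x y : Fin 4 → F) (c : F) : B x (c • y) = c * B x y := by
  simp only [B, Pi.smul_apply, smul_eq_mul]; ring

theorem B_smul_left (x y : Fin 4 → F) (c : F) : B (c • x) y = c * B x y := by
  simp only [B, Pi.smul_apply, smul_eq_mul]; ring

theorem B_self (x : Fin 4 → F) : B x x = 0 := by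
  simp only [B]; ring

theorem B_comm (x y : Fin 4 → F) : B x y = - B y x := by
  simp only [B]; ring

theorem B_comm_eq_zero {x y : Fin 4 → F} : B x y = 0 ↔ B y x = 0 := by
  rw [B_comm x y, neg_eq_zero]

theorem B_zero_right (x : Fin 4 → F) : B x 0 = 0 := by simp [B]

theorem B_zero_left (x : Fin 4 → F) : B 0 x = 0 := by simp [B]

theorem nondeg {x : Fin 4 → F} (hx : x ≠ 0) : ∃ y, B x y ≠ 0 := by
  obtain ⟨i, hi⟩ := Function.ne_iff.1 hx
  simp only [Pi.zero_apply] at hi
  fin_cases i
  · exact ⟨Pi.single 3 1, by simpa [B, Pi.single_apply] using hi⟩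
  · exact ⟨Pi.single 2 1, by simpa [B, Pi.single_apply] using hi⟩
  · exact ⟨Pi.single 1 1, by simpa [B, Pi.single_apply] using hi⟩
  · exact ⟨Pi.single 0 1, by simpa [B, Pi.single_apply] using hi⟩

variable [Fintype F] [DecidableEq F]

/-- a nonzero functional cuts a subspace into `q` equal slices -/
theorem card_split (P : (Fin 4 → F) → Prop) [DecidablePred P] (x y : Fin 4 → F)
    (hP : ∀ (v : Fin 4 → F) (c : F), P v → P (v + c • y)) (hy : B x y ≠ 0) :
    (univ.filter P).card =
      Fintype.card F * (univ.filter fun v => P v ∧ B x v = 0).card := by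
  rw [← Finset.card_univ (α := F), ← Finset.card_product]
  symm
  apply Finset.card_nbij' (fun p => p.2 + (p.1 / B x y) • y)
    (fun v => (B x v, v - (B x v / B x y) • y))
  · rintro ⟨c, v⟩ h
    simp only [coe_product, coe_univ, coe_filter, mem_univ, true_and, Set.mem_prod, Set.mem_univ,
      Set.mem_ofPred_eq] at h ⊢
    exact hP _ _ h.1
  · intro v h
    simp only [coe_product, coe_univ, coe_filter, mem_univ, true_and, Set.mem_prod, Set.mem_univ,
      Set.mem_ofPred_eq] at h ⊢
    constructor
    · rw [sub_eq_add_neg, ← neg_smul]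
      exact hP _ _ h
    · rw [B_sub_right, B_smul_right, div_mul_cancel₀ _ hy, sub_self]
  · rintro ⟨c, v⟩ h
    simp only [coe_product, coe_univ, coe_filter, mem_univ, true_and, Set.mem_prod, Set.mem_univ,
      Set.mem_ofPred_eq] at h
    have h1 : B x (v + (c / B x y) • y) = c := by
      rw [B_add_right, B_smul_right, div_mul_cancel₀ _ hy, h.2, zero_add]
    simp only [h1]
    simp
  · intro v _
    simp

theorem card_perp {x : Fin 4 → F} (hx : x ≠ 0) :
    (univ.filter fun v => B x v = 0).card = Fintype.card F ^ 3 := by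
  obtain ⟨y, hy⟩ := nondeg hx
  have h := card_split (fun _ => True) x y (fun _ _ _ => trivial) hy
  simp only [true_and, Finset.filter_true, Finset.card_univ, Fintype.card_fun,
    Fintype.card_fin] at h
  have hq : 0 < Fintype.card F := Fintype.card_pos
  have : Fintype.card F * Fintype.card F ^ 3 =
      Fintype.card F * (univ.filter fun v => B x v = 0).card := by
    rw [← h]; ring
  exact (Nat.eq_of_mul_eq_mul_left hq this).symm

theorem card_perp2 {x y w : Fin 4 → F} (hw : B x w = 0) (hw' : B y w ≠ 0) (hx : x ≠ 0) :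
    (univ.filter fun v => B x v = 0 ∧ B y v = 0).card = Fintype.card F ^ 2 := by
  have h := card_split (fun v => B x v = 0) y w (fun v c hv => by
    rw [B_add_right, B_smul_right, hv, hw, mul_zero, add_zero]) hw'
  rw [card_perp hx] at h
  have hq : 0 < Fintype.card F := Fintype.card_pos
  have : Fintype.card F * Fintype.card F ^ 2 =
      Fintype.card F * (univ.filter fun v => B x v = 0 ∧ B y v = 0).card := by
    rw [← h]; ring
  exact (Nat.eq_of_mul_eq_mul_left hq this).symm

/-- three linear conditions: at least `q` solutions -/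
theorem card_perp3 {x y : Fin 4 → F} (w : Fin 4 → F) (hxy : B x y ≠ 0) :
    Fintype.card F ≤ (univ.filter fun v => (B x v = 0 ∧ B y v = 0) ∧ B w v = 0).card := by
  have hx : x ≠ 0 := by rintro rfl; apply hxy; simp [B]
  have h2 : (univ.filter fun v => B x v = 0 ∧ B y v = 0).card = Fintype.card F ^ 2 :=
    card_perp2 (w := x) (B_self x) (by rwa [Ne, B_comm_eq_zero]) hx
  by_cases h : ∀ v, B x v = 0 ∧ B y v = 0 → B w v = 0
  · have : (univ.filter fun v => (B x v = 0 ∧ B y v = 0) ∧ B w v = 0) =
        univ.filter fun v => B x v = 0 ∧ B y v = 0 := by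
      ext v
      simp only [mem_filter, mem_univ, true_and]
      exact ⟨fun h' => h'.1, fun h' => ⟨h', h v h'⟩⟩
    rw [this, h2]
    calc Fintype.card F = Fintype.card F ^ 1 := (pow_one _).symm
      _ ≤ Fintype.card F ^ 2 := Nat.pow_le_pow_right Fintype.card_pos (by norm_num)
  · push Not at h
    obtain ⟨t, ht, ht'⟩ := h
    have h := card_split (fun v => B x v = 0 ∧ B y v = 0) w t (fun v c hv => by
      constructor
      · rw [B_add_right, B_smul_right, hv.1, ht.1, mul_zero, add_zero]
      · rw [B_add_right, B_smul_right, hv.2, ht.2, mul_zero, add_zero]) ht'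
    rw [h2, pow_two] at h
    exact (Nat.eq_of_mul_eq_mul_left Fintype.card_pos h).le

section ovoid

variable (O : Finset (Fin 4 → F)) (hO : ∀ x ∈ O, ∀ y ∈ O, x ≠ y → B x y ≠ 0)
  (hO0 : ∀ x ∈ O, x ≠ 0)

include hO hO0

/-- `z` not proportional to an element of `O` -/
theorem f_le {z : Fin 4 → F} (hz : z ≠ 0) (hz' : ∀ x ∈ O, ∀ c : F, z ≠ c • x) :
    (O.filter fun x => B z x = 0).card ≤ Fintype.card F + 1 := by
  classical
  set q := Fintype.card F with hq
  have hq2 : 2 ≤ q := Fintype.one_lt_card
  set S := O.filter fun x => B z x = 0 with hS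
  -- the map (x, α, β) ↦ α x + β z
  have h1 : (S ×ˢ ((univ.filter fun α : F => α ≠ 0) ×ˢ (univ : Finset F))).card ≤
      ((univ.filter fun v => B z v = 0) \ (univ.image fun c : F => c • z)).card := by
    apply Finset.card_le_card_of_injOn (fun p => p.2.1 • p.1 + p.2.2 • z)
    · rintro ⟨x, α, β⟩ h
      simp only [hS, coe_product, coe_filter, Set.mem_prod, Set.mem_ofPred_eq, mem_univ, true_and,
        coe_univ, Set.mem_univ, and_true] at h
      obtain ⟨⟨hx, hzx⟩, hα⟩ := h
      simp only [coe_sdiff, coe_filter, mem_univ, true_and, coe_image, coe_univ, Set.image_univ,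
        Set.mem_sdiff, Set.mem_ofPred_eq, Set.mem_range, not_exists]
      constructor
      · rw [B_add_right, B_smul_right, B_smul_right, hzx, B_self]; ring
      · intro c hc
        have h2 : α • x = (c - β) • z := by
          rw [sub_smul, hc]; simp
        have h3 : c - β ≠ 0 := by
          intro h0
          rw [h0, zero_smul, smul_eq_zero] at h2
          rcases h2 with h2 | h2
          · exact hα h2
          · exact hO0 x hx h2
        apply hz' x hx ((c - β)⁻¹ * α)
        rw [mul_smul, h2, smul_smul, inv_mul_cancel₀ h3, one_smul]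
    · rintro ⟨x, α, β⟩ h ⟨x', α', β'⟩ h' heq
      simp only [hS, coe_product, coe_filter, Set.mem_prod, Set.mem_ofPred_eq, mem_univ, true_and,
        coe_univ, Set.mem_univ, and_true] at h h' heq
      obtain ⟨⟨hx, hzx⟩, hα⟩ := h
      obtain ⟨⟨hx', hzx'⟩, hα'⟩ := h'
      have e1 := congrArg (B x') heq
      rw [B_add_right, B_add_right, B_smul_right, B_smul_right, B_smul_right, B_smul_right,
        B_self, B_comm_eq_zero.1 hzx'] at e1
      have e2 : B x' x = 0 := by
        have : α * B x' x = 0 := by linear_combination e1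
        exact (mul_eq_zero.1 this).resolve_left hα
      have e3 : x' = x := by
        by_contra hne
        exact hO x' hx' x hx hne e2
      subst e3
      have e4 : (α - α') • x' = (β' - β) • z := by
        rw [sub_smul, sub_smul, sub_eq_sub_iff_add_eq_add, heq, add_comm]
      have e5 : α = α' := by
        by_contra hne
        have h3 : α - α' ≠ 0 := sub_ne_zero.2 hne
        have h4 : β' - β ≠ 0 := by
          intro h0
          rw [h0, zero_smul, smul_eq_zero] at e4
          rcases e4 with e4 | e4
          · exact h3 e4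
          · exact hO0 _ hx' e4
        apply hz' x' hx' ((β' - β)⁻¹ * (α - α'))
        rw [mul_smul, e4, smul_smul, inv_mul_cancel₀ h4, one_smul]
      subst e5
      have e6 : β = β' := by
        rw [sub_self, zero_smul] at e4
        rcases smul_eq_zero.1 e4.symm with e4 | e4
        · exact (sub_eq_zero.1 e4).symm
        · exact absurd e4 hz
      rw [e6]
  have h2 : (univ.image fun c : F => c • z).card = q := by
    rw [Finset.card_image_of_injective _ (smul_left_injective F hz), Finset.card_univ]
  have h3 : (univ.image fun c : F => c • z) ⊆ (univ.filter fun v => B z v = 0) := by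
    intro v hv
    obtain ⟨c, _, rfl⟩ := Finset.mem_image.1 hv
    simp only [mem_filter, mem_univ, true_and]
    rw [B_smul_right, B_self, mul_zero]
  rw [Finset.card_sdiff_of_subset h3, h2, card_perp hz, Finset.card_product, Finset.card_product,
    Finset.card_univ, Finset.filter_ne', Finset.card_erase_of_mem (Finset.mem_univ _),
    Finset.card_univ, ← hq] at h1
  obtain ⟨r, hr⟩ : ∃ r, q = r + 1 := ⟨q - 1, by omega⟩
  rw [hr] at h1 ⊢
  have h4 : (r + 1) ^ 3 - (r + 1) = (r * (r + 1)) * (r + 2) := by
    have : (r + 1) ^ 3 = (r * (r + 1)) * (r + 2) + (r + 1) := by ring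
    omega
  rw [h4, Nat.add_sub_cancel, mul_comm] at h1
  exact Nat.le_of_mul_le_mul_left h1 (by
    have : 0 < r := by omega
    positivity)

/-- there is a point with `q + 1` perpendicular points of `O` -/
theorem exists_full (hcard : O.card = Fintype.card F ^ 2) :
    ∃ z : Fin 4 → F, z ≠ 0 ∧ (∀ x ∈ O, ∀ c : F, z ≠ c • x) ∧
      (O.filter fun x => B z x = 0).card = Fintype.card F + 1 := by
  classical
  by_contra hcon
  push Not at hcon
  set q := Fintype.card F with hq
  have hq2 : 2 ≤ q := Fintype.one_lt_card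
  have hle : ∀ z : Fin 4 → F, z ≠ 0 → (∀ x ∈ O, ∀ c : F, z ≠ c • x) →
      (O.filter fun x => B z x = 0).card ≤ q := by
    intro z hz hz'
    have h1 := f_le O hO hO0 hz hz'
    have h2 := hcon z hz hz'
    omega
  -- the cone
  set T : Finset (Fin 4 → F) :=
    (O ×ˢ (univ.filter fun α : F => α ≠ 0)).image (fun p => p.2 • p.1) with hT
  have hTcard : T.card = q ^ 2 * (q - 1) := by
    rw [hT, Finset.card_image_of_injOn, Finset.card_product, hcard, Finset.filter_ne',
      Finset.card_erase_of_mem (Finset.mem_univ _), Finset.card_univ]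
    rintro ⟨x, α⟩ h ⟨x', α'⟩ h' heq
    simp only [coe_product, coe_filter, Set.mem_prod, Set.mem_ofPred_eq, mem_univ, true_and,
      mem_coe] at h h' heq
    have e1 := congrArg (B x') heq
    rw [B_smul_right, B_smul_right, B_self, mul_zero] at e1
    have e2 : x' = x := by
      by_contra hne
      exact (mul_ne_zero h.2 (hO x' h'.1 x h.1 hne)) e1
    subst e2
    have e3 : (α - α') • x' = 0 := by rw [sub_smul, heq, sub_self]
    rcases smul_eq_zero.1 e3 with e3 | e3
    · rw [sub_eq_zero.1 e3]
    · exact absurd e3 (hO0 _ h.1)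
  set N : Finset (Fin 4 → F) := univ.filter fun z => z ≠ 0 ∧ z ∉ T with hN
  have hT0 : (0 : Fin 4 → F) ∉ T := by
    intro h
    rw [hT] at h
    obtain ⟨⟨x, α⟩, hp, h0⟩ := Finset.mem_image.1 h
    simp only [mem_product, mem_filter, mem_univ, true_and] at hp
    rcases smul_eq_zero.1 h0 with h0 | h0
    · exact hp.2 h0
    · exact hO0 _ hp.1 h0
  have hpart : (univ : Finset (Fin 4 → F)) = insert 0 (T ∪ N) := by
    ext z
    simp only [mem_univ, mem_insert, mem_union, hN, mem_filter, true_and, true_iff]
    by_cases h1 : z = 0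
    · exact Or.inl h1
    · by_cases h2 : z ∈ T
      · exact Or.inr (Or.inl h2)
      · exact Or.inr (Or.inr ⟨h1, h2⟩)
  have hdisj : Disjoint T N := by
    rw [Finset.disjoint_left]
    intro z hz hz'
    exact (Finset.mem_filter.1 hz').2.2 hz
  have h0 : (0 : Fin 4 → F) ∉ T ∪ N := by
    intro h
    rcases Finset.mem_union.1 h with h | h
    · exact hT0 h
    · exact (Finset.mem_filter.1 h).2.1 rfl
  have hcards : q ^ 4 = 1 + (q ^ 2 * (q - 1) + N.card) := by
    have h1 := congrArg Finset.card hpart
    rw [Finset.card_univ, Fintype.card_fun, Fintype.card_fin, Finset.card_insert_of_notMem h0,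
      Finset.card_union_of_disjoint hdisj, hTcard, ← hq] at h1
    omega
  -- the double count
  have hsum : ∑ z : Fin 4 → F, (O.filter fun x => B z x = 0).card = q ^ 2 * q ^ 3 := by
    have h1 : ∑ z : Fin 4 → F, (O.filter fun x => B z x = 0).card =
        ∑ x ∈ O, (univ.filter fun z : Fin 4 → F => B z x = 0).card := by
      simp only [Finset.card_filter]
      rw [Finset.sum_comm]
    rw [h1]
    have h2 : ∀ x ∈ O, (univ.filter fun z : Fin 4 → F => B z x = 0).card = q ^ 3 := by
      intro x hx
      rw [← card_perp (hO0 x hx)]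
      congr 1
      ext v
      simp only [mem_filter, mem_univ, true_and]
      exact B_comm_eq_zero
    rw [Finset.sum_congr rfl h2, Finset.sum_const, hcard, smul_eq_mul]
  rw [hpart, Finset.sum_insert h0, Finset.sum_union hdisj] at hsum
  have h1 : (O.filter fun x => B 0 x = 0).card = q ^ 2 := by
    rw [← hcard]
    congr 1
    apply Finset.filter_true_of_mem
    intro x _
    exact B_zero_left x
  have h2 : ∑ z ∈ T, (O.filter fun x => B z x = 0).card ≤ q ^ 2 * (q - 1) := by
    rw [← hTcard]
    calc ∑ z ∈ T, (O.filter fun x => B z x = 0).card ≤ ∑ z ∈ T, 1 := by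
          apply Finset.sum_le_sum
          intro z hz
          rw [hT] at hz
          obtain ⟨⟨x, α⟩, hp, rfl⟩ := Finset.mem_image.1 hz
          simp only [mem_product, mem_filter, mem_univ, true_and] at hp
          rw [Finset.card_le_one]
          intro a ha b hb
          simp only [mem_filter, B_smul_left] at ha hb
          have ha' : a = x := by
            by_contra hne
            exact (mul_ne_zero hp.2 (hO x hp.1 a ha.1 (Ne.symm hne))) ha.2
          have hb' : b = x := by
            by_contra hne
            exact (mul_ne_zero hp.2 (hO x hp.1 b hb.1 (Ne.symm hne))) hb.2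
          rw [ha', hb']
      _ = T.card := by simp
  have h3 : ∑ z ∈ N, (O.filter fun x => B z x = 0).card ≤ N.card * q := by
    calc ∑ z ∈ N, (O.filter fun x => B z x = 0).card ≤ ∑ z ∈ N, q := by
          apply Finset.sum_le_sum
          intro z hz
          simp only [hN, mem_filter, mem_univ, true_and] at hz
          apply hle z hz.1
          intro x hx c hc
          apply hz.2
          rw [hT]
          refine Finset.mem_image.2 ⟨(x, c), ?_, hc.symm⟩
          simp only [mem_product, mem_filter, mem_univ, true_and]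
          refine ⟨hx, ?_⟩
          rintro rfl
          exact hz.1 (by rw [hc, zero_smul])
      _ = N.card * q := by rw [Finset.sum_const, smul_eq_mul]
  rw [h1] at hsum
  obtain ⟨r, hr⟩ : ∃ r, q = r + 1 := ⟨q - 1, by omega⟩
  have hr1 : 1 ≤ r := by omega
  rw [hr, Nat.add_sub_cancel] at hcards h2
  rw [hr] at hsum h3
  -- now arithmetic
  zify at hcards h2 h3 hsum hr1
  nlinarith [mul_pos (show (0:ℤ) < r by linarith) (show (0:ℤ) < r by linarith),
    mul_nonneg (show (0:ℤ) ≤ (r : ℤ) - 1 by linarith) (show (0:ℤ) ≤ (r : ℤ) ^ 3 by positivity),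
    mul_nonneg (show (0:ℤ) ≤ (r : ℤ) - 1 by linarith) (show (0:ℤ) ≤ (r : ℤ) ^ 2 by positivity)]

/-- no three elements of `O` on a line -/
theorem no_three (hcard : O.card = Fintype.card F ^ 2) {x y u : Fin 4 → F} (hx : x ∈ O)
    (hy : y ∈ O) (hu : u ∈ O) (hxy : x ≠ y) (hux : u ≠ x) (huy : u ≠ y) (α β : F) :
    u ≠ α • x + β • y := by
  classical
  intro hlin
  set q := Fintype.card F with hq
  have hq2 : 2 ≤ q := Fintype.one_lt_card
  have hBxy := hO x hx y hy hxy
  set H : Finset (Fin 4 → F) := univ.filter fun v => B x v = 0 ∧ B y v = 0 with hH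
  have hHcard : H.card = q ^ 2 :=
    card_perp2 (w := x) (B_self x) (by rwa [Ne, B_comm_eq_zero]) (hO0 x hx)
  have h0 : (0 : Fin 4 → F) ∈ H := by
    simp only [hH, mem_filter, mem_univ, B_zero_right, and_self]
  have hsum : ∑ v ∈ H, (O.filter fun w => B v w = 0).card =
      ∑ w ∈ O, (H.filter fun v => B v w = 0).card := by
    simp only [Finset.card_filter]
    rw [Finset.sum_comm]
  -- upper bound
  have hup : ∑ v ∈ H, (O.filter fun w => B v w = 0).card ≤ q ^ 2 + (q ^ 2 - 1) * (q + 1) := by
    rw [← Finset.insert_erase h0, Finset.sum_insert (Finset.notMem_erase _ _)]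
    apply add_le_add
    · rw [← hcard]
      exact Finset.card_filter_le _ _
    · calc ∑ v ∈ H.erase 0, (O.filter fun w => B v w = 0).card ≤ ∑ v ∈ H.erase 0, (q + 1) := by
            apply Finset.sum_le_sum
            intro v hv
            rw [Finset.mem_erase] at hv
            have hv2 := (Finset.mem_filter.1 hv.2).2
            apply f_le O hO hO0 hv.1
            rintro w hw c rfl
            rw [B_smul_right, B_smul_right] at hv2
            have hc : c ≠ 0 := by
              rintro rfl
              exact hv.1 (zero_smul _ _)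
            have e1 : x = w := by
              by_contra hne
              exact (mul_ne_zero hc (hO x hx w hw hne)) hv2.1
            have e2 : y = w := by
              by_contra hne
              exact (mul_ne_zero hc (hO y hy w hw hne)) hv2.2
            exact hxy (e1.trans e2.symm)
        _ = (q ^ 2 - 1) * (q + 1) := by
            rw [Finset.sum_const, smul_eq_mul, Finset.card_erase_of_mem h0, hHcard]
  -- lower bound
  have hfull : ∀ w, (w = x ∨ w = y ∨ w = u) → (H.filter fun v => B v w = 0).card = q ^ 2 := by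
    intro w hw
    rw [← hHcard]
    congr 1
    apply Finset.filter_true_of_mem
    intro v hv
    have hv2 := (Finset.mem_filter.1 hv).2
    rw [B_comm_eq_zero]
    rcases hw with rfl | rfl | rfl
    · exact hv2.1
    · exact hv2.2
    · rw [hlin, B_add_left, B_smul_left, B_smul_left, hv2.1, hv2.2]; ring
  have hlow : ∀ w, q ≤ (H.filter fun v => B v w = 0).card := by
    intro w
    have h1 := card_perp3 w hBxy
    refine h1.trans (le_of_eq ?_)
    congr 1
    ext v
    simp only [hH, mem_filter, mem_univ, true_and]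
    rw [B_comm_eq_zero (x := w)]
  have hdown : 3 * q ^ 2 + (q ^ 2 - 3) * q ≤ ∑ w ∈ O, (H.filter fun v => B v w = 0).card := by
    have h1 : ({x, y, u} : Finset (Fin 4 → F)) ⊆ O := by
      intro w hw
      simp only [mem_insert, mem_singleton] at hw
      rcases hw with rfl | rfl | rfl <;> assumption
    have h2 : ({x, y, u} : Finset (Fin 4 → F)).card = 3 := by
      rw [Finset.card_eq_three]
      exact ⟨x, y, u, hxy, hux.symm, huy.symm, rfl⟩
    rw [← Finset.sum_sdiff h1, add_comm]
    apply add_le_add
    · calc (q ^ 2 - 3) * q = ∑ w ∈ O \ {x, y, u}, q := by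
            rw [Finset.sum_const, smul_eq_mul, Finset.card_sdiff_of_subset h1, hcard, h2]
        _ ≤ _ := Finset.sum_le_sum fun w _ => hlow w
    · calc 3 * q ^ 2 = ∑ w ∈ ({x, y, u} : Finset (Fin 4 → F)), q ^ 2 := by
            rw [Finset.sum_const, smul_eq_mul, h2]
        _ ≤ _ := by
            apply Finset.sum_le_sum
            intro w hw
            simp only [mem_insert, mem_singleton] at hw
            exact (hfull w hw).ge
  rw [hsum] at hup
  have hfin := hdown.trans hup
  have h3 : 3 ≤ q ^ 2 := by nlinarith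
  have h4 : 1 ≤ q ^ 2 := by omega
  zify [h3, h4] at hfin
  nlinarith

theorem not_odd (hcard : O.card = Fintype.card F ^ 2) : Even (Fintype.card F) := by
  classical
  set q := Fintype.card F with hq
  have hq2 : 2 ≤ q := Fintype.one_lt_card
  obtain ⟨z, hz, hz', hS⟩ := exists_full O hO hO0 hcard
  set S := O.filter fun x => B z x = 0 with hSdef
  have hSO : ∀ x ∈ S, x ∈ O := fun x hx => (Finset.mem_filter.1 hx).1
  have hSz : ∀ x ∈ S, B z x = 0 := fun x hx => (Finset.mem_filter.1 hx).2
  -- partners
  have partner : ∀ x ∈ S, ∀ Q : Fin 4 → F, B z Q = 0 → B x Q ≠ 0 →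
      ∃ y ∈ S, y ≠ x ∧ ∃ α β : F, Q = α • x + β • y := by
    intro x hx Q hQ hxQ
    set W : Finset (Fin 4 → F) := univ.filter fun v => B z v = 0 ∧ B x v ≠ 0 with hW
    have hWcard : W.card = q ^ 3 - q ^ 2 := by
      have h1 : (univ.filter fun v => B z v = 0 ∧ B x v = 0).card = q ^ 2 :=
        card_perp2 hQ hxQ hz
      have h2 : (univ.filter fun v => B z v = 0).card = q ^ 3 := card_perp hz
      have h3 := Finset.card_filter_add_card_filter_not (s := univ.filter fun v => B z v = 0)
        (fun v => B x v = 0)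
      rw [Finset.filter_filter, Finset.filter_filter, h1, h2] at h3
      have h4 : W = univ.filter fun v => B z v = 0 ∧ ¬ B x v = 0 := rfl
      rw [h4]
      omega
    set D := (S.erase x) ×ˢ ((univ : Finset F) ×ˢ (univ.filter fun β : F => β ≠ 0)) with hD
    have hDcard : D.card = q ^ 3 - q ^ 2 := by
      rw [hD, Finset.card_product, Finset.card_product, Finset.card_erase_of_mem hx, hS,
        Finset.card_univ, Finset.filter_ne', Finset.card_erase_of_mem (Finset.mem_univ _),
        Finset.card_univ, ← hq, Nat.add_sub_cancel]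
      obtain ⟨r, hr⟩ : ∃ r, q = r + 1 := ⟨q - 1, by omega⟩
      rw [hr, Nat.add_sub_cancel]
      have : (r + 1) ^ 3 = (r + 1) * ((r + 1) * r) + (r + 1) ^ 2 := by ring
      omega
    have hmap : ∀ p ∈ D, p.2.1 • x + p.2.2 • p.1 ∈ W := by
      rintro ⟨y, α, β⟩ hp
      simp only [hD, mem_product, mem_erase, mem_univ, mem_filter, true_and] at hp
      simp only [hW, mem_filter, mem_univ, true_and]
      constructor
      · rw [B_add_right, B_smul_right, B_smul_right, hSz x hx, hSz y hp.1.2]; ring
      · rw [B_add_right, B_smul_right, B_smul_right, B_self, mul_zero, zero_add]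
        exact mul_ne_zero hp.2 (hO x (hSO x hx) y (hSO y hp.1.2) hp.1.1.symm)
    have hinj : Set.InjOn (fun p : (Fin 4 → F) × F × F => p.2.1 • x + p.2.2 • p.1) D := by
      rintro ⟨y, α, β⟩ hp ⟨y', α', β'⟩ hp' heq
      rw [Finset.mem_coe] at hp hp'
      simp only [hD, mem_product, mem_erase, mem_univ, mem_filter, true_and] at hp hp'
      simp only at heq
      have hyy : y = y' := by
        by_contra hne
        apply no_three O hO hO0 hcard (hSO x hx) (hSO y hp.1.2) (hSO y' hp'.1.2) hp.1.1.symm
          hp'.1.1 (Ne.symm hne) (β'⁻¹ * (α - α')) (β'⁻¹ * β)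
        have e1 : β' • y' = (α - α') • x + β • y := by
          rw [sub_smul, sub_add_eq_add_sub, heq]; simp
        rw [mul_smul, mul_smul, ← smul_add, ← e1, smul_smul, inv_mul_cancel₀ hp'.2, one_smul]
      subst hyy
      have e1 := congrArg (B x) heq
      rw [B_add_right, B_add_right, B_smul_right, B_smul_right, B_smul_right, B_smul_right,
        B_self] at e1
      have hBxy : B x y ≠ 0 := hO x (hSO x hx) y (hSO y hp.1.2) hp.1.1.symm
      have e2 : β = β' := by
        apply mul_right_cancel₀ hBxy
        linear_combination e1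
      subst e2
      have e3 := add_right_cancel heq
      have e4 : (α - α') • x = 0 := by rw [sub_smul, e3, sub_self]
      rcases smul_eq_zero.1 e4 with e4 | e4
      · rw [sub_eq_zero.1 e4]
      · exact absurd e4 (hO0 _ (hSO x hx))
    have hsurj := Finset.surjOn_of_injOn_of_card_le (s := D) (t := W) _ (fun p hp => by
      exact hmap p hp) hinj (by rw [hWcard, hDcard])
    have hQW : Q ∈ (W : Set (Fin 4 → F)) := by
      rw [Finset.mem_coe]
      simp only [hW, mem_filter, mem_univ, true_and]
      exact ⟨hQ, hxQ⟩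
    obtain ⟨⟨y, α, β⟩, hp, hpe⟩ := hsurj hQW
    rw [Finset.mem_coe] at hp
    simp only [hD, mem_product, mem_erase, mem_univ, mem_filter, true_and] at hp
    exact ⟨y, hp.1.2, hp.1.1, α, β, hpe.symm⟩
  -- choose the centre
  obtain ⟨x₀, hx₀⟩ : S.Nonempty := Finset.card_pos.1 (by omega)
  set Q := x₀ + z with hQdef
  have hzQ : B z Q = 0 := by rw [hQdef, B_add_right, hSz x₀ hx₀, B_self, add_zero]
  have hxQ : ∀ x ∈ S, x ≠ x₀ → B x Q ≠ 0 := by
    intro x hx hne
    rw [hQdef, B_add_right, B_comm_eq_zero.1 (hSz x hx), add_zero]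
    exact hO x (hSO x hx) x₀ (hSO x₀ hx₀) hne
  have key : ∀ x ∈ S.erase x₀, ∃ y ∈ S.erase x₀, y ≠ x ∧ ∃ α β : F, Q = α • x + β • y := by
    intro x hx
    rw [Finset.mem_erase] at hx
    obtain ⟨y, hy, hyx, α, β, hlin⟩ := partner x hx.2 Q hzQ (hxQ x hx.2 hx.1)
    refine ⟨y, ?_, hyx, α, β, hlin⟩
    rw [Finset.mem_erase]
    refine ⟨?_, hy⟩
    rintro rfl
    -- now Q = α x + β y with y = x₀
    have e1 : z = α • x + (β - 1) • y := by
      rw [sub_smul, one_smul, ← add_sub_assoc, ← hlin, hQdef]; simp
    have e2 := congrArg (B y) e1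
    rw [B_add_right, B_smul_right, B_smul_right, B_self, B_comm_eq_zero.1 (hSz y hy)] at e2
    have hyx' := hO y (hSO y hy) x (hSO x hx.2) hyx
    have e3 : α = 0 := by
      have : α * B y x = 0 := by linear_combination -e2
      exact (mul_eq_zero.1 this).resolve_right hyx'
    have e4 := congrArg (B x) e1
    rw [B_add_right, B_smul_right, B_smul_right, B_self, B_comm_eq_zero.1 (hSz x hx.2)] at e4
    have hxy' := hO x (hSO x hx.2) y (hSO y hy) hyx.symm
    have e5 : β - 1 = 0 := by
      have : (β - 1) * B x y = 0 := by linear_combination -e4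
      exact (mul_eq_zero.1 this).resolve_right hxy'
    rw [e3, e5, zero_smul, zero_smul, add_zero] at e1
    exact hz e1
  choose! σ hσ1 hσ2 hσ3 using key
  have hcardS : (S.erase x₀).card = q := by
    rw [Finset.card_erase_of_mem hx₀, hS, Nat.add_sub_cancel]
  have hinv : ∀ x (hx : x ∈ S.erase x₀), σ (σ x) = x := by
    intro x hx
    by_contra hne
    obtain ⟨α, β, h1⟩ := hσ3 x hx
    obtain ⟨γ, δ, h2⟩ := hσ3 (σ x) (hσ1 x hx)
    have hx' := Finset.mem_erase.1 hx
    have hy' := Finset.mem_erase.1 (hσ1 x hx)
    have hw' := Finset.mem_erase.1 (hσ1 _ (hσ1 x hx))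
    have hδ : δ ≠ 0 := by
      rintro rfl
      apply hxQ (σ x) hy'.2 hy'.1
      rw [h2, B_add_right, B_smul_right, B_smul_right, B_self]; ring
    apply no_three O hO hO0 hcard (hSO x hx'.2) (hSO _ hy'.2) (hSO _ hw'.2) (hσ2 x hx).symm hne
      (hσ2 _ (hσ1 x hx)) (δ⁻¹ * α) (δ⁻¹ * (β - γ))
    have e1 : δ • σ (σ x) = α • x + (β - γ) • σ x := by
      rw [sub_smul, ← add_sub_assoc, ← h1, h2]; simp
    rw [mul_smul, mul_smul, ← smul_add, ← e1, smul_smul, inv_mul_cancel₀ hδ, one_smul]
  have hsum : ∑ x ∈ S.erase x₀, (1 : ZMod 2) = 0 := by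
    apply Finset.sum_involution (fun x _ => σ x)
    · intro a _
      decide
    · intro a ha _
      exact hσ2 a ha
    · intro a ha
      exact hσ1 a ha
    · intro a ha
      exact hinv a ha
  rw [Finset.sum_const, nsmul_eq_mul, mul_one, hcardS] at hsum
  exact (ZMod.natCast_eq_zero_iff_even).1 hsum

end ovoid

/-- **Partial ovoids of `W(3,q)`, `q` odd, have at most `q^2 - 1` points.** -/
theorem card_le (O : Finset (Fin 4 → F)) (hO : ∀ x ∈ O, ∀ y ∈ O, x ≠ y → B x y ≠ 0)
    (hodd : Odd (Fintype.card F)) : O.card + 1 ≤ Fintype.card F ^ 2 := by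
  classical
  by_contra hcon
  have h1 : Fintype.card F ^ 2 ≤ O.card := by omega
  obtain ⟨O', hsub, hcard⟩ := Finset.exists_subset_card_eq h1
  have hq2 : 2 ≤ Fintype.card F := Fintype.one_lt_card
  have hO0 : ∀ x ∈ O', x ≠ 0 := by
    rintro x hx rfl
    obtain ⟨y, hy, hyx⟩ := Finset.exists_mem_ne (s := O') (by rw [hcard]; nlinarith) 0
    exact hO 0 (hsub hx) y (hsub hy) hyx.symm (B_zero_left y)
  have := not_odd O' (fun x hx y hy => hO x (hsub hx) y (hsub hy)) hO0 hcard
  exact (Nat.not_even_iff_odd.2 hodd) this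

end Pool.Agent.R699.PartialOvoid
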