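import Mathlib

/-!
# Sums of tensors `g⁻¹ ⊗ g` over the field with two elements
-/

namespace Pool.Agent.R699.RDU

open Matrix Module

abbrev K2 := ZMod 2
abbrev M3 := Matrix (Fin 3) (Fin 3) K2

theorem k2_cases (a : K2) : a = 0 ∨ a = 1 := by
  revert a; decide

theorem m3_add_self (M : M3) : M + M = 0 := by
  ext a b
  simp only [Matrix.add_apply, Matrix.zero_apply]
  exact CharTwo.add_self_eq_zero _

theorem m3_eq_of_add {M N : M3} (h : M + N = 0) : M = N := by
  have := m3_add_self N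
  calc M = M + (N + N) := by rw [this, add_zero]
    _ = (M + N) + N := by rw [add_assoc]
    _ = N := by rw [h, zero_add]

/-- A finite-dimensional space of dimension at most two is spanned by two vectors. -/
theorem two_span {E : Type*} [AddCommGroup E] [Module K2 E] [FiniteDimensional K2 E]
    (C : Submodule K2 E) (h : finrank K2 C ≤ 2) :
    ∃ c1 ∈ C, ∃ c2 ∈ C, ∀ c ∈ C, ∃ a b : K2, c = a • c1 + b • c2 := by
  have h' : finrank K2 C = 0 ∨ finrank K2 C = 1 ∨ finrank K2 C = 2 := by omega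
  rcases h' with h | h | h
  · let b := finBasisOfFinrankEq K2 C h
    refine ⟨0, C.zero_mem, 0, C.zero_mem, fun c hc => ⟨0, 0, ?_⟩⟩
    have := b.sum_repr ⟨c, hc⟩
    simp at this
    rw [eq_comm] at this
    simpa using this
  · let b := finBasisOfFinrankEq K2 C h
    refine ⟨b 0, (b 0).2, 0, C.zero_mem, fun c hc => ⟨b.repr ⟨c, hc⟩ 0, 0, ?_⟩⟩
    have := congrArg Subtype.val (b.sum_repr ⟨c, hc⟩)
    simp at this
    simpa using this.symm
  · let b := finBasisOfFinrankEq K2 C h
    refine ⟨b 0, (b 0).2, b 1, (b 1).2, fun c hc => ⟨b.repr ⟨c, hc⟩ 0, b.repr ⟨c, hc⟩ 1, ?_⟩⟩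
    have := congrArg Subtype.val (b.sum_repr ⟨c, hc⟩)
    simp only [Fin.sum_univ_two] at this
    simpa using this.symm

/-- `e_k e_i^T` and its multiples are not units. -/
theorem not_unit_single (k i : Fin 3) (a : K2) (T : M3ˣ) : (T : M3) ≠ a • single k i 1 := by
  intro h
  have h1 : ((T⁻¹ : M3ˣ) : M3) * (T : M3) = 1 := by simp
  rw [h] at h1
  obtain ⟨i', hi'⟩ : ∃ i' : Fin 3, i' ≠ i :=
    ⟨i + 1, (by decide : ∀ i : Fin 3, i + 1 ≠ i) i⟩
  have h2 := congrFun (congrFun h1 i') i'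
  rw [one_apply_eq, mul_smul_comm, Matrix.smul_apply,
    mul_single_apply_of_ne _ _ _ _ _ hi'] at h2
  simp at h2

theorem not_unit_mul (k i : Fin 3) (A B : M3ˣ) (T : M3ˣ) :
    (T : M3) ≠ (A : M3) * single k i 1 * (B : M3) := by
  intro h
  apply not_unit_single k i 1 (A⁻¹ * T * B⁻¹)
  rw [Units.val_mul, Units.val_mul, h, one_smul]
  have h1 : ((A⁻¹ : M3ˣ) : M3) * (A : M3) = 1 := by simp
  have h2 : (B : M3) * ((B⁻¹ : M3ˣ) : M3) = 1 := by simp
  calc ((A⁻¹ : M3ˣ) : M3) * ((A : M3) * single k i 1 * (B : M3)) * ((B⁻¹ : M3ˣ) : M3)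
      = (((A⁻¹ : M3ˣ) : M3) * (A : M3)) * single k i 1 * ((B : M3) * ((B⁻¹ : M3ˣ) : M3)) := by
        noncomm_ring
    _ = single k i 1 := by rw [h1, h2]; simp

/-- The three possibilities for the sum over one class. -/
def Poss (k i : Fin 3) (S y : M3) (e0 e1 : M3) : Prop :=
  (e0 = 0 ∧ e1 = 0 ∧ S = 0) ∨
  (∃ T : M3ˣ, S = T ∧ ∃ a : K2, ((T⁻¹ : M3ˣ) : M3) = y + a • single k i 1) ∨
  (∃ T T' : M3ˣ, S = (T : M3) * single k i 1 * (T' : M3) ∧ ((T⁻¹ : M3ˣ) : M3) = y ∧ S ≠ 0)

theorem poss_of (k i : Fin 3) (S y e0 e1 : M3) (hS : S = e0 + e1)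
    (h0 : e0 = 0 ∨ ∃ T : M3ˣ, e0 = T ∧ ((T⁻¹ : M3ˣ) : M3) = y)
    (h1 : e1 = 0 ∨ ∃ T : M3ˣ, e1 = T ∧ ((T⁻¹ : M3ˣ) : M3) = y + single k i 1) :
    Poss k i S y e0 e1 := by
  rcases h0 with h0 | ⟨T, hT, hT'⟩
  · rcases h1 with h1 | ⟨T', hT1, hT1'⟩
    · left; exact ⟨h0, h1, by rw [hS, h0, h1, add_zero]⟩
    · right; left
      exact ⟨T', by rw [hS, h0, hT1, zero_add], 1, by rw [hT1', one_smul]⟩
  · rcases h1 with h1 | ⟨T', hT1, hT1'⟩
    · right; left
      exact ⟨T, by rw [hS, h1, hT, add_zero], 0, by rw [hT', zero_smul, add_zero]⟩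
    · right; right
      have e : (T : M3) * single k i 1 * (T' : M3) = (T : M3) + (T' : M3) := by
        have e1 : (single k i 1 : M3) = ((T⁻¹ : M3ˣ) : M3) + ((T'⁻¹ : M3ˣ) : M3) := by
          rw [hT1', hT', ← add_assoc, m3_add_self, zero_add]
        rw [e1, mul_add, add_mul]
        have e2 : (T : M3) * ((T⁻¹ : M3ˣ) : M3) = 1 := by simp
        have e3 : ((T'⁻¹ : M3ˣ) : M3) * (T' : M3) = 1 := by simp
        rw [e2, mul_assoc, e3, one_mul, mul_one, add_comm]
      refine ⟨T, T', by rw [e, hS, hT, hT1], hT', ?_⟩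
      intro h
      rw [hS, hT, hT1] at h
      have := m3_eq_of_add h
      have h2 : T = T' := Units.ext this
      rw [← h2, hT'] at hT1'
      have h3 : (single k i 1 : M3) = 0 := by
        have := hT1'
        rw [left_eq_add] at this
        exact this
      have := congrFun (congrFun h3 k) i
      simp at this

/-- three classes cannot coexist -/
theorem three_classes (k i : Fin 3) (S X Z a0 a1 b0 b1 c0 c1 : M3)
    (hX : Poss k i S X a0 a1) (hZ : Poss k i S Z b0 b1) (hXZ : Poss k i S (X + Z) c0 c1) :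
    a0 = 0 ∧ a1 = 0 ∧ b0 = 0 ∧ b1 = 0 ∧ c0 = 0 ∧ c1 = 0 := by
  -- the classes are of the same kind
  have z1 : ∀ {y e0 e1 : M3}, S = 0 → Poss k i S y e0 e1 → e0 = 0 ∧ e1 = 0 := by
    intro y e0 e1 h0 h
    rcases h with ⟨h1, h2, h3⟩ | ⟨T, hT, -⟩ | ⟨T, T', -, -, h⟩
    · exact ⟨h1, h2⟩
    · exfalso
      have : (T : M3) = (0 : K2) • single k i 1 := by rw [← hT, h0, zero_smul]
      exact not_unit_single _ _ _ _ this
    · exact absurd h0 h
  by_cases hS : S = 0
  · exact ⟨(z1 hS hX).1, (z1 hS hX).2, (z1 hS hZ).1, (z1 hS hZ).2, (z1 hS hXZ).1, (z1 hS hXZ).2⟩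
  exfalso
  by_cases hU : ∃ T : M3ˣ, S = T
  · obtain ⟨T0, hT0⟩ := hU
    have z2 : ∀ {y e0 e1 : M3}, Poss k i S y e0 e1 →
        ∃ a : K2, ((T0⁻¹ : M3ˣ) : M3) = y + a • single k i 1 := by
      intro y e0 e1 h
      rcases h with ⟨h1, h2, h3⟩ | ⟨T, hT, a, ha⟩ | ⟨T, T', h1, -, h⟩
      · exact absurd h3 hS
      · have : T0 = T := Units.ext (by rw [← hT0, hT])
        rw [this]; exact ⟨a, ha⟩
      · exact absurd (hT0.symm.trans h1) (not_unit_mul k i T T' T0)
    obtain ⟨a, ha⟩ := z2 hX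
    obtain ⟨b, hb⟩ := z2 hZ
    obtain ⟨c, hc⟩ := z2 hXZ
    apply not_unit_single k i (a + b + c) T0⁻¹
    have e1 := m3_add_self X
    have e2 := m3_add_self Z
    calc ((T0⁻¹ : M3ˣ) : M3) = ((T0⁻¹ : M3ˣ) : M3) + (((T0⁻¹ : M3ˣ) : M3) +
          ((T0⁻¹ : M3ˣ) : M3)) := by rw [m3_add_self, add_zero]
      _ = (X + a • single k i 1) + ((Z + b • single k i 1) + ((X + Z) + c • single k i 1)) := by
          nth_rewrite 1 [ha]; nth_rewrite 1 [hb]; rw [hc]
      _ = (X + X) + (Z + Z) + (a + b + c) • single k i 1 := by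
          rw [add_smul, add_smul]; abel
      _ = (a + b + c) • single k i 1 := by rw [e1, e2, zero_add, zero_add]
  · obtain ⟨a0', b0', hab⟩ : ∃ a b, S a b ≠ 0 := by
      by_contra h
      push Not at h
      exact hS (by ext a b; simpa using h a b)
    have z3 : ∀ {y e0 e1 : M3}, Poss k i S y e0 e1 →
        ∀ r, ∑ a, y r a * S a b0' = (1 : M3) r k := by
      intro y e0 e1 h
      rcases h with ⟨h1, h2, h3⟩ | ⟨T, hT, a, ha⟩ | ⟨T, T', h1, hy, h⟩
      · exact absurd h3 hS
      · exact absurd ⟨T, hT⟩ hU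
      · have e1 : ∀ a, S a b0' = (T : M3) a k * (T' : M3) i b0' := by
          intro a
          rw [h1, mul_assoc, Matrix.mul_apply, Finset.sum_eq_single k]
          · rw [single_mul_apply_same, one_mul]
          · intro b _ hb
            rw [single_mul_apply_of_ne _ _ _ _ _ hb, mul_zero]
          · intro h; exact absurd (Finset.mem_univ _) h
        have e2 : (T' : M3) i b0' = 1 := by
          rcases k2_cases ((T' : M3) i b0') with h | h
          · exact absurd (by rw [e1, h, mul_zero]) hab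
          · exact h
        intro r
        have e3 : ((T⁻¹ : M3ˣ) : M3) * (T : M3) = 1 := by simp
        rw [← e3, hy, Matrix.mul_apply]
        apply Finset.sum_congr rfl
        intro a _
        rw [e1, e2, mul_one]
    have hx := z3 hX k
    have hz := z3 hZ k
    have hxz := z3 hXZ k
    simp only [Matrix.add_apply, add_mul, Finset.sum_add_distrib, hx, hz] at hxz
    simp at hxz

theorem sum_k2 {E : Type*} [AddCommMonoid E] (f : K2 → E) : ∑ a : K2, f a = f 0 + f 1 :=
  Fin.sum_univ_two f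

section core

variable {ι : Type} [Fintype ι]

theorem core_low (T : ι → M3ˣ) (hT : Function.Injective T) (k i j l : Fin 3)
    (H : ∀ r p q s, ∑ t, (((T t)⁻¹ : M3ˣ) : M3) r p * (T t : M3) q s =
      if r = k ∧ p = i ∧ q = j ∧ s = l then 1 else 0)
    (hC : finrank K2 (Submodule.span K2 (Set.range
      (fun c : {c : Fin 3 × Fin 3 // c ≠ (k, i)} =>
        fun t => (((T t)⁻¹ : M3ˣ) : M3) c.1.1 c.1.2))) ≤ 2) : False := by
  classical
  set C := Submodule.span K2 (Set.range
      (fun c : {c : Fin 3 × Fin 3 // c ≠ (k, i)} =>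
        fun t => (((T t)⁻¹ : M3ˣ) : M3) c.1.1 c.1.2)) with hCdef
  obtain ⟨c1, hc1, c2, hc2, hspan⟩ := two_span C hC
  have orth : ∀ c ∈ C, ∀ q s, ∑ t, c t * (T t : M3) q s = 0 := by
    intro c hc q s
    induction hc using Submodule.span_induction with
    | mem x hx =>
      obtain ⟨⟨⟨r, p⟩, hne⟩, rfl⟩ := hx
      simp only
      rw [H, if_neg]
      rintro ⟨h1, h2, -, -⟩
      exact hne (by rw [h1, h2])
    | zero => simp
    | add x y _ _ hx hy =>
      simp only [Pi.add_apply, add_mul, Finset.sum_add_distrib, hx, hy, add_zero]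
    | smul a x _ hx =>
      simp only [Pi.smul_apply, smul_eq_mul, mul_assoc, ← Finset.mul_sum, hx, mul_zero]
  have orth' : ∀ c ∈ C, ∑ t, c t • (T t : M3) = 0 := by
    intro c hc
    ext q s
    rw [Matrix.sum_apply, Matrix.zero_apply]
    simpa using orth c hc q s
  have hex : ∀ c : Fin 3 × Fin 3, ∃ a b : K2, c ≠ (k, i) →
      ∀ t, (((T t)⁻¹ : M3ˣ) : M3) c.1 c.2 = a * c1 t + b * c2 t := by
    intro c
    by_cases h : c = (k, i)
    · exact ⟨0, 0, fun h' => absurd h h'⟩
    · obtain ⟨a, b, hab⟩ := hspan (fun t => (((T t)⁻¹ : M3ˣ) : M3) c.1 c.2)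
        (Submodule.subset_span ⟨⟨c, h⟩, rfl⟩)
      refine ⟨a, b, fun _ t => ?_⟩
      have := congrFun hab t
      simpa using this
  choose A B hAB using hex
  set X : M3 := Matrix.of fun r p => if (r, p) = (k, i) then 0 else A (r, p) with hX
  set Z : M3 := Matrix.of fun r p => if (r, p) = (k, i) then 0 else B (r, p) with hZ
  have hTinv : ∀ t, (((T t)⁻¹ : M3ˣ) : M3) = c1 t • X + c2 t • Z +
      (((T t)⁻¹ : M3ˣ) : M3) k i • single k i 1 := by
    intro t
    ext r p
    by_cases h : (r, p) = (k, i)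
    · rw [Prod.mk.injEq] at h
      obtain ⟨rfl, rfl⟩ := h
      simp [hX, hZ]
    · have h' : ¬ (k = r ∧ i = p) := fun h' => h (by rw [h'.1, h'.2])
      have := hAB (r, p) h t
      simp only at this
      rw [this]
      simp only [hX, hZ, Matrix.add_apply, Matrix.smul_apply, Matrix.of_apply, if_neg h,
        single_apply, if_neg h', smul_eq_mul, mul_zero, add_zero]
      ring
  set cls : ι → K2 × K2 × K2 := fun t => (c1 t, c2 t, (((T t)⁻¹ : M3ˣ) : M3) k i) with hcls
  have hinj : Function.Injective cls := by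
    intro t t' h
    simp only [hcls, Prod.mk.injEq] at h
    apply hT
    have : (((T t)⁻¹ : M3ˣ) : M3) = (((T t')⁻¹ : M3ˣ) : M3) := by
      rw [hTinv t, hTinv t', h.1, h.2.1, h.2.2]
    exact inv_injective (Units.ext this)
  set e : K2 × K2 × K2 → M3 := fun v => ∑ t ∈ Finset.univ.filter (fun t => cls t = v), (T t : M3)
    with he
  have hecases : ∀ v, e v = 0 ∨ ∃ t, cls t = v ∧ e v = T t := by
    intro v
    by_cases h : ∃ t, cls t = v
    · obtain ⟨t, ht⟩ := h
      right
      refine ⟨t, ht, ?_⟩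
      have : Finset.univ.filter (fun t => cls t = v) = {t} := by
        ext t'
        simp only [Finset.mem_filter, Finset.mem_univ, true_and, Finset.mem_singleton]
        constructor
        · intro h; exact hinj (h.trans ht.symm)
        · rintro rfl; exact ht
      simp only [he, this, Finset.sum_singleton]
    · left
      simp only [he]
      apply Finset.sum_eq_zero
      intro t ht
      exact absurd ⟨t, (Finset.mem_filter.1 ht).2⟩ h
  have hec : ∀ (b c a : K2), e (b, c, a) = 0 ∨ ∃ U : M3ˣ, e (b, c, a) = U ∧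
      ((U⁻¹ : M3ˣ) : M3) = b • X + c • Z + a • single k i 1 := by
    intro b c a
    rcases hecases (b, c, a) with h | ⟨t, ht, h⟩
    · exact Or.inl h
    · right
      refine ⟨T t, h, ?_⟩
      simp only [hcls, Prod.mk.injEq] at ht
      conv_lhs => rw [hTinv t]
      rw [ht.1, ht.2.1, ht.2.2]
  have hfib : ∀ g : K2 × K2 × K2 → K2, ∑ t, g (cls t) • (T t : M3) = ∑ v, g v • e v := by
    intro g
    rw [← Finset.sum_fiberwise (s := Finset.univ) (g := cls)]
    apply Finset.sum_congr rfl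
    intro v _
    rw [he, Finset.smul_sum]
    apply Finset.sum_congr rfl
    intro t ht
    rw [(Finset.mem_filter.1 ht).2]
  have e0 : ∀ a : K2, e (0, 0, a) = 0 := by
    intro a
    rcases hec 0 0 a with h | ⟨U, -, hU⟩
    · exact h
    · exfalso
      rw [zero_smul, zero_smul, zero_add, zero_add] at hU
      exact not_unit_single _ _ _ _ hU
  have R1 := hfib (fun v => v.1)
  have R2 := hfib (fun v => v.2.1)
  have R3 := hfib (fun v => v.2.2)
  simp only [hcls] at R1 R2 R3
  rw [orth' c1 hc1] at R1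
  rw [orth' c2 hc2] at R2
  simp only [Fintype.sum_prod_type, sum_k2, zero_smul, one_smul, zero_add, add_zero] at R1 R2 R3
  rw [e0, zero_add] at R3
  have S1 : e (1, 1, 0) + e (1, 1, 1) = e (1, 0, 0) + e (1, 0, 1) := by
    apply m3_eq_of_add
    rw [R1]; abel
  have S2 : e (1, 1, 0) + e (1, 1, 1) = e (0, 1, 0) + e (0, 1, 1) := by
    apply m3_eq_of_add
    rw [R2]; abel
  have P1 : Poss k i (e (1, 1, 0) + e (1, 1, 1)) X (e (1, 0, 0)) (e (1, 0, 1)) := by
    apply poss_of _ _ _ _ _ _ S1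
    · simpa using hec 1 0 0
    · simpa using hec 1 0 1
  have P2 : Poss k i (e (1, 1, 0) + e (1, 1, 1)) Z (e (0, 1, 0)) (e (0, 1, 1)) := by
    apply poss_of _ _ _ _ _ _ S2
    · simpa using hec 0 1 0
    · simpa using hec 0 1 1
  have P3 : Poss k i (e (1, 1, 0) + e (1, 1, 1)) (X + Z) (e (1, 1, 0)) (e (1, 1, 1)) := by
    apply poss_of _ _ _ _ _ _ rfl
    · simpa using hec 1 1 0
    · simpa using hec 1 1 1
  obtain ⟨h1, h2, h3, h4, h5, h6⟩ := three_classes _ _ _ _ _ _ _ _ _ _ _ P1 P2 P3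
  rw [h2, h4, h6] at R3
  have := H k i j l
  rw [if_pos ⟨rfl, rfl, rfl, rfl⟩] at this
  have h7 := congrFun (congrFun R3 j) l
  rw [Matrix.sum_apply] at h7
  simp only [Matrix.smul_apply, smul_eq_mul, this] at h7
  simp at h7

theorem core (T : ι → M3ˣ) (hT : Function.Injective T) (k i j l : Fin 3) (hij : i ≠ j)
    (H : ∀ r p q s, ∑ t, (((T t)⁻¹ : M3ˣ) : M3) r p * (T t : M3) q s =
      if r = k ∧ p = i ∧ q = j ∧ s = l then 1 else 0)
    (hcard : Fintype.card ι ≤ 7) : False := by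
  classical
  -- parity
  have hpar : (Fintype.card ι : K2) = 0 := by
    have h1 : ∑ p, ∑ t, (((T t)⁻¹ : M3ˣ) : M3) 0 p * (T t : M3) p 0 = 0 := by
      apply Finset.sum_eq_zero
      intro p _
      rw [H, if_neg]
      rintro ⟨-, h, h', -⟩
      exact hij (h.symm.trans h')
    rw [Finset.sum_comm] at h1
    have h2 : ∀ t, ∑ p, (((T t)⁻¹ : M3ˣ) : M3) 0 p * (T t : M3) p 0 = 1 := by
      intro t
      rw [← Matrix.mul_apply]
      simp
    simp only [h2] at h1
    simpa using h1
  have hcard6 : Fintype.card ι ≤ 6 := by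
    have := (ZMod.natCast_eq_zero_iff _ _).1 hpar
    omega
  set MA : Matrix ι {c : Fin 3 × Fin 3 // c ≠ (k, i)} K2 :=
    Matrix.of fun t c => (((T t)⁻¹ : M3ˣ) : M3) c.1.1 c.1.2 with hMA
  set MB : Matrix ι (Fin 3 × Fin 3) K2 := Matrix.of fun t c => (T t : M3) c.1 c.2 with hMB
  have hAB : MAᵀ * MB = 0 := by
    ext c d
    rw [Matrix.mul_apply, Matrix.zero_apply]
    simp only [hMA, hMB, Matrix.transpose_apply, Matrix.of_apply]
    rw [H, if_neg]
    rintro ⟨h1, h2, -, -⟩
    exact c.2 (Prod.ext h1 h2)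
  have hrank := Matrix.rank_add_rank_le_card_of_mul_eq_zero hAB
  rw [Matrix.rank_transpose] at hrank
  have hA : MA.rank = finrank K2 (Submodule.span K2 (Set.range
      (fun c : {c : Fin 3 × Fin 3 // c ≠ (k, i)} =>
        fun t => (((T t)⁻¹ : M3ˣ) : M3) c.1.1 c.1.2))) := by
    rw [Matrix.rank_eq_finrank_span_cols]
    rfl
  have hB : MB.rank = finrank K2 (Submodule.span K2 (Set.range
      (fun c : Fin 3 × Fin 3 => fun t => (T t : M3) c.1 c.2))) := by
    rw [Matrix.rank_eq_finrank_span_cols]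
    rfl
  have hlt : (Submodule.span K2 (Set.range
      (fun c : {c : Fin 3 × Fin 3 // c ≠ (j, l)} => fun t => (T t : M3) c.1.1 c.1.2))) <
      (Submodule.span K2 (Set.range
      (fun c : Fin 3 × Fin 3 => fun t => (T t : M3) c.1 c.2))) := by
    apply lt_of_le_of_ne
    · apply Submodule.span_mono
      rintro _ ⟨c, rfl⟩
      exact ⟨c.1, rfl⟩
    · intro heq
      have hmem : (fun t => (T t : M3) j l) ∈ (Submodule.span K2 (Set.range
          (fun c : {c : Fin 3 × Fin 3 // c ≠ (j, l)} => fun t => (T t : M3) c.1.1 c.1.2))) := by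
        rw [heq]
        exact Submodule.subset_span ⟨(j, l), rfl⟩
      have orth : ∀ c ∈ (Submodule.span K2 (Set.range
          (fun c : {c : Fin 3 × Fin 3 // c ≠ (j, l)} => fun t => (T t : M3) c.1.1 c.1.2))),
          ∑ t, (((T t)⁻¹ : M3ˣ) : M3) k i * c t = 0 := by
        intro c hc
        induction hc using Submodule.span_induction with
        | mem x hx =>
          obtain ⟨⟨⟨r, p⟩, hne⟩, rfl⟩ := hx
          simp only
          rw [H, if_neg]
          rintro ⟨-, -, h1, h2⟩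
          exact hne (by rw [h1, h2])
        | zero => simp
        | add x y _ _ hx hy =>
          simp only [Pi.add_apply, mul_add, Finset.sum_add_distrib, hx, hy, add_zero]
        | smul a x _ hx =>
          simp only [Pi.smul_apply, smul_eq_mul, mul_left_comm _ a, ← Finset.mul_sum, hx,
            mul_zero]
      have h1 := orth _ hmem
      rw [H, if_pos ⟨rfl, rfl, rfl, rfl⟩] at h1
      exact one_ne_zero h1
  have hlt' := Submodule.finrank_lt_finrank_of_lt hlt
  by_cases hcase : MA.rank ≤ 2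
  · rw [hA] at hcase
    exact core_low T hT k i j l H hcase
  · apply core_low (fun t => (T t)⁻¹) (fun a b h => hT (inv_injective h)) j l k i
    · intro r p q s
      have := H q s r p
      simp only [inv_inv]
      rw [← Finset.sum_congr rfl (fun t _ => mul_comm _ _), this]
      apply if_congr _ rfl rfl
      tauto
    · have h8 : finrank K2 (Submodule.span K2 (Set.range
          (fun c : {c : Fin 3 × Fin 3 // c ≠ (j, l)} => fun t => (T t : M3) c.1.1 c.1.2))) ≤ 2 := by
        omega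
      have e : (fun c : {c : Fin 3 × Fin 3 // c ≠ (j, l)} =>
          fun t => ((((T t)⁻¹)⁻¹ : M3ˣ) : M3) c.1.1 c.1.2) =
          (fun c : {c : Fin 3 × Fin 3 // c ≠ (j, l)} => fun t => (T t : M3) c.1.1 c.1.2) := by
        funext c t
        rw [inv_inv]
      rw [← e] at h8
      exact h8

end core

end Pool.Agent.R699.RDU
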