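import Mathlib

/-!
# Reverse decomposition of unipotents: definitions and the abstract calculus
-/

namespace Pool.Agent.R699.RDU

universe u

/-- `E_n(R)`: the subgroup of `GL_n(R)` generated by the elementary transvections `t_{kl}(a)`. -/
def En (n : ℕ) (R : Type u) [Ring R] : Subgroup (Matrix (Fin n) (Fin n) R)ˣ :=
  Subgroup.closure {g | ∃ (k l : Fin n) (a : R), k ≠ l ∧
    (g : Matrix (Fin n) (Fin n) R) = 1 + Matrix.single k l a}

/-- `m` is an RDU bound for `GL_n(R)`. -/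
def IsRDUBoundGL (n : ℕ) (R : Type u) [Ring R] (m : ℕ) : Prop :=
  ∀ σ : (Matrix (Fin n) (Fin n) R)ˣ, ∀ k l i j : Fin n, k ≠ l → i ≠ j →
    ∃ L : List (Matrix (Fin n) (Fin n) R)ˣ, L.length ≤ m ∧
      (∀ x ∈ L, ∃ τ ∈ En n R, x = τ⁻¹ * σ * τ ∨ x = τ⁻¹ * σ⁻¹ * τ) ∧
      ((L.prod : (Matrix (Fin n) (Fin n) R)ˣ) : Matrix (Fin n) (Fin n) R) =
        1 + Matrix.single k l ((σ : Matrix (Fin n) (Fin n) R) i j)

/-- `m` is an RDU bound for `R`. -/
def IsRDUBound (R : Type u) [Ring R] (m : ℕ) : Prop := ∀ n, 3 ≤ n → IsRDUBoundGL n R m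

/-- `m` is an RDU bound for the class `C` of rings. -/
def IsRDUBoundClass (C : (R : Type u) → [Ring R] → Prop) (m : ℕ) : Prop :=
  ∀ (R : Type u) [Ring R], C R → IsRDUBound R m

/-- The class of commutative rings. -/
def ClassComm (R : Type u) [Ring R] : Prop := ∀ a b : R, a * b = b * a

/-- The class of von Neumann regular rings. -/
def ClassRegular (R : Type u) [Ring R] : Prop := ∀ a : R, ∃ x : R, a * x * a = a

/-- The class of rings of stable rank `1`. -/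
def ClassSR1 (R : Type u) [Ring R] : Prop :=
  ∀ a b : R, (∃ x y : R, x * a + y * b = 1) → ∃ c : R, IsUnit (a + c * b)

section group

variable {G : Type u} [Group G]

/-- `X` is a product of at most `m` `E`-conjugates of `σ` and `σ⁻¹`. -/
def PC (E : Subgroup G) (σ : G) (m : ℕ) (X : G) : Prop :=
  ∃ L : List G, L.length ≤ m ∧ (∀ x ∈ L, ∃ τ ∈ E, x = τ⁻¹ * σ * τ ∨ x = τ⁻¹ * σ⁻¹ * τ) ∧
    L.prod = X

variable {E : Subgroup G} {σ : G}

theorem PC.self : PC E σ 1 σ := ⟨[σ], by simp, by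
  intro x hx; refine ⟨1, E.one_mem, ?_⟩; simp at hx; simp [hx], by simp⟩

theorem PC.self_inv : PC E σ 1 σ⁻¹ := ⟨[σ⁻¹], by simp, by
  intro x hx; refine ⟨1, E.one_mem, ?_⟩; simp at hx; simp [hx], by simp⟩

theorem PC.mul {m m' : ℕ} {X Y : G} (h : PC E σ m X) (h' : PC E σ m' Y) :
    PC E σ (m + m') (X * Y) := by
  obtain ⟨L, h1, h2, h3⟩ := h
  obtain ⟨L', h1', h2', h3'⟩ := h'
  refine ⟨L ++ L', ?_, ?_, ?_⟩
  · rw [List.length_append]; omega
  · intro x hx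
    rcases List.mem_append.1 hx with hx | hx
    · exact h2 x hx
    · exact h2' x hx
  · rw [List.prod_append, h3, h3']

theorem PC.conj {m : ℕ} {X : G} (h : PC E σ m X) {τ : G} (hτ : τ ∈ E) :
    PC E σ m (τ⁻¹ * X * τ) := by
  obtain ⟨L, h1, h2, h3⟩ := h
  refine ⟨L.map (fun x => τ⁻¹ * x * τ), by simpa using h1, ?_, ?_⟩
  · intro x hx
    obtain ⟨y, hy, rfl⟩ := List.mem_map.1 hx
    obtain ⟨ρ, hρ, h⟩ := h2 y hy
    refine ⟨ρ * τ, E.mul_mem hρ hτ, ?_⟩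
    rcases h with rfl | rfl
    · left; group
    · right; group
  · rw [← h3]
    clear h1 h2 h3
    induction L with
    | nil => simp
    | cons a L ih => simp only [List.map_cons, List.prod_cons, ih]; group

theorem PC.conj' {m : ℕ} {X : G} (h : PC E σ m X) {τ : G} (hτ : τ ∈ E) :
    PC E σ m (τ * X * τ⁻¹) := by
  have := h.conj (E.inv_mem hτ)
  simpa using this

theorem PC.inv {m : ℕ} {X : G} (h : PC E σ m X) : PC E σ m X⁻¹ := by
  obtain ⟨L, h1, h2, h3⟩ := h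
  refine ⟨(L.map (fun x => x⁻¹)).reverse, by simpa using h1, ?_, ?_⟩
  · intro x hx
    rw [List.mem_reverse] at hx
    obtain ⟨y, hy, rfl⟩ := List.mem_map.1 hx
    obtain ⟨ρ, hρ, h⟩ := h2 y hy
    refine ⟨ρ, hρ, ?_⟩
    rcases h with rfl | rfl
    · right; group
    · left; group
  · rw [← h3, List.prod_inv_reverse]

/-- Replacing `σ` by an `E`-conjugate. -/
theorem PC.of_conj {m : ℕ} {X : G} {τ : G} (hτ : τ ∈ E) (h : PC E (τ⁻¹ * σ * τ) m X) :
    PC E σ m X := by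
  obtain ⟨L, h1, h2, h3⟩ := h
  refine ⟨L, h1, ?_, h3⟩
  intro x hx
  obtain ⟨ρ, hρ, h⟩ := h2 x hx
  refine ⟨τ * ρ, E.mul_mem hτ hρ, ?_⟩
  rcases h with rfl | rfl
  · left; group
  · right; group

theorem PC.of_conj' {m : ℕ} {X : G} {τ : G} (hτ : τ ∈ E) (h : PC E (τ * σ * τ⁻¹) m X) :
    PC E σ m X := by
  apply PC.of_conj (E.inv_mem hτ)
  simpa using h

/-- The double commutator is a product of four conjugates. -/
theorem pc_four {g h : G} (hg : g ∈ E) (hh : h ∈ E) :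
    PC E σ 4 (h⁻¹ * (σ * g⁻¹ * σ⁻¹ * g)⁻¹ * h * (σ * g⁻¹ * σ⁻¹ * g)) := by
  have h1 : PC E σ 1 (h⁻¹ * (g⁻¹ * σ * g) * h) := (PC.self.conj hg).conj hh
  have h2 : PC E σ 1 (h⁻¹ * σ⁻¹ * h) := PC.self_inv.conj hh
  have h3 : PC E σ 1 σ := PC.self
  have h4 : PC E σ 1 (g⁻¹ * σ⁻¹ * g) := PC.self_inv.conj hg
  have := ((h1.mul h2).mul h3).mul h4
  convert this using 1
  group

/-- The triple commutator-like expression is a product of eight conjugates. -/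
theorem pc_eight {τ h h2 D : G} (hτ : τ ∈ E) (hh : h ∈ E) (hh2 : h2 ∈ E)
    (hD : D = (σ⁻¹ * τ * σ) * h * (σ⁻¹ * τ * σ)⁻¹ * (τ * h⁻¹ * τ⁻¹)) :
    PC E σ 8 (h2⁻¹ * D⁻¹ * h2 * D) := by
  have e1 : PC E σ 1 (τ⁻¹ * σ⁻¹ * τ) := PC.self_inv.conj hτ
  have e2 : PC E σ 1 σ := PC.self
  have e3 : PC E σ 1 (h * σ⁻¹ * h⁻¹) := PC.self_inv.conj' hh
  have e4 : PC E σ 1 (h * (τ⁻¹ * σ * τ) * h⁻¹) := (PC.self.conj hτ).conj' hh
  have e5 := (((e1.mul e2).mul e3).mul e4).conj' hτ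
  have e6 : PC E σ 4 D := by
    convert e5 using 1
    rw [hD]; group
  exact (e6.inv.conj hh2).mul e6

end group

end Pool.Agent.R699.RDU
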