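import Pool.Agent.R699.RDUDefs
import Pool.Agent.R699.RDUCore

/-!
# Reverse decomposition of unipotents: lower bounds
-/

namespace Pool.Agent.R699.RDU

open Matrix

universe u

theorem core_list (L : List M3ˣ) (k i j l : Fin 3) (hij : i ≠ j)
    (H : ∀ r p q s, (L.map (fun g => ((g⁻¹ : M3ˣ) : M3) r p * (g : M3) q s)).sum =
      if r = k ∧ p = i ∧ q = j ∧ s = l then 1 else 0)
    (hL : L.length ≤ 7) : False := by
  classical
  set F := L.toFinset.filter (fun g => Odd (L.count g)) with hF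
  apply core (ι := F) (fun g => g.1) Subtype.val_injective k i j l hij
  · intro r p q s
    rw [← H r p q s, Finset.sum_list_map_count]
    rw [Finset.univ_eq_attach, Finset.sum_attach F
      (fun g => ((g⁻¹ : M3ˣ) : M3) r p * (g : M3) q s), hF, Finset.sum_filter]
    apply Finset.sum_congr rfl
    intro g _
    split_ifs with h
    · obtain ⟨m, hm⟩ := h
      rw [hm, add_smul, mul_smul, two_smul, CharTwo.add_self_eq_zero, zero_add, one_smul]
    · rw [Nat.not_odd_iff_even] at h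
      obtain ⟨m, hm⟩ := h
      rw [hm, add_smul, CharTwo.add_self_eq_zero]
  · rw [Fintype.card_coe]
    calc F.card ≤ L.toFinset.card := Finset.card_filter_le _ _
      _ ≤ L.length := List.toFinset_card_le _
      _ ≤ 7 := hL

/-- the coefficient space -/
abbrev VV : Type u := ULift.{u} (Fin 3 × Fin 3) → K2

/-- the local ring `F_2 ⊕ V` with `V² = 0` and `dim V = 9`. -/
abbrev R1 : Type u := TrivSqZeroExt K2 VV.{u}

/-- matrices over `R1` -/
abbrev MR : Type u := Matrix (Fin 3) (Fin 3) R1.{u}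

/-- the generic matrix -/
def XX : MR.{u} := Matrix.of fun p q => TrivSqZeroExt.inr (Pi.single (ULift.up (p, q)) 1)

theorem XX_sq : XX.{u} * XX = 0 := by
  ext1 p q
  rw [Matrix.mul_apply, Matrix.zero_apply]
  apply Finset.sum_eq_zero
  intro r _
  simp only [XX, Matrix.of_apply]
  exact TrivSqZeroExt.inr_mul_inr _ _ _

def sig : MR.{u}ˣ where
  val := 1 + XX
  inv := 1 - XX
  val_inv := by noncomm_ring; rw [XX_sq]; simp
  inv_val := by noncomm_ring; rw [XX_sq]; simp

/-- reduction modulo the maximal ideal -/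
def FF : MR.{u} →+* M3 := (TrivSqZeroExt.fstHom K2 K2 VV.{u}).toRingHom.mapMatrix

/-- the coefficient matrices -/
def DD (c : Fin 3 × Fin 3) (M : MR.{u}) : M3 := M.map fun x => x.snd (ULift.up c)

theorem DD_add (c : Fin 3 × Fin 3) (M N : MR.{u}) : DD c (M + N) = DD c M + DD c N := by
  ext a b
  simp [DD]

theorem DD_sub (c : Fin 3 × Fin 3) (M N : MR.{u}) : DD c (M - N) = DD c M - DD c N := by
  ext a b
  simp [DD]

theorem DD_one (c : Fin 3 × Fin 3) : DD c (1 : MR.{u}) = 0 := by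
  ext a b
  simp only [DD, Matrix.map_apply, Matrix.zero_apply, Matrix.one_apply]
  split_ifs <;> simp

theorem DD_mul (c : Fin 3 × Fin 3) (M N : MR.{u}) :
    DD c (M * N) = FF M * DD c N + DD c M * FF N := by
  ext a b
  simp only [DD, Matrix.map_apply, Matrix.mul_apply, Matrix.add_apply, FF]
  rw [← Finset.sum_add_distrib]
  rw [TrivSqZeroExt.snd_sum, Finset.sum_apply]
  apply Finset.sum_congr rfl
  intro j _
  rw [TrivSqZeroExt.snd_mul]
  simp
  rw [mul_comm]

theorem FF_sig : FF (sig.{u} : MR.{u}) = 1 := by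
  ext a b
  simp [FF, sig, XX, Matrix.one_apply]
  split_ifs <;> simp

theorem DD_XX (c : Fin 3 × Fin 3) : DD c XX.{u} = single c.1 c.2 1 := by
  ext a b
  simp only [DD, XX, Matrix.map_apply, Matrix.of_apply, TrivSqZeroExt.snd_inr, single_apply,
    Pi.single_apply, ULift.up_inj]
  apply if_congr _ rfl rfl
  rw [Prod.ext_iff]

/-- the coefficient matrices of a conjugate -/
theorem DD_conj (c : Fin 3 × Fin 3) (τ : MR.{u}ˣ) (M : MR.{u}) (hM : FF M = 1) :
    FF (((τ⁻¹ : MR.{u}ˣ) : MR.{u}) * M * τ) = 1 ∧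
    DD c (((τ⁻¹ : MR.{u}ˣ) : MR.{u}) * M * τ) =
      (((Units.map FF.toMonoidHom τ)⁻¹ : M3ˣ) : M3) * DD c M *
        ((Units.map FF.toMonoidHom τ : M3ˣ) : M3) := by
  have h1 : FF ((τ⁻¹ : MR.{u}ˣ) : MR.{u}) * FF (τ : MR.{u}) = 1 := by
    rw [← map_mul]; simp
  have h2 : DD c (((τ⁻¹ : MR.{u}ˣ) : MR.{u}) * (τ : MR.{u})) = 0 := by
    rw [Units.inv_mul, DD_one]
  rw [DD_mul] at h2
  have h3 : (((Units.map FF.toMonoidHom τ)⁻¹ : M3ˣ) : M3) = FF ((τ⁻¹ : MR.{u}ˣ) : MR.{u}) := rfl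
  have h4 : ((Units.map FF.toMonoidHom τ : M3ˣ) : M3) = FF (τ : MR.{u}) := rfl
  refine ⟨by rw [map_mul, map_mul, hM, mul_one, h1], ?_⟩
  have h5 : FF ((τ⁻¹ : MR.{u}ˣ) : MR.{u}) * DD c (τ : MR.{u}) +
      (FF ((τ⁻¹ : MR.{u}ˣ) : MR.{u}) * DD c M + DD c ((τ⁻¹ : MR.{u}ˣ) : MR.{u})) *
        FF (τ : MR.{u}) =
      (FF ((τ⁻¹ : MR.{u}ˣ) : MR.{u}) * DD c (τ : MR.{u}) +
        DD c ((τ⁻¹ : MR.{u}ˣ) : MR.{u}) * FF (τ : MR.{u})) +
      FF ((τ⁻¹ : MR.{u}ˣ) : MR.{u}) * DD c M * FF (τ : MR.{u}) := by noncomm_ring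
  rw [h3, h4, DD_mul, DD_mul, map_mul, hM, mul_one, mul_one, h5, h2, zero_add]

theorem list_aux (L : List MR.{u}ˣ)
    (hL : ∀ x ∈ L, ∃ τ ∈ En 3 R1.{u}, x = τ⁻¹ * sig * τ ∨ x = τ⁻¹ * sig⁻¹ * τ) :
    ∃ L' : List M3ˣ, L'.length = L.length ∧ FF ((L.prod : MR.{u}ˣ) : MR.{u}) = 1 ∧
      ∀ c : Fin 3 × Fin 3, DD c ((L.prod : MR.{u}ˣ) : MR.{u}) =
        (L'.map (fun g => ((g⁻¹ : M3ˣ) : M3) * single c.1 c.2 1 * (g : M3))).sum := by
  induction L with
  | nil =>
    refine ⟨[], rfl, by simp, fun c => ?_⟩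
    simp [DD_one]
  | cons x L ih =>
    obtain ⟨L', h1, h2, h3⟩ := ih (fun y hy => hL y (List.mem_cons_of_mem _ hy))
    obtain ⟨τ, -, hτ⟩ := hL x List.mem_cons_self
    have hsig : FF (sig.{u} : MR.{u}) = 1 ∧ FF ((sig.{u}⁻¹ : MR.{u}ˣ) : MR.{u}) = 1 := by
      refine ⟨FF_sig, ?_⟩
      have : FF (sig.{u} : MR.{u}) * FF ((sig.{u}⁻¹ : MR.{u}ˣ) : MR.{u}) = 1 := by
        rw [← map_mul]; simp
      rwa [FF_sig, one_mul] at this
    have hD : ∀ c, DD c (sig.{u} : MR.{u}) = single c.1 c.2 1 ∧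
        DD c ((sig.{u}⁻¹ : MR.{u}ˣ) : MR.{u}) = single c.1 c.2 1 := by
      intro c
      have e1 : (sig.{u} : MR.{u}) = 1 + XX := rfl
      have e2 : ((sig.{u}⁻¹ : MR.{u}ˣ) : MR.{u}) = 1 - XX := rfl
      rw [e1, e2, DD_add, DD_sub, DD_one, DD_XX, zero_add, zero_sub]
      refine ⟨rfl, ?_⟩
      have := m3_add_self (single c.1 c.2 1)
      exact neg_eq_of_add_eq_zero_left this
    have key : FF (x : MR.{u}) = 1 ∧ ∀ c, DD c (x : MR.{u}) =
        (((Units.map FF.toMonoidHom τ)⁻¹ : M3ˣ) : M3) * single c.1 c.2 1 *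
          ((Units.map FF.toMonoidHom τ : M3ˣ) : M3) := by
      rcases hτ with rfl | rfl
      · refine ⟨?_, fun c => ?_⟩
        · exact (DD_conj (0, 0) τ _ hsig.1).1
        · rw [← (hD c).1]; exact (DD_conj c τ _ hsig.1).2
      · refine ⟨?_, fun c => ?_⟩
        · exact (DD_conj (0, 0) τ _ hsig.2).1
        · conv_rhs => rw [← (hD c).2]
          exact (DD_conj c τ _ hsig.2).2
    refine ⟨Units.map FF.toMonoidHom τ :: L', by simp [h1], ?_, fun c => ?_⟩
    · rw [List.prod_cons, Units.val_mul, map_mul, key.1, h2, mul_one]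
    · rw [List.prod_cons, Units.val_mul, DD_mul, key.1, h2, one_mul, mul_one, h3 c, key.2 c,
        List.map_cons, List.sum_cons, add_comm]

theorem not_bound_R1 (m : ℕ) (hm : m ≤ 7) : ¬ IsRDUBound R1.{u} m := by
  intro h
  obtain ⟨L, hL1, hL2, hL3⟩ := h 3 le_rfl sig.{u} 0 1 0 1 (by decide) (by decide)
  obtain ⟨L', h1, h2, h3⟩ := list_aux L hL2
  apply core_list L' 0 0 1 1 (by decide) _ (by omega)
  intro r p q s
  have h4 := congrFun (congrFun (h3 (p, q)) r) s
  have h5 : ((L'.map (fun g => ((g⁻¹ : M3ˣ) : M3) * single p q 1 * (g : M3))).sum : M3) r s =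
      (L'.map (fun g => ((g⁻¹ : M3ˣ) : M3) r p * (g : M3) q s)).sum := by
    clear h1 h3 h4
    induction L' with
    | nil => simp
    | cons g L' ih =>
      rw [List.map_cons, List.sum_cons, List.map_cons, List.sum_cons, Matrix.add_apply, ih]
      congr 1
      rw [Matrix.mul_apply, Finset.sum_eq_single q]
      · rw [mul_single_apply_same, mul_one]
      · intro b _ hb
        rw [mul_single_apply_of_ne _ _ _ _ _ hb, zero_mul]
      · intro h; exact absurd (Finset.mem_univ _) h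
  rw [← h5, ← h4, hL3, DD_add, DD_one, zero_add]
  have e1 : (sig.{u} : MR.{u}) 0 1 = TrivSqZeroExt.inr (Pi.single (ULift.up (0, 1)) 1) := by
    have : (sig.{u} : MR.{u}) = 1 + XX := rfl
    rw [this]
    simp [XX]
  rw [e1]
  simp only [DD, Matrix.map_apply, single_apply]
  by_cases h1 : (0 : Fin 3) = r ∧ (1 : Fin 3) = s
  · rw [if_pos h1, TrivSqZeroExt.snd_inr, Pi.single_apply]
    apply if_congr _ rfl rfl
    rw [ULift.up_inj, Prod.mk.injEq]
    constructor
    · rintro ⟨h, h'⟩; exact ⟨h1.1.symm, h, h', h1.2.symm⟩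
    · rintro ⟨-, h, h', -⟩; exact ⟨h, h'⟩
  · rw [if_neg h1, if_neg]
    · simp
    · rintro ⟨h, -, -, h'⟩; exact h1 ⟨h.symm, h'.symm⟩

theorem comm_R1 : ClassComm R1.{u} := fun a b => mul_comm a b

theorem sr1_R1 : ClassSR1 R1.{u} := by
  rintro a b ⟨x, y, hxy⟩
  have h1 : x.fst * a.fst + y.fst * b.fst = 1 := by
    have := congrArg TrivSqZeroExt.fst hxy
    simpa using this
  rcases k2_cases a.fst with ha | ha
  · refine ⟨1, ?_⟩
    rw [TrivSqZeroExt.isUnit_iff_isUnit_fst]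
    have hb : b.fst = 1 := by
      rcases k2_cases b.fst with hb | hb
      · rw [ha, hb] at h1; simp at h1
      · exact hb
    simp [ha, hb]
  · refine ⟨0, ?_⟩
    rw [TrivSqZeroExt.isUnit_iff_isUnit_fst]
    simp [ha]

/-! ### Fields -/

section field

variable {K : Type u} [Field K]

/-- the companion matrix of `x³ - 2` -/
def comp3 (h2 : (2 : K) ≠ 0) : (Matrix (Fin 3) (Fin 3) K)ˣ where
  val := !![0, 0, 2; 1, 0, 0; 0, 1, 0]
  inv := !![0, 1, 0; 0, 0, 1; 2⁻¹, 0, 0]
  val_inv := by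
    ext i j; fin_cases i <;> fin_cases j <;> simp [Matrix.mul_apply, Fin.sum_univ_three, h2]
  inv_val := by
    ext i j; fin_cases i <;> fin_cases j <;> simp [Matrix.mul_apply, Fin.sum_univ_three, h2]

theorem comp3_det (h2 : (2 : K) ≠ 0) : ((comp3 h2 : (Matrix (Fin 3) (Fin 3) K)ˣ) :
    Matrix (Fin 3) (Fin 3) K).det = 2 := by
  simp [comp3, Matrix.det_fin_three]

theorem conj_props (h2 : (2 : K) ≠ 0) (τ : (Matrix (Fin 3) (Fin 3) K)ˣ) :
    (((τ⁻¹ * comp3 h2 * τ : (Matrix (Fin 3) (Fin 3) K)ˣ) : Matrix (Fin 3) (Fin 3) K)).trace = 0 ∧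
    (((τ⁻¹ * comp3 h2 * τ : (Matrix (Fin 3) (Fin 3) K)ˣ) : Matrix (Fin 3) (Fin 3) K) ^ 2).trace
      = 0 ∧
    ((τ⁻¹ * comp3 h2 * τ : (Matrix (Fin 3) (Fin 3) K)ˣ) : Matrix (Fin 3) (Fin 3) K) ^ 3 =
      (2 : K) • 1 ∧
    ((τ⁻¹ * comp3 h2 * τ : (Matrix (Fin 3) (Fin 3) K)ˣ) : Matrix (Fin 3) (Fin 3) K).det = 2 := by
  have hpow : ∀ m : ℕ, (((τ⁻¹ * comp3 h2 * τ : (Matrix (Fin 3) (Fin 3) K)ˣ)) :
      Matrix (Fin 3) (Fin 3) K) ^ m = ((τ⁻¹ : (Matrix (Fin 3) (Fin 3) K)ˣ) :
      Matrix (Fin 3) (Fin 3) K) * (comp3 h2 : Matrix (Fin 3) (Fin 3) K) ^ m * τ := by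
    intro m
    have : (τ⁻¹ * comp3 h2 * τ) ^ m = τ⁻¹ * comp3 h2 ^ m * τ := by
      have := conj_pow (i := m) (a := τ⁻¹) (b := comp3 h2)
      simpa using this
    rw [← Units.val_pow_eq_pow_val, this]
    simp
  refine ⟨?_, ?_, ?_, ?_⟩
  · have := hpow 1
    rw [pow_one, pow_one] at this
    rw [this, Matrix.trace_mul_cycle]
    simp [Matrix.trace_fin_three, comp3]
  · rw [hpow, Matrix.trace_mul_cycle]
    simp [Matrix.trace_fin_three, comp3, pow_two, Matrix.mul_apply, Fin.sum_univ_three]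
  · rw [hpow]
    have : (comp3 h2 : Matrix (Fin 3) (Fin 3) K) ^ 3 = (2 : K) • 1 := by
      ext i j
      fin_cases i <;> fin_cases j <;>
        simp [comp3, pow_succ, Matrix.mul_apply, Fin.sum_univ_three, Matrix.one_apply]
    rw [this]
    simp
  · have := hpow 1
    rw [pow_one, pow_one] at this
    rw [this, Matrix.det_mul, Matrix.det_mul, comp3_det, mul_right_comm, ← Matrix.det_mul]
    simp

theorem no_two (h2 : (2 : K) ≠ 0) (hcube : ∀ x : K, x ^ 3 ≠ 2) (B : Matrix (Fin 3) (Fin 3) K)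
    (h1 : B.trace = 0) (h3 : (B ^ 2).trace = 0) (h4 : B ^ 3 = (2 : K) • 1)
    (h5 : ((1 + single 0 1 1) * B).trace = 0) (h6 : (((1 + single 0 1 1) * B) ^ 2).trace = 0) :
    False := by
  have e1 : B 1 0 = 0 := by
    rw [add_mul, one_mul, Matrix.trace_add, h1, zero_add] at h5
    simpa [Matrix.trace_fin_three] using h5
  have e2 : B 1 2 * B 2 0 = 0 := by
    simp only [pow_two, Matrix.trace_fin_three, Matrix.mul_apply, Fin.sum_univ_three,
      Matrix.add_apply, Matrix.one_apply, single_apply, e1] at h3 h6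
    simp at h3 h6
    have : 2 * (B 1 2 * B 2 0) = 0 := by linear_combination h6 - h3
    exact (mul_eq_zero.1 this).resolve_left h2
  have key : ∀ i j, (B ^ 3) i j = ((2 : K) • (1 : Matrix (Fin 3) (Fin 3) K)) i j := by
    intro i j; rw [h4]
  rcases mul_eq_zero.1 e2 with h | h
  · have := key 1 1
    simp [pow_succ, Matrix.mul_apply, Fin.sum_univ_three, e1, h] at this
    apply hcube (B 1 1)
    linear_combination this
  · have := key 0 0
    simp [pow_succ, Matrix.mul_apply, Fin.sum_univ_three, e1, h] at this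
    apply hcube (B 0 0)
    linear_combination this

/-- conjugates of `comp3` -/
def Good (B : Matrix (Fin 3) (Fin 3) K) : Prop :=
  B.trace = 0 ∧ (B ^ 2).trace = 0 ∧ B ^ 3 = (2 : K) • 1 ∧ B.det = 2

theorem det_inv_unit (x : (Matrix (Fin 3) (Fin 3) K)ˣ) :
    (x : Matrix (Fin 3) (Fin 3) K).det *
      ((x⁻¹ : (Matrix (Fin 3) (Fin 3) K)ˣ) : Matrix (Fin 3) (Fin 3) K).det = 1 := by
  rw [← Matrix.det_mul]; simp

theorem not_bound_field [CharZero K] (hcube : ∀ x : K, x ^ 3 ≠ 2) (m : ℕ) (hm : m ≤ 3) :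
    ¬ IsRDUBound K m := by
  intro h
  have h2 : (2 : K) ≠ 0 := two_ne_zero
  obtain ⟨L, hL1, hL2, hL3⟩ := h 3 le_rfl (comp3 h2) 0 1 1 0 (by decide) (by decide)
  have hs : (comp3 h2 : Matrix (Fin 3) (Fin 3) K) 1 0 = 1 := by simp [comp3]
  rw [hs] at hL3
  have hP : (1 + single 0 1 1 : Matrix (Fin 3) (Fin 3) K).det = 1 := by
    simp [Matrix.det_fin_three, single_apply]
  have hgood : ∀ x ∈ L, Good (x : Matrix (Fin 3) (Fin 3) K) ∨
      Good ((x⁻¹ : (Matrix (Fin 3) (Fin 3) K)ˣ) : Matrix (Fin 3) (Fin 3) K) := by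
    intro x hx
    obtain ⟨τ, -, hτ⟩ := hL2 x hx
    rcases hτ with rfl | rfl
    · left; exact conj_props h2 τ
    · right
      have : (τ⁻¹ * (comp3 h2)⁻¹ * τ)⁻¹ = τ⁻¹ * comp3 h2 * τ := by group
      rw [this]; exact conj_props h2 τ
  have hdet : ∀ x ∈ L, (x : Matrix (Fin 3) (Fin 3) K).det = 2 ∨
      (x : Matrix (Fin 3) (Fin 3) K).det * 2 = 1 := by
    intro x hx
    rcases hgood x hx with h | h
    · left; exact h.2.2.2
    · right; rw [← h.2.2.2]; exact det_inv_unit x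
  clear hL2
  match L, hL1, hL3, hgood, hdet with
  | [], _, hL3, _, _ =>
    have := congrFun (congrFun hL3 0) 1
    simp [single_apply] at this
  | [x], _, hL3, _, hdet =>
    have h1 : (x : Matrix (Fin 3) (Fin 3) K).det = 1 := by
      rw [← hP, ← hL3]; simp
    rcases hdet x (by simp) with h | h
    · rw [h1] at h; norm_num at h
    · rw [h1] at h; norm_num at h
  | [x, y], _, hL3, hgood, hdet =>
    have hxy : (x : Matrix (Fin 3) (Fin 3) K) * (y : Matrix (Fin 3) (Fin 3) K) =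
        1 + single 0 1 1 := by
      rw [← hL3]; simp
    have h1 : (x : Matrix (Fin 3) (Fin 3) K).det * (y : Matrix (Fin 3) (Fin 3) K).det = 1 := by
      rw [← hP, ← hxy, Matrix.det_mul]
    rcases hgood x (by simp) with hx | hx
    · rcases hgood y (by simp) with hy | hy
      · rw [hx.2.2.2, hy.2.2.2] at h1; norm_num at h1
      · have e : (1 + single 0 1 1 : Matrix (Fin 3) (Fin 3) K) *
            ((y⁻¹ : (Matrix (Fin 3) (Fin 3) K)ˣ) : Matrix (Fin 3) (Fin 3) K) =
            (x : Matrix (Fin 3) (Fin 3) K) := by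
          rw [← hxy, mul_assoc]; simp
        apply no_two h2 hcube _ hy.1 hy.2.1 hy.2.2.1
        · rw [e]; exact hx.1
        · rw [e]; exact hx.2.1
    · rcases hgood y (by simp) with hy | hy
      · set B : Matrix (Fin 3) (Fin 3) K :=
          ((x⁻¹ : (Matrix (Fin 3) (Fin 3) K)ˣ) : Matrix (Fin 3) (Fin 3) K) with hB
        have e : B * (1 + single 0 1 1 : Matrix (Fin 3) (Fin 3) K) =
            (y : Matrix (Fin 3) (Fin 3) K) := by
          rw [← hxy, ← mul_assoc, hB]; simp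
        apply no_two h2 hcube _ hx.1 hx.2.1 hx.2.2.1
        · rw [Matrix.trace_mul_comm, e]; exact hy.1
        · rw [← hy.2.1, ← e, pow_two, pow_two, mul_assoc, Matrix.trace_mul_comm]
          simp only [mul_assoc]
      · have e1 := det_inv_unit x
        have e2 := det_inv_unit y
        rw [hx.2.2.2] at e1
        rw [hy.2.2.2] at e2
        have : (1 : K) = 4 := by
          calc (1 : K) = ((x : Matrix (Fin 3) (Fin 3) K).det * 2) *
              ((y : Matrix (Fin 3) (Fin 3) K).det * 2) := by rw [e1, e2]; ring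
            _ = ((x : Matrix (Fin 3) (Fin 3) K).det * (y : Matrix (Fin 3) (Fin 3) K).det) * 4 := by
              ring
            _ = 4 := by rw [h1]; ring
        norm_num at this
  | [x, y, z], _, hL3, _, hdet =>
    have h1 : (x : Matrix (Fin 3) (Fin 3) K).det * ((y : Matrix (Fin 3) (Fin 3) K).det *
        (z : Matrix (Fin 3) (Fin 3) K).det) = 1 := by
      rw [← hP, ← hL3]; simp
    have hx := hdet x (by simp)
    have hy := hdet y (by simp)
    have hz := hdet z (by simp)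
    generalize (x : Matrix (Fin 3) (Fin 3) K).det = a at *
    generalize (y : Matrix (Fin 3) (Fin 3) K).det = b at *
    generalize (z : Matrix (Fin 3) (Fin 3) K).det = c at *
    rcases hx with hx | hx <;> rcases hy with hy | hy <;> rcases hz with hz | hz
    · rw [hx, hy, hz] at h1; norm_num at h1
    · have : (4 : K) = 2 := by
        rw [hx, hy] at h1; linear_combination 2 * h1 - 4 * hz
      norm_num at this
    · have : (4 : K) = 2 := by
        rw [hx, hz] at h1; linear_combination 2 * h1 - 4 * hy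
      norm_num at this
    · have : (2 : K) = 4 := by
        rw [hx] at h1; linear_combination 4 * h1 - 2 * (2 * b) * hz - 2 * hy
      norm_num at this
    · have : (4 : K) = 2 := by
        rw [hy, hz] at h1; linear_combination 2 * h1 - 4 * hx
      norm_num at this
    · have : (2 : K) = 4 := by
        rw [hy] at h1; linear_combination 4 * h1 - 2 * (2 * a) * hz - 2 * hx
      norm_num at this
    · have : (2 : K) = 4 := by
        rw [hz] at h1; linear_combination 4 * h1 - 2 * (2 * a) * hy - 2 * hx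
      norm_num at this
    · have : (1 : K) = 8 := by
        linear_combination 8 * h1 - (a * 2) * (b * 2) * hz - (a * 2) * hy - hx
      norm_num at this
  | _ :: _ :: _ :: _ :: _, hL1, _, _, _ =>
    simp only [List.length_cons] at hL1
    omega

end field

theorem cube_rat (x : ℚ) : x ^ 3 ≠ 2 := by
  intro h
  have hx : x ≠ 0 := by rintro rfl; norm_num at h
  have h1 : padicValRat 2 (x ^ 3) = 3 * padicValRat 2 x := by
    rw [padicValRat.pow]; norm_num
  rw [h] at h1
  have h2 : padicValRat 2 (2 : ℚ) = 1 := by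
    have := padicValRat.self (p := 2) (by norm_num)
    exact_mod_cast this
  rw [h2] at h1
  omega

theorem regular_field (K : Type u) [Field K] : ClassRegular K := by
  intro a
  by_cases h : a = 0
  · exact ⟨0, by simp [h]⟩
  · exact ⟨a⁻¹, by field_simp⟩

end Pool.Agent.R699.RDU
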