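import Pool.Agent.R699.RDUDefs

/-!
# Reverse decomposition of unipotents: upper bounds
-/

namespace Pool.Agent.R699.RDU

open Matrix

universe u

set_option linter.unusedSimpArgs false

section ring

variable {S : Type u} [Ring S]

/-- The unit `1 + N` for `N * N = 0`. -/
def unip (N : S) (h : N * N = 0) : Sˣ where
  val := 1 + N
  inv := 1 - N
  val_inv := by noncomm_ring; rw [h]; simp
  inv_val := by noncomm_ring; rw [h]; simp

@[simp] theorem unip_val (N : S) (h : N * N = 0) : ((unip N h : Sˣ) : S) = 1 + N := rfl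
@[simp] theorem unip_inv (N : S) (h : N * N = 0) : (((unip N h)⁻¹ : Sˣ) : S) = 1 - N := rfl

end ring

/-- square matrices -/
abbrev MnA (n : ℕ) (R : Type u) : Type u := Matrix (Fin n) (Fin n) R

section mat

variable {R : Type u} [Ring R] {n : ℕ}


theorem single_sq {k l : Fin n} (h : k ≠ l) (a : R) :
    (single k l a : MnA n R) * single k l a = 0 := by
  rw [single_mul_single_of_ne _ _ _ _ h.symm]

/-- the elementary transvection as a unit -/
def tr (k l : Fin n) (h : k ≠ l) (a : R) : (MnA n R)ˣ := unip (single k l a) (single_sq h a)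

@[simp] theorem tr_val {k l : Fin n} (h : k ≠ l) (a : R) :
    ((tr k l h a : (MnA n R)ˣ) : MnA n R) = 1 + single k l a := rfl

@[simp] theorem tr_inv {k l : Fin n} (h : k ≠ l) (a : R) :
    (((tr k l h a)⁻¹ : (MnA n R)ˣ) : MnA n R) = 1 - single k l a := rfl

theorem tr_mem {k l : Fin n} (h : k ≠ l) (a : R) : tr k l h a ∈ En n R :=
  Subgroup.subset_closure ⟨k, l, a, h, rfl⟩

theorem unip_mem_of_row {i : Fin n} (s : Finset (Fin n)) (hi : i ∉ s) (γ : Fin n → R) :
    ∃ u : (MnA n R)ˣ, u ∈ En n R ∧ (u : MnA n R) = 1 + ∑ k ∈ s, single i k (γ k) ∧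
      ((u⁻¹ : (MnA n R)ˣ) : MnA n R) = 1 - ∑ k ∈ s, single i k (γ k) := by
  classical
  have key : ∀ s : Finset (Fin n), i ∉ s → ∀ t : Finset (Fin n), i ∉ t →
      (∑ k ∈ s, single i k (γ k) : MnA n R) * (∑ k ∈ t, single i k (γ k)) = 0 := by
    intro s hs t ht
    rw [Finset.sum_mul_sum]
    apply Finset.sum_eq_zero
    intro k hk
    apply Finset.sum_eq_zero
    intro l hl
    rw [single_mul_single_of_ne]
    rintro rfl
    exact hs hk
  refine ⟨unip _ (key s hi s hi), ?_, rfl, rfl⟩
  induction s using Finset.induction_on with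
  | empty =>
    have : unip (∑ k ∈ (∅ : Finset (Fin n)), single i k (γ k) : MnA n R) (key ∅ hi ∅ hi) = 1 := by
      apply Units.ext; simp
    rw [this]; exact Subgroup.one_mem _
  | insert a s ha ih =>
    have hi' : i ∉ s := fun h => hi (Finset.mem_insert_of_mem h)
    have hia : i ≠ a := fun h => hi (h ▸ Finset.mem_insert_self _ _)
    have : unip (∑ k ∈ insert a s, single i k (γ k) : MnA n R) (key _ hi _ hi) =
        tr i a hia (γ a) * unip (∑ k ∈ s, single i k (γ k) : MnA n R) (key _ hi' _ hi') := by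
      apply Units.ext
      simp only [unip_val, Units.val_mul, tr_val]
      rw [Finset.sum_insert ha]
      have h0 : (single i a (γ a) : MnA n R) * ∑ k ∈ s, single i k (γ k) = 0 := by
        rw [Finset.mul_sum]
        apply Finset.sum_eq_zero
        intro k hk
        rw [single_mul_single_of_ne _ _ _ _ hia.symm]
      rw [add_mul, mul_add, mul_add, h0]
      noncomm_ring
    rw [this]
    exact Subgroup.mul_mem _ (tr_mem _ _) (ih hi')

theorem unip_mem_of_col {j : Fin n} (s : Finset (Fin n)) (hj : j ∉ s) (γ : Fin n → R) :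
    ∃ u : (MnA n R)ˣ, u ∈ En n R ∧ (u : MnA n R) = 1 + ∑ k ∈ s, single k j (γ k) ∧
      ((u⁻¹ : (MnA n R)ˣ) : MnA n R) = 1 - ∑ k ∈ s, single k j (γ k) := by
  classical
  have key : ∀ s : Finset (Fin n), j ∉ s → ∀ t : Finset (Fin n), j ∉ t →
      (∑ k ∈ s, single k j (γ k) : MnA n R) * (∑ k ∈ t, single k j (γ k)) = 0 := by
    intro s hs t ht
    rw [Finset.sum_mul_sum]
    apply Finset.sum_eq_zero
    intro k hk
    apply Finset.sum_eq_zero
    intro l hl
    rw [single_mul_single_of_ne]
    rintro rfl
    exact ht hl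
  refine ⟨unip _ (key s hj s hj), ?_, rfl, rfl⟩
  induction s using Finset.induction_on with
  | empty =>
    have : unip (∑ k ∈ (∅ : Finset (Fin n)), single k j (γ k) : MnA n R) (key ∅ hj ∅ hj) = 1 := by
      apply Units.ext; simp
    rw [this]; exact Subgroup.one_mem _
  | insert a s ha ih =>
    have hj' : j ∉ s := fun h => hj (Finset.mem_insert_of_mem h)
    have hja : a ≠ j := fun h => hj (h ▸ Finset.mem_insert_self _ _)
    have : unip (∑ k ∈ insert a s, single k j (γ k) : MnA n R) (key _ hj _ hj) =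
        tr a j hja (γ a) * unip (∑ k ∈ s, single k j (γ k) : MnA n R) (key _ hj' _ hj') := by
      apply Units.ext
      simp only [unip_val, Units.val_mul, tr_val]
      rw [Finset.sum_insert ha]
      have h0 : (single a j (γ a) : MnA n R) * ∑ k ∈ s, single k j (γ k) = 0 := by
        rw [Finset.mul_sum]
        apply Finset.sum_eq_zero
        intro k hk
        rw [single_mul_single_of_ne]
        rintro rfl
        exact hj' hk
      rw [add_mul, mul_add, mul_add, h0]
      noncomm_ring
    rw [this]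
    exact Subgroup.mul_mem _ (tr_mem _ _) (ih hj')

variable {σ : (Matrix (Fin n) (Fin n) R)ˣ} {m : ℕ}

/-- changing the column index -/
theorem PC.col {k l l' : Fin n} {a : R} (h : k ≠ l) (h' : k ≠ l')
    (H : PC (En n R) σ m (tr k l h a)) : PC (En n R) σ m (tr k l' h' a) := by
  by_cases hl : l = l'
  · subst hl; exact H
  have hl' : l' ≠ l := fun e => hl e.symm
  set w : (MnA n R)ˣ := tr l l' hl 1 * tr l' l hl' (-1) * tr l l' hl 1 with hw
  have hwE : w ∈ En n R :=
    Subgroup.mul_mem _ (Subgroup.mul_mem _ (tr_mem _ _) (tr_mem _ _)) (tr_mem _ _)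
  have : w⁻¹ * tr k l h a * w = tr k l' h' a := by
    rw [mul_assoc, inv_mul_eq_iff_eq_mul]
    apply Units.ext
    simp only [hw, Units.val_mul, tr_val]
    simp only [add_mul, mul_add, one_mul, mul_one, single_mul_single_same, mul_neg, neg_mul,
      single_mul_single_of_ne _ _ _ _ hl, single_mul_single_of_ne _ _ _ _ hl',
      single_mul_single_of_ne _ _ _ _ h, single_mul_single_of_ne _ _ _ _ h.symm,
      single_mul_single_of_ne _ _ _ _ h', single_mul_single_of_ne _ _ _ _ h'.symm,
      add_zero, zero_add, mul_zero, zero_mul, neg_neg]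
    have e : ∀ (k l : Fin n) (a : R), (single k l (-a) : MnA n R) = - single k l a := by
      intro k l a
      ext i j
      by_cases hh : k = i ∧ l = j <;> simp [single_apply, hh]
    simp only [e]
    abel
  rw [← this]
  exact H.conj hwE

/-- changing the row index -/
theorem PC.row {k k' l : Fin n} {a : R} (h : k ≠ l) (h' : k' ≠ l)
    (H : PC (En n R) σ m (tr k l h a)) : PC (En n R) σ m (tr k' l h' a) := by
  by_cases hk : k = k'
  · subst hk; exact H
  have hk' : k' ≠ k := fun e => hk e.symm
  set w : (MnA n R)ˣ := tr k' k hk' 1 * tr k k' hk (-1) * tr k' k hk' 1 with hw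
  have hwE : w ∈ En n R :=
    Subgroup.mul_mem _ (Subgroup.mul_mem _ (tr_mem _ _) (tr_mem _ _)) (tr_mem _ _)
  have : w * tr k l h a * w⁻¹ = tr k' l h' a := by
    rw [mul_inv_eq_iff_eq_mul]
    apply Units.ext
    simp only [hw, Units.val_mul, tr_val]
    simp only [add_mul, mul_add, one_mul, mul_one, single_mul_single_same, mul_neg, neg_mul,
      single_mul_single_of_ne _ _ _ _ hk, single_mul_single_of_ne _ _ _ _ hk',
      single_mul_single_of_ne _ _ _ _ h, single_mul_single_of_ne _ _ _ _ h.symm,
      single_mul_single_of_ne _ _ _ _ h', single_mul_single_of_ne _ _ _ _ h'.symm,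
      add_zero, zero_add, mul_zero, zero_mul, neg_neg]
    have e : ∀ (k l : Fin n) (a : R), (single k l (-a) : MnA n R) = - single k l a := by
      intro k l a
      ext i j
      by_cases hh : k = i ∧ l = j <;> simp [single_apply, hh]
    simp only [e]
    abel
  rw [← this]
  exact H.conj' hwE

theorem exists_third (hn : 3 ≤ n) (i j : Fin n) : ∃ p : Fin n, p ≠ i ∧ p ≠ j := by
  have : ((Finset.univ \ {i, j} : Finset (Fin n))).Nonempty := by
    rw [← Finset.card_pos, Finset.card_univ_sdiff ]
    have := Finset.card_le_two (a := i) (b := j)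
    simp only [Fintype.card_fin]
    omega
  obtain ⟨p, hp⟩ := this
  refine ⟨p, ?_, ?_⟩ <;> rintro rfl <;> simp at hp

/-- all positions are equivalent -/
theorem PC.all (hn : 3 ≤ n) {k l k' l' : Fin n} {a : R} (h : k ≠ l) (h' : k' ≠ l')
    (H : PC (En n R) σ m (tr k l h a)) : PC (En n R) σ m (tr k' l' h' a) := by
  by_cases hkl : k = l'
  · subst hkl
    obtain ⟨p, hp, hp'⟩ := exists_third hn k l
    exact PC.row hp h' (PC.col hp' hp (PC.row h hp' H))
  · exact PC.row hkl h' (PC.col h hkl H)

/-! ### The eightfold product -/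

/-- If the row vector `y` satisfies `y_p = 0` and `(y σ)_i = 0`, then `t_{ij}(x y_i r)` is a
product of eight conjugates. -/
theorem pc_eight_tr {i j p : Fin n} (hij : i ≠ j) (hpi : p ≠ i) (hpj : p ≠ j) (y : Fin n → R)
    (hy : ∑ s ∈ Finset.univ.erase p, y s * (σ : Matrix (Fin n) (Fin n) R) s i = 0) (x r : R) :
    PC (En n R) σ 8 (tr i j hij (x * y i * r)) := by
  classical
  obtain ⟨τ, hτ, hτ1, hτ2⟩ := unip_mem_of_row (R := R) (Finset.univ.erase p)
    (Finset.notMem_erase p _) y
  set Y : MnA n R := ∑ k ∈ Finset.univ.erase p, single p k (y k) with hY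
  set S : MnA n R := (σ : MnA n R) with hS
  set S' : MnA n R := ((σ⁻¹ : (MnA n R)ˣ) : MnA n R) with hS'
  have hSS : S * S' = 1 := by rw [hS, hS']; simp
  have hSS' : S' * S = 1 := by rw [hS, hS']; simp
  set h : (MnA n R)ˣ := tr i j hij r with hh
  set h2 : (MnA n R)ˣ := tr i p hpi.symm (-x) with hh2
  set W : MnA n R := single i j r with hW
  set X : MnA n R := single i p (-x) with hX
  have YY : Y * Y = 0 := by
    rw [hY, Finset.sum_mul_sum]
    apply Finset.sum_eq_zero
    intro k hk
    apply Finset.sum_eq_zero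
    intro l hl
    rw [single_mul_single_of_ne]
    exact (Finset.mem_erase.1 hk).1
  have YS : ∀ (l : Fin n) (b : R), Y * S * (single i l b : MnA n R) = 0 := by
    intro l b
    ext a c
    by_cases hc : c = l
    · subst hc
      rw [mul_single_apply_same, Matrix.zero_apply]
      by_cases ha : a = p
      · subst ha
        have : (Y * S) a i = ∑ s ∈ Finset.univ.erase a, y s * S s i := by
          rw [hY, Finset.sum_mul, Matrix.sum_apply]
          apply Finset.sum_congr rfl
          intro s hs
          rw [single_mul_apply_same]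
        rw [this, hy, zero_mul]
      · have : (Y * S) a i = 0 := by
          rw [hY, Finset.sum_mul, Matrix.sum_apply]
          apply Finset.sum_eq_zero
          intro s hs
          rw [single_mul_apply_of_ne _ _ _ _ _ ha]
        rw [this, zero_mul]
    · rw [mul_single_apply_of_ne _ _ _ _ _ hc, Matrix.zero_apply]
  have WY : W * Y = 0 := by
    rw [hY, hW, Finset.mul_sum]
    apply Finset.sum_eq_zero
    intro s hs
    rw [single_mul_single_of_ne _ _ _ _ hpj.symm]
  have YW : Y * W = single p j (y i * r) := by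
    rw [hY, hW, Finset.sum_mul, Finset.sum_eq_single i]
    · rw [single_mul_single_same]
    · intro b hb hbi
      rw [single_mul_single_of_ne _ _ _ _ hbi]
    · intro hi
      exact absurd (Finset.mem_erase.2 ⟨hpi.symm, Finset.mem_univ _⟩) hi
  have WW : W * W = 0 := single_sq hij r
  have XX : X * X = 0 := single_sq hpi.symm _
  have WX : W * X = 0 := by rw [hW, hX, single_mul_single_of_ne _ _ _ _ hij.symm]
  have XW : X * W = 0 := by rw [hW, hX, single_mul_single_of_ne _ _ _ _ hpi]
  have YSW : Y * S * W = 0 := YS j r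
  have YSX : Y * S * X = 0 := YS p (-x)
  set B : MnA n R := S' * Y * S with hB
  have BB : B * B = 0 := by
    calc B * B = S' * Y * (S * S') * Y * S := by rw [hB]; noncomm_ring
      _ = S' * (Y * Y) * S := by rw [hSS]; noncomm_ring
      _ = 0 := by rw [YY]; simp
  have BW : B * W = 0 := by
    calc B * W = S' * (Y * S * W) := by rw [hB]; noncomm_ring
      _ = 0 := by rw [YSW]; simp
  have BX : B * X = 0 := by
    calc B * X = S' * (Y * S * X) := by rw [hB]; noncomm_ring
      _ = 0 := by rw [YSX]; simp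
  set D : (MnA n R)ˣ := (σ⁻¹ * τ * σ) * h * (σ⁻¹ * τ * σ)⁻¹ * (τ * h⁻¹ * τ⁻¹) with hD
  have hA : ((σ⁻¹ * τ * σ : (MnA n R)ˣ) : MnA n R) = 1 + B := by
    rw [Units.val_mul, Units.val_mul, hτ1, ← hS, ← hS', mul_add, add_mul, mul_one, hSS']
  have hA' : (((σ⁻¹ * τ * σ)⁻¹ : (MnA n R)ˣ) : MnA n R) = 1 - B := by
    have : (σ⁻¹ * τ * σ)⁻¹ = σ⁻¹ * τ⁻¹ * σ := by group
    rw [this, Units.val_mul, Units.val_mul, hτ2, ← hS, ← hS', mul_sub, sub_mul, mul_one, hSS']
  have hDval : (D : MnA n R) = 1 - Y * W - W * B + W * B * Y * W := by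
    have e1 : (D : MnA n R) = ((σ⁻¹ * τ * σ : (MnA n R)ˣ) : MnA n R) * (1 + W) * (((σ⁻¹ * τ * σ)⁻¹ : (MnA n R)ˣ) : MnA n R) *
        ((1 + Y) * (1 - W) * (1 - Y)) := by
      rw [hD, ← hτ1, ← hτ2]
      simp only [Units.val_mul, hh, tr_val, tr_inv, hW]
    have e2 : (1 + B) * (1 + W) * (1 - B) = 1 + W - W * B := by
      have : (1 + B) * (1 + W) * (1 - B) = 1 + W - W * B + (B * W) - (B * B) - (B * W) * B := by
        noncomm_ring
      rw [this, BW, BB]; simp
    have e3 : (1 + Y) * (1 - W) * (1 - Y) = 1 - W - Y * W := by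
      have : (1 + Y) * (1 - W) * (1 - Y) = 1 - W - Y * W + W * Y - Y * Y + Y * (W * Y) := by
        noncomm_ring
      rw [this, WY, YY]; simp
    rw [e1, hA, hA', e2, e3]
    have : (1 + W - W * B) * (1 - W - Y * W) = 1 - Y * W - W * B + W * B * Y * W - W * W -
        (W * Y) * W + W * (B * W) := by
      noncomm_ring
    rw [this, WW, WY, BW]; simp
  have hDD : (1 - Y * W - W * B + W * B * Y * W) * (1 + W * B + Y * W) = 1 := by
    have : (1 - Y * W - W * B + W * B * Y * W) * (1 + W * B + Y * W) =
        1 - Y * (W * W) * B - Y * (W * Y) * W - W * (B * W) * B + W * B * Y * (W * W) * B +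
        W * B * Y * (W * Y) * W := by
      noncomm_ring
    rw [this, WW, WY, BW]; simp
  have hDinv : ((D⁻¹ : (MnA n R)ˣ) : MnA n R) = 1 + W * B + Y * W := by
    apply Units.inv_eq_of_mul_eq_one_right
    rw [hDval, hDD]
  have hDD' : (1 + W * B + Y * W) * (1 - Y * W - W * B + W * B * Y * W) = 1 := by
    rw [← hDval, ← hDinv]; simp
  have key : h2⁻¹ * D⁻¹ * h2 * D = tr i j hij (x * y i * r) := by
    apply Units.ext
    simp only [Units.val_mul, hDinv, hDval, hh2, tr_inv, tr_val]
    rw [← hX]
    have e1 : (1 + W * B + Y * W) * (1 + X) = (1 + W * B + Y * W) + X := by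
      have : (1 + W * B + Y * W) * (1 + X) = (1 + W * B + Y * W) + X + W * (B * X) +
          Y * (W * X) := by noncomm_ring
      rw [this, BX, WX]; simp
    have e2 : (1 - X) * (1 + W * B + Y * W) * (1 + X) * (1 - Y * W - W * B + W * B * Y * W) =
        (1 - X) * (((1 + W * B + Y * W) * (1 + X)) * (1 - Y * W - W * B + W * B * Y * W)) := by
      noncomm_ring
    have e3 : X * (1 - Y * W - W * B + W * B * Y * W) = X - X * Y * W := by
      have : X * (1 - Y * W - W * B + W * B * Y * W) = X - X * Y * W - (X * W) * B +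
          (X * W) * (B * Y * W) := by noncomm_ring
      rw [this, XW]; simp
    have e4 : (1 - X) * (1 + (X - X * Y * W)) = 1 - X * Y * W := by
      have : (1 - X) * (1 + (X - X * Y * W)) = 1 - X * Y * W - X * X + (X * X) * (Y * W) := by
        noncomm_ring
      rw [this, XX]; simp
    rw [e2, e1, add_mul, hDD', e3, e4, mul_assoc, YW, hX, single_mul_single_same]
    have : -x * (y i * r) = -(x * y i * r) := by noncomm_ring
    rw [this]
    have e : ∀ (k l : Fin n) (a : R), (single k l (-a) : MnA n R) = - single k l a := by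
      intro k l a
      ext i j
      by_cases hh : k = i ∧ l = j <;> simp [single_apply, hh]
    rw [e]; noncomm_ring
  rw [← key]
  exact pc_eight hτ (tr_mem _ _) (tr_mem _ _) hD

theorem sum_erase_two {i j p : Fin n} (hij : i ≠ j) (hpi : p ≠ i) (hpj : p ≠ j)
    (f : Fin n → R) (hf : ∀ s, s ≠ i → s ≠ j → f s = 0) :
    ∑ s ∈ Finset.univ.erase p, f s = f i + f j := by
  classical
  have h1 : ({i, j} : Finset (Fin n)) ⊆ Finset.univ.erase p := by
    intro s hs
    rw [Finset.mem_erase]
    refine ⟨?_, Finset.mem_univ _⟩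
    rintro rfl
    simp at hs
    rcases hs with h | h
    · exact hpi h
    · exact hpj h
  rw [← Finset.sum_subset h1, Finset.sum_pair hij]
  intro s _ hs
  simp at hs
  exact hf s hs.1 hs.2

/-- The bound `8` from a row vector supported on two places. -/
theorem pc_eight_of {a b : Fin n} (hn : 3 ≤ n) (hab : a ≠ b) (ya yb x r : R)
    (hy : yb * (σ : Matrix (Fin n) (Fin n) R) b b + ya * (σ : Matrix (Fin n) (Fin n) R) a b = 0)
    {k l : Fin n} (hkl : k ≠ l) :
    PC (En n R) σ 8 (tr k l hkl (x * yb * r)) := by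
  classical
  obtain ⟨p, hpa, hpb⟩ := exists_third hn a b
  have := pc_eight_tr (σ := σ) hab.symm hpb hpa
    (fun s => if s = b then yb else if s = a then ya else 0) ?_ x r
  · simp only [if_true] at this
    exact PC.all hn _ _ this
  · rw [sum_erase_two hab.symm hpb hpa]
    · simp only [if_true, if_neg hab]
      exact hy
    · intro s h1 h2
      rw [if_neg h1, if_neg h2, zero_mul]

theorem upper_comm (hn : 3 ≤ n) (hR : ClassComm R) {a b : Fin n} (hab : a ≠ b)
    {k l : Fin n} (hkl : k ≠ l) :
    PC (En n R) σ 8 (tr k l hkl ((σ : Matrix (Fin n) (Fin n) R) a b)) := by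
  have := pc_eight_of (σ := σ) hn hab ((σ : Matrix (Fin n) (Fin n) R) b b)
    (-(σ : Matrix (Fin n) (Fin n) R) a b) (-1) 1 (by
      rw [hR _ ((σ : Matrix (Fin n) (Fin n) R) a b)]; simp) hkl
  simpa using this

theorem upper_sr1 (hn : 3 ≤ n) (hR : ClassSR1 R) {a b : Fin n} (hab : a ≠ b)
    {k l : Fin n} (hkl : k ≠ l) :
    PC (En n R) σ 8 (tr k l hkl ((σ : Matrix (Fin n) (Fin n) R) a b)) := by
  classical
  set S : MnA n R := (σ : MnA n R) with hS
  set S' : MnA n R := ((σ⁻¹ : (MnA n R)ˣ) : MnA n R) with hS'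
  have hSS' : S' * S = 1 := by rw [hS, hS']; simp
  have h1 : ∑ s, S' b s * S s b = 1 := by
    have := congrFun (congrFun hSS' b) b
    rwa [mul_apply, one_apply_eq] at this
  rw [← Finset.add_sum_erase _ _ (Finset.mem_univ b)] at h1
  obtain ⟨c, hc⟩ := hR (S b b) (∑ s ∈ Finset.univ.erase b, S' b s * S s b)
    ⟨S' b b, 1, by rw [one_mul]; exact h1⟩
  obtain ⟨u, hu⟩ := hc
  obtain ⟨τ, hτ, hτ1, hτ2⟩ := unip_mem_of_row (R := R) (Finset.univ.erase b)
    (Finset.notMem_erase b _) (fun s => c * S' b s)
  have hcol : ∀ (M : MnA n R) (d : Fin n), (M * ((τ⁻¹ : (MnA n R)ˣ) : MnA n R)) d b = M d b := by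
    intro M d
    rw [hτ2, mul_sub, mul_one, Matrix.sub_apply, Finset.mul_sum, Matrix.sum_apply,
      Finset.sum_eq_zero, sub_zero]
    intro s hs
    rw [mul_single_apply_of_ne]
    exact (Finset.mem_erase.1 hs).1.symm
  have hbb : ((τ * σ * τ⁻¹ : (MnA n R)ˣ) : MnA n R) b b = u := by
    rw [Units.val_mul, Units.val_mul, hcol, hτ1, add_mul, one_mul, Matrix.add_apply, ← hS,
      Finset.sum_mul, Matrix.sum_apply, hu, Finset.mul_sum]
    congr 1
    apply Finset.sum_congr rfl
    intro s hs
    rw [single_mul_apply_same, mul_assoc]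
  have hab' : ((τ * σ * τ⁻¹ : (MnA n R)ˣ) : MnA n R) a b = S a b := by
    rw [Units.val_mul, Units.val_mul, hcol, hτ1, add_mul, one_mul, Matrix.add_apply, ← hS,
      Finset.sum_mul, Matrix.sum_apply, Finset.sum_eq_zero, add_zero]
    intro s hs
    rw [single_mul_apply_of_ne _ _ _ _ _ hab]
  apply PC.of_conj' hτ
  have := pc_eight_of (σ := τ * σ * τ⁻¹) hn hab 1 (-(S a b) * ((u⁻¹ : Rˣ) : R)) (-1) (u : R) (by
      rw [hbb, hab']; simp [mul_assoc]) hkl
  simpa [mul_assoc] using this

/-- The diagonal matrix `1 + e_jj r` is elementary if `f r = r` and `r f = 0`. -/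
theorem diag_mem {j k : Fin n} (hjk : j ≠ k) (f r : R) (h1 : f * r = r) (h2 : r * f = 0) :
    ∃ u : (MnA n R)ˣ, u ∈ En n R ∧ (u : MnA n R) = 1 + single j j r := by
  refine ⟨tr j k hjk f * tr k j hjk.symm r * (tr j k hjk f)⁻¹ * (tr k j hjk.symm r)⁻¹,
    Subgroup.mul_mem _ (Subgroup.mul_mem _ (Subgroup.mul_mem _ (tr_mem _ _) (tr_mem _ _))
      (Subgroup.inv_mem _ (tr_mem _ _))) (Subgroup.inv_mem _ (tr_mem _ _)), ?_⟩
  simp only [Units.val_mul, tr_val, tr_inv]
  set A : MnA n R := single j k f with hA
  set B : MnA n R := single k j r with hB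
  have AA : A * A = 0 := single_sq hjk _
  have BB : B * B = 0 := single_sq hjk.symm _
  have BA : B * A = 0 := by
    rw [hA, hB, single_mul_single_same, h2]; simp
  have AB : A * B = single j j r := by
    rw [hA, hB, single_mul_single_same, h1]
  have : (1 + A) * (1 + B) * (1 - A) * (1 - B) = 1 + A * B - B * B - A * (B * B) - A * A
      + (A * A) * B - B * A + (B * A) * B - A * (B * A) + A * (B * A) * B := by
    noncomm_ring
  rw [this, AA, BB, BA, AB]; simp

theorem upper_regular (hn : 3 ≤ n) (hR : ClassRegular R) {i j : Fin n} (hij : i ≠ j)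
    {k l : Fin n} (hkl : k ≠ l) :
    PC (En n R) σ 4 (tr k l hkl ((σ : Matrix (Fin n) (Fin n) R) i j)) := by
  classical
  set a : R := (σ : Matrix (Fin n) (Fin n) R) i j with ha
  obtain ⟨a', haa⟩ := hR a
  set f : R := a' * a with hf
  have haf : a * f = a := by rw [hf, ← mul_assoc, haa]
  have hff : f * f = f := by
    calc f * f = a' * (a * a' * a) := by rw [hf]; noncomm_ring
      _ = f := by rw [haa]
  obtain ⟨τ, hτ, hτ1, hτ2⟩ := unip_mem_of_col (R := R) (Finset.univ.erase i)
    (Finset.notMem_erase i _) (fun s => (σ : MnA n R) s j * a')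
  -- step 1
  have hstar : ((τ⁻¹ * σ * τ : (MnA n R)ˣ) : MnA n R) * single j j f = single i j a := by
    have h1 : (τ : MnA n R) * single j j f = single j j f := by
      rw [hτ1, add_mul, one_mul, Finset.sum_mul, Finset.sum_eq_zero, add_zero]
      intro s hs
      rw [single_mul_single_of_ne _ _ _ _ hij]
    have h2 : (σ : MnA n R) * single j j f = (τ : MnA n R) * single i j a := by
      rw [hτ1, add_mul, one_mul, Finset.sum_mul]
      ext c d
      by_cases hd : d = j
      · subst hd
        rw [mul_single_apply_same, Matrix.add_apply, Matrix.sum_apply]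
        by_cases hc : c = i
        · subst hc
          rw [single_apply_same, Finset.sum_eq_zero, add_zero, ← ha, haf]
          intro s hs
          rw [single_mul_single_same, single_apply_of_row_ne]
          exact (Finset.mem_erase.1 hs).1
        · rw [single_apply_of_row_ne (Ne.symm hc), zero_add, Finset.sum_eq_single c]
          · rw [single_mul_single_same, single_apply_same, hf, mul_assoc]
          · intro b hb hbc
            rw [single_mul_single_same, single_apply_of_row_ne hbc]
          · intro h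
            exact absurd (Finset.mem_erase.2 ⟨hc, Finset.mem_univ _⟩) h
      · rw [mul_single_apply_of_ne _ _ _ _ _ hd, Matrix.add_apply, Matrix.sum_apply,
          single_apply_of_col_ne _ _ (Ne.symm hd), zero_add, Finset.sum_eq_zero]
        intro s hs
        rw [single_mul_single_same, single_apply_of_col_ne _ _ (Ne.symm hd)]
    rw [Units.val_mul, Units.val_mul, mul_assoc, h1, mul_assoc, h2, ← mul_assoc]
    simp
  apply PC.of_conj hτ
  generalize τ⁻¹ * σ * τ = σ₁ at hstar
  clear_value a
  clear ha hτ hτ1 hτ2 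
  obtain ⟨p, hpi, hpj⟩ := exists_third hn i j
  -- step 2
  set S : MnA n R := (σ₁ : MnA n R) with hS
  set G : MnA n R := single j j f * S with hG
  have hSjj : S j j * f = 0 := by
    have := congrFun (congrFun hstar j) j
    rw [mul_single_apply_same, single_apply_of_row_ne hij] at this
    exact this
  obtain ⟨u0, hu0, hu0'⟩ := diag_mem (R := R) (n := n) (Ne.symm hpj) f (f * S j j)
    (by rw [← mul_assoc, hff]) (by rw [mul_assoc, hSjj, mul_zero])
  obtain ⟨u1, hu1, hu1', -⟩ := unip_mem_of_row (R := R) (Finset.univ.erase j)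
    (Finset.notMem_erase j _) (fun s => f * S j s)
  have hGsum : G = single j j (f * S j j) + ∑ s ∈ Finset.univ.erase j, single j s (f * S j s) := by
    rw [Finset.add_sum_erase _ (fun s => (single j s (f * S j s) : MnA n R)) (Finset.mem_univ j)]
    ext c d
    rw [hG, Matrix.sum_apply]
    by_cases hc : c = j
    · subst hc
      rw [single_mul_apply_same, Finset.sum_eq_single d, single_apply_same]
      · intro b _ hb
        rw [single_apply_of_col_ne _ _ hb]
      · intro h; exact absurd (Finset.mem_univ _) h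
    · rw [single_mul_apply_of_ne _ _ _ _ _ hc, Finset.sum_eq_zero]
      intro s _
      rw [single_apply_of_row_ne (Ne.symm hc)]
  have hgval : ((u0 * u1 : (MnA n R)ˣ) : MnA n R) = 1 + G := by
    rw [Units.val_mul, hu0', hu1', hGsum]
    have : (single j j (f * S j j) : MnA n R) *
        ∑ s ∈ Finset.univ.erase j, single j s (f * S j s) = 0 := by
      rw [Finset.mul_sum]
      apply Finset.sum_eq_zero
      intro s _
      rw [single_mul_single_same]
      have : f * S j j * (f * S j s) = 0 := by
        calc f * S j j * (f * S j s) = f * (S j j * f) * S j s := by noncomm_ring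
          _ = 0 := by rw [hSjj]; simp
      rw [this]; simp
    rw [mul_add, add_mul, add_mul, this]
    noncomm_ring
  set g : (MnA n R)ˣ := u0 * u1 with hg
  have hgE : g ∈ En n R := Subgroup.mul_mem _ hu0 hu1
  set A : MnA n R := single i j a with hA
  set H : MnA n R := single j p f with hH
  have GG : G * G = 0 := by
    calc G * G = single j j f * (S * single j j f) * S := by rw [hG]; noncomm_ring
      _ = 0 := by rw [hstar, hA, single_mul_single_of_ne _ _ _ _ hij.symm]; simp
  have AA : A * A = 0 := single_sq hij _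
  have HH : H * H = 0 := single_sq (Ne.symm hpj) _
  have HA : H * A = 0 := by rw [hH, hA, single_mul_single_of_ne _ _ _ _ hpi]
  have HG : H * G = 0 := by
    rw [hH, hG, ← mul_assoc, single_mul_single_of_ne _ _ _ _ hpj, zero_mul]
  have AH : A * H = single i p a := by rw [hH, hA, single_mul_single_same, haf]
  have GH : G * H = 0 := by
    have e : H = single j j f * single j p 1 := by rw [single_mul_single_same, mul_one]
    calc G * H = single j j f * ((S * single j j f) * single j p 1) := by
          rw [e, hG]; noncomm_ring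
      _ = 0 := by
          rw [hstar, hA, ← mul_assoc, single_mul_single_of_ne _ _ _ _ hij.symm, zero_mul]
  have hginv : ((g⁻¹ : (MnA n R)ˣ) : MnA n R) = 1 - G := by
    apply Units.inv_eq_of_mul_eq_one_right
    rw [hgval]
    have : (1 + G) * (1 - G) = 1 - G * G := by noncomm_ring
    rw [this, GG, sub_zero]
  have hconj : σ₁ * g⁻¹ * σ₁⁻¹ = (tr i j hij a)⁻¹ := by
    have : σ₁ * g = tr i j hij a * σ₁ := by
      apply Units.ext
      have e : (σ₁ : MnA n R) * (g : MnA n R) = (1 + single i j a) * (σ₁ : MnA n R) := by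
        rw [hgval, ← hS, ← hA, mul_add, add_mul, hG, ← mul_assoc, hstar]
        simp
      simpa using e
    have h2 : tr i j hij a = σ₁ * g * σ₁⁻¹ := by rw [this]; group
    rw [h2]; group
  have key : (tr j p (Ne.symm hpj) f)⁻¹ * (σ₁ * g⁻¹ * σ₁⁻¹ * g)⁻¹ * tr j p (Ne.symm hpj) f *
      (σ₁ * g⁻¹ * σ₁⁻¹ * g) = (tr j i hij.symm (f * S j i))⁻¹ * tr i p (Ne.symm hpi) a *
      tr j i hij.symm (f * S j i) := by
    rw [hconj]
    apply Units.ext
    have hcinv : (((tr i j hij a)⁻¹ * g)⁻¹ : (MnA n R)ˣ) = g⁻¹ * tr i j hij a := by group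
    rw [hcinv]
    simp only [Units.val_mul, tr_inv, tr_val, hgval, hginv]
    rw [← hA, ← hH, ← AH]
    set Z : MnA n R := single j i (f * S j i) with hZ
    have ZZ : Z * Z = 0 := single_sq hij.symm _
    have GA : G * A = Z * A := by
      rw [hG, hA, hZ, single_mul_single_same, mul_assoc]
      generalize f = f'
      ext c d
      by_cases hc : c = j
      · subst hc
        rw [single_mul_apply_same]
        by_cases hd : d = c
        · subst hd
          rw [mul_single_apply_same, single_apply_same, mul_assoc]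
        · rw [mul_single_apply_of_ne _ _ _ _ _ hd, single_apply_of_col_ne _ _ (Ne.symm hd),
            mul_zero]
      · rw [single_mul_apply_of_ne _ _ _ _ _ hc, single_apply_of_row_ne (Ne.symm hc)]
    have HZ : H * Z = 0 := by rw [hH, hZ, single_mul_single_of_ne _ _ _ _ hpj]
    have e1 : (1 - H) * ((1 - G) * (1 + A)) * (1 + H) * ((1 - A) * (1 + G)) =
        (1 - H) * ((1 - G) * ((1 + A) * (1 + H) * (1 - A)) * (1 + G)) := by noncomm_ring
    have e2 : (1 + A) * (1 + H) * (1 - A) = 1 + H + A * H := by
      have : (1 + A) * (1 + H) * (1 - A) = 1 + H + A * H - A * A - H * A - A * (H * A) := by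
        noncomm_ring
      rw [this, AA, HA]; simp
    have e3 : (1 - G) * (1 + H + A * H) * (1 + G) = 1 + H + A * H - G * A * H := by
      have : (1 - G) * (1 + H + A * H) * (1 + G) = 1 + H + A * H - G * A * H - G * G + H * G
          - G * H - (G * H) * G + A * (H * G) - (G * A) * (H * G) := by noncomm_ring
      rw [this, GG, HG, GH]; simp
    have e4 : (1 - H) * (1 + H + A * H - G * A * H) = 1 + A * H - G * A * H := by
      have : (1 - H) * (1 + H + A * H - G * A * H) = 1 + A * H - G * A * H - H * H - (H * A) * H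
          + (H * G) * (A * H) := by noncomm_ring
      rw [this, HH, HA, HG]; simp
    have e5 : (1 - Z) * (1 + A * H) * (1 + Z) = 1 + A * H - Z * A * H := by
      have : (1 - Z) * (1 + A * H) * (1 + Z) = 1 + A * H - Z * A * H - Z * Z + A * (H * Z)
          - Z * A * (H * Z) := by noncomm_ring
      rw [this, ZZ, HZ]; simp
    rw [e1, e2, e3, e4, e5, GA]
  have h4 := pc_four (σ := σ₁) hgE (tr_mem (R := R) (Ne.symm hpj) f)
  rw [key] at h4
  have h5 := h4.conj' (tr_mem (R := R) hij.symm (f * S j i))
  have h6 : PC (En n R) σ₁ 4 (tr i p (Ne.symm hpi) a) := by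
    convert h5 using 1
    group
  exact PC.all hn _ _ h6

end mat

end Pool.Agent.R699.RDU
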