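import Pool.Agent.R497.TB.Defs
import Pool.Agent.R235.TD.Corer

/-! TB-BCTRL: averages of a nonnegative function over boxes, for almost all real `a`. -/

set_option autoImplicit false

namespace Pool.Agent.R699.TB

open MeasureTheory Filter Finset
open Pool.Agent.Y957.MC (IsFlow flowInv smo)
open Pool.Agent.R497.TB
open Pool.Agent.R235.TD (flow_scale)

universe u

variable {X : Type u} [MeasurableSpace X] {μ : Measure X}

theorem flowInv_scale (τ : ℝ → X → X) {A : ℝ} (hA : A ≠ 0) :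
    flowInv (fun t => τ (A * t)) = flowInv τ := by
  unfold flowInv
  refine le_antisymm ?_ ?_
  · refine le_iInf fun t => ?_
    refine (iInf_le _ (A⁻¹ * t)).trans (le_of_eq ?_)
    simp only [mul_inv_cancel_left₀ hA]
  · exact le_iInf fun t => iInf_le _ (A * t)

/-- the conclusion at the time `a` -/
def Cc (μ : Measure X) (τ : ℝ → X → X) (e : X → ℝ) {k : ℕ} (p : Fin k → Polynomial ℝ) (K : ℝ → ℝ)
    (a : ℝ) : Prop :=
  ∀ᵐ x ∂μ, ∀ ε : ℝ, 0 < ε →
    ∀ᶠ M in atTop, ravg M (fun m => e (τ (a * sep p m) x)) ≤ ε + K ε * (μ[e | flowInv τ]) x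

theorem step1 (h1 : S_BCT1.{u}) (hF : Pool.Agent.Y957.MC.S_FLWB.{u}) {k d : ℕ}
    {p : Fin k → Polynomial ℝ} (hk : 0 < k) (hp : SD p d) {K : ℝ → ℝ}
    (hK : ∀ (F : ℝ → ℝ) (L a : ℝ), Measurable F → (∀ u, 0 ≤ F u ∧ F u ≤ 1) → 1 ≤ a → a ≤ 2 →
    Tendsto (fun V : ℝ => (1 / V) * ∫ u in (-V)..V, F u) atTop (nhds (2 * L)) →
    (∀ (i : Fin k) (j : ℕ) (η : ℝ), 0 < η → ∃ T₁ : ℕ, ∀ t : Fin k → ℕ, T₁ ≤ t i → (∀ l, t l ≤ t i) →
      |ravg (gbx (8 * (k + 1)) t) (fun m => if cut j (gbx (8 * (k + 1)) t i) < m i then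
        F (a * sep p m) - (1 / ((t i : ℝ) + 1) ^ (8 * (k + 1) * d - 2 * (k + 1))) *
          ∫ r in (0 : ℝ)..(((t i : ℝ) + 1) ^ (8 * (k + 1) * d - 2 * (k + 1))), F (r + a * sep p m) else 0)| ≤ η) →
    ∀ ε : ℝ, 0 < ε → ∀ᶠ M in atTop, ravg M (fun m => F (a * sep p m)) ≤ ε + K ε * L)
    [IsProbabilityMeasure μ] {τ : ℝ → X → X} {e : X → ℝ} (hτ : IsFlow μ τ) (he : Measurable e)
    (he1 : ∀ x, 0 ≤ e x ∧ e x ≤ 1) :
    ∀ᵐ a ∂(volume.restrict (Set.Icc (1 : ℝ) 2)), Cc μ τ e p K a := by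
  have g1 := h1 X μ τ e k d p hτ he he1 hk hp
  have hb : ∃ C, ∀ x, |e x| ≤ C := ⟨1, fun x => by
    rw [abs_of_nonneg (he1 x).1]
    exact (he1 x).2⟩
  have g2 := hF X μ τ e hτ he hb
  have g3 := hF X μ (fun t => τ (-1 * t)) e (flow_scale hτ (-1)) he hb
  rw [flowInv_scale τ (by norm_num : (-1 : ℝ) ≠ 0)] at g3
  filter_upwards [g1, ae_restrict_mem measurableSet_Icc] with a ha ham
  unfold Cc
  filter_upwards [ha, g2, g3] with x hx hx2 hx3
  set F : ℝ → ℝ := fun u => e (τ u x) with hFd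
  have hFm : Measurable F := by
    have h4 : Measurable fun u : ℝ => ((u, x) : ℝ × X) := by fun_prop
    exact he.comp (hτ.meas.comp h4)
  have hF01 : ∀ u, 0 ≤ F u ∧ F u ≤ 1 := fun u => he1 _
  have hFint : ∀ u v : ℝ, IntervalIntegrable F volume u v := by
    intro u v
    refine (intervalIntegrable_const (c := (1 : ℝ))).mono_fun hFm.aestronglyMeasurable ?_
    refine Filter.Eventually.of_forall fun w => ?_
    show ‖F w‖ ≤ ‖(1 : ℝ)‖
    rw [Real.norm_of_nonneg (hF01 w).1, norm_one]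
    exact (hF01 w).2
  refine hK F _ a hFm hF01 ham.1 ham.2 ?_ ?_
  · have h5 := hx2.add hx3
    have e1 : (μ[e | flowInv τ]) x + (μ[e | flowInv τ]) x = 2 * (μ[e | flowInv τ]) x := by ring
    rw [e1] at h5
    refine h5.congr fun V => ?_
    unfold smo
    have e2 : ∫ r in (0 : ℝ)..V, e (τ (-1 * r) x) = ∫ r in (-V)..0, F r := by
      have e3 := intervalIntegral.integral_comp_neg (a := 0) (b := V) F
      rw [neg_zero] at e3
      rw [← e3]
      refine intervalIntegral.integral_congr fun r _ => ?_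
      simp only [hFd, neg_mul, one_mul]
    rw [e2, ← mul_add, add_comm (∫ r in (0 : ℝ)..V, e (τ r x)) _,
      intervalIntegral.integral_add_adjacent_intervals (hFint _ _) (hFint _ _)]
  · intro i j η hη
    obtain ⟨T₁, hT⟩ := hx i j η hη
    refine ⟨T₁, fun t ht1 ht2 => ?_⟩
    have h6 := hT t ht1 ht2
    refine le_trans (le_of_eq ?_) h6
    congr 2
    funext m
    split_ifs with hc
    · unfold smo
      congr 2
      refine intervalIntegral.integral_congr fun r _ => ?_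
      simp only [hFd]
      rw [hτ.add]
    · rfl

theorem t_BCTRL (h1 : S_BCT1.{u}) (h2 : S_BCT2) (hF : Pool.Agent.Y957.MC.S_FLWB.{u}) :
    S_BCTRL.{u} := by
  intro k d p hk hp
  obtain ⟨K, hK0, hK⟩ := h2 k d p hk hp
  refine ⟨K, hK0, ?_⟩
  intro X _ μ _ τ e hτ he he1
  have key : ∀ A : ℝ, A ≠ 0 → ∀ᵐ a : ℝ, A⁻¹ * a ∈ Set.Icc (1 : ℝ) 2 → Cc μ τ e p K a := by
    intro A hA
    have g1 := step1 h1 hF hk hp hK (flow_scale hτ A) he he1
    have g2 : ∀ᵐ b : ℝ, b ∈ Set.Icc (1 : ℝ) 2 → Cc μ τ e p K (A * b) := by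
      rw [ae_restrict_iff' measurableSet_Icc] at g1
      filter_upwards [g1] with b hb hbm
      have h3 := hb hbm
      unfold Cc at h3 ⊢
      rw [flowInv_scale τ hA] at h3
      filter_upwards [h3] with x hx ε hε
      have e1 : ∀ m : Fin k → ℕ, A * (b * sep p m) = A * b * sep p m := fun m => by ring
      simpa only [e1] using hx ε hε
    have h3 := (Measure.quasiMeasurePreserving_smul (volume : Measure ℝ) (inv_ne_zero hA)).ae g2
    filter_upwards [h3] with a ha hm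
    have h4 := ha (by simpa only [smul_eq_mul] using hm)
    simpa only [smul_eq_mul, mul_inv_cancel_left₀ hA] using h4
  have g1 : ∀ᵐ a : ℝ, ∀ i : ℤ, (((2 : ℝ) ^ i)⁻¹ * a ∈ Set.Icc (1 : ℝ) 2 → Cc μ τ e p K a) ∧
      ((-(2 : ℝ) ^ i)⁻¹ * a ∈ Set.Icc (1 : ℝ) 2 → Cc μ τ e p K a) := by
    rw [ae_all_iff]
    intro i
    have h2 : (2 : ℝ) ^ i ≠ 0 := by positivity
    filter_upwards [key _ h2, key _ (neg_ne_zero.2 h2)] with a ha hb
    exact ⟨ha, hb⟩
  have g0 : ∀ᵐ a : ℝ, a ≠ 0 := by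
    rw [ae_iff]
    simp
  filter_upwards [g1, g0] with a ha ha0
  change Cc μ τ e p K a
  obtain ⟨i, hi⟩ := exists_mem_Ico_zpow (abs_pos.2 ha0) (one_lt_two : (1 : ℝ) < 2)
  have hp : (0 : ℝ) < 2 ^ i := by positivity
  have hi2 : |a| < 2 * 2 ^ i := by
    have := hi.2
    rw [zpow_add_one₀ (by norm_num)] at this
    linarith
  have hmem : ((2 : ℝ) ^ i)⁻¹ * |a| ∈ Set.Icc (1 : ℝ) 2 := by
    constructor
    · rw [inv_mul_eq_div, le_div_iff₀ hp, one_mul]
      exact hi.1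
    · rw [inv_mul_eq_div, div_le_iff₀ hp]
      exact hi2.le
  rcases lt_or_gt_of_ne ha0 with hneg | hpos
  · refine (ha i).2 ?_
    rw [abs_of_neg hneg] at hmem
    rw [inv_neg, neg_mul_comm]
    exact hmem
  · refine (ha i).1 ?_
    rw [abs_of_pos hpos] at hmem
    exact hmem

end Pool.Agent.R699.TB
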