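import Mathlib

/-!
Automorphisms of the rooted tree of words, sections, groups of finite type.
-/

namespace Pool.R699.TreeFT

variable {X : Type*}

/-- The automorphism group of the rooted tree of finite words over `X`: the length preserving and
prefix preserving permutations of the set of words. -/
def treeAut (X : Type*) : Subgroup (Equiv.Perm (List X)) where
  carrier := {g | (∀ v, (g v).length = v.length) ∧ ∀ v w, (g (v ++ w)).take v.length = g v}
  mul_mem' := by
    rintro g h ⟨g1, g2⟩ ⟨h1, h2⟩
    refine ⟨fun v => by rw [Equiv.Perm.mul_apply, g1, h1], fun v w => ?_⟩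
    rw [Equiv.Perm.mul_apply, Equiv.Perm.mul_apply,
      ← List.take_append_drop v.length (h (v ++ w)), h2]
    have := g2 (h v) ((h (v ++ w)).drop v.length)
    rwa [h1] at this
  one_mem' := ⟨fun v => rfl, fun v w => by simp⟩
  inv_mem' := by
    rintro g ⟨g1, g2⟩
    have gi : ∀ v, g (g⁻¹ v) = v := fun v => g.apply_symm_apply v
    have g1' : ∀ v, (g⁻¹ v).length = v.length := fun v => by
      rw [← g1, gi]
    refine ⟨g1', fun v w => ?_⟩
    apply g.injective
    rw [gi]
    have h1 : ((g⁻¹ (v ++ w)).take v.length).length = v.length := by
      rw [List.length_take, g1']; simp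
    have h2 := g2 ((g⁻¹ (v ++ w)).take v.length) ((g⁻¹ (v ++ w)).drop v.length)
    rw [List.take_append_drop, gi, h1] at h2
    rw [← h2]
    simp

/-- action on words -/
def act (g : treeAut X) (v : List X) : List X := g.1 v

theorem act_mul (g h : treeAut X) (v : List X) : act (g * h) v = act g (act h v) := rfl
theorem act_one (v : List X) : act (1 : treeAut X) v = v := rfl
theorem act_inv_act (g : treeAut X) (v : List X) : act g⁻¹ (act g v) = v := by
  rw [← act_mul, inv_mul_cancel, act_one]
theorem act_act_inv (g : treeAut X) (v : List X) : act g (act g⁻¹ v) = v := by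
  rw [← act_mul, mul_inv_cancel, act_one]
theorem act_length (g : treeAut X) (v : List X) : (act g v).length = v.length := g.2.1 v
theorem act_take (g : treeAut X) (v w : List X) : (act g (v ++ w)).take v.length = act g v :=
  g.2.2 v w
theorem act_ext {g h : treeAut X} (H : ∀ v, act g v = act h v) : g = h :=
  Subtype.ext (Equiv.ext H)

/-- the section map -/
def secFun (g : treeAut X) (v w : List X) : List X := (act g (v ++ w)).drop v.length

theorem act_append (g : treeAut X) (v w : List X) : act g (v ++ w) = act g v ++ secFun g v w := by
  conv_lhs => rw [← List.take_append_drop v.length (act g (v ++ w))]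
  rw [act_take]; rfl

theorem secFun_eq {g : treeAut X} {v w u : List X} (h : act g (v ++ w) = act g v ++ u) :
    secFun g v w = u := by
  rw [secFun, h, ← act_length g v]; simp

theorem secFun_append (g : treeAut X) (v w u : List X) :
    secFun g v (w ++ u) = secFun g v w ++ secFun g (v ++ w) u := by
  apply secFun_eq
  rw [← List.append_assoc, act_append g (v ++ w), act_append g v, List.append_assoc]

theorem secFun_length (g : treeAut X) (v w : List X) : (secFun g v w).length = w.length := by
  rw [secFun, List.length_drop, act_length]; simp

/-- The section `g_v` of a tree automorphism: `g (v w) = g v · g_v w`. -/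
def sec (g : treeAut X) (v : List X) : treeAut X :=
  ⟨{ toFun := secFun g v
     invFun := secFun g⁻¹ (act g v)
     left_inv := by
       intro w
       apply secFun_eq
       rw [← act_append, act_inv_act, act_inv_act]
     right_inv := by
       intro w
       apply secFun_eq
       have := act_append g⁻¹ (act g v) w
       rw [act_inv_act] at this
       rw [← this, act_act_inv] }, by
    refine ⟨fun w => secFun_length g v w, fun w u => ?_⟩
    change (secFun g v (w ++ u)).take w.length = secFun g v w
    rw [secFun_append, ← secFun_length g v w]; simp⟩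

theorem act_sec (g : treeAut X) (v w : List X) : act (sec g v) w = secFun g v w := rfl

theorem act_append' (g : treeAut X) (v w : List X) : act g (v ++ w) = act g v ++ act (sec g v) w :=
  act_append g v w

theorem sec_mul (g h : treeAut X) (v : List X) : sec (g * h) v = sec g (act h v) * sec h v := by
  apply act_ext
  intro w
  rw [act_mul, act_sec]
  apply secFun_eq
  rw [act_mul, act_append' h, act_append' g, act_mul]

theorem sec_one (v : List X) : sec (1 : treeAut X) v = 1 := by
  apply act_ext
  intro w
  rw [act_sec]
  apply secFun_eq
  rw [act_one, act_one, act_one]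

theorem sec_sec (g : treeAut X) (v w : List X) : sec (sec g v) w = sec g (v ++ w) := by
  apply act_ext
  intro u
  rw [act_sec]
  apply secFun_eq
  rw [act_sec, secFun_append, act_sec, act_sec]

theorem sec_inv (g : treeAut X) (v : List X) : sec g⁻¹ v = (sec g (act g⁻¹ v))⁻¹ := by
  have h := sec_mul g g⁻¹ v
  rw [mul_inv_cancel, sec_one] at h
  exact (inv_eq_of_mul_eq_one_right h.symm).symm

theorem sec_nil (g : treeAut X) : sec g [] = g := by
  apply act_ext
  intro w
  rw [act_sec]
  apply secFun_eq
  have : act g [] = [] := List.length_eq_zero_iff.1 (by rw [act_length]; rfl)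
  rw [this]; simp

/-- the permutation of the first level -/
def rt (g : treeAut X) (x : X) : X := ((act g [x]).head?).getD x

theorem act_single (g : treeAut X) (x : X) : act g [x] = [rt g x] := by
  have h : (act g [x]).length = 1 := by rw [act_length]; rfl
  obtain ⟨y, hy⟩ := List.length_eq_one_iff.1 h
  rw [rt, hy]; rfl

theorem rt_eq {g : treeAut X} {x y : X} (h : act g [x] = [y]) : rt g x = y := by
  rw [act_single] at h
  simpa using h

theorem rt_mul (g h : treeAut X) (x : X) : rt (g * h) x = rt g (rt h x) := by
  apply rt_eq
  rw [act_mul, act_single h, act_single g]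

theorem rt_one (x : X) : rt (1 : treeAut X) x = x := rt_eq (act_one _)

theorem rt_inv_rt (g : treeAut X) (x : X) : rt g⁻¹ (rt g x) = x := by
  rw [← rt_mul, inv_mul_cancel, rt_one]

theorem rt_rt_inv (g : treeAut X) (x : X) : rt g (rt g⁻¹ x) = x := by
  rw [← rt_mul, mul_inv_cancel, rt_one]

/-- the permutation of the first level as an equivalence -/
def rtE (g : treeAut X) : X ≃ X := ⟨rt g, rt g⁻¹, rt_inv_rt g, rt_rt_inv g⟩

theorem act_cons (g : treeAut X) (x : X) (w : List X) :
    act g (x :: w) = rt g x :: act (sec g [x]) w := by
  have := act_append' g [x] w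
  rw [act_single] at this
  simpa using this

theorem sec1_mul (g h : treeAut X) (x : X) : sec (g * h) [x] = sec g [rt h x] * sec h [x] := by
  rw [sec_mul, act_single]

theorem act_nil (g : treeAut X) : act g [] = [] :=
  List.length_eq_zero_iff.1 (by rw [act_length]; rfl)

theorem ext1 {g h : treeAut X} (h1 : ∀ x, rt g x = rt h x)
    (h2 : ∀ x, sec g [x] = sec h [x]) : g = h := by
  apply act_ext
  intro v
  cases v with
  | nil => rw [act_nil, act_nil]
  | cons x w => rw [act_cons, act_cons, h1, h2]

/-- action of the family `k` below the first level -/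
def embFun (k : X → treeAut X) : List X → List X
  | [] => []
  | x :: w => x :: act (k x) w

/-- The automorphism fixing the first level with sections `k x`. -/
def emb (k : X → treeAut X) : treeAut X :=
  ⟨{ toFun := embFun k
     invFun := embFun (fun x => (k x)⁻¹)
     left_inv := by
       intro v
       cases v with
       | nil => rfl
       | cons x w => simp only [embFun, act_inv_act]
     right_inv := by
       intro v
       cases v with
       | nil => rfl
       | cons x w => simp only [embFun, act_act_inv] }, by
    refine ⟨fun v => ?_, fun v w => ?_⟩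
    · cases v with
      | nil => rfl
      | cons x w => simp only [Equiv.coe_fn_mk, embFun, List.length_cons, act_length]
    · cases v with
      | nil => rfl
      | cons x v =>
        simp only [Equiv.coe_fn_mk, List.cons_append, embFun, List.length_cons,
          List.take_succ_cons, act_take]⟩

theorem act_emb_cons (k : X → treeAut X) (x : X) (w : List X) :
    act (emb k) (x :: w) = x :: act (k x) w := rfl

theorem rt_emb (k : X → treeAut X) (x : X) : rt (emb k) x = x := by
  apply rt_eq
  rw [act_emb_cons, act_nil]

theorem sec_emb (k : X → treeAut X) (x : X) : sec (emb k) [x] = k x := by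
  apply act_ext
  intro w
  have h1 := act_cons (emb k) x w
  rw [act_emb_cons, List.cons.injEq] at h1
  exact h1.2.symm

theorem eq_emb {g : treeAut X} (h : ∀ x, rt g x = x) : g = emb (fun x => sec g [x]) := by
  apply ext1
  · intro x; rw [h, rt_emb]
  · intro x; rw [sec_emb]

theorem emb_mul (k l : X → treeAut X) : emb (fun x => k x * l x) = emb k * emb l := by
  apply ext1
  · intro x; rw [rt_mul, rt_emb, rt_emb, rt_emb]
  · intro x; rw [sec1_mul, sec_emb, sec_emb, rt_emb, sec_emb]

theorem emb_one : emb (fun _ : X => (1 : treeAut X)) = 1 := by
  apply ext1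
  · intro x; rw [rt_emb, rt_one]
  · intro x; rw [sec_emb, sec_one]

section
variable [DecidableEq X]

/-- `k` placed at the first level vertex `x` -/
def emb1 (x : X) (k : treeAut X) : treeAut X := emb (fun y => if y = x then k else 1)

theorem emb1_mul (x : X) (k l : treeAut X) : emb1 x (k * l) = emb1 x k * emb1 x l := by
  rw [emb1, emb1, emb1, ← emb_mul]
  congr 1
  funext y
  split_ifs <;> simp

theorem emb1_conj (u : treeAut X) (x : X) (k : treeAut X) :
    u * emb1 x k * u⁻¹ = emb1 (rt u x) (sec u [x] * k * (sec u [x])⁻¹) := by
  rw [mul_inv_eq_iff_eq_mul]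
  apply ext1
  · intro y
    rw [rt_mul, rt_mul, emb1, emb1, rt_emb, rt_emb]
  · intro y
    rw [sec1_mul, sec1_mul, emb1, emb1, sec_emb, sec_emb, rt_emb]
    by_cases h : y = x
    · subst h; simp
    · have h' : rt u y ≠ rt u x := fun h0 => h ((rtE u).injective h0)
      simp [h, h']

end

/-- The restriction of a tree automorphism to the words of length at most `D`. -/
def restr (D : ℕ) : treeAut X →* Equiv.Perm {v : List X // v.length ≤ D} where
  toFun g := g.1.subtypePerm (fun v => by rw [g.2.1 v])
  map_one' := by ext; rfl
  map_mul' g h := by ext; rfl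

theorem restr_eq_iff {D : ℕ} {g h : treeAut X} :
    restr D g = restr D h ↔ ∀ v : List X, v.length ≤ D → act g v = act h v := by
  constructor
  · intro H v hv
    have := congrArg (fun f => (f ⟨v, hv⟩).1) H
    exact this
  · intro H
    apply Equiv.ext
    rintro ⟨v, hv⟩
    exact Subtype.ext (H v hv)

/-- The group of finite type `G_P` defined by the patterns `P`. -/
def GP (D : ℕ) (P : Subgroup (Equiv.Perm {v : List X // v.length ≤ D})) :
    Subgroup (treeAut X) where
  carrier := {g | ∀ v, restr D (sec g v) ∈ P}
  mul_mem' := by
    intro g h hg hh v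
    rw [sec_mul, map_mul]
    exact P.mul_mem (hg _) (hh _)
  one_mem' := by
    intro v
    rw [sec_one, map_one]
    exact P.one_mem
  inv_mem' := by
    intro g hg v
    rw [sec_inv, map_inv]
    exact P.inv_mem (hg _)

/-- The stabilizer `St_G(n)` of the `n`-th level in `G`. -/
def St (G : Subgroup (treeAut X)) (n : ℕ) : Subgroup (treeAut X) where
  carrier := {g | g ∈ G ∧ ∀ v : List X, v.length = n → act g v = v}
  mul_mem' := by
    rintro g h ⟨hg, hg'⟩ ⟨hh, hh'⟩
    exact ⟨G.mul_mem hg hh, fun v hv => by rw [act_mul, hh' v hv, hg' v hv]⟩
  one_mem' := ⟨G.one_mem, fun v _ => rfl⟩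
  inv_mem' := by
    rintro g ⟨hg, hg'⟩
    refine ⟨G.inv_mem hg, fun v hv => ?_⟩
    have := act_inv_act g v
    rwa [hg' v hv] at this

/-- The closure of a set of tree automorphisms in the topology given by the level stabilizers. -/
def cl (S : Set (treeAut X)) : Set (treeAut X) :=
  {g | ∀ n : ℕ, ∃ h ∈ S, ∀ v : List X, v.length ≤ n → act g v = act h v}

end Pool.R699.TreeFT
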