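import Pool.Agent.R699.TreeFT

namespace Pool.R699.TreeFT

variable {X : Type*} {C : Type*} [CommGroup C]

/-- `χ` is multiplicative on `L`. -/
def HomOn (L : Subgroup (treeAut X)) (χ : treeAut X → C) : Prop :=
  ∀ a ∈ L, ∀ b ∈ L, χ (a * b) = χ a * χ b

theorem HomOn.one {L : Subgroup (treeAut X)} {χ : treeAut X → C} (h : HomOn L χ) : χ 1 = 1 := by
  have := h 1 L.one_mem 1 L.one_mem
  rw [mul_one] at this
  exact (left_eq_mul.1 this)

theorem HomOn.pow {L : Subgroup (treeAut X)} {χ : treeAut X → C} (h : HomOn L χ)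
    {a : treeAut X} (ha : a ∈ L) (n : ℕ) : χ (a ^ n) = χ a ^ n := by
  induction n with
  | zero => rw [pow_zero, pow_zero, h.one]
  | succ n ih => rw [pow_succ, h _ (L.pow_mem ha n) _ ha, ih, pow_succ]

/-- stabiliser sections -/
def secStab (L : Subgroup (treeAut X)) (j : X) : Subgroup (treeAut X) where
  carrier := {w | ∃ u ∈ L, rt u j = j ∧ sec u [j] = w}
  mul_mem' := by
    rintro _ _ ⟨u, hu, hu1, rfl⟩ ⟨w, hw, hw1, rfl⟩
    exact ⟨u * w, L.mul_mem hu hw, by rw [rt_mul, hw1, hu1], by rw [sec1_mul, hw1]⟩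
  one_mem' := ⟨1, L.one_mem, rt_one j, sec_one _⟩
  inv_mem' := by
    rintro _ ⟨u, hu, hu1, rfl⟩
    have h1 : rt u⁻¹ j = j := by
      have := rt_inv_rt u j
      rwa [hu1] at this
    refine ⟨u⁻¹, L.inv_mem hu, h1, ?_⟩
    rw [sec_inv, act_single, h1]

theorem ext_exists {F : Type*} [Group F] [Finite F] (r : treeAut X →* F)
    {G K L : Subgroup (treeAut X)} (hK : ∀ g, g ∈ K ↔ g ∈ G ∧ r g = 1) (hLG : L ≤ G)
    {χ : treeAut X → C} (hχ : HomOn K χ) (hinv : ∀ h ∈ L, ∀ k ∈ K, χ (h * k * h⁻¹) = χ k) :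
    ∃ ξ : treeAut X → C, HomOn L ξ ∧ ∀ k ∈ K, ξ k = χ k ^ Nat.card (G.map r) := by
  classical
  have : Fintype F := Fintype.ofFinite F
  let Q : Subgroup F := L.map r
  have hex : ∀ q : F, ∃ t : treeAut X, q ∈ Q → t ∈ L ∧ r t = q := by
    intro q
    by_cases hq : q ∈ Q
    · obtain ⟨t, ht, ht'⟩ := hq
      exact ⟨t, fun _ => ⟨ht, ht'⟩⟩
    · exact ⟨1, fun h => absurd h hq⟩
  choose t ht using hex
  let Qf : Finset F := Finset.univ.filter (· ∈ Q)
  have hQf : ∀ q, q ∈ Qf ↔ q ∈ Q := fun q => by simp [Qf]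
  have hrQ : ∀ h ∈ L, r h ∈ Q := fun h hh => ⟨h, hh, rfl⟩
  let u : treeAut X → F → treeAut X := fun h q => (t (r h * q))⁻¹ * h * t q
  have huK : ∀ h ∈ L, ∀ q ∈ Q, u h q ∈ K := by
    intro h hh q hq
    have h1 := ht _ (Q.mul_mem (hrQ h hh) hq)
    have h2 := ht _ hq
    rw [hK]
    refine ⟨hLG (L.mul_mem (L.mul_mem (L.inv_mem h1.1) hh) h2.1), ?_⟩
    simp only [u, map_mul, map_inv, h1.2, h2.2]
    group
  let z : treeAut X → C := fun h => ∏ q ∈ Qf, χ (u h q)
  have hz : HomOn L z := by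
    intro g hg h hh
    have h1 : ∀ q ∈ Qf, χ (u (g * h) q) = χ (u g (r h * q)) * χ (u h q) := by
      intro q hq
      rw [hQf] at hq
      rw [← hχ _ (huK g hg _ (Q.mul_mem (hrQ h hh) hq)) _ (huK h hh _ hq)]
      congr 1
      simp only [u, map_mul, mul_assoc]
      group
    change ∏ q ∈ Qf, χ (u (g * h) q) = (∏ q ∈ Qf, χ (u g q)) * ∏ q ∈ Qf, χ (u h q)
    rw [Finset.prod_congr rfl h1, Finset.prod_mul_distrib]
    congr 1
    refine Finset.prod_equiv (Equiv.mulLeft (r h)) ?_ ?_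
    · intro q
      rw [hQf, hQf, Equiv.coe_mulLeft]
      exact (Q.mul_mem_cancel_left (hrQ h hh)).symm
    · intro q _; rfl
  have hzK : ∀ k ∈ K, z k = χ k ^ Nat.card Q := by
    intro k hk
    have h1 : ∀ q ∈ Qf, χ (u k q) = χ k := by
      intro q hq
      rw [hQf] at hq
      have h2 := hinv (t q)⁻¹ (L.inv_mem (ht q hq).1) k hk
      rw [inv_inv] at h2
      rw [← h2]
      simp only [u, ((hK k).1 hk).2, one_mul]
    change ∏ q ∈ Qf, χ (u k q) = _
    rw [Finset.prod_congr rfl h1, Finset.prod_const]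
    congr 1
    rw [Nat.card_eq_fintype_card, Fintype.card_subtype]
  have hdvd : Nat.card Q ∣ Nat.card (G.map r) := Subgroup.card_dvd_of_le (Subgroup.map_mono hLG)
  obtain ⟨c, hc⟩ := hdvd
  refine ⟨fun h => z h ^ c, ?_, ?_⟩
  · intro a ha b hb
    change z (a * b) ^ c = z a ^ c * z b ^ c
    rw [hz a ha b hb, mul_pow]
  · intro k hk
    change z k ^ c = _
    rw [hzK k hk, hc, pow_mul]

section
variable [DecidableEq X] [Fintype X]

/-- `χ` is trivial on the `n`-th layer. -/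
def Triv (K : Subgroup (treeAut X)) : ℕ → (treeAut X → C) → Prop
  | 0, χ => ∀ k ∈ K, χ k = 1
  | n + 1, χ => ∀ x, Triv K n (fun k => χ (emb1 x k))

/-- The data used in the induction. -/
structure Setup (C : Type*) [CommGroup C] (G K : Subgroup (treeAut X)) (m m' : ℕ) : Prop where
  hKG : K ≤ G
  norm : ∀ g ∈ G, ∀ k ∈ K, g * k * g⁻¹ ∈ K
  embK : ∀ k : X → treeAut X, (∀ x, k x ∈ K) → emb k ∈ K
  secG : ∀ g ∈ G, ∀ x, sec g [x] ∈ G
  pow : ∀ g ∈ G, ∃ k : X → treeAut X, (∀ x, k x ∈ K) ∧ g ^ m' = emb k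
  ext : ∀ L : Subgroup (treeAut X), L ≤ G → ∀ χ : treeAut X → C, HomOn K χ →
    (∀ h ∈ L, ∀ k ∈ K, χ (h * k * h⁻¹) = χ k) →
    ∃ ξ : treeAut X → C, HomOn L ξ ∧ ∀ k ∈ K, ξ k = χ k ^ m

theorem emb1_mem {G K : Subgroup (treeAut X)} {m m' : ℕ} (S : Setup C G K m m') (x : X)
    {k : treeAut X} (hk : k ∈ K) : emb1 x k ∈ K := by
  apply S.embK
  intro y
  split_ifs
  · exact hk
  · exact K.one_mem

theorem emb_prod {G K : Subgroup (treeAut X)} {m m' : ℕ} (S : Setup C G K m m')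
    {χ : treeAut X → C} (hχ : HomOn K χ) (κ : X → treeAut X) (hκ : ∀ x, κ x ∈ K) :
    χ (emb κ) = ∏ i, χ (emb1 i (κ i)) := by
  have key : ∀ s : Finset X, χ (emb (fun x => if x ∈ s then κ x else 1)) =
      ∏ i ∈ s, χ (emb1 i (κ i)) := by
    intro s
    induction s using Finset.induction_on with
    | empty => simp [emb_one, hχ.one]
    | insert a s ha ih =>
      rw [Finset.prod_insert ha, ← ih, ← hχ _ (emb1_mem S a (hκ a)) _ ?_]
      · congr 1
        rw [emb1, ← emb_mul]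
        congr 1
        funext x
        by_cases hx : x = a
        · subst hx; simp [ha]
        · simp [hx]
      · apply S.embK
        intro x
        split_ifs
        · exact hκ x
        · exact K.one_mem
  have := key Finset.univ
  simpa using this

theorem main {G K : Subgroup (treeAut X)} {m m' : ℕ} (S : Setup C G K m m') (n : ℕ) :
    ∀ L : Subgroup (treeAut X), K ≤ L → L ≤ G → ∀ χ : treeAut X → C, HomOn K χ →
    (∀ h ∈ L, ∀ k ∈ K, χ (h * k * h⁻¹) = χ k) → Triv K n χ →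
    ∀ ξ : treeAut X → C, HomOn L ξ → (∀ k ∈ K, ξ k = χ k ^ m) → ∀ h ∈ L, ξ h ^ m' = 1 := by
  classical
  induction n with
  | zero =>
    intro L hKL hLG χ hχ hinv ht ξ hξ hξK h hh
    rw [← hξ.pow hh]
    obtain ⟨k, hk, hk'⟩ := S.pow h (hLG hh)
    have : h ^ m' ∈ K := by rw [hk']; exact S.embK k hk
    rw [hξK _ this, ht _ this, one_pow]
  | succ n ih =>
    intro L hKL hLG χ hχ hinv htr ξ hξ hξK
    let R : Setoid X := ⟨fun i j => ∃ h ∈ L, rt h i = j,
      ⟨fun i => ⟨1, L.one_mem, rt_one i⟩,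
       fun {i j} => by
        rintro ⟨h, hh, rfl⟩
        exact ⟨h⁻¹, L.inv_mem hh, rt_inv_rt h i⟩,
       fun {i j k} => by
        rintro ⟨h, hh, rfl⟩ ⟨g, hg, rfl⟩
        exact ⟨g * h, L.mul_mem hg hh, rt_mul g h i⟩⟩⟩
    let b : X → X := fun i => (Quotient.mk R i).out
    have hb : ∀ i, ∃ t ∈ L, rt t (b i) = i := fun i =>
      Quotient.exact (Quotient.out_eq (Quotient.mk R i))
    choose t htL ht1 using hb
    have hbh : ∀ h ∈ L, ∀ i, b (rt h i) = b i := by
      intro h hh i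
      have : Quotient.mk R (rt h i) = Quotient.mk R i := by
        apply Quotient.sound
        exact ⟨h⁻¹, L.inv_mem hh, rt_inv_rt h i⟩
      change (Quotient.mk R (rt h i)).out = (Quotient.mk R i).out
      rw [this]
    have key : ∀ j, ∃ ξj : treeAut X → C, HomOn (secStab L j) ξj ∧
        (∀ k ∈ K, ξj k = χ (emb1 j k) ^ m) ∧ ∀ w ∈ secStab L j, ξj w ^ m' = 1 := by
      intro j
      have e1 : secStab L j ≤ G := by
        rintro _ ⟨u, hu, -, rfl⟩
        exact S.secG u (hLG hu) j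
      have e2 : K ≤ secStab L j := by
        intro k hk
        exact ⟨emb1 j k, hKL (emb1_mem S j hk), rt_emb _ _, by rw [emb1, sec_emb]; simp⟩
      have e3 : HomOn K (fun k => χ (emb1 j k)) := by
        intro a ha c hc
        change χ (emb1 j (a * c)) = χ (emb1 j a) * χ (emb1 j c)
        rw [emb1_mul, hχ _ (emb1_mem S j ha) _ (emb1_mem S j hc)]
      have e4 : ∀ w ∈ secStab L j, ∀ k ∈ K, χ (emb1 j (w * k * w⁻¹)) = χ (emb1 j k) := by
        rintro _ ⟨u, hu, hu1, rfl⟩ k hk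
        have := emb1_conj u j k
        rw [hu1] at this
        rw [← this, hinv u hu _ (emb1_mem S j hk)]
      obtain ⟨ξj, h1, h2⟩ := S.ext (secStab L j) e1 (fun k => χ (emb1 j k)) e3 e4
      exact ⟨ξj, h1, h2, ih (secStab L j) e2 e1 (fun k => χ (emb1 j k)) e3 e4 (htr j) ξj h1 h2⟩
    choose ξs hξs1 hξs2 hξs3 using key
    let u : treeAut X → X → treeAut X := fun h i => (t (rt h i))⁻¹ * h * t i
    have huL : ∀ h ∈ L, ∀ i, u h i ∈ L := fun h hh i =>
      L.mul_mem (L.mul_mem (L.inv_mem (htL _)) hh) (htL _)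
    have htinv : ∀ i, rt (t i)⁻¹ i = b i := by
      intro i
      have := rt_inv_rt (t i) (b i)
      rwa [ht1] at this
    have hu1 : ∀ h ∈ L, ∀ i, rt (u h i) (b i) = b i := by
      intro h hh i
      simp only [u]
      rw [rt_mul, rt_mul, ht1, htinv, hbh h hh]
    have hmem : ∀ h ∈ L, ∀ i, sec (u h i) [b i] ∈ secStab L (b i) := fun h hh i =>
      ⟨u h i, huL h hh i, hu1 h hh i, rfl⟩
    let lam : treeAut X → X → C := fun h i => ξs (b i) (sec (u h i) [b i])
    let z : treeAut X → C := fun h => ∏ i, lam h i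
    have hz : HomOn L z := by
      intro g hg h hh
      have h1 : ∀ i, lam (g * h) i = lam g (rt h i) * lam h i := by
        intro i
        have h2 : u (g * h) i = u g (rt h i) * u h i := by
          simp only [u, rt_mul, mul_assoc]
          group
        have h3 : lam g (rt h i) = ξs (b i) (sec (u g (rt h i)) [b i]) := by
          simp only [lam]
          rw [hbh h hh]
        rw [h3]
        simp only [lam]
        rw [h2, sec1_mul, hu1 h hh]
        refine hξs1 (b i) _ ?_ _ (hmem h hh i)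
        have := hmem g hg (rt h i)
        rwa [hbh h hh] at this
      change ∏ i, lam (g * h) i = (∏ i, lam g i) * ∏ i, lam h i
      rw [Finset.prod_congr rfl (fun i _ => h1 i), Finset.prod_mul_distrib]
      congr 1
      exact Equiv.prod_comp (rtE h) (fun i => lam g i)
    have hzK : ∀ κ : X → treeAut X, (∀ x, κ x ∈ K) → z (emb κ) = ξ (emb κ) := by
      intro κ hκ
      have h1 : ∀ i, lam (emb κ) i = χ (emb1 i (κ i)) ^ m := by
        intro i
        have h2 : sec (u (emb κ) i) [b i] = (sec (t i) [b i])⁻¹ * κ i * sec (t i) [b i] := by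
          simp only [u]
          rw [rt_emb, sec1_mul, sec1_mul, ht1, rt_emb, sec_emb, sec_inv, act_single, htinv]
        have hs : sec (t i) [b i] ∈ G := S.secG _ (hLG (htL i)) _
        have h3 : (sec (t i) [b i])⁻¹ * κ i * sec (t i) [b i] ∈ K := by
          have := S.norm _ (G.inv_mem hs) _ (hκ i)
          rwa [inv_inv] at this
        simp only [lam]
        rw [h2, hξs2 _ _ h3]
        congr 1
        have h4 := emb1_conj (t i) (b i) ((sec (t i) [b i])⁻¹ * κ i * sec (t i) [b i])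
        rw [ht1] at h4
        have h5 : sec (t i) [b i] * ((sec (t i) [b i])⁻¹ * κ i * sec (t i) [b i]) *
            (sec (t i) [b i])⁻¹ = κ i := by group
        rw [h5] at h4
        rw [← h4, hinv _ (htL i) _ (emb1_mem S _ h3)]
      change ∏ i, lam (emb κ) i = _
      rw [Finset.prod_congr rfl (fun i _ => h1 i), Finset.prod_pow, ← emb_prod S hχ κ hκ,
        hξK _ (S.embK κ hκ)]
    intro h hh
    rw [← hξ.pow hh]
    obtain ⟨κ, hκ, hκ'⟩ := S.pow h (hLG hh)
    rw [hκ', ← hzK κ hκ, ← hκ', hz.pow hh]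
    change (∏ i, lam h i) ^ m' = 1
    rw [← Finset.prod_pow]
    apply Finset.prod_eq_one
    intro i _
    exact hξs3 _ _ (hmem h hh i)

end

end Pool.R699.TreeFT
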