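import Mathlib

/-!
# Sums of twisted subsets of matrices over finite fields
-/

namespace Pool.Agent.R699.TwistSum

open Matrix Finset

section rank

variable {F : Type*} [Field F] {n : ℕ}

/-- diagonal normal form with the indicator of a set of size the rank -/
theorem normal_form (B : Matrix (Fin n) (Fin n) F) :
    ∃ (P Q : Matrix (Fin n) (Fin n) F) (I : Finset (Fin n)), IsUnit P ∧ IsUnit Q ∧
      I.card = B.rank ∧ P * B * Q = diagonal (fun i => if i ∈ I then (1 : F) else 0) := by
  classical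
  obtain ⟨V, U, e, hV, hU, h⟩ := Matrix.exists_rank_normal_form B
  refine ⟨V, U, Finset.univ.filter (fun i => (e i).isLeft), hV, hU, ?_, ?_⟩
  · rw [← Fintype.card_coe]
    refine (Fintype.card_congr ?_).trans (Fintype.card_fin B.rank)
    refine ⟨fun i => (e i.1).getLeft (Finset.mem_filter.1 i.2).2, fun j => ⟨e.symm (Sum.inl j), by simp⟩,
      ?_, ?_⟩
    · intro i
      apply Subtype.ext
      simp
    · intro j
      simp
  · rw [h]
    ext i j
    simp only [submatrix_apply, diagonal_apply, Finset.mem_filter, Finset.mem_univ, true_and]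
    rcases hi : e i with a | a <;> rcases hj : e j with b | b
    · simp only [fromBlocks_apply₁₁, one_apply, Sum.isLeft_inl, if_true]
      by_cases hij : i = j
      · subst hij
        rw [hi] at hj
        simp [Sum.inl.inj hj]
      · have : a ≠ b := by
          rintro rfl
          exact hij (e.injective (hi.trans hj.symm))
        simp [hij, this]
    · have : i ≠ j := by rintro rfl; rw [hi] at hj; cases hj
      simp [this]
    · have : i ≠ j := by rintro rfl; rw [hi] at hj; cases hj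
      simp [this]
    · simp

variable [Fintype F] [DecidableEq F]

/-- the number of `a` with `B a D = 0` -/
theorem card_ann (B D : Matrix (Fin n) (Fin n) F) :
    ((univ.filter fun a : Matrix (Fin n) (Fin n) F => B * a * D = 0).card) *
      Fintype.card F ^ (B.rank * D.rank) ≤ Fintype.card (Matrix (Fin n) (Fin n) F) := by
  classical
  obtain ⟨P, Q, I, hP, hQ, hI, h1⟩ := normal_form B
  obtain ⟨P', Q', J, hP', hQ', hJ, h2⟩ := normal_form D
  obtain ⟨Pu, rfl⟩ := hP
  obtain ⟨Qu, rfl⟩ := hQ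
  obtain ⟨Pu', rfl⟩ := hP'
  obtain ⟨Qu', rfl⟩ := hQ'
  -- the map
  have hB : B = ((Pu⁻¹ : (Matrix (Fin n) (Fin n) F)ˣ) : Matrix (Fin n) (Fin n) F) *
      diagonal (fun i => if i ∈ I then (1 : F) else 0) *
      ((Qu⁻¹ : (Matrix (Fin n) (Fin n) F)ˣ) : Matrix (Fin n) (Fin n) F) := by
    rw [← h1]
    simp [mul_assoc]
  have hD : D = ((Pu'⁻¹ : (Matrix (Fin n) (Fin n) F)ˣ) : Matrix (Fin n) (Fin n) F) *
      diagonal (fun i => if i ∈ J then (1 : F) else 0) *
      ((Qu'⁻¹ : (Matrix (Fin n) (Fin n) F)ˣ) : Matrix (Fin n) (Fin n) F) := by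
    rw [← h2]
    simp [mul_assoc]
  have key : ∀ a : Matrix (Fin n) (Fin n) F, B * a * D = 0 →
      ∀ i ∈ I, ∀ j ∈ J,
        (((Qu⁻¹ : (Matrix (Fin n) (Fin n) F)ˣ) : Matrix (Fin n) (Fin n) F) * a *
        ((Pu'⁻¹ : (Matrix (Fin n) (Fin n) F)ˣ) : Matrix (Fin n) (Fin n) F)) i j = 0 := by
    intro a ha i hi j hj
    have h3 : diagonal (fun i => if i ∈ I then (1 : F) else 0) *
        (((Qu⁻¹ : (Matrix (Fin n) (Fin n) F)ˣ) : Matrix (Fin n) (Fin n) F) * a *
        ((Pu'⁻¹ : (Matrix (Fin n) (Fin n) F)ˣ) : Matrix (Fin n) (Fin n) F)) *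
        diagonal (fun i => if i ∈ J then (1 : F) else 0) = 0 := by
      have h4 : (Pu : Matrix (Fin n) (Fin n) F) * (B * a * D) * (Qu' : Matrix (Fin n) (Fin n) F)
          = 0 := by rw [ha]; simp
      rw [← h4, hB, hD]
      simp only [← mul_assoc]
      simp
    have h5 := congrFun (congrFun h3 i) j
    rw [mul_diagonal, diagonal_mul] at h5
    simpa [hi, hj] using h5
  -- counting
  have hcard : Fintype.card F ^ (B.rank * D.rank) =
      (univ : Finset (↥I × ↥J → F)).card := by
    rw [Finset.card_univ, Fintype.card_fun, Fintype.card_prod, Fintype.card_coe, Fintype.card_coe,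
      hI, hJ]
  rw [hcard, ← Finset.card_product, ← Finset.card_univ]
  apply Finset.card_le_card_of_injOn (fun p => (((Qu⁻¹ : (Matrix (Fin n) (Fin n) F)ˣ) :
      Matrix (Fin n) (Fin n) F) * p.1 *
      ((Pu'⁻¹ : (Matrix (Fin n) (Fin n) F)ˣ) : Matrix (Fin n) (Fin n) F)) +
      Matrix.of (fun i j => if h : i ∈ I ∧ j ∈ J then p.2 (⟨i, h.1⟩, ⟨j, h.2⟩) else 0))
  · intro p _; exact Finset.mem_coe.2 (Finset.mem_univ _)
  · rintro ⟨a, w⟩ ha ⟨a', w'⟩ ha' heq
    simp only [coe_product, coe_filter, mem_univ, true_and, coe_univ, Set.mem_prod,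
      Set.mem_ofPred_eq, Set.mem_univ, and_true] at ha ha' heq
    have hw : w = w' := by
      funext ⟨i, j⟩
      have := congrFun (congrFun heq i.1) j.1
      simp only [Matrix.add_apply, Matrix.of_apply] at this
      rw [dif_pos ⟨i.2, j.2⟩, dif_pos ⟨i.2, j.2⟩, key a ha i.1 i.2 j.1 j.2,
        key a' ha' i.1 i.2 j.1 j.2, zero_add, zero_add] at this
      exact this
    subst hw
    have h6 := add_right_cancel heq
    have h7 : a = a' := by
      have := congrArg (fun M => (Qu : Matrix (Fin n) (Fin n) F) * M *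
        (Pu' : Matrix (Fin n) (Fin n) F)) h6
      simpa [mul_assoc] using this
    rw [h7]

omit [Field F] [DecidableEq F] in
theorem card_mat (m k : ℕ) : Fintype.card (Matrix (Fin m) (Fin k) F) =
    Fintype.card F ^ (m * k) := by
  rw [Fintype.card_congr (Matrix.of (m := Fin m) (n := Fin k) (α := F)).symm]
  simp [← pow_mul, mul_comm]

omit [DecidableEq F] in
/-- the number of matrices of rank `r` -/
theorem card_rank (r : ℕ) :
    (univ.filter fun a : Matrix (Fin n) (Fin n) F => a.rank = r).card ≤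
      Fintype.card F ^ (2 * n * r) := by
  classical
  have hcard : Fintype.card F ^ (2 * n * r) =
      (univ : Finset (Matrix (Fin n) (Fin r) F × Matrix (Fin r) (Fin n) F)).card := by
    rw [Finset.card_univ, Fintype.card_prod, card_mat, card_mat, ← pow_add]
    congr 1
    ring
  rw [hcard]
  apply Finset.card_le_card_of_surjOn (fun p => p.1 * p.2)
  intro a ha
  simp only [coe_filter, mem_univ, true_and, Set.mem_ofPred_eq] at ha
  obtain ⟨V, U, e, hV, hU, h⟩ := Matrix.exists_rank_normal_form a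
  obtain ⟨Vu, rfl⟩ := hV
  obtain ⟨Uu, rfl⟩ := hU
  subst ha
  let E : Matrix (Fin n) (Fin a.rank) F := Matrix.of fun i j => if e i = Sum.inl j then 1 else 0
  have hE : E * Eᵀ = (fromBlocks 1 0 0 0).submatrix e e := by
    ext i j
    rw [Matrix.mul_apply]
    simp only [E, transpose_apply, of_apply, submatrix_apply]
    rcases hi : e i with x | x <;> rcases hj : e j with y | y
    · rw [Finset.sum_eq_single x]
      · simp only [fromBlocks_apply₁₁, one_apply, if_true, one_mul, Sum.inl.injEq, eq_comm]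
      · intro b _ hb
        have : ¬ (Sum.inl x : Fin a.rank ⊕ Fin (Fintype.card (Fin n) - a.rank)) = Sum.inl b := by
          intro h; exact hb (Sum.inl.inj h).symm
        rw [if_neg this, zero_mul]
      · intro h; exact absurd (Finset.mem_univ _) h
    · simp
    · simp
    · simp
  refine ⟨(((Vu⁻¹ : (Matrix (Fin n) (Fin n) F)ˣ) : Matrix (Fin n) (Fin n) F) * E,
    Eᵀ * ((Uu⁻¹ : (Matrix (Fin n) (Fin n) F)ˣ) : Matrix (Fin n) (Fin n) F)), by simp, ?_⟩
  simp only
  have : ((Vu⁻¹ : (Matrix (Fin n) (Fin n) F)ˣ) : Matrix (Fin n) (Fin n) F) * E *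
      (Eᵀ * ((Uu⁻¹ : (Matrix (Fin n) (Fin n) F)ˣ) : Matrix (Fin n) (Fin n) F)) =
      ((Vu⁻¹ : (Matrix (Fin n) (Fin n) F)ˣ) : Matrix (Fin n) (Fin n) F) * (E * Eᵀ) *
      ((Uu⁻¹ : (Matrix (Fin n) (Fin n) F)ˣ) : Matrix (Fin n) (Fin n) F) := by
    simp only [Matrix.mul_assoc]
  rw [this, hE, ← h]
  simp [mul_assoc]

end rank

section fourier

variable {F : Type*} [Field F] [Fintype F] [DecidableEq F] {n : ℕ}

/-- the character `x ↦ χ(tr(G x))` -/
noncomputable def ch (χ : AddChar F ℂ) (G : Matrix (Fin n) (Fin n) F) :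
    AddChar (Matrix (Fin n) (Fin n) F) ℂ :=
  χ.compAddMonoidHom
    { toFun := fun x => (G * x).trace
      map_zero' := by simp
      map_add' := fun x y => by rw [mul_add, trace_add] }

omit [Fintype F] [DecidableEq F] in
theorem ch_apply (χ : AddChar F ℂ) (G x : Matrix (Fin n) (Fin n) F) :
    ch χ G x = χ ((G * x).trace) := rfl

theorem sum_ch (χ : AddChar F ℂ) (hχ : χ ≠ 1) (G : Matrix (Fin n) (Fin n) F) :
    ∑ x, χ ((G * x).trace) =
      if G = 0 then (Fintype.card (Matrix (Fin n) (Fin n) F) : ℂ) else 0 := by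
  classical
  have h := AddChar.sum_eq_ite (ch χ G)
  simp only [ch_apply] at h
  rw [h]
  have : ch χ G = 0 ↔ G = 0 := by
    constructor
    · intro h0
      by_contra hG
      obtain ⟨i, j, hij⟩ : ∃ i j, G i j ≠ 0 := by
        by_contra hn
        push Not at hn
        exact hG (by ext i j; simpa using hn i j)
      obtain ⟨c, hc⟩ := AddChar.ne_one_iff.1 hχ
      apply hc
      have h1 := DFunLike.congr_fun h0 (single j i ((G i j)⁻¹ * c))
      rw [ch_apply, AddChar.zero_apply] at h1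
      have h2 : (G * single j i ((G i j)⁻¹ * c)).trace = c := by
        rw [Matrix.trace_mul_single, op_smul_eq_mul, ← mul_assoc,
          mul_inv_cancel₀ hij, one_mul]
      rwa [h2] at h1
    · rintro rfl
      ext x
      rw [ch_apply]; simp
  simp only [this]

/-- the Fourier coefficient of the set `X` -/
noncomputable def SS (χ : AddChar F ℂ) (X : Finset (Matrix (Fin n) (Fin n) F))
    (B : Matrix (Fin n) (Fin n) F) : ℂ := ∑ x ∈ X, χ ((B * x).trace)

/-- second moment -/
theorem second_moment (χ : AddChar F ℂ) (hχ : χ ≠ 1) (X : Finset (Matrix (Fin n) (Fin n) F))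
    (B : Matrix (Fin n) (Fin n) F) :
    ∑ a : Matrix (Fin n) (Fin n) F, ∑ b : Matrix (Fin n) (Fin n) F, ‖SS χ X (b * B * a)‖ ^ 2 =
      ∑ x ∈ X, ∑ y ∈ X, (Fintype.card (Matrix (Fin n) (Fin n) F) : ℝ) *
        ((univ.filter fun a : Matrix (Fin n) (Fin n) F => B * a * (x - y) = 0).card : ℝ) := by
  have h1 : ∀ a b : Matrix (Fin n) (Fin n) F, ((‖SS χ X (b * B * a)‖ ^ 2 : ℝ) : ℂ) =
      ∑ x ∈ X, ∑ y ∈ X, χ (((B * a * (x - y)) * b).trace) := by
    intro a b
    rw [← Complex.normSq_eq_norm_sq, ← Complex.mul_conj, SS, map_sum, Finset.sum_mul_sum]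
    apply Finset.sum_congr rfl
    intro x _
    apply Finset.sum_congr rfl
    intro y _
    rw [← AddChar.map_neg_eq_conj, ← AddChar.map_add_eq_mul]
    congr 1
    rw [Matrix.trace_mul_comm (B * a * (x - y)) b]
    rw [mul_sub, mul_sub, Matrix.trace_sub, sub_eq_add_neg]
    simp only [mul_assoc]
  have h2 : ((∑ a : Matrix (Fin n) (Fin n) F, ∑ b : Matrix (Fin n) (Fin n) F,
      ‖SS χ X (b * B * a)‖ ^ 2 : ℝ) : ℂ) =
      ∑ x ∈ X, ∑ y ∈ X, (Fintype.card (Matrix (Fin n) (Fin n) F) : ℂ) *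
        ((univ.filter fun a : Matrix (Fin n) (Fin n) F => B * a * (x - y) = 0).card : ℂ) := by
    push_cast
    have : ∀ a b : Matrix (Fin n) (Fin n) F, ((‖SS χ X (b * B * a)‖ : ℝ) : ℂ) ^ 2 =
        ∑ x ∈ X, ∑ y ∈ X, χ (((B * a * (x - y)) * b).trace) := by
      intro a b
      rw [← h1]; push_cast; rfl
    simp only [this]
    have h3 : ∀ a : Matrix (Fin n) (Fin n) F,
        ∑ b : Matrix (Fin n) (Fin n) F, ∑ x ∈ X, ∑ y ∈ X, χ (((B * a * (x - y)) * b).trace) =
        ∑ x ∈ X, ∑ y ∈ X, if B * a * (x - y) = 0 then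
          (Fintype.card (Matrix (Fin n) (Fin n) F) : ℂ) else 0 := by
      intro a
      rw [Finset.sum_comm]
      apply Finset.sum_congr rfl
      intro x _
      rw [Finset.sum_comm]
      apply Finset.sum_congr rfl
      intro y _
      exact sum_ch χ hχ _
    simp only [h3]
    rw [Finset.sum_comm]
    apply Finset.sum_congr rfl
    intro x _
    rw [Finset.sum_comm]
    apply Finset.sum_congr rfl
    intro y _
    rw [← Finset.sum_filter, Finset.sum_const, nsmul_eq_mul, mul_comm]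
  exact_mod_cast h2

omit [DecidableEq F] in
theorem card_units : (Fintype.card (Matrix (Fin n) (Fin n) F) : ℝ) ≤
    4 * (Nat.card (Matrix (Fin n) (Fin n) F)ˣ : ℝ) := by
  have h1 : (Nat.card (Matrix (Fin n) (Fin n) F)ˣ : ℝ) =
      ∏ i : Fin n, ((Fintype.card F : ℝ) ^ n - (Fintype.card F : ℝ) ^ (i : ℕ)) := by
    have := Matrix.card_GL_field (𝔽 := F) n
    rw [show Nat.card (Matrix (Fin n) (Fin n) F)ˣ = Nat.card (GL (Fin n) F) from rfl, this]
    push_cast
    apply Finset.prod_congr rfl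
    intro i _
    rw [Nat.cast_sub]
    · push_cast; rfl
    · exact Nat.pow_le_pow_right Fintype.card_pos i.2.le
  rw [h1, card_mat]
  have hq : (2 : ℝ) ≤ Fintype.card F := by
    have := Fintype.one_lt_card (α := F)
    exact_mod_cast this
  generalize (Fintype.card F) = q at hq ⊢
  push_cast
  have hq0 : (0 : ℝ) < q := by linarith
  -- Q_m
  have hQ : ∀ m : ℕ, (1 / 2 : ℝ) + (1 / q : ℝ) ^ (m + 1) ≤
      ∏ j ∈ Finset.range m, (1 - (1 / q : ℝ) ^ (j + 2)) := by
    have hx : (1 / q : ℝ) ≤ 1 / 2 := by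
      apply one_div_le_one_div_of_le <;> linarith
    have hx0 : (0 : ℝ) < 1 / q := by positivity
    generalize (1 / q : ℝ) = x at hx hx0 ⊢
    intro m
    induction m with
    | zero => simp; linarith
    | succ m ih =>
      rw [Finset.prod_range_succ]
      have h2 : x ^ (m + 2) ≤ 1 := pow_le_one₀ hx0.le (by linarith)
      have h3 : (0 : ℝ) < x ^ (m + 1) := by positivity
      have h4 : x ^ (m + 1) ≤ 1 / 2 := by
        calc x ^ (m + 1) ≤ x ^ 1 := pow_le_pow_of_le_one hx0.le (by linarith) (by omega)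
          _ ≤ 1 / 2 := by simpa using hx
      calc (1 / 2 : ℝ) + x ^ (m + 1 + 1) ≤ (1 / 2 + x ^ (m + 1)) * (1 - x ^ (m + 2)) := by
            have e1 : x ^ (m + 1 + 1) = x ^ (m + 1) * x := by ring
            rw [e1]
            nlinarith [mul_pos h3 hx0, mul_nonneg h3.le (sub_nonneg.2 hx),
              mul_nonneg (mul_pos h3 h3).le (sub_nonneg.2 hx),
              mul_nonneg h3.le (sub_nonneg.2 h4)]
        _ ≤ _ := mul_le_mul_of_nonneg_right ih (by linarith)
  have hprod : ∏ i : Fin n, ((q : ℝ) ^ n - (q : ℝ) ^ (i : ℕ)) =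
      (q : ℝ) ^ (n * n) * ∏ j ∈ Finset.range n, (1 - (1 / q : ℝ) ^ (j + 1)) := by
    rw [Finset.prod_range_reflect (fun j => (1 - (1 / q : ℝ) ^ (j + 1))) n |>.symm,
      ← Fin.prod_univ_eq_prod_range (fun j => (1 - (1 / q : ℝ) ^ (n - 1 - j + 1))) n, pow_mul]
    have : ((q : ℝ) ^ n) ^ n = ∏ i : Fin n, (q : ℝ) ^ n := by simp
    rw [this, ← Finset.prod_mul_distrib]
    apply Finset.prod_congr rfl
    intro i _
    have hi := i.2
    have e : n - 1 - (i : ℕ) + 1 = n - i := by omega
    rw [e, mul_sub, mul_one, one_div, inv_pow]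
    congr 1
    have : (q : ℝ) ^ n = (q : ℝ) ^ (i : ℕ) * (q : ℝ) ^ (n - (i : ℕ)) := by
      rw [← pow_add]; congr 1; omega
    rw [this]
    field_simp
  rw [hprod]
  have hfin : (1 / 4 : ℝ) ≤ ∏ j ∈ Finset.range n, (1 - (1 / q : ℝ) ^ (j + 1)) := by
    cases n with
    | zero => simp; norm_num
    | succ m =>
      rw [Finset.prod_range_succ']
      have h5 := hQ m
      have hx : (1 / q : ℝ) ≤ 1 / 2 := by
        apply one_div_le_one_div_of_le <;> linarith
      have h6 : (0 : ℝ) < (1 / q : ℝ) ^ (m + 1) := by positivity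
      have h7 : (1 / 2 : ℝ) ≤ ∏ j ∈ Finset.range m, (1 - (1 / q : ℝ) ^ (j + 1 + 1)) := by
        calc (1 / 2 : ℝ) ≤ 1 / 2 + (1 / q : ℝ) ^ (m + 1) := by linarith
          _ ≤ _ := h5
      simp only [zero_add, pow_one]
      nlinarith
  have h8 : (0 : ℝ) < (q : ℝ) ^ (n * n) := by positivity
  nlinarith

/-- The number of `y` in `X` with `rank (x - y) ≤ t`. -/
theorem card_close (X : Finset (Matrix (Fin n) (Fin n) F)) (x : Matrix (Fin n) (Fin n) F) (t : ℕ) :
    ((X.filter fun y => (x - y).rank ≤ t).card : ℝ) ≤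
      ∑ r ∈ Finset.range (t + 1), (Fintype.card F : ℝ) ^ (2 * n * r) := by
  classical
  have h1 : (X.filter fun y => (x - y).rank ≤ t).card ≤
      ∑ r ∈ Finset.range (t + 1), (univ.filter fun a : Matrix (Fin n) (Fin n) F =>
        a.rank = r).card := by
    rw [← Finset.card_biUnion]
    · apply Finset.card_le_card_of_injOn (fun y => x - y)
      · intro y hy
        simp only [coe_filter, Set.mem_ofPred_eq] at hy
        simp only [coe_biUnion, coe_range, Set.mem_Iio, coe_filter, mem_univ, true_and,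
          Set.mem_iUnion, Set.mem_ofPred_eq, exists_prop]
        exact ⟨_, by omega, rfl⟩
      · intro y _ y' _ h
        simpa using h
    · intro r _ r' _ hr
      rw [Function.onFun, Finset.disjoint_left]
      intro a ha ha'
      simp only [mem_filter, mem_univ, true_and] at ha ha'
      exact hr (ha.symm.trans ha')
  calc ((X.filter fun y => (x - y).rank ≤ t).card : ℝ) ≤
      ((∑ r ∈ Finset.range (t + 1), (univ.filter fun a : Matrix (Fin n) (Fin n) F =>
        a.rank = r).card : ℕ) : ℝ) := by exact_mod_cast h1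
    _ ≤ _ := by
      push_cast
      apply Finset.sum_le_sum
      intro r _
      exact_mod_cast card_rank r

theorem geom_bound (Q : ℝ) (hQ : 2 ≤ Q) (t : ℕ) :
    ∑ r ∈ Finset.range (t + 1), (Q ^ 2) ^ r ≤ 2 * (Q ^ 2) ^ t := by
  induction t with
  | zero => simp
  | succ t ih =>
    rw [Finset.sum_range_succ]
    have h1 : (0 : ℝ) ≤ (Q ^ 2) ^ t := by positivity
    have h2 : (4 : ℝ) ≤ Q ^ 2 := by nlinarith
    have h3 : (Q ^ 2) ^ (t + 1) = (Q ^ 2) ^ t * Q ^ 2 := pow_succ _ _
    nlinarith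

/-- the first moment over `GL × GL` -/
theorem first_moment (χ : AddChar F ℂ) (hχ : χ ≠ 1) (X : Finset (Matrix (Fin n) (Fin n) F))
    (B : Matrix (Fin n) (Fin n) F) (c : ℝ) (hc : 0 < c) (hn : 1 ≤ n)
    (hX : ((Fintype.card F : ℝ) ^ n) ^ (c * n) ≤ X.card)
    (hQ : 7 ≤ ((Fintype.card F : ℝ) ^ n) ^ (c / 16)) (hB : B ≠ 0) :
    ∑ u : (Matrix (Fin n) (Fin n) F)ˣ × (Matrix (Fin n) (Fin n) F)ˣ,
      ‖SS χ X ((u.2 : Matrix (Fin n) (Fin n) F) * B * (u.1 : Matrix (Fin n) (Fin n) F))‖ ≤
      (Nat.card (Matrix (Fin n) (Fin n) F)ˣ : ℝ) ^ 2 * X.card *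
        (((Fintype.card F : ℝ) ^ n) ^ (c / 16))⁻¹ ^ B.rank := by
  classical
  set q : ℝ := (Fintype.card F : ℝ) with hq
  have hq2 : (2 : ℝ) ≤ q := by
    have := Fintype.one_lt_card (α := F)
    rw [hq]; exact_mod_cast this
  set Q : ℝ := q ^ n with hQdef
  have hQ2 : (2 : ℝ) ≤ Q := by
    calc (2 : ℝ) ≤ q := hq2
      _ = q ^ 1 := (pow_one _).symm
      _ ≤ q ^ n := pow_le_pow_right₀ (by linarith) hn
  have hQ0 : (0 : ℝ) < Q := by linarith
  set y : ℝ := Q ^ (c / 16) with hy
  set N : ℝ := (Fintype.card (Matrix (Fin n) (Fin n) F) : ℝ) with hN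
  have hN0 : 0 < N := by rw [hN]; exact_mod_cast Fintype.card_pos
  set U : ℝ := (Nat.card (Matrix (Fin n) (Fin n) F)ˣ : ℝ) with hU
  have hU4 : N ≤ 4 * U := card_units
  have hU0 : 0 < U := by linarith
  set s := B.rank with hs
  have hs1 : 1 ≤ s := by
    rw [Nat.one_le_iff_ne_zero]
    intro h
    apply hB
    obtain ⟨V, U, e, hV, hU, h1⟩ := Matrix.exists_rank_normal_form B
    obtain ⟨Vu, rfl⟩ := hV
    obtain ⟨Uu, rfl⟩ := hU
    have h2 : (Vu : Matrix (Fin n) (Fin n) F) * B * (Uu : Matrix (Fin n) (Fin n) F) = 0 := by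
      rw [h1]
      ext i j
      simp only [submatrix_apply]
      rcases hi : e i with a | a
      · have h' : B.rank = 0 := h
        have := a.2
        omega
      · rcases hj : e j with b | b
        · have h' : B.rank = 0 := h
          have := b.2
          omega
        · simp
    calc B = ((Vu⁻¹ : (Matrix (Fin n) (Fin n) F)ˣ) : Matrix (Fin n) (Fin n) F) *
        ((Vu : Matrix (Fin n) (Fin n) F) * B * (Uu : Matrix (Fin n) (Fin n) F)) *
        ((Uu⁻¹ : (Matrix (Fin n) (Fin n) F)ˣ) : Matrix (Fin n) (Fin n) F) := by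
          simp [mul_assoc]
      _ = 0 := by rw [h2]; simp
  have hsn : s ≤ n := by
    rw [hs]; exact Matrix.rank_le_height B
  set t := ⌊c * n / 4⌋₊ with ht
  have ht1 : (t : ℝ) ≤ c * n / 4 := Nat.floor_le (by positivity)
  have ht2 : c * n / 4 < t + 1 := Nat.lt_floor_add_one _
  have hX0 : (0 : ℝ) < X.card := lt_of_lt_of_le (by positivity) hX
  -- second moment over units
  have hsq : ∑ u : (Matrix (Fin n) (Fin n) F)ˣ × (Matrix (Fin n) (Fin n) F)ˣ,
      ‖SS χ X ((u.2 : Matrix (Fin n) (Fin n) F) * B * (u.1 : Matrix (Fin n) (Fin n) F))‖ ^ 2 ≤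
      ∑ x ∈ X, ∑ y ∈ X, N *
        ((univ.filter fun a : Matrix (Fin n) (Fin n) F => B * a * (x - y) = 0).card : ℝ) := by
    rw [← second_moment χ hχ X B, ← Fintype.sum_prod_type']
    have hinj : Function.Injective (fun u : (Matrix (Fin n) (Fin n) F)ˣ ×
        (Matrix (Fin n) (Fin n) F)ˣ => ((u.1 : Matrix (Fin n) (Fin n) F),
        (u.2 : Matrix (Fin n) (Fin n) F))) := by
      rintro ⟨a, b⟩ ⟨a', b'⟩ h
      simp only [Prod.mk.injEq] at h
      exact Prod.ext (Units.ext h.1) (Units.ext h.2)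
    rw [← Finset.sum_image (s := univ) (g := fun u : (Matrix (Fin n) (Fin n) F)ˣ ×
        (Matrix (Fin n) (Fin n) F)ˣ => ((u.1 : Matrix (Fin n) (Fin n) F),
        (u.2 : Matrix (Fin n) (Fin n) F)))
        (f := fun v => ‖SS χ X (v.2 * B * v.1)‖ ^ 2) hinj.injOn]
    exact Finset.sum_le_univ_sum_of_nonneg (fun _ => by positivity)
  have hcount : ∀ x y : Matrix (Fin n) (Fin n) F,
      ((univ.filter fun a : Matrix (Fin n) (Fin n) F => B * a * (x - y) = 0).card : ℝ) ≤
        N * (q⁻¹) ^ (s * (x - y).rank) := by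
    intro x y
    have h1 := card_ann B (x - y)
    have h2 : ((univ.filter fun a : Matrix (Fin n) (Fin n) F => B * a * (x - y) = 0).card : ℝ) *
        q ^ (s * (x - y).rank) ≤ N := by
      rw [hN, hq, hs]; exact_mod_cast h1
    rw [inv_pow]
    rwa [← div_eq_mul_inv, le_div_iff₀ (by positivity)]
  have hinner : ∀ x : Matrix (Fin n) (Fin n) F, ∑ y ∈ X, (q⁻¹) ^ (s * (x - y).rank) ≤
      3 * X.card * Q ^ (-(c * s / 4)) := by
    intro x
    have hq1 : q⁻¹ ≤ 1 := inv_le_one_of_one_le₀ (by linarith)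
    have hq0 : 0 ≤ q⁻¹ := by positivity
    have h1 : ∀ y ∈ X, (q⁻¹) ^ (s * (x - y).rank) ≤
        (if (x - y).rank ≤ t then 1 else 0) + (q⁻¹) ^ (s * (t + 1)) := by
      intro y _
      split_ifs with h
      · have h2 : (q⁻¹) ^ (s * (x - y).rank) ≤ 1 := pow_le_one₀ hq0 hq1
        have h3 : 0 ≤ (q⁻¹) ^ (s * (t + 1)) := by positivity
        linarith
      · rw [zero_add]
        apply pow_le_pow_of_le_one hq0 hq1
        apply Nat.mul_le_mul_left
        omega
    calc ∑ y ∈ X, (q⁻¹) ^ (s * (x - y).rank) ≤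
        ∑ y ∈ X, ((if (x - y).rank ≤ t then 1 else 0) + (q⁻¹) ^ (s * (t + 1))) :=
          Finset.sum_le_sum h1
      _ = ((X.filter fun y => (x - y).rank ≤ t).card : ℝ) + X.card * (q⁻¹) ^ (s * (t + 1)) := by
          rw [Finset.sum_add_distrib, Finset.sum_const, nsmul_eq_mul, Finset.card_filter]
          push_cast; rfl
      _ ≤ 2 * X.card * Q ^ (-(c * s / 4)) + X.card * Q ^ (-(c * s / 4)) := by
          apply add_le_add
          · have h2 := card_close X x t
            have h3 : ∑ r ∈ Finset.range (t + 1), (Fintype.card F : ℝ) ^ (2 * n * r) =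
                ∑ r ∈ Finset.range (t + 1), (Q ^ 2) ^ r := by
              apply Finset.sum_congr rfl
              intro r _
              rw [hQdef, ← pow_mul, ← pow_mul]
              congr 1
              ring
            rw [h3] at h2
            have h4 := geom_bound Q hQ2 t
            have h5 : (Q ^ 2) ^ t ≤ X.card * Q ^ (-(c * s / 4)) := by
              calc (Q ^ 2) ^ t = Q ^ ((2 * t : ℕ) : ℝ) := by
                    rw [Real.rpow_natCast, pow_mul]
                _ ≤ Q ^ (c * n + (-(c * s / 4))) := by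
                    apply Real.rpow_le_rpow_of_exponent_le (by linarith)
                    push_cast
                    have : (s : ℝ) ≤ n := by exact_mod_cast hsn
                    nlinarith
                _ = Q ^ (c * n) * Q ^ (-(c * s / 4)) := Real.rpow_add hQ0 _ _
                _ ≤ X.card * Q ^ (-(c * s / 4)) :=
                    mul_le_mul_of_nonneg_right hX (by positivity)
            calc ((X.filter fun y => (x - y).rank ≤ t).card : ℝ) ≤ 2 * (Q ^ 2) ^ t := h2.trans h4
              _ ≤ 2 * (X.card * Q ^ (-(c * s / 4))) := by linarith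
              _ = _ := by ring
          · apply mul_le_mul_of_nonneg_left _ hX0.le
            have e1 : (q⁻¹) ^ (s * (t + 1)) = q ^ (-((s * (t + 1) : ℕ) : ℝ)) := by
              rw [Real.rpow_neg (by linarith), Real.rpow_natCast, inv_pow]
            have e2 : Q ^ (-(c * s / 4)) = q ^ (-(n * (c * s / 4))) := by
              rw [hQdef, ← Real.rpow_natCast q n, ← Real.rpow_mul (by linarith)]
              congr 1; ring
            rw [e1, e2]
            apply Real.rpow_le_rpow_of_exponent_le (by linarith)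
            push_cast
            have : (0 : ℝ) < s := by exact_mod_cast hs1
            nlinarith
      _ = _ := by ring
  have hfinal : (∑ u : (Matrix (Fin n) (Fin n) F)ˣ × (Matrix (Fin n) (Fin n) F)ˣ,
      ‖SS χ X ((u.2 : Matrix (Fin n) (Fin n) F) * B * (u.1 : Matrix (Fin n) (Fin n) F))‖) ^ 2 ≤
      (U ^ 2 * X.card * y⁻¹ ^ s) ^ 2 := by
    calc _ ≤ ((univ : Finset ((Matrix (Fin n) (Fin n) F)ˣ × (Matrix (Fin n) (Fin n) F)ˣ)).card : ℝ)
          * ∑ u : (Matrix (Fin n) (Fin n) F)ˣ × (Matrix (Fin n) (Fin n) F)ˣ,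
          ‖SS χ X ((u.2 : Matrix (Fin n) (Fin n) F) * B * (u.1 : Matrix (Fin n) (Fin n) F))‖ ^ 2 :=
          sq_sum_le_card_mul_sum_sq
      _ = U ^ 2 * ∑ u : (Matrix (Fin n) (Fin n) F)ˣ × (Matrix (Fin n) (Fin n) F)ˣ,
          ‖SS χ X ((u.2 : Matrix (Fin n) (Fin n) F) * B * (u.1 : Matrix (Fin n) (Fin n) F))‖ ^ 2 := by
          congr 1
          rw [Finset.card_univ, Fintype.card_prod, hU, Nat.card_eq_fintype_card]
          push_cast; ring
      _ ≤ U ^ 2 * (∑ x ∈ X, ∑ y ∈ X, N * (N * (q⁻¹) ^ (s * (x - y).rank))) := by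
          apply mul_le_mul_of_nonneg_left _ (by positivity)
          refine hsq.trans ?_
          apply Finset.sum_le_sum
          intro x _
          apply Finset.sum_le_sum
          intro z _
          exact mul_le_mul_of_nonneg_left (hcount x z) hN0.le
      _ = U ^ 2 * (N ^ 2 * ∑ x ∈ X, ∑ y ∈ X, (q⁻¹) ^ (s * (x - y).rank)) := by
          congr 1
          rw [Finset.mul_sum]
          apply Finset.sum_congr rfl
          intro x _
          rw [Finset.mul_sum]
          apply Finset.sum_congr rfl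
          intro z _
          ring
      _ ≤ U ^ 2 * (N ^ 2 * (X.card * (3 * X.card * Q ^ (-(c * s / 4))))) := by
          apply mul_le_mul_of_nonneg_left _ (by positivity)
          apply mul_le_mul_of_nonneg_left _ (by positivity)
          calc ∑ x ∈ X, ∑ y ∈ X, (q⁻¹) ^ (s * (x - y).rank) ≤
              ∑ x ∈ X, 3 * X.card * Q ^ (-(c * s / 4)) := Finset.sum_le_sum fun x _ => hinner x
            _ = _ := by rw [Finset.sum_const, nsmul_eq_mul]
      _ ≤ U ^ 2 * ((4 * U) ^ 2 * (X.card * (3 * X.card * Q ^ (-(c * s / 4))))) := by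
          apply mul_le_mul_of_nonneg_left _ (by positivity)
          apply mul_le_mul_of_nonneg_right _ (by positivity)
          exact pow_le_pow_left₀ hN0.le hU4 2
      _ = (U ^ 2 * X.card) ^ 2 * (48 * Q ^ (-(c * s / 4))) := by ring
      _ ≤ (U ^ 2 * X.card) ^ 2 * ((y⁻¹ ^ s) ^ 2) := by
          apply mul_le_mul_of_nonneg_left _ (by positivity)
          have e1 : Q ^ (-(c * s / 4)) = (y⁻¹) ^ (4 * s) := by
            rw [hy, ← Real.rpow_neg hQ0.le, ← Real.rpow_natCast, ← Real.rpow_mul hQ0.le]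
            congr 1; push_cast; ring
          rw [e1]
          have hy0 : 0 < y := by linarith
          have hyi : y⁻¹ ≤ 7⁻¹ := inv_anti₀ (by norm_num) hQ
          have hyi0 : 0 < y⁻¹ := by positivity
          have e2 : (y⁻¹) ^ (4 * s) = (y⁻¹ ^ s) ^ 2 * (y⁻¹ ^ s) ^ 2 := by
            rw [← pow_mul, ← pow_add]; congr 1; ring
          have h8 : y⁻¹ ^ s ≤ 7⁻¹ := by
            calc y⁻¹ ^ s ≤ y⁻¹ ^ 1 := pow_le_pow_of_le_one hyi0.le (by linarith) hs1
              _ ≤ 7⁻¹ := by simpa using hyi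
          have h9 : (y⁻¹ ^ s) ^ 2 ≤ 49⁻¹ := by
            calc (y⁻¹ ^ s) ^ 2 ≤ (7⁻¹) ^ 2 := pow_le_pow_left₀ (by positivity) h8 2
              _ = 49⁻¹ := by norm_num
          rw [e2]
          have h10 : 0 ≤ (y⁻¹ ^ s) ^ 2 := by positivity
          nlinarith
      _ = _ := by ring
  exact abs_le_of_sq_le_sq' hfinal (by positivity) |>.2

end fourier

end Pool.Agent.R699.TwistSum
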