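import Pool.Agent.R699.TwistSum

/-!
# Sums of twisted subsets of matrices over finite fields: the covering theorem
-/

namespace Pool.Agent.R699.TwistSum

open Matrix Finset

section large

variable {F : Type*} [Field F] [Fintype F] [DecidableEq F] {n : ℕ}

omit [Fintype F] [DecidableEq F] in
theorem rank_pos {B : Matrix (Fin n) (Fin n) F} (h : B.rank = 0) : B = 0 := by
  obtain ⟨V, U, e, hV, hU, h1⟩ := Matrix.exists_rank_normal_form B
  obtain ⟨Vu, rfl⟩ := hV
  obtain ⟨Uu, rfl⟩ := hU
  have h2 : (Vu : Matrix (Fin n) (Fin n) F) * B * (Uu : Matrix (Fin n) (Fin n) F) = 0 := by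
    rw [h1]
    ext i j
    simp only [submatrix_apply]
    rcases hi : e i with a | a
    · have := a.2
      omega
    · rcases hj : e j with b | b
      · have := b.2
        omega
      · simp
  calc B = ((Vu⁻¹ : (Matrix (Fin n) (Fin n) F)ˣ) : Matrix (Fin n) (Fin n) F) *
      ((Vu : Matrix (Fin n) (Fin n) F) * B * (Uu : Matrix (Fin n) (Fin n) F)) *
      ((Uu⁻¹ : (Matrix (Fin n) (Fin n) F)ˣ) : Matrix (Fin n) (Fin n) F) := by
        simp [mul_assoc]
    _ = 0 := by rw [h2]; simp

/-- the sum over nonzero matrices of `(Q^4)^{-rank}` is less than one -/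
theorem sum_rank_lt (Q : ℝ) (hQ : Q = (Fintype.card F : ℝ) ^ n) (hn : 1 ≤ n) :
    ∑ B ∈ univ.filter (fun B : Matrix (Fin n) (Fin n) F => B ≠ 0), ((Q ^ 4)⁻¹) ^ B.rank < 1 := by
  classical
  have hq2 : (2 : ℝ) ≤ (Fintype.card F : ℝ) := by
    have := Fintype.one_lt_card (α := F)
    exact_mod_cast this
  have hQ2 : (2 : ℝ) ≤ Q := by
    rw [hQ]
    calc (2 : ℝ) ≤ (Fintype.card F : ℝ) := hq2
      _ = (Fintype.card F : ℝ) ^ 1 := (pow_one _).symm
      _ ≤ (Fintype.card F : ℝ) ^ n := pow_le_pow_right₀ (by linarith) hn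
  have hQ0 : (0 : ℝ) < Q := by linarith
  have h1 : ∑ B ∈ univ.filter (fun B : Matrix (Fin n) (Fin n) F => B ≠ 0),
      ((Q ^ 4)⁻¹) ^ B.rank ≤ ∑ r ∈ Finset.range n, (1 / 4 : ℝ) ^ (r + 1) := by
    rw [← Finset.sum_fiberwise_of_maps_to (s := univ.filter
      (fun B : Matrix (Fin n) (Fin n) F => B ≠ 0)) (t := (Finset.range n).image (· + 1))
      (g := fun B => B.rank)]
    · rw [Finset.sum_image (by intro a _ b _ h; simpa using h)]
      apply Finset.sum_le_sum
      intro r _
      calc ∑ B ∈ (univ.filter (fun B : Matrix (Fin n) (Fin n) F => B ≠ 0)).filter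
            (fun B => B.rank = r + 1), ((Q ^ 4)⁻¹) ^ B.rank =
          ∑ B ∈ (univ.filter (fun B : Matrix (Fin n) (Fin n) F => B ≠ 0)).filter
            (fun B => B.rank = r + 1), ((Q ^ 4)⁻¹) ^ (r + 1) := by
            apply Finset.sum_congr rfl
            intro B hB
            rw [(Finset.mem_filter.1 hB).2]
        _ = (((univ.filter (fun B : Matrix (Fin n) (Fin n) F => B ≠ 0)).filter
            (fun B => B.rank = r + 1)).card : ℝ) * ((Q ^ 4)⁻¹) ^ (r + 1) := by
            rw [Finset.sum_const, nsmul_eq_mul]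
        _ ≤ ((univ.filter (fun B : Matrix (Fin n) (Fin n) F => B.rank = r + 1)).card : ℝ) *
            ((Q ^ 4)⁻¹) ^ (r + 1) := by
            apply mul_le_mul_of_nonneg_right _ (by positivity)
            have : ((univ.filter (fun B : Matrix (Fin n) (Fin n) F => B ≠ 0)).filter
              (fun B => B.rank = r + 1)).card ≤
              (univ.filter (fun B : Matrix (Fin n) (Fin n) F => B.rank = r + 1)).card := by
              apply Finset.card_le_card
              intro B hB
              simp only [mem_filter, mem_univ, true_and] at hB ⊢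
              exact hB.2
            exact_mod_cast this
        _ ≤ (Q ^ 2) ^ (r + 1) * ((Q ^ 4)⁻¹) ^ (r + 1) := by
            apply mul_le_mul_of_nonneg_right _ (by positivity)
            have h2 : ((univ.filter (fun B : Matrix (Fin n) (Fin n) F => B.rank = r + 1)).card : ℝ)
              ≤ (Fintype.card F : ℝ) ^ (2 * n * (r + 1)) := by
              exact_mod_cast card_rank (F := F) (n := n) (r + 1)
            refine h2.trans (le_of_eq ?_)
            rw [hQ, ← pow_mul, ← pow_mul]
            congr 1; ring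
        _ = ((Q ^ 2)⁻¹) ^ (r + 1) := by
            rw [← mul_pow]
            congr 1
            field_simp
        _ ≤ (1 / 4 : ℝ) ^ (r + 1) := by
            apply pow_le_pow_left₀ (by positivity)
            rw [one_div]
            apply inv_anti₀ (by norm_num)
            nlinarith
    · intro B hB
      simp only [mem_filter, mem_univ, true_and] at hB
      have h2 : B.rank ≠ 0 := fun h => hB (rank_pos h)
      have h3 : B.rank ≤ n := Matrix.rank_le_height B
      simp only [mem_image, mem_range]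
      exact ⟨B.rank - 1, by omega, by omega⟩
  refine lt_of_le_of_lt h1 ?_
  have h2 : ∀ m : ℕ, ∑ r ∈ Finset.range m, (1 / 4 : ℝ) ^ (r + 1) ≤ 1 / 3 - (1 / 3) * (1 / 4) ^ m := by
    intro m
    induction m with
    | zero => simp
    | succ m ih =>
      rw [Finset.sum_range_succ]
      have : (1 / 4 : ℝ) ^ (m + 1) = (1 / 4) ^ m * (1 / 4) := pow_succ _ _
      rw [this]
      linarith
  have h3 := h2 n
  have h4 : (0 : ℝ) < (1 / 4) ^ n := by positivity
  linarith

omit [Fintype F] [DecidableEq F] in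
theorem char_sum {ι : Type*} (χ : AddChar F ℂ) (s : Finset ι) (f : ι → F) :
    χ (∑ i ∈ s, f i) = ∏ i ∈ s, χ (f i) := by
  classical
  induction s using Finset.induction_on with
  | empty => simp
  | insert a s ha ih =>
    rw [Finset.sum_insert ha, Finset.prod_insert ha, AddChar.map_add_eq_mul, ih]

omit [DecidableEq F] in
theorem fourier_bound (χ : AddChar F ℂ) (hχ : χ ≠ 1) {μ : ℕ}
    (X : Fin μ → Finset (Matrix (Fin n) (Fin n) F))
    (a b : Fin μ → Matrix (Fin n) (Fin n) F) (M : Matrix (Fin n) (Fin n) F)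
    (h : ∀ x : Fin μ → Matrix (Fin n) (Fin n) F, (∀ i, x i ∈ X i) →
      ∑ i, a i * x i * b i ≠ M) [DecidableEq (Matrix (Fin n) (Fin n) F)] :
    ∏ i, ((X i).card : ℝ) ≤ ∑ B ∈ univ.filter (fun B : Matrix (Fin n) (Fin n) F => B ≠ 0),
      ∏ i, ‖SS χ (X i) (b i * B * a i)‖ := by
  classical
  have h1 : ∑ x ∈ Fintype.piFinset X, ∑ B : Matrix (Fin n) (Fin n) F,
      χ ((B * (∑ i, a i * x i * b i - M)).trace) = 0 := by
    apply Finset.sum_eq_zero
    intro x hx
    have h2 : ∑ i, a i * x i * b i - M ≠ 0 := by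
      rw [sub_ne_zero]
      exact h x (fun i => Fintype.mem_piFinset.1 hx i)
    have h3 := sum_ch χ hχ (∑ i, a i * x i * b i - M)
    rw [if_neg h2] at h3
    rw [← h3]
    apply Finset.sum_congr rfl
    intro B _
    rw [Matrix.trace_mul_comm]
  have h2 : ∀ x : Fin μ → Matrix (Fin n) (Fin n) F, ∀ B : Matrix (Fin n) (Fin n) F,
      χ ((B * (∑ i, a i * x i * b i - M)).trace) =
      χ (-((B * M).trace)) * ∏ i, χ ((b i * B * a i * x i).trace) := by
    intro x B
    rw [mul_sub, trace_sub, sub_eq_add_neg, AddChar.map_add_eq_mul, mul_comm, Finset.mul_sum,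
      Matrix.trace_sum, char_sum]
    congr 1
    apply Finset.prod_congr rfl
    intro i _
    congr 1
    rw [← mul_assoc, Matrix.trace_mul_comm]
    simp only [mul_assoc]
  rw [Finset.sum_comm] at h1
  have h3 : ∀ B : Matrix (Fin n) (Fin n) F, ∑ x ∈ Fintype.piFinset X,
      χ ((B * (∑ i, a i * x i * b i - M)).trace) =
      χ (-((B * M).trace)) * ∏ i, SS χ (X i) (b i * B * a i) := by
    intro B
    simp only [h2, SS]
    rw [← Finset.mul_sum, Finset.prod_univ_sum]
  simp only [h3] at h1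
  rw [← Finset.sum_filter_add_sum_filter_not univ (fun B : Matrix (Fin n) (Fin n) F => B ≠ 0)] at h1
  have h4 : ∑ B ∈ univ.filter (fun B : Matrix (Fin n) (Fin n) F => ¬ B ≠ 0),
      χ (-((B * M).trace)) * ∏ i, SS χ (X i) (b i * B * a i) = ∏ i, ((X i).card : ℂ) := by
    have : univ.filter (fun B : Matrix (Fin n) (Fin n) F => ¬ B ≠ 0) = {0} := by
      ext B; simp
    rw [this, Finset.sum_singleton]
    simp [SS]
  rw [h4] at h1
  have h5 : ∏ i, ((X i).card : ℝ) = ‖∏ i, ((X i).card : ℂ)‖ := by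
    rw [norm_prod]
    apply Finset.prod_congr rfl
    intro i _
    simp
  rw [h5, eq_neg_of_add_eq_zero_right h1, norm_neg]
  refine (norm_sum_le _ _).trans ?_
  apply Finset.sum_le_sum
  intro B _
  rw [norm_mul, norm_prod]
  have : ‖χ (-((B * M).trace))‖ = 1 := AddChar.norm_apply χ _
  rw [this, one_mul]

/-- The covering theorem when `q^n` is large in terms of `c`. -/
theorem large_case (c : ℝ) (hc : 0 < c) (μ : ℕ) (hμ : 64 ≤ c * μ) (hn : 1 ≤ n)
    (X : Fin μ → Finset (Matrix (Fin n) (Fin n) F))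
    (hX : ∀ i, ((Fintype.card F : ℝ) ^ n) ^ (c * n) ≤ (X i).card)
    (hQ : 7 ≤ ((Fintype.card F : ℝ) ^ n) ^ (c / 16)) :
    ∃ a b : Fin μ → (Matrix (Fin n) (Fin n) F)ˣ, ∀ M : Matrix (Fin n) (Fin n) F,
      ∃ x : Fin μ → Matrix (Fin n) (Fin n) F, (∀ i, x i ∈ X i) ∧
        ∑ i, (a i : Matrix (Fin n) (Fin n) F) * x i * (b i : Matrix (Fin n) (Fin n) F) = M := by
  classical
  by_contra hcon
  push Not at hcon
  obtain ⟨χ, hχ⟩ : ∃ χ : AddChar F ℂ, χ ≠ 1 := by
    obtain ⟨χ, hχ⟩ := (AddChar.exists_apply_ne_zero (a := (1 : F))).2 one_ne_zero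
    exact ⟨χ, fun h => hχ (by rw [h]; rfl)⟩
  set q : ℝ := (Fintype.card F : ℝ) with hq
  have hq2 : (2 : ℝ) ≤ q := by
    have := Fintype.one_lt_card (α := F)
    rw [hq]; exact_mod_cast this
  set Q : ℝ := q ^ n with hQdef
  have hQ2 : (2 : ℝ) ≤ Q := by
    calc (2 : ℝ) ≤ q := hq2
      _ = q ^ 1 := (pow_one _).symm
      _ ≤ q ^ n := pow_le_pow_right₀ (by linarith) hn
  have hQ0 : (0 : ℝ) < Q := by linarith
  set y : ℝ := Q ^ (c / 16) with hy
  set U : ℝ := (Nat.card (Matrix (Fin n) (Fin n) F)ˣ : ℝ) with hU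
  have hU0 : 0 < U := by
    rw [hU, Nat.card_eq_fintype_card]
    exact_mod_cast Fintype.card_pos
  have hX0 : ∀ i, (0 : ℝ) < (X i).card := fun i => lt_of_lt_of_le (by positivity) (hX i)
  -- pointwise bound
  have h1 : ∀ w : Fin μ → (Matrix (Fin n) (Fin n) F)ˣ × (Matrix (Fin n) (Fin n) F)ˣ,
      ∏ i, ((X i).card : ℝ) ≤ ∑ B ∈ univ.filter (fun B : Matrix (Fin n) (Fin n) F => B ≠ 0),
        ∏ i, ‖SS χ (X i) (((w i).2 : Matrix (Fin n) (Fin n) F) * B *
          ((w i).1 : Matrix (Fin n) (Fin n) F))‖ := by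
    intro w
    obtain ⟨M, hM⟩ := hcon (fun i => (w i).1) (fun i => (w i).2)
    exact fourier_bound χ hχ X (fun i => ((w i).1 : Matrix (Fin n) (Fin n) F))
      (fun i => ((w i).2 : Matrix (Fin n) (Fin n) F)) M hM
  have h2 : (U ^ 2) ^ μ * ∏ i, ((X i).card : ℝ) ≤
      ∑ B ∈ univ.filter (fun B : Matrix (Fin n) (Fin n) F => B ≠ 0),
        ∏ i, ∑ u : (Matrix (Fin n) (Fin n) F)ˣ × (Matrix (Fin n) (Fin n) F)ˣ,
          ‖SS χ (X i) ((u.2 : Matrix (Fin n) (Fin n) F) * B *
          (u.1 : Matrix (Fin n) (Fin n) F))‖ := by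
    have h3 := Finset.sum_le_sum (s := (univ : Finset (Fin μ → (Matrix (Fin n) (Fin n) F)ˣ ×
      (Matrix (Fin n) (Fin n) F)ˣ))) (fun w _ => h1 w)
    rw [Finset.sum_const, nsmul_eq_mul, Finset.card_univ, Fintype.card_fun, Fintype.card_prod,
      Fintype.card_fin, Finset.sum_comm] at h3
    have e1 : (((Fintype.card (Matrix (Fin n) (Fin n) F)ˣ *
      Fintype.card (Matrix (Fin n) (Fin n) F)ˣ) ^ μ : ℕ) : ℝ) = (U ^ 2) ^ μ := by
      rw [hU, Nat.card_eq_fintype_card]
      push_cast
      ring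
    rw [e1] at h3
    refine h3.trans (le_of_eq ?_)
    apply Finset.sum_congr rfl
    intro B _
    rw [Fintype.prod_sum]
  have h4 : ∑ B ∈ univ.filter (fun B : Matrix (Fin n) (Fin n) F => B ≠ 0),
        ∏ i, ∑ u : (Matrix (Fin n) (Fin n) F)ˣ × (Matrix (Fin n) (Fin n) F)ˣ,
          ‖SS χ (X i) ((u.2 : Matrix (Fin n) (Fin n) F) * B *
          (u.1 : Matrix (Fin n) (Fin n) F))‖ ≤
      ∑ B ∈ univ.filter (fun B : Matrix (Fin n) (Fin n) F => B ≠ 0),
        ((U ^ 2) ^ μ * ∏ i, ((X i).card : ℝ)) * ((Q ^ 4)⁻¹) ^ B.rank := by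
    apply Finset.sum_le_sum
    intro B hB
    have hB0 : B ≠ 0 := (Finset.mem_filter.1 hB).2
    calc ∏ i, ∑ u : (Matrix (Fin n) (Fin n) F)ˣ × (Matrix (Fin n) (Fin n) F)ˣ,
          ‖SS χ (X i) ((u.2 : Matrix (Fin n) (Fin n) F) * B *
          (u.1 : Matrix (Fin n) (Fin n) F))‖ ≤ ∏ i, (U ^ 2 * (X i).card * y⁻¹ ^ B.rank) := by
          apply Finset.prod_le_prod
          · intro i _
            exact Finset.sum_nonneg (fun _ _ => norm_nonneg _)
          · intro i _
            exact first_moment χ hχ (X i) B c hc hn (hX i) hQ hB0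
      _ = ((U ^ 2) ^ μ * ∏ i, ((X i).card : ℝ)) * (y⁻¹ ^ B.rank) ^ μ := by
          rw [Finset.prod_mul_distrib, Finset.prod_mul_distrib]
          simp
      _ ≤ _ := by
          apply mul_le_mul_of_nonneg_left
          · rw [← pow_mul, mul_comm, pow_mul]
            apply pow_le_pow_left₀ (by positivity)
            rw [inv_pow]
            apply inv_anti₀ (by positivity)
            rw [hy, ← Real.rpow_natCast, ← Real.rpow_natCast, ← Real.rpow_mul hQ0.le]
            apply Real.rpow_le_rpow_of_exponent_le (by linarith)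
            push_cast
            linarith
          · exact mul_nonneg (by positivity) (Finset.prod_nonneg fun i _ => (hX0 i).le)
  rw [← Finset.mul_sum] at h4
  have h5 := sum_rank_lt (F := F) (n := n) Q hQdef hn
  have h6 : 0 < (U ^ 2) ^ μ * ∏ i, ((X i).card : ℝ) :=
    mul_pos (by positivity) (Finset.prod_pos fun i _ => hX0 i)
  nlinarith [h2.trans h4]

end large

section small

variable {F : Type*} [Field F] {n : ℕ}

/-- an additive submonoid containing all units is everything -/
theorem units_span (K : AddSubmonoid (Matrix (Fin n) (Fin n) F))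
    (hK : ∀ u : (Matrix (Fin n) (Fin n) F)ˣ, (u : Matrix (Fin n) (Fin n) F) ∈ K) (hn : 1 ≤ n) :
    ∀ x, x ∈ K := by
  classical
  have hoff : ∀ (i j : Fin n) (c : F), i ≠ j → ∃ u : (Matrix (Fin n) (Fin n) F)ˣ,
      (u : Matrix (Fin n) (Fin n) F) = 1 + single i j c := by
    intro i j c hij
    have h1 : (Matrix.transvection i j c).det = 1 := Matrix.det_transvection_of_ne i j hij c
    have h2 : IsUnit (Matrix.transvection i j c) := by
      rw [Matrix.isUnit_iff_isUnit_det, h1]; exact isUnit_one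
    obtain ⟨u, hu⟩ := h2
    exact ⟨u, by rw [hu]; rfl⟩
  have hsingle : ∀ (i j : Fin n) (c : F), single i j c ∈ K := by
    intro i j c
    by_cases hij : i = j
    · subst hij
      by_cases hn1 : n = 1
      · subst hn1
        by_cases hc : c = 0
        · subst hc
          rw [single_zero]; exact K.zero_mem
        · have h1 : IsUnit (single i i c : Matrix (Fin 1) (Fin 1) F) := by
            rw [Matrix.isUnit_iff_isUnit_det, Matrix.det_fin_one]
            have : i = 0 := Subsingleton.elim _ _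
            subst this
            rw [single_apply_same]
            exact isUnit_iff_ne_zero.2 hc
          obtain ⟨u, hu⟩ := h1
          rw [← hu]; exact hK u
      · obtain ⟨k, hk⟩ : ∃ k : Fin n, k ≠ i := by
          have : Nontrivial (Fin n) := Fin.nontrivial_iff_two_le.2 (by omega)
          exact exists_ne i
        obtain ⟨u, hu⟩ := hoff i k c hk.symm
        obtain ⟨v, hv⟩ := hoff k i 1 hk
        have h1 : (single i i c : Matrix (Fin n) (Fin n) F) =
            ((u * v : (Matrix (Fin n) (Fin n) F)ˣ) : Matrix (Fin n) (Fin n) F) +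
            ((-u : (Matrix (Fin n) (Fin n) F)ˣ) : Matrix (Fin n) (Fin n) F) +
            ((-v : (Matrix (Fin n) (Fin n) F)ˣ) : Matrix (Fin n) (Fin n) F) +
            ((1 : (Matrix (Fin n) (Fin n) F)ˣ) : Matrix (Fin n) (Fin n) F) := by
          rw [Units.val_mul, Units.val_neg, Units.val_neg, Units.val_one, hu, hv]
          have h2 : (single i k c : Matrix (Fin n) (Fin n) F) * single k i 1 = single i i c := by
            rw [single_mul_single_same, mul_one]
          rw [← h2]
          noncomm_ring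
        rw [h1]
        exact K.add_mem (K.add_mem (K.add_mem (hK _) (hK _)) (hK _)) (hK _)
    · obtain ⟨u, hu⟩ := hoff i j c hij
      have h1 : (single i j c : Matrix (Fin n) (Fin n) F) =
          (u : Matrix (Fin n) (Fin n) F) +
          ((-1 : (Matrix (Fin n) (Fin n) F)ˣ) : Matrix (Fin n) (Fin n) F) := by
        rw [hu, Units.val_neg, Units.val_one]; abel
      rw [h1]
      exact K.add_mem (hK _) (hK _)
  intro x
  rw [Matrix.matrix_eq_sum_single x]
  exact K.sum_mem fun i _ => K.sum_mem fun j _ => hsingle i j _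

/-- a proper nonempty subset is moved out of itself by a suitable `a d b` -/
theorem step (hn : 1 ≤ n) (S : Set (Matrix (Fin n) (Fin n) F)) (hS : S.Nonempty)
    (hS' : S ≠ Set.univ) (d : Matrix (Fin n) (Fin n) F) (hd : d ≠ 0) :
    ∃ a b : (Matrix (Fin n) (Fin n) F)ˣ, ∃ s ∈ S,
      s + (a : Matrix (Fin n) (Fin n) F) * d * (b : Matrix (Fin n) (Fin n) F) ∉ S := by
  classical
  by_contra hcon
  push Not at hcon
  let H : AddSubmonoid (Matrix (Fin n) (Fin n) F) :=
    { carrier := {h | ∀ s ∈ S, s + h ∈ S}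
      zero_mem' := fun s hs => by simpa using hs
      add_mem' := fun {x y} hx hy s hs => by
        rw [← add_assoc]; exact hy _ (hx s hs) }
  have hH : ∀ a b : (Matrix (Fin n) (Fin n) F)ˣ,
      (a : Matrix (Fin n) (Fin n) F) * d * (b : Matrix (Fin n) (Fin n) F) ∈ H :=
    fun a b s hs => hcon a b s hs
  have h1 : ∀ (x : Matrix (Fin n) (Fin n) F) (b : (Matrix (Fin n) (Fin n) F)ˣ),
      x * d * (b : Matrix (Fin n) (Fin n) F) ∈ H := by
    intro x b
    let K : AddSubmonoid (Matrix (Fin n) (Fin n) F) :=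
      { carrier := {x | x * d * (b : Matrix (Fin n) (Fin n) F) ∈ H}
        zero_mem' := by
          show (0 : Matrix (Fin n) (Fin n) F) * d * _ ∈ H
          simp [H.zero_mem]
        add_mem' := fun {x y} hx hy => by
          show (x + y) * d * _ ∈ H
          rw [add_mul, add_mul]; exact H.add_mem hx hy }
    exact units_span K (fun u => hH u b) hn x
  have h2 : ∀ (x y : Matrix (Fin n) (Fin n) F), x * d * y ∈ H := by
    intro x y
    let K : AddSubmonoid (Matrix (Fin n) (Fin n) F) :=
      { carrier := {y | x * d * y ∈ H}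
        zero_mem' := by
          show x * d * 0 ∈ H
          simp [H.zero_mem]
        add_mem' := fun {y z} hy hz => by
          show x * d * (y + z) ∈ H
          rw [mul_add]; exact H.add_mem hy hz }
    exact units_span K (fun u => h1 x u) hn y
  obtain ⟨p, r, hpr⟩ : ∃ i j, d i j ≠ 0 := by
    by_contra hnn
    push Not at hnn
    exact hd (by ext i j; simpa using hnn i j)
  have h3 : ∀ x, x ∈ H := by
    intro x
    rw [Matrix.matrix_eq_sum_single x]
    refine H.sum_mem fun i _ => H.sum_mem fun j _ => ?_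
    have h4 : (single i j (x i j) : Matrix (Fin n) (Fin n) F) =
        single i p (x i j * (d p r)⁻¹) * d * single r j 1 := by
      ext k l
      rw [Matrix.mul_apply, Finset.sum_eq_single r]
      · rw [Matrix.mul_apply, Finset.sum_eq_single p]
        · simp only [single_apply]
          by_cases h5 : i = k <;> by_cases h6 : j = l <;> simp [h5, h6, hpr]
        · intro m _ hm
          rw [single_apply_of_col_ne _ _ hm.symm, zero_mul]
        · intro h; exact absurd (Finset.mem_univ _) h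
      · intro m _ hm
        rw [single_apply_of_row_ne hm.symm, mul_zero]
      · intro h; exact absurd (Finset.mem_univ _) h
    rw [h4]
    exact h2 _ _
  apply hS'
  obtain ⟨s, hs⟩ := hS
  rw [Set.eq_univ_iff_forall]
  intro x
  have := h3 (x - s) s hs
  simpa using this

variable [Fintype F]

/-- the set of values of the twisted sum -/
def vals {μ : ℕ} (X : Fin μ → Finset (Matrix (Fin n) (Fin n) F))
    (a b : Fin μ → (Matrix (Fin n) (Fin n) F)ˣ) : Set (Matrix (Fin n) (Fin n) F) :=
  {M | ∃ x : Fin μ → Matrix (Fin n) (Fin n) F, (∀ i, x i ∈ X i) ∧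
        ∑ i, (a i : Matrix (Fin n) (Fin n) F) * x i * (b i : Matrix (Fin n) (Fin n) F) = M}

theorem growth (hn : 1 ≤ n) (μ : ℕ) : ∀ (X : Fin μ → Finset (Matrix (Fin n) (Fin n) F)),
    (∀ i, 2 ≤ (X i).card) → ∃ a b : Fin μ → (Matrix (Fin n) (Fin n) F)ˣ,
      min (Nat.card (Matrix (Fin n) (Fin n) F)) (μ + 1) ≤ (vals X a b).ncard := by
  classical
  induction μ with
  | zero =>
    intro X hX
    refine ⟨fun _ => 1, fun _ => 1, ?_⟩
    have h1 : vals X (fun _ => 1) (fun _ => 1) = {0} := by
      ext M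
      simp only [vals, Set.mem_ofPred_eq, Finset.univ_eq_empty, Finset.sum_empty,
        Set.mem_singleton_iff]
      constructor
      · rintro ⟨_, _, h⟩; exact h.symm
      · rintro rfl; exact ⟨fun _ => 0, fun i => i.elim0, rfl⟩
    rw [h1]
    simp
  | succ μ ih =>
    intro X hX
    obtain ⟨a, b, hab⟩ := ih (fun i => X i.castSucc) (fun i => hX _)
    set S := vals (fun i => X i.castSucc) a b with hSdef
    have hne : ∀ i, (X i).Nonempty := fun i => Finset.card_pos.1 (by have := hX i; omega)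
    have hSne : S.Nonempty :=
      ⟨_, fun i => (hne i.castSucc).choose, fun i => (hne i.castSucc).choose_spec, rfl⟩
    obtain ⟨x, hx, x', hx', hxx⟩ := Finset.one_lt_card.1 (show 1 < (X (Fin.last μ)).card from hX _)
    have hmem : ∀ (a' b' : (Matrix (Fin n) (Fin n) F)ˣ), ∀ s ∈ S, ∀ z ∈ X (Fin.last μ),
        s + (a' : Matrix (Fin n) (Fin n) F) * z * (b' : Matrix (Fin n) (Fin n) F) ∈
          vals X (Fin.snoc a a' : Fin (μ + 1) → (Matrix (Fin n) (Fin n) F)ˣ)
            (Fin.snoc b b' : Fin (μ + 1) → (Matrix (Fin n) (Fin n) F)ˣ) := by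
      intro a' b' s hs z hz
      obtain ⟨w, hw, hws⟩ := hs
      refine ⟨(Fin.snoc w z : Fin (μ + 1) → Matrix (Fin n) (Fin n) F), ?_, ?_⟩
      · intro i
        refine Fin.lastCases ?_ (fun i => ?_) i
        · simpa using hz
        · simpa using hw i
      · rw [Fin.sum_univ_castSucc]
        simp only [Fin.snoc_castSucc, Fin.snoc_last]
        rw [hws]
    by_cases hS' : S = Set.univ
    · refine ⟨Fin.snoc a 1, Fin.snoc b 1, ?_⟩
      refine (min_le_left _ _).trans ?_
      have h1 : vals X (Fin.snoc a 1 : Fin (μ + 1) → (Matrix (Fin n) (Fin n) F)ˣ)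
            (Fin.snoc b 1 : Fin (μ + 1) → (Matrix (Fin n) (Fin n) F)ˣ) = Set.univ := by
        rw [Set.eq_univ_iff_forall]
        intro M
        have := hmem 1 1 (M - x) (by rw [hS']; trivial) x hx
        simpa using this
      rw [h1, Set.ncard_univ]
    · obtain ⟨a', b', s, hs, hs'⟩ := step hn S hSne hS' (x' - x) (sub_ne_zero.2 hxx.symm)
      refine ⟨Fin.snoc a a', Fin.snoc b b', ?_⟩
      have h1 : insert (s + (a' : Matrix (Fin n) (Fin n) F) * (x' - x) *
          (b' : Matrix (Fin n) (Fin n) F)) S ⊆ (fun M => M - (a' : Matrix (Fin n) (Fin n) F) * x *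
          (b' : Matrix (Fin n) (Fin n) F)) '' vals X
            (Fin.snoc a a' : Fin (μ + 1) → (Matrix (Fin n) (Fin n) F)ˣ)
            (Fin.snoc b b' : Fin (μ + 1) → (Matrix (Fin n) (Fin n) F)ˣ) := by
        intro M hM
        rcases Set.mem_insert_iff.1 hM with rfl | hM
        · refine ⟨_, hmem a' b' s hs x' hx', ?_⟩
          simp only [mul_sub, sub_mul]
          abel
        · refine ⟨_, hmem a' b' M hM x hx, ?_⟩
          simp
      have h2 := Set.ncard_le_ncard h1 (Set.toFinite _)
      rw [Set.ncard_insert_of_notMem hs' (Set.toFinite _)] at h2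
      have h3 := h2.trans (Set.ncard_image_le (Set.toFinite _))
      omega

theorem small_case (hn : 1 ≤ n) (μ : ℕ) (X : Fin μ → Finset (Matrix (Fin n) (Fin n) F))
    (hX : ∀ i, 2 ≤ (X i).card) (hμ : Nat.card (Matrix (Fin n) (Fin n) F) ≤ μ + 1) :
    ∃ a b : Fin μ → (Matrix (Fin n) (Fin n) F)ˣ, ∀ M : Matrix (Fin n) (Fin n) F,
      ∃ x : Fin μ → Matrix (Fin n) (Fin n) F, (∀ i, x i ∈ X i) ∧
        ∑ i, (a i : Matrix (Fin n) (Fin n) F) * x i * (b i : Matrix (Fin n) (Fin n) F) = M := by
  classical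
  obtain ⟨a, b, hab⟩ := growth hn μ X hX
  refine ⟨a, b, ?_⟩
  rw [min_eq_left hμ] at hab
  have h1 : vals X a b = Set.univ := by
    apply Set.eq_of_subset_of_ncard_le (Set.subset_univ _) _ (Set.toFinite _)
    rw [Set.ncard_univ]; exact hab
  intro M
  have : M ∈ vals X a b := by rw [h1]; trivial
  exact this

end small

/-- The covering theorem. -/
theorem main.{u} (c : ℝ) (hc : 0 < c) : ∃ μ : ℕ, ∀ (F : Type u) [Field F] [Fintype F] (n : ℕ),
    1 ≤ n → ∀ X : Fin μ → Finset (Matrix (Fin n) (Fin n) F),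
    (∀ i, (Fintype.card F : ℝ) ^ (c * (n : ℝ) ^ 2) ≤ (X i).card) →
    ∃ a b : Fin μ → (Matrix (Fin n) (Fin n) F)ˣ, ∀ M : Matrix (Fin n) (Fin n) F,
      ∃ x : Fin μ → Matrix (Fin n) (Fin n) F, (∀ i, x i ∈ X i) ∧
        ∑ i, (a i : Matrix (Fin n) (Fin n) F) * x i * (b i : Matrix (Fin n) (Fin n) F) = M := by
  classical
  set K : ℕ := ⌈(7 : ℝ) ^ (16 / c)⌉₊ with hK
  refine ⟨max ⌈64 / c⌉₊ (K ^ K), ?_⟩
  intro F _ _ n hn X hX
  have hq2' : 2 ≤ Fintype.card F := Fintype.one_lt_card
  have hq2 : (2 : ℝ) ≤ (Fintype.card F : ℝ) := by exact_mod_cast hq2'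
  by_cases hQ : 7 ≤ ((Fintype.card F : ℝ) ^ n) ^ (c / 16)
  · apply large_case c hc _ _ hn X _ hQ
    · have h1 : (64 / c : ℝ) ≤ (max ⌈64 / c⌉₊ (K ^ K) : ℕ) :=
        (Nat.le_ceil _).trans (by exact_mod_cast le_max_left _ _)
      rw [div_le_iff₀ hc] at h1
      linarith
    · intro i
      refine le_trans (le_of_eq ?_) (hX i)
      rw [← Real.rpow_natCast, ← Real.rpow_mul (by linarith)]
      congr 1
      ring
  · push Not at hQ
    have h1 : ((Fintype.card F ^ n : ℕ) : ℝ) < K := by
      have hpos : (0 : ℝ) < (Fintype.card F : ℝ) ^ n := by positivity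
      have h2 : (Fintype.card F : ℝ) ^ n < (7 : ℝ) ^ (16 / c) := by
        have h3 : ((Fintype.card F : ℝ) ^ n) = (((Fintype.card F : ℝ) ^ n) ^ (c / 16)) ^ (16 / c) := by
          rw [← Real.rpow_mul hpos.le]
          have : c / 16 * (16 / c) = 1 := by field_simp
          rw [this, Real.rpow_one]
        rw [h3]
        exact Real.rpow_lt_rpow (by positivity) hQ (by positivity)
      push_cast
      exact lt_of_lt_of_le h2 (Nat.le_ceil _)
    have h1' : Fintype.card F ^ n < K := by exact_mod_cast h1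
    apply small_case hn _ X
    · intro i
      have h2 : (1 : ℝ) < (X i).card := by
        refine lt_of_lt_of_le ?_ (hX i)
        apply Real.one_lt_rpow (by linarith)
        have : (0 : ℝ) < n := by exact_mod_cast hn
        positivity
      exact_mod_cast h2
    · rw [Nat.card_eq_fintype_card, card_mat, pow_mul]
      have h2 : n ≤ K := by
        have : n < 2 ^ n := Nat.lt_two_pow_self
        have h3 : 2 ^ n ≤ Fintype.card F ^ n := Nat.pow_le_pow_left hq2' n
        omega
      calc (Fintype.card F ^ n) ^ n ≤ K ^ n := Nat.pow_le_pow_left h1'.le n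
        _ ≤ K ^ K := Nat.pow_le_pow_right (by omega) h2
        _ ≤ _ := (le_max_right _ _).trans (Nat.le_succ _)

end Pool.Agent.R699.TwistSum
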