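import Pool.Agent.R699.PartialOvoid

/-!
# Non-commuting sets in the group of `4 × 4` unitriangular matrices over a finite field
-/

namespace Pool.Agent.R699.UnitriNC

open Finset Matrix Pool.Agent.R699.PartialOvoid

/-- the set of upper triangular `n × n` matrices with all diagonal entries equal to `1` -/
def unitri (n : ℕ) (F : Type*) [Field F] : Set (Matrix (Fin n) (Fin n) F) :=
  {A | (∀ i, A i i = 1) ∧ ∀ i j, j < i → A i j = 0}

/-- a non-commuting subset of `UU_n(F)` -/
def IsNonCommuting (n : ℕ) (F : Type*) [Field F] (X : Finset (Matrix (Fin n) (Fin n) F)) : Prop :=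
  (∀ A ∈ X, A ∈ unitri n F) ∧ ∀ A ∈ X, ∀ B ∈ X, A ≠ B → A * B ≠ B * A

/-- the largest size of a non-commuting subset of `UU_n(F)` -/
noncomputable def omega (n : ℕ) (F : Type*) [Field F] : ℕ :=
  sSup {m | ∃ X : Finset (Matrix (Fin n) (Fin n) F), IsNonCommuting n F X ∧ X.card = m}

variable {F : Type*} [Field F]

theorem omega_bdd [Finite F] (n : ℕ) :
    BddAbove {m | ∃ X : Finset (Matrix (Fin n) (Fin n) F), IsNonCommuting n F X ∧ X.card = m} := by
  classical
  have : Fintype (Matrix (Fin n) (Fin n) F) := Fintype.ofFinite _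
  refine ⟨Fintype.card (Matrix (Fin n) (Fin n) F), ?_⟩
  rintro m ⟨X, _, rfl⟩
  exact Finset.card_le_univ X

theorem le_omega [Finite F] {n : ℕ} {X : Finset (Matrix (Fin n) (Fin n) F)}
    (hX : IsNonCommuting n F X) : X.card ≤ omega n F :=
  le_csSup (omega_bdd n) ⟨X, hX, rfl⟩

theorem omega_le {n b : ℕ} (h : ∀ X : Finset (Matrix (Fin n) (Fin n) F),
    IsNonCommuting n F X → X.card ≤ b) : omega n F ≤ b := by
  apply csSup_le
  · exact ⟨0, ∅, ⟨by simp, by simp⟩, rfl⟩
  · rintro m ⟨X, hX, rfl⟩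
    exact h X hX

/-- the unitriangular matrix with given entries -/
def mk (a b c d e f : F) : Matrix (Fin 4) (Fin 4) F :=
  !![1, a, d, f; 0, 1, b, e; 0, 0, 1, c; 0, 0, 0, 1]

theorem mk_mem (a b c d e f : F) : mk a b c d e f ∈ unitri 4 F := by
  constructor
  · intro i
    fin_cases i <;> simp [mk]
  · intro i j hij
    fin_cases i <;> fin_cases j <;> first | (exfalso; revert hij; decide) | simp [mk]

theorem eq_mk {A : Matrix (Fin 4) (Fin 4) F} (hA : A ∈ unitri 4 F) :
    A = mk (A 0 1) (A 1 2) (A 2 3) (A 0 2) (A 1 3) (A 0 3) := by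
  obtain ⟨h1, h2⟩ := hA
  ext i j
  fin_cases i <;> fin_cases j <;>
    first
      | exact h1 _
      | rfl
      | exact h2 _ _ (by decide)

theorem mk_mul (a b c d e f a' b' c' d' e' f' : F) :
    mk a b c d e f * mk a' b' c' d' e' f' =
      mk (a + a') (b + b') (c + c') (d + d' + a * b') (e + e' + b * c')
        (f + f' + a * e' + d * c') := by
  ext i j
  fin_cases i <;> fin_cases j <;> simp [mk, Matrix.mul_apply, Fin.sum_univ_four] <;> ring

theorem commute_iff (a b c d e f a' b' c' d' e' f' : F) :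
    mk a b c d e f * mk a' b' c' d' e' f' = mk a' b' c' d' e' f' * mk a b c d e f ↔
      a * b' = a' * b ∧ b * c' = b' * c ∧ a * e' + d * c' = a' * e + d' * c := by
  rw [mk_mul, mk_mul]
  constructor
  · intro h
    refine ⟨?_, ?_, ?_⟩
    · have : d + d' + a * b' = d' + d + a' * b := congrFun (congrFun h 0) 2
      linear_combination this
    · have : e + e' + b * c' = e' + e + b' * c := congrFun (congrFun h 1) 3
      linear_combination this
    · have : f + f' + a * e' + d * c' = f' + f + a' * e + d' * c := congrFun (congrFun h 0) 3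
      linear_combination this
  · rintro ⟨h1, h2, h3⟩
    have e1 : a + a' = a' + a := add_comm _ _
    have e2 : b + b' = b' + b := add_comm _ _
    have e3 : c + c' = c' + c := add_comm _ _
    have e4 : d + d' + a * b' = d' + d + a' * b := by rw [h1]; ring
    have e5 : e + e' + b * c' = e' + e + b' * c := by rw [h2]; ring
    have e6 : f + f' + a * e' + d * c' = f' + f + a' * e + d' * c := by linear_combination h3
    rw [e1, e2, e3, e4, e5, e6]

theorem comm_iff {A A' : Matrix (Fin 4) (Fin 4) F} (hA : A ∈ unitri 4 F)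
    (hA' : A' ∈ unitri 4 F) : A * A' = A' * A ↔
      A 0 1 * A' 1 2 = A' 0 1 * A 1 2 ∧ A 1 2 * A' 2 3 = A' 1 2 * A 2 3 ∧
      A 0 1 * A' 1 3 + A 0 2 * A' 2 3 = A' 0 1 * A 1 3 + A' 0 2 * A 2 3 := by
  conv_lhs => rw [eq_mk hA, eq_mk hA']
  exact commute_iff _ _ _ _ _ _ _ _ _ _ _ _

variable [Fintype F] [DecidableEq F]

/-- the set of keys -/
def keys (F : Type*) [Field F] [Fintype F] [DecidableEq F] : Finset (F × F × F) :=
  univ.filter fun k => k.1 = 0 → k.2.1 = 0 → k.2.2 = 0

theorem card_keys : (keys F).card + Fintype.card F = Fintype.card F ^ 3 + 1 := by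
  classical
  have h1 := Finset.card_filter_add_card_filter_not (s := (univ : Finset (F × F × F)))
    (fun k => k.1 = 0 → k.2.1 = 0 → k.2.2 = 0)
  have h2 : (univ.filter fun k : F × F × F => ¬ (k.1 = 0 → k.2.1 = 0 → k.2.2 = 0)).card + 1 =
      Fintype.card F := by
    have h3 : (univ.filter fun k : F × F × F => ¬ (k.1 = 0 → k.2.1 = 0 → k.2.2 = 0)) =
        (univ.erase (0 : F)).image (fun v => ((0 : F), (0 : F), v)) := by
      ext ⟨a, b, c⟩
      simp only [mem_filter, mem_univ, true_and, mem_image, mem_erase, and_true, Prod.mk.injEq]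
      constructor
      · intro h
        push Not at h
        exact ⟨c, h.2.2, h.1.symm, h.2.1.symm, rfl⟩
      · rintro ⟨v, hv, rfl, rfl, rfl⟩ h
        exact hv (h rfl rfl)
    rw [h3, Finset.card_image_of_injective, Finset.card_erase_of_mem (Finset.mem_univ _),
      Finset.card_univ]
    · have : 1 ≤ Fintype.card F := Fintype.card_pos
      omega
    · intro v w h
      simpa using h
  rw [Finset.card_univ, Fintype.card_prod, Fintype.card_prod] at h1
  have h4 : (keys F).card = (univ.filter fun k : F × F × F =>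
    (k.1 = 0 → k.2.1 = 0 → k.2.2 = 0)).card := rfl
  have h5 : Fintype.card F ^ 3 = Fintype.card F * (Fintype.card F * Fintype.card F) := by ring
  rw [h4, h5]
  omega

/-- the upper bound for `q` odd -/
theorem upper (hodd : Odd (Fintype.card F)) {X : Finset (Matrix (Fin 4) (Fin 4) F)}
    (hX : IsNonCommuting 4 F X) :
    X.card + Fintype.card F ≤ Fintype.card F ^ 3 + Fintype.card F ^ 2 := by
  classical
  obtain ⟨hU, hNC⟩ := hX
  have hsplit := Finset.card_filter_add_card_filter_not (s := X) (fun A => A 1 2 = 0)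
  -- the part with zero middle entry
  have h2 : (X.filter fun A => A 1 2 = 0).card + 1 ≤ Fintype.card F ^ 2 := by
    set vec : Matrix (Fin 4) (Fin 4) F → (Fin 4 → F) :=
      fun A => ![A 0 1, A 2 3, A 0 2, A 1 3] with hvec
    have hB : ∀ A ∈ X.filter (fun A => A 1 2 = 0), ∀ A' ∈ X.filter (fun A => A 1 2 = 0),
        A ≠ A' → B (vec A) (vec A') ≠ 0 := by
      intro A hA A' hA' hne h
      rw [Finset.mem_filter] at hA hA'
      apply hNC A hA.1 A' hA'.1 hne
      rw [comm_iff (hU A hA.1) (hU A' hA'.1), hA.2, hA'.2]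
      refine ⟨by ring, by ring, ?_⟩
      have h' : A 0 1 * A' 1 3 - A 1 3 * A' 0 1 + A 0 2 * A' 2 3 - A 2 3 * A' 0 2 = 0 := h
      linear_combination h'
    have hinj : Set.InjOn vec (X.filter (fun A => A 1 2 = 0)) := by
      intro A hA A' hA' h
      by_contra hne
      apply hB A hA A' hA' hne
      rw [h]
      exact B_self _
    have := card_le ((X.filter fun A => A 1 2 = 0).image vec) (by
      intro x hx y hy hxy
      obtain ⟨A, hA, rfl⟩ := Finset.mem_image.1 hx
      obtain ⟨A', hA', rfl⟩ := Finset.mem_image.1 hy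
      exact hB A hA A' hA' (fun h => hxy (by rw [h]))) hodd
    rwa [Finset.card_image_of_injOn hinj] at this
  -- the part with nonzero middle entry
  have h1 : (X.filter fun A => ¬ A 1 2 = 0).card ≤ (keys F).card := by
    apply Finset.card_le_card_of_injOn (fun A => (A 0 1 / A 1 2, A 2 3 / A 1 2,
      (A 0 1 * A 1 3 - A 2 3 * A 0 2) / (A 1 2) ^ 2))
    · intro A hA
      rw [Finset.mem_coe, Finset.mem_filter] at hA
      simp only [keys, coe_filter, mem_univ, true_and, Set.mem_ofPred_eq]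
      intro h3 h4
      rw [div_eq_zero_iff, or_iff_left hA.2] at h3 h4
      rw [h3, h4]; simp
    · intro A hA A' hA' h
      rw [Finset.mem_coe, Finset.mem_filter] at hA hA'
      by_contra hne
      apply hNC A hA.1 A' hA'.1 hne
      rw [comm_iff (hU A hA.1) (hU A' hA'.1)]
      simp only [Prod.mk.injEq] at h
      obtain ⟨h3, h4, h5⟩ := h
      have hb := hA.2
      have hb' := hA'.2
      rw [div_eq_div_iff hb hb'] at h3 h4
      rw [div_eq_div_iff (pow_ne_zero 2 hb) (pow_ne_zero 2 hb')] at h5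
      refine ⟨h3, by linear_combination -h4, ?_⟩
      have hbb : A 1 2 * A' 1 2 ≠ 0 := mul_ne_zero hb hb'
      apply mul_left_cancel₀ hbb
      linear_combination (A 1 2 * A' 1 3 + A' 1 2 * A 1 3) * h3 -
        (A 1 2 * A' 0 2 + A' 1 2 * A 0 2) * h4 - h5
  have h3 := card_keys (F := F)
  omega

/-- the representatives with nonzero middle entry -/
def rep (k : F × F × F) : Matrix (Fin 4) (Fin 4) F :=
  if k.1 ≠ 0 then mk k.1 1 k.2.1 0 (k.2.2 / k.1) 0
  else if k.2.1 ≠ 0 then mk 0 1 k.2.1 (-(k.2.2 / k.2.1)) 0 0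
  else mk 0 1 0 0 0 0

omit [Fintype F] in
theorem rep_entries (k : F × F × F) (hk : k.1 = 0 → k.2.1 = 0 → k.2.2 = 0) :
    rep k ∈ unitri 4 F ∧ (rep k) 0 1 = k.1 ∧ (rep k) 1 2 = 1 ∧ (rep k) 2 3 = k.2.1 ∧
      (rep k) 0 1 * (rep k) 1 3 - (rep k) 2 3 * (rep k) 0 2 = k.2.2 := by
  unfold rep
  split_ifs with h1 h2
  · refine ⟨mk_mem _ _ _ _ _ _, rfl, rfl, rfl, ?_⟩
    show k.1 * (k.2.2 / k.1) - k.2.1 * 0 = k.2.2
    field_simp
    ring
  · rw [not_not] at h1
    refine ⟨mk_mem _ _ _ _ _ _, h1.symm, rfl, rfl, ?_⟩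
    show 0 * 0 - k.2.1 * (-(k.2.2 / k.2.1)) = k.2.2
    field_simp
    ring
  · rw [not_not] at h1 h2
    refine ⟨mk_mem _ _ _ _ _ _, h1.symm, rfl, h2.symm, ?_⟩
    show (0 : F) * 0 - 0 * 0 = k.2.2
    rw [hk h1 h2]; ring

/-- the lower bound for `q` even -/
theorem lower (heven : Even (Fintype.card F)) :
    ∃ X : Finset (Matrix (Fin 4) (Fin 4) F), IsNonCommuting 4 F X ∧
      X.card + Fintype.card F = Fintype.card F ^ 3 + Fintype.card F ^ 2 + 1 := by
  classical
  have h2 : (2 : F) = 0 := by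
    have hchar : CharP F 2 := by
      obtain ⟨p, hp⟩ := CharP.exists F
      have hprime : p.Prime := (CharP.char_is_prime_or_zero F p).resolve_right
        (CharP.char_ne_zero_of_finite F p)
      obtain ⟨n, _, hn⟩ := FiniteField.card F p
      rw [hn] at heven
      have h3 : 2 ∣ p := by
        have h4 : 2 ∣ p ^ (n : ℕ) := even_iff_two_dvd.1 heven
        exact Nat.prime_two.dvd_of_dvd_pow h4
      have h5 : p = 2 := ((Nat.prime_dvd_prime_iff_eq Nat.prime_two hprime).1 h3).symm
      rwa [h5] at hp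
    exact_mod_cast CharP.cast_eq_zero F 2
  -- an element outside the image of the Artin-Schreier map
  obtain ⟨l, hl⟩ : ∃ l : F, ∀ t : F, t ^ 2 + t + l ≠ 0 := by
    by_contra hcon
    push Not at hcon
    have hsurj : Function.Surjective (fun t : F => t ^ 2 + t) := by
      intro l
      obtain ⟨t, ht⟩ := hcon l
      refine ⟨t, ?_⟩
      simp only
      linear_combination ht - l * h2
    have hinj := Finite.injective_iff_surjective.2 hsurj
    have h3 : (0 : F) = 1 := hinj (by simp only; linear_combination -h2)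
    exact zero_ne_one h3
  -- the anisotropic form
  have haniso : ∀ u v : F, u ^ 2 + u * v + l * v ^ 2 = 0 → u = 0 ∧ v = 0 := by
    intro u v h
    by_cases hv : v = 0
    · subst hv
      refine ⟨?_, rfl⟩
      have : u ^ 2 = 0 := by linear_combination h
      exact pow_eq_zero_iff (two_ne_zero) |>.1 this
    · exfalso
      apply hl (u / v)
      field_simp
      linear_combination h
  set X1 := (keys F).image rep with hX1
  set pt : F × F → Matrix (Fin 4) (Fin 4) F :=
    fun p => mk 1 0 p.1 p.2 (p.1 ^ 2 + p.1 * p.2 + l * p.2 ^ 2) 0 with hpt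
  set X2 := (univ : Finset (F × F)).image pt with hX2
  have hkey : ∀ k ∈ keys F, rep k ∈ unitri 4 F ∧ (rep k) 0 1 = k.1 ∧ (rep k) 1 2 = 1 ∧
      (rep k) 2 3 = k.2.1 ∧
      (rep k) 0 1 * (rep k) 1 3 - (rep k) 2 3 * (rep k) 0 2 = k.2.2 := by
    intro k hk
    exact rep_entries k (by simpa [keys] using hk)
  have hinj1 : Set.InjOn rep (keys F : Set (F × F × F)) := by
    intro k hk k' hk' h
    obtain ⟨_, a1, _, a3, a4⟩ := hkey k hk
    obtain ⟨_, b1, _, b3, b4⟩ := hkey k' hk'
    rw [h] at a1 a3 a4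
    exact Prod.ext (a1.symm.trans b1) (Prod.ext (a3.symm.trans b3) (a4.symm.trans b4))
  have hinj2 : Function.Injective pt := by
    rintro ⟨c, d⟩ ⟨c', d'⟩ h
    have e1 : c = c' := congrFun (congrFun h 2) 3
    have e2 : d = d' := congrFun (congrFun h 0) 2
    rw [e1, e2]
  have hdisj : Disjoint X1 X2 := by
    rw [Finset.disjoint_left]
    intro A hA hA'
    obtain ⟨k, hk, rfl⟩ := Finset.mem_image.1 hA
    obtain ⟨p, _, hp⟩ := Finset.mem_image.1 hA'
    have e1 := (hkey k hk).2.2.1
    rw [← hp] at e1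
    have e2 : (0 : F) = 1 := e1
    exact zero_ne_one e2
  have hcross : ∀ A ∈ X1, ∀ A' ∈ X2, A * A' ≠ A' * A := by
    intro A hA A' hA' h
    obtain ⟨k, hk, rfl⟩ := Finset.mem_image.1 hA
    obtain ⟨p, _, rfl⟩ := Finset.mem_image.1 hA'
    rw [comm_iff (hkey k hk).1 (mk_mem _ _ _ _ _ _)] at h
    have e1 := h.1
    rw [(hkey k hk).2.2.1] at e1
    have e2 : (rep k) 0 1 * 0 = 1 * 1 := e1
    rw [mul_zero, mul_one] at e2
    exact zero_ne_one e2
  refine ⟨X1 ∪ X2, ⟨?_, ?_⟩, ?_⟩
  · intro A hA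
    rcases Finset.mem_union.1 hA with hA | hA
    · obtain ⟨k, hk, rfl⟩ := Finset.mem_image.1 hA
      exact (hkey k hk).1
    · obtain ⟨p, _, rfl⟩ := Finset.mem_image.1 hA
      exact mk_mem _ _ _ _ _ _
  · intro A hA A' hA' hne h
    rcases Finset.mem_union.1 hA with hA | hA <;> rcases Finset.mem_union.1 hA' with hA' | hA'
    · obtain ⟨k, hk, rfl⟩ := Finset.mem_image.1 hA
      obtain ⟨k', hk', rfl⟩ := Finset.mem_image.1 hA'
      apply hne
      obtain ⟨a0, a1, a2, a3, a4⟩ := hkey k hk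
      obtain ⟨b0, b1, b2, b3, b4⟩ := hkey k' hk'
      rw [comm_iff a0 b0] at h
      obtain ⟨h3, h4, h5⟩ := h
      rw [a2, b2] at h3 h4
      have e1 : k.1 = k'.1 := by rw [← a1, ← b1]; linear_combination h3
      have e2 : k.2.1 = k'.2.1 := by rw [← a3, ← b3]; linear_combination -h4
      have e3 : k.2.2 = k'.2.2 := by
        rw [← a4, ← b4]
        have f1 : (rep k) 0 1 = (rep k') 0 1 := by rw [a1, b1, e1]
        have f2 : (rep k) 2 3 = (rep k') 2 3 := by rw [a3, b3, e2]
        rw [f1, f2] at h5 ⊢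
        linear_combination -h5
      rw [Prod.ext e1 (Prod.ext e2 e3)]
    · exact hcross A hA A' hA' h
    · exact hcross A' hA' A hA h.symm
    · obtain ⟨⟨c, d⟩, _, rfl⟩ := Finset.mem_image.1 hA
      obtain ⟨⟨c', d'⟩, _, rfl⟩ := Finset.mem_image.1 hA'
      apply hne
      have h' := (commute_iff _ _ _ _ _ _ _ _ _ _ _ _).1 h
      obtain ⟨_, _, h5⟩ := h'
      simp only at h5
      obtain ⟨e1, e2⟩ := haniso (c - c') (d - d') (by
        linear_combination -h5 + (c' ^ 2 - c * c' + c' * d' - c * d' + l * d' ^ 2 -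
          l * d * d' + 0) * h2)
      rw [sub_eq_zero.1 e1, sub_eq_zero.1 e2]
  · rw [Finset.card_union_of_disjoint hdisj, Finset.card_image_of_injOn hinj1,
      Finset.card_image_of_injective _ hinj2, Finset.card_univ, Fintype.card_prod]
    have h3 := card_keys (F := F)
    have h4 : Fintype.card F ^ 2 = Fintype.card F * Fintype.card F := by ring
    rw [h4]
    omega

end Pool.Agent.R699.UnitriNC
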