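import Pool.Agent.R699.UnitriNC

/-!
# The non-commuting number of `UU_4(F_q)` is not a polynomial in `q`
-/

namespace Pool.Agent.R699.UnitriNC

open Finset Matrix Pool.Agent.R699.PartialOvoid Polynomial Filter

/-- upper bound for odd `q` -/
theorem omega_upper (F : Type*) [Field F] [Finite F] (hodd : Odd (Nat.card F)) :
    omega 4 F + Nat.card F ≤ Nat.card F ^ 3 + Nat.card F ^ 2 := by
  classical
  have : Fintype F := Fintype.ofFinite F
  rw [Nat.card_eq_fintype_card] at hodd ⊢
  have h1 : omega 4 F ≤ Fintype.card F ^ 3 + Fintype.card F ^ 2 - Fintype.card F := by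
    apply omega_le
    intro X hX
    have := upper hodd hX
    omega
  have h2 : Fintype.card F ≤ Fintype.card F ^ 3 + Fintype.card F ^ 2 := by
    have h3 : 1 ≤ Fintype.card F := Fintype.card_pos
    nlinarith [Nat.zero_le (Fintype.card F ^ 3)]
  omega

/-- lower bound for even `q` -/
theorem omega_lower (F : Type*) [Field F] [Finite F] (heven : Even (Nat.card F)) :
    Nat.card F ^ 3 + Nat.card F ^ 2 + 1 ≤ omega 4 F + Nat.card F := by
  classical
  have : Fintype F := Fintype.ofFinite F
  rw [Nat.card_eq_fintype_card] at heven ⊢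
  obtain ⟨X, hX, hcard⟩ := lower heven
  have := le_omega hX
  omega

/-- a polynomial cannot agree with `omega` for all large `q` -/
theorem not_polynomial (P : ℝ[X]) (q₀ : ℕ) :
    ∃ (F : Type) (_ : Field F) (_ : Finite F), q₀ ≤ Nat.card F ∧
      (omega 4 F : ℝ) ≠ P.eval (Nat.card F : ℝ) := by
  by_contra hcon
  push Not at hcon
  set D : ℝ[X] := P - (X ^ 3 + X ^ 2 - X + 1) with hD
  have hDe : ∀ x : ℝ, D.eval x = P.eval x - (x ^ 3 + x ^ 2 - x + 1) := by
    intro x
    simp [hD]
  have h2 : ∀ k : ℕ, q₀ ≤ k → k ≠ 0 → 0 ≤ D.eval ((2 : ℝ) ^ k) := by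
    intro k hk hk0
    have : Fact (Nat.Prime 2) := ⟨Nat.prime_two⟩
    have hc : Nat.card (GaloisField 2 k) = 2 ^ k := GaloisField.card 2 k hk0
    have h3 := hcon (GaloisField 2 k) inferInstance inferInstance
      (by rw [hc]; exact hk.trans (Nat.lt_two_pow_self).le)
    have h4 := omega_lower (GaloisField 2 k) (by
      rw [hc]
      exact (Nat.even_pow.2 ⟨even_two, hk0⟩))
    have h5 : ((Nat.card (GaloisField 2 k) ^ 3 + Nat.card (GaloisField 2 k) ^ 2 + 1 : ℕ) : ℝ) ≤
      ((omega 4 (GaloisField 2 k) + Nat.card (GaloisField 2 k) : ℕ) : ℝ) := by exact_mod_cast h4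
    push_cast at h5
    rw [h3, hc] at h5
    push_cast at h5
    rw [hDe]
    linarith
  have h3 : ∀ k : ℕ, q₀ ≤ k → k ≠ 0 → D.eval ((3 : ℝ) ^ k) ≤ -1 := by
    intro k hk hk0
    have : Fact (Nat.Prime 3) := ⟨Nat.prime_three⟩
    have hc : Nat.card (GaloisField 3 k) = 3 ^ k := GaloisField.card 3 k hk0
    have h3 := hcon (GaloisField 3 k) inferInstance inferInstance
      (by
        rw [hc]
        exact hk.trans ((Nat.lt_two_pow_self).le.trans (Nat.pow_le_pow_left (by norm_num) k)))
    have h4 := omega_upper (GaloisField 3 k) (by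
      rw [hc]
      exact Odd.pow (by decide))
    have h5 : ((omega 4 (GaloisField 3 k) + Nat.card (GaloisField 3 k) : ℕ) : ℝ) ≤
      ((Nat.card (GaloisField 3 k) ^ 3 + Nat.card (GaloisField 3 k) ^ 2 : ℕ) : ℝ) := by
      exact_mod_cast h4
    push_cast at h5
    rw [h3, hc] at h5
    push_cast at h5
    rw [hDe]
    linarith
  have t2 : Tendsto (fun k : ℕ => (2 : ℝ) ^ k) atTop atTop :=
    tendsto_pow_atTop_atTop_of_one_lt (by norm_num)
  have t3 : Tendsto (fun k : ℕ => (3 : ℝ) ^ k) atTop atTop :=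
    tendsto_pow_atTop_atTop_of_one_lt (by norm_num)
  by_cases hdeg : D.degree ≤ 0
  · rw [Polynomial.eq_C_of_degree_le_zero hdeg] at h2 h3
    have a := h2 (q₀ + 1) (by omega) (by omega)
    have b := h3 (q₀ + 1) (by omega) (by omega)
    rw [eval_C] at a b
    linarith
  · push Not at hdeg
    rcases le_total 0 D.leadingCoeff with hl | hl
    · have t := (Polynomial.tendsto_atTop_of_leadingCoeff_nonneg D hdeg hl).comp t3
      obtain ⟨k, hk⟩ := ((t.eventually_ge_atTop 0).and (eventually_ge_atTop (q₀ + 1))).exists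
      have := h3 k (by omega) (by omega)
      have h4 := hk.1
      simp only [Function.comp_apply] at h4
      linarith
    · have t := (Polynomial.tendsto_atBot_of_leadingCoeff_nonpos D hdeg hl).comp t2
      obtain ⟨k, hk⟩ := ((t.eventually_le_atBot (-1)).and (eventually_ge_atTop (q₀ + 1))).exists
      have := h2 k (by omega) (by omega)
      have h4 := hk.1
      simp only [Function.comp_apply] at h4
      linarith

end Pool.Agent.R699.UnitriNC
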